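import Pool.Agent.Lib.SubQ.Rat

/-!
# SubQ: the Subspace theorem for a subspace and different bases at all places
-/

set_option autoImplicit false

namespace Pool.Agent.SubQ

open Filter Topology

section

variable {s : ℕ} {q : Fin s → ℕ}

theorem sInt_zero : SInt q 0 := ⟨0, 0, by simp⟩

theorem sInt_add {y z : ℚ} (hy : SInt q y) (hz : SInt q z) : SInt q (y + z) := by
  obtain ⟨k, m, h1⟩ := hy
  obtain ⟨k', m', h2⟩ := hz
  refine ⟨k + k', m * ∏ v, (q v : ℤ) ^ k' v + m' * ∏ v, (q v : ℤ) ^ k v, ?_⟩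
  simp only [Pi.add_apply, pow_add, Finset.prod_mul_distrib]
  push_cast
  rw [← h1, ← h2]
  ring

theorem sInt_intMul (m : ℤ) {z : ℚ} (hz : SInt q z) : SInt q (m * z) := by
  obtain ⟨k, m', h2⟩ := hz
  refine ⟨k, m * m', ?_⟩
  push_cast
  rw [← h2]
  ring

theorem sInt_sum {ι : Type} (t : Finset ι) (f : ι → ℚ) (hf : ∀ i, SInt q (f i)) :
    SInt q (∑ i ∈ t, f i) := by
  classical
  induction t using Finset.induction_on with
  | empty => simpa using sInt_zero
  | insert a t ha ih =>
    rw [Finset.sum_insert ha]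
    exact sInt_add (hf a) ih

end

/-- **The Subspace theorem for a subspace of `ℚ^d`**: `φ l` is a generic sequence of linear
functionals with `S`-integral coefficients; at every place `v` a basis `z v` of the same subspace. -/
theorem subSpan (hS : ∀ n, SubTh n) (d n s : ℕ) (q : Fin s → ℕ) (hq : Pls q) (𝒰 : Ultrafilter ℕ)
    (T : ℕ → ℝ) (hT : Tendsto T 𝒰 atTop) (φ : ℕ → Fin d → ℚ) (hφ : ∀ l i, SInt q (φ l i))
    (hgen : ∀ z : Fin d → ℚ, z ≠ 0 → ∀ᶠ l in (𝒰 : Filter ℕ), ∑ i, z i * φ l i ≠ 0)
    (z : Option (Fin s) → Fin n → Fin d → ℚ) (hz : ∀ v, LinearIndependent ℚ (z v))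
    (hsp : ∀ v, Submodule.span ℚ (Set.range (z v)) = Submodule.span ℚ (Set.range (z none)))
    (c : Option (Fin s) → Fin n → ℝ)
    (hc : ∀ v i, Tendsto (fun l => lr q v (∑ j, z v i j * φ l j) / T l) 𝒰 (𝓝 (c v i))) :
    0 ≤ ∑ v, ∑ i, c v i := by
  classical
  obtain ⟨N, hN⟩ := IsLocalization.exist_integer_multiples_of_finite
      (nonZeroDivisors ℤ) (fun ij : Fin n × Fin d => z none ij.1 ij.2)
  choose b hb using hN
  have hN0 : ((N : ℤ) : ℚ) ≠ 0 := by exact_mod_cast nonZeroDivisors.coe_ne_zero N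
  have hbz : ∀ i j, (b (i, j) : ℚ) = N * z none i j := by
    intro i j
    have h1 := hb (i, j)
    rw [zsmul_eq_mul] at h1
    exact h1
  -- the coefficients
  have hM : ∀ v i, ∃ M : Fin n → ℚ, ∀ j, z v i j = ∑ k, M k * b (k, j) := by
    intro v i
    have h1 : z v i ∈ Submodule.span ℚ (Set.range (z none)) := by
      rw [← hsp v]
      exact Submodule.subset_span ⟨i, rfl⟩
    obtain ⟨m, hm⟩ := (Submodule.mem_span_range_iff_exists_fun ℚ).1 h1
    refine ⟨fun k => m k / N, fun j => ?_⟩
    rw [← hm, Finset.sum_apply]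
    refine Finset.sum_congr rfl fun k _ => ?_
    rw [hbz, Pi.smul_apply, smul_eq_mul]
    field_simp
  choose M hM using hM
  refine subRat hS n s q hq 𝒰 T hT (fun l i => ∑ j, b (i, j) * φ l j) ?_ ?_
    (fun v => Matrix.of (M v)) ?_ c ?_
  · intro l i
    exact sInt_sum _ _ fun j => sInt_intMul _ (hφ l j)
  · intro w hw
    have h1 : (fun j => ∑ i, w i * (b (i, j) : ℚ)) ≠ 0 := by
      intro h0
      apply hw
      have h2 : ∑ i, (w i * N) • z none i = 0 := by
        funext j
        rw [Finset.sum_apply, Pi.zero_apply]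
        refine Eq.trans (Finset.sum_congr rfl fun i _ => ?_) (congrFun h0 j)
        rw [hbz, Pi.smul_apply, smul_eq_mul]
        ring
      have h3 := Fintype.linearIndependent_iff.1 (hz none) (fun i => w i * N) h2
      funext i
      exact (mul_eq_zero.1 (h3 i)).resolve_right hN0
    filter_upwards [hgen _ h1] with l hl
    have h2 : ∑ i, w i * ∑ j, (b (i, j) : ℚ) * φ l j
        = ∑ j, (∑ i, w i * (b (i, j) : ℚ)) * φ l j := by
      simp only [Finset.mul_sum, Finset.sum_mul]
      rw [Finset.sum_comm]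
      refine Finset.sum_congr rfl fun j _ => Finset.sum_congr rfl fun i _ => ?_
      ring
    rw [h2]
    exact hl
  · intro v h0
    obtain ⟨w, hw, hw0⟩ := Matrix.exists_vecMul_eq_zero_iff.2 h0
    apply hw
    have h2 : ∑ i, w i • z v i = 0 := by
      funext j
      rw [Finset.sum_apply, Pi.zero_apply]
      have h3 : ∀ i, (w i • z v i) j = ∑ k, (w i * M v i k) * b (k, j) := by
        intro i
        rw [Pi.smul_apply, smul_eq_mul, hM, Finset.mul_sum]
        exact Finset.sum_congr rfl fun k _ => by ring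
      simp only [h3]
      rw [Finset.sum_comm]
      apply Finset.sum_eq_zero
      intro k _
      rw [← Finset.sum_mul]
      have h4 := congrFun hw0 k
      simp only [Matrix.vecMul, dotProduct, Matrix.of_apply, Pi.zero_apply] at h4
      rw [h4, zero_mul]
    funext i
    exact Fintype.linearIndependent_iff.1 (hz v) w h2 i
  · intro v i
    refine (hc v i).congr fun l => ?_
    congr 2
    simp only [hM, Matrix.of_apply, Finset.sum_mul, Finset.mul_sum]
    rw [Finset.sum_comm]
    refine Finset.sum_congr rfl fun j _ => Finset.sum_congr rfl fun k _ => ?_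
    ring

end Pool.Agent.SubQ
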