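import Pool.Agent.Lib.SubQ.SpecF

/-!
# SubQ: the Subspace theorem for vectors with `S`-integral rational coordinates
-/

set_option autoImplicit false

namespace Pool.Agent.SubQ

open Filter Topology

/-- `log |z|_v` for rational `z` -/
noncomputable def lr {s : ℕ} (q : Fin s → ℕ) : Option (Fin s) → ℚ → ℝ
  | none, z => Real.log |(z : ℝ)|
  | some v, z => -((padicValRat (q v) z : ℝ) * Real.log (q v))

/-- `z` is integral outside the primes `q v` -/
def SInt {s : ℕ} (q : Fin s → ℕ) (z : ℚ) : Prop :=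
  ∃ (k : Fin s → ℕ) (m : ℤ), z * ∏ v, (q v : ℚ) ^ k v = m

section

variable {s : ℕ} {q : Fin s → ℕ}

theorem lr_mul (hq : Pls q) (v : Option (Fin s)) {y z : ℚ} (hy : y ≠ 0) (hz : z ≠ 0) :
    lr q v (y * z) = lr q v y + lr q v z := by
  cases v with
  | none =>
    simp only [lr]
    rw [Rat.cast_mul, abs_mul, Real.log_mul]
    · exact abs_ne_zero.2 (by exact_mod_cast hy)
    · exact abs_ne_zero.2 (by exact_mod_cast hz)
  | some v =>
    have : Fact (q v).Prime := ⟨hq.prime v⟩
    simp only [lr]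
    rw [padicValRat.mul hy hz]
    push_cast
    ring

theorem lr_int (v : Option (Fin s)) (z : ℤ) : lr q v (z : ℚ) = lv q v z := by
  cases v with
  | none =>
    simp only [lr, lv]
    rw [Rat.cast_intCast]
  | some v =>
    simp only [lr, lv]
    rw [padicValRat.of_int]
    push_cast
    rfl

theorem lr_sum_le (hq : Pls q) (v : Fin s) {n : ℕ} (b w : Fin n → ℚ) (hne : ∑ k, b k * w k ≠ 0) :
    ∃ k, b k ≠ 0 ∧ w k ≠ 0 ∧
      lr q (some v) (∑ k, b k * w k) ≤ lr q (some v) (b k) + lr q (some v) (w k) := by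
  have hp : Fact (q v).Prime := ⟨hq.prime v⟩
  have hn : (Finset.univ : Finset (Fin n)).Nonempty := by
    rw [Finset.univ_nonempty_iff]
    by_contra hcon
    rw [not_nonempty_iff] at hcon
    apply hne
    simp
  obtain ⟨k, _, hk⟩ := Finset.exists_max_image Finset.univ
    (fun k => padicNorm (q v) (b k * w k)) hn
  have h1 : padicNorm (q v) (∑ k, b k * w k) ≤ padicNorm (q v) (b k * w k) :=
    padicNorm.sum_le hn fun i hi => hk i hi
  have h2 : b k * w k ≠ 0 := by
    intro h0
    rw [h0, padicNorm.zero] at h1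
    exact hne (padicNorm.zero_of_padicNorm_eq_zero (le_antisymm h1 (padicNorm.nonneg _)))
  have hb : b k ≠ 0 := left_ne_zero_of_mul h2
  have hw : w k ≠ 0 := right_ne_zero_of_mul h2
  refine ⟨k, hb, hw, ?_⟩
  rw [← lr_mul hq _ hb hw]
  rw [padicNorm.eq_zpow_of_nonzero hne, padicNorm.eq_zpow_of_nonzero h2,
    zpow_le_zpow_iff_right₀ (by exact_mod_cast hp.out.one_lt)] at h1
  have h3 : (padicValRat (q v) (b k * w k) : ℝ) ≤ padicValRat (q v) (∑ k, b k * w k) := by
    exact_mod_cast neg_le_neg_iff.1 h1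
  have h4 : 0 < Real.log (q v) := Real.log_pos (by exact_mod_cast hp.out.one_lt)
  simp only [lr]
  nlinarith

/-- multiplication by a sufficiently large product of powers of the `q v` -/
theorem sInt_clear (hq : Pls q) {z : ℚ} (hz : SInt q z) (k : Fin s → ℕ)
    (hk : ∀ v, -(padicValRat (q v) z) ≤ k v) : ∃ m : ℤ, z * ∏ v, (q v : ℚ) ^ k v = m := by
  classical
  rcases eq_or_ne z 0 with h0 | h0
  · exact ⟨0, by rw [h0]; simp⟩
  have hq0 : ∀ v, (q v : ℚ) ≠ 0 := fun v => by exact_mod_cast (hq.prime v).ne_zero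
  have hprod : ∀ k : Fin s → ℕ, (∏ v, (q v : ℚ) ^ k v) ≠ 0 := fun k =>
    Finset.prod_ne_zero_iff.2 fun v _ => pow_ne_zero _ (hq0 v)
  -- valuations of the product
  have hval : ∀ (p : ℕ) (hp : p.Prime) (k : Fin s → ℕ),
      padicValRat p (∏ v, (q v : ℚ) ^ k v) = ∑ v, if q v = p then (k v : ℤ) else 0 := by
    intro p hp k
    have : Fact p.Prime := ⟨hp⟩
    have h1 : ∀ t : Finset (Fin s), padicValRat p (∏ v ∈ t, (q v : ℚ) ^ k v)
        = ∑ v ∈ t, if q v = p then (k v : ℤ) else 0 := by
      intro t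
      induction t using Finset.induction_on with
      | empty => simp
      | insert v t hv ih =>
        rw [Finset.prod_insert hv, Finset.sum_insert hv, padicValRat.mul (pow_ne_zero _ (hq0 v))
          (Finset.prod_ne_zero_iff.2 fun v _ => pow_ne_zero _ (hq0 v)), ih,
          padicValRat.pow]
        congr 1
        split_ifs with h
        · subst h
          rw [padicValRat.self hp.one_lt, mul_one]
        · have h3 : padicValRat p ((q v : ℕ) : ℚ) = 0 := by
            rw [padicValRat.of_nat]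
            have : padicValNat p (q v) = 0 :=
              padicValNat.eq_zero_of_not_dvd fun hd =>
                h ((Nat.prime_dvd_prime_iff_eq hp (hq.prime v)).1 hd).symm
            rw [this]
            rfl
          rw [h3, mul_zero]
    exact h1 Finset.univ
  obtain ⟨k₀, m₀, hm₀⟩ := hz
  have hy0 : z * ∏ v, (q v : ℚ) ^ k v ≠ 0 := mul_ne_zero h0 (hprod k)
  have hnonneg : ∀ p : ℕ, p.Prime → 0 ≤ padicValRat p (z * ∏ v, (q v : ℚ) ^ k v) := by
    intro p hp
    have : Fact p.Prime := ⟨hp⟩
    rw [padicValRat.mul h0 (hprod k), hval p hp]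
    by_cases hex : ∃ v, q v = p
    · obtain ⟨v, hv⟩ := hex
      rw [Finset.sum_eq_single v]
      · rw [if_pos hv, ← hv]
        linarith [hk v]
      · intro w _ hw
        rw [if_neg]
        intro h
        exact hw (hq.inj (h.trans hv.symm))
      · intro h
        exact absurd (Finset.mem_univ _) h
    · push Not at hex
      have h1 := congrArg (padicValRat p) hm₀
      rw [padicValRat.mul h0 (hprod k₀), hval p hp, Finset.sum_eq_zero, add_zero] at h1
      · rw [Finset.sum_eq_zero, add_zero, h1, padicValRat.of_int]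
        · exact Int.natCast_nonneg _
        · intro v _
          rw [if_neg (hex v)]
      · intro v _
        rw [if_neg (hex v)]
  set y := z * ∏ v, (q v : ℚ) ^ k v with hy
  refine ⟨y.num, ?_⟩
  have hden : y.den = 1 := by
    by_contra hne
    obtain ⟨p, hp, hpd⟩ := Nat.exists_prime_and_dvd hne
    have : Fact p.Prime := ⟨hp⟩
    have h1 := hnonneg p hp
    rw [padicValRat_def] at h1
    have h2 : padicValInt p y.num = 0 := by
      apply padicValInt.eq_zero_of_not_dvd
      intro hd
      have h3 := y.reduced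
      have h4 : p ∣ Nat.gcd y.num.natAbs y.den :=
        Nat.dvd_gcd (Int.natCast_dvd.1 hd) hpd
      rw [h3] at h4
      exact hp.one_lt.ne' (Nat.dvd_one.1 h4)
    have h3 : 1 ≤ padicValNat p y.den := one_le_padicValNat_of_dvd y.den_ne_zero hpd
    rw [h2] at h1
    omega
  conv_lhs => rw [← Rat.num_div_den y, hden]
  simp

end

/-- **The Subspace theorem for `S`-integral vectors**, rational frames, real scales. -/
theorem subRat (hS : ∀ n, SubTh n) (n s : ℕ) (q : Fin s → ℕ) (hq : Pls q) (𝒰 : Ultrafilter ℕ)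
    (T : ℕ → ℝ) (hT : Tendsto T 𝒰 atTop) (φ : ℕ → Fin n → ℚ) (hφ : ∀ l i, SInt q (φ l i))
    (hgen : ∀ z : Fin n → ℚ, z ≠ 0 → ∀ᶠ l in (𝒰 : Filter ℕ), ∑ i, z i * φ l i ≠ 0)
    (M : Option (Fin s) → Matrix (Fin n) (Fin n) ℚ) (hM : ∀ v, (M v).det ≠ 0)
    (c : Option (Fin s) → Fin n → ℝ)
    (hc : ∀ v i, Tendsto (fun l => lr q v (∑ k, M v i k * φ l k) / T l) 𝒰 (𝓝 (c v i))) :
    0 ≤ ∑ v, ∑ i, c v i := by
  classical
  have hlogq : ∀ v, 0 < Real.log (q v) := fun v =>
    Real.log_pos (by exact_mod_cast (hq.prime v).one_lt)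
  have hT1 : ∀ᶠ l in (𝒰 : Filter ℕ), (1 : ℝ) ≤ T l := hT.eventually_ge_atTop 1
  -- bound for the exponents
  obtain ⟨B, hB0, hB⟩ : ∃ B : ℝ, 0 ≤ B ∧ ∀ᶠ l in (𝒰 : Filter ℕ), ∀ (v : Fin s) (i : Fin n),
      -(padicValRat (q v) (φ l i) : ℝ) * Real.log (q v) ≤ B * T l := by
    obtain ⟨B, hB⟩ : ∃ B : ℝ, B = ∑ v, ∑ i, (|c v i| + 1)
        + ∑ v, ∑ i, ∑ k, |lr q v ((M v)⁻¹ i k)| := ⟨_, rfl⟩
    have hB0 : 0 ≤ B := by
      rw [hB]
      positivity
    refine ⟨B, hB0, ?_⟩
    have h1 : ∀ᶠ l in (𝒰 : Filter ℕ), ∀ v i,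
        lr q v (∑ k, M v i k * φ l k) / T l ≤ c v i + 1 := by
      rw [eventually_all]
      intro v
      rw [eventually_all]
      intro i
      exact (hc v i).eventually_le_const (by linarith)
    filter_upwards [h1, hT1] with l hl hTl
    intro v i
    have hT0 : (0 : ℝ) < T l := by linarith
    rcases eq_or_ne (φ l i) 0 with h0 | h0
    · rw [h0, padicValRat.zero]
      simp only [Int.cast_zero, neg_zero, zero_mul]
      positivity
    have h2 : φ l i = ∑ k, (M (some v))⁻¹ i k * (∑ j, M (some v) k j * φ l j) := by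
      have h3 : ((M (some v))⁻¹ * M (some v)).mulVec (φ l) i = φ l i := by
        rw [Matrix.nonsing_inv_mul _ (isUnit_iff_ne_zero.2 (hM (some v))), Matrix.one_mulVec]
      rw [← Matrix.mulVec_mulVec] at h3
      rw [← h3]
      rfl
    have h3 : ∑ k, (M (some v))⁻¹ i k * (∑ j, M (some v) k j * φ l j) ≠ 0 := by
      rw [← h2]
      exact h0
    obtain ⟨k, hk1, hk2, hk⟩ := lr_sum_le hq v _ _ h3
    rw [← h2] at hk
    have h4 : lr q (some v) (φ l i) = -(padicValRat (q v) (φ l i) : ℝ) * Real.log (q v) := by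
      simp only [lr]
      ring
    rw [← h4]
    have h5 := hl (some v) k
    rw [div_le_iff₀ hT0] at h5
    have h6 : |lr q (some v) ((M (some v))⁻¹ i k)|
        ≤ ∑ v, ∑ i, ∑ k, |lr q v ((M v)⁻¹ i k)| := by
      have e1 := Finset.single_le_sum (f := fun k => |lr q (some v) ((M (some v))⁻¹ i k)|)
        (fun _ _ => abs_nonneg _) (Finset.mem_univ k)
      have e2 := Finset.single_le_sum
        (f := fun i => ∑ k, |lr q (some v) ((M (some v))⁻¹ i k)|)
        (fun _ _ => Finset.sum_nonneg fun _ _ => abs_nonneg _) (Finset.mem_univ i)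
      have e3 := Finset.single_le_sum
        (f := fun v => ∑ i, ∑ k, |lr q v ((M v)⁻¹ i k)|)
        (fun _ _ => Finset.sum_nonneg fun _ _ => Finset.sum_nonneg fun _ _ => abs_nonneg _)
        (Finset.mem_univ (some v))
      exact e1.trans (e2.trans e3)
    have h7 : c (some v) k + 1 ≤ ∑ v, ∑ i, (|c v i| + 1) := by
      have e1 := Finset.single_le_sum (f := fun k => |c (some v) k| + 1)
        (fun _ _ => by positivity) (Finset.mem_univ k)
      have e2 := Finset.single_le_sum (f := fun v => ∑ k, (|c v k| + 1))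
        (fun _ _ => Finset.sum_nonneg fun _ _ => by positivity) (Finset.mem_univ (some v))
      have e3 := le_abs_self (c (some v) k)
      linarith
    have h8 := le_abs_self (lr q (some v) ((M (some v))⁻¹ i k))
    have h9 : (0 : ℝ) ≤ ∑ v, ∑ i, ∑ k, |lr q v ((M v)⁻¹ i k)| := by positivity
    have h10 : (c (some v) k + 1) * T l ≤ (∑ v, ∑ i, (|c v i| + 1)) * T l :=
      mul_le_mul_of_nonneg_right h7 hT0.le
    have h11 : ∑ v, ∑ i, ∑ k, |lr q v ((M v)⁻¹ i k)|
        ≤ (∑ v, ∑ i, ∑ k, |lr q v ((M v)⁻¹ i k)|) * T l := le_mul_of_one_le_right h9 hTl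
    rw [hB, add_mul]
    linarith
  -- the scales and the multipliers
  obtain ⟨T', hT'⟩ : ∃ T' : ℕ → ℕ, ∀ l, T' l = ⌈T l⌉₊ := ⟨_, fun l => rfl⟩
  obtain ⟨k, hk⟩ : ∃ k : ℕ → Fin s → ℕ, ∀ l v, k l v = ⌈B * T l / Real.log (q v)⌉₊ :=
    ⟨_, fun l v => rfl⟩
  have hT'1 : Tendsto T' 𝒰 atTop := by
    have : T' = fun l => ⌈T l⌉₊ := funext hT'
    rw [this]
    exact tendsto_nat_ceil_atTop.comp hT
  have hT'real : Tendsto (fun l => (T' l : ℝ)) 𝒰 atTop :=
    tendsto_natCast_atTop_atTop.comp hT'1
  have hratio : Tendsto (fun l => T l / (T' l : ℝ)) 𝒰 (𝓝 1) := by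
    have h1 : Tendsto (fun l => 1 - 1 / (T' l : ℝ)) 𝒰 (𝓝 (1 - 0)) :=
      tendsto_const_nhds.sub (Tendsto.div_atTop tendsto_const_nhds hT'real)
    rw [sub_zero] at h1
    refine tendsto_of_tendsto_of_tendsto_of_le_of_le' h1 tendsto_const_nhds ?_ ?_
    · filter_upwards [hT1] with l hl
      have h2 : (0 : ℝ) < T' l := by
        rw [hT']
        exact_mod_cast Nat.ceil_pos.2 (by linarith)
      have h3 : (T' l : ℝ) ≤ T l + 1 := by
        rw [hT']
        exact (Nat.ceil_lt_add_one (by linarith)).le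
      rw [le_div_iff₀ h2, sub_mul, div_mul_cancel₀ _ h2.ne']
      linarith
    · filter_upwards [hT1] with l hl
      have h2 : (0 : ℝ) < T' l := by
        rw [hT']
        exact_mod_cast Nat.ceil_pos.2 (by linarith)
      rw [div_le_one h2, hT']
      exact Nat.le_ceil _
  have hklim : ∀ v, Tendsto (fun l => (k l v : ℝ) * Real.log (q v) / (T' l : ℝ)) 𝒰 (𝓝 B) := by
    intro v
    have h0 := hlogq v
    have h1 : Tendsto (fun l => B * (T l / (T' l : ℝ))) 𝒰 (𝓝 (B * 1)) := hratio.const_mul B
    have h2 : Tendsto (fun l => B * (T l / (T' l : ℝ)) + Real.log (q v) / (T' l : ℝ)) 𝒰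
        (𝓝 (B * 1 + 0)) := h1.add (Tendsto.div_atTop tendsto_const_nhds hT'real)
    rw [mul_one] at h1
    rw [mul_one, add_zero] at h2
    refine tendsto_of_tendsto_of_tendsto_of_le_of_le' h1 h2 ?_ ?_
    · filter_upwards [hT1] with l hl
      have h3 : (0 : ℝ) < T' l := by
        rw [hT']
        exact_mod_cast Nat.ceil_pos.2 (by linarith)
      rw [← mul_div_assoc]
      refine div_le_div_of_nonneg_right ?_ h3.le
      rw [← div_le_iff₀ h0, hk]
      exact Nat.le_ceil _
    · filter_upwards [hT1] with l hl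
      have h3 : (0 : ℝ) < T' l := by
        rw [hT']
        exact_mod_cast Nat.ceil_pos.2 (by linarith)
      rw [← mul_div_assoc, ← add_div]
      refine div_le_div_of_nonneg_right ?_ h3.le
      have h4 : (k l v : ℝ) ≤ B * T l / Real.log (q v) + 1 := by
        rw [hk]
        refine (Nat.ceil_lt_add_one ?_).le
        positivity
      calc (k l v : ℝ) * Real.log (q v)
          ≤ (B * T l / Real.log (q v) + 1) * Real.log (q v) :=
            mul_le_mul_of_nonneg_right h4 h0.le
        _ = B * T l + Real.log (q v) := by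
            rw [add_mul, div_mul_cancel₀ _ h0.ne', one_mul]
  -- the integer vectors
  have hq0 : ∀ v, (q v : ℚ) ≠ 0 := fun v => by exact_mod_cast (hq.prime v).ne_zero
  obtain ⟨δ, hδ⟩ : ∃ δ : ℕ → ℚ, ∀ l, δ l = ∏ v, (q v : ℚ) ^ k l v := ⟨_, fun l => rfl⟩
  have hδ0 : ∀ l, δ l ≠ 0 := fun l => by
    rw [hδ]
    exact Finset.prod_ne_zero_iff.2 fun v _ => pow_ne_zero _ (hq0 v)
  have hxex : ∀ l, ∃ x : Fin n → ℤ,
      (∀ (v : Fin s) (i : Fin n),
        -(padicValRat (q v) (φ l i) : ℝ) * Real.log (q v) ≤ B * T l) →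
      ∀ i, φ l i * δ l = x i := by
    intro l
    by_cases hl : ∀ (v : Fin s) (i : Fin n),
        -(padicValRat (q v) (φ l i) : ℝ) * Real.log (q v) ≤ B * T l
    · have h1 : ∀ i, ∃ m : ℤ, φ l i * δ l = m := by
        intro i
        rw [hδ]
        refine sInt_clear hq (hφ l i) (k l) fun v => ?_
        have h2 : (-(padicValRat (q v) (φ l i)) : ℝ) ≤ (k l v : ℝ) := by
          rw [hk]
          refine le_trans ?_ (Nat.le_ceil _)
          rw [le_div_iff₀ (hlogq v)]
          exact hl v i
        exact_mod_cast h2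
      choose x hx using h1
      exact ⟨x, fun _ => hx⟩
    · exact ⟨0, fun h => absurd h hl⟩
  choose x hx using hxex
  -- the integer frames
  have hNex : ∀ v, ∃ (N : ℤ) (M' : Matrix (Fin n) (Fin n) ℤ), N ≠ 0 ∧
      ∀ i j, (M' i j : ℚ) = N * M v i j := by
    intro v
    obtain ⟨b, hb⟩ := IsLocalization.exist_integer_multiples_of_finite
      (nonZeroDivisors ℤ) (fun ij : Fin n × Fin n => M v ij.1 ij.2)
    choose Mi hMi using hb
    refine ⟨b, Matrix.of fun i j => Mi (i, j), nonZeroDivisors.coe_ne_zero b, ?_⟩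
    intro i j
    have h1 := hMi (i, j)
    simp only [Matrix.of_apply]
    rw [zsmul_eq_mul] at h1
    exact h1
  choose N M' hN hM' using hNex
  have hM'det : ∀ v, (M' v).det ≠ 0 := by
    intro v h0
    have h1 : (M' v).map (Int.castRingHom ℚ) = (N v : ℚ) • M v := by
      ext i j
      rw [Matrix.map_apply, Matrix.smul_apply, smul_eq_mul, eq_intCast, hM']
    have h2 := (Int.castRingHom ℚ).map_det (M' v)
    rw [h0, map_zero] at h2
    have h3 : ((M' v).map (Int.castRingHom ℚ)).det = 0 := h2.symm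
    rw [h1, Matrix.det_smul] at h3
    have h4 : (N v : ℚ) ≠ 0 := by exact_mod_cast hN v
    exact mul_ne_zero (pow_ne_zero _ h4) (hM v) h3
  -- evaluation
  have hval : ∀ v i, ∀ᶠ l in (𝒰 : Filter ℕ),
      lv q v (∑ j, M' v i j * x l j) = lr q v (N v) + lr q v (δ l)
        + lr q v (∑ j, M v i j * φ l j) := by
    intro v i
    have hrow : M v i ≠ 0 := by
      intro h0
      exact hM v (Matrix.det_eq_zero_of_row_eq_zero i fun j => congrFun h0 j)
    filter_upwards [hB, hgen (M v i) hrow] with l hl hne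
    have h1 : ((∑ j, M' v i j * x l j : ℤ) : ℚ)
        = (N v : ℚ) * (δ l * ∑ j, M v i j * φ l j) := by
      push_cast
      rw [Finset.mul_sum, Finset.mul_sum]
      refine Finset.sum_congr rfl fun j _ => ?_
      rw [hM', ← hx l hl j]
      ring
    rw [← lr_int, h1, lr_mul hq v (by exact_mod_cast hN v) (mul_ne_zero (hδ0 l) hne),
      lr_mul hq v (hδ0 l) hne]
    ring
  have hδlr : ∀ l v, lr q v (δ l) =
      Option.elim v (∑ v, (k l v : ℝ) * Real.log (q v))
        (fun v => -((k l v : ℝ) * Real.log (q v))) := by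
    intro l v
    cases v with
    | none =>
      simp only [lr, Option.elim_none]
      rw [hδ]
      push_cast
      rw [abs_of_pos (Finset.prod_pos fun v _ => pow_pos (by
        exact_mod_cast (hq.prime v).pos) _), Real.log_prod (fun v _ => pow_ne_zero _ (by
        exact_mod_cast (hq.prime v).ne_zero))]
      simp only [Real.log_pow]
    | some v =>
      have hp : Fact (q v).Prime := ⟨hq.prime v⟩
      simp only [lr, Option.elim_some]
      rw [hδ]
      have h1 : ∀ t : Finset (Fin s), padicValRat (q v) (∏ w ∈ t, (q w : ℚ) ^ k l w)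
          = ∑ w ∈ t, if w = v then (k l w : ℤ) else 0 := by
        intro t
        induction t using Finset.induction_on with
        | empty => simp
        | insert w t hw ih =>
          rw [Finset.prod_insert hw, Finset.sum_insert hw,
            padicValRat.mul (pow_ne_zero _ (hq0 w))
            (Finset.prod_ne_zero_iff.2 fun w _ => pow_ne_zero _ (hq0 w)), ih,
            padicValRat.pow]
          congr 1
          split_ifs with h
          · subst h
            rw [padicValRat.self hp.out.one_lt, mul_one]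
          · have h3 : padicValRat (q v) ((q w : ℕ) : ℚ) = 0 := by
              rw [padicValRat.of_nat]
              have : padicValNat (q v) (q w) = 0 :=
                padicValNat.eq_zero_of_not_dvd fun hd =>
                  h (hq.inj ((Nat.prime_dvd_prime_iff_eq hp.out (hq.prime w)).1 hd)).symm
              rw [this]
              rfl
            rw [h3, mul_zero]
      rw [h1, Finset.sum_ite_eq' Finset.univ v]
      simp
  obtain ⟨κ, hκ0, hκ1⟩ : ∃ κ : Option (Fin s) → ℝ, κ none = s * B ∧ ∀ v, κ (some v) = -B :=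
    ⟨fun v => Option.elim v (s * B) (fun _ => -B), rfl, fun v => rfl⟩
  obtain ⟨c', hc'⟩ : ∃ c' : Option (Fin s) → Fin n → ℝ, ∀ v i, c' v i = c v i + κ v :=
    ⟨_, fun v i => rfl⟩
  have hExps : Exps q 𝒰 T' x M' c' := by
    refine ⟨hq, hT'1, ?_, hM'det, ?_⟩
    · intro z hz
      have hz' : (fun i => (z i : ℚ)) ≠ 0 := by
        intro h0
        apply hz
        funext i
        have := congrFun h0 i
        simp only [Pi.zero_apply] at this
        exact_mod_cast this
      filter_upwards [hB, hgen _ hz'] with l hl hne h0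
      apply hne
      have h1 : ((∑ i, z i * x l i : ℤ) : ℚ) = δ l * ∑ i, (z i : ℚ) * φ l i := by
        push_cast
        rw [Finset.mul_sum]
        refine Finset.sum_congr rfl fun j _ => ?_
        rw [← hx l hl j]
        ring
      rw [h0, Int.cast_zero] at h1
      exact (mul_eq_zero.1 h1.symm).resolve_left (hδ0 l)
    · intro v i
      have h1 : Tendsto (fun l => lr q v (∑ j, M v i j * φ l j) / (T' l : ℝ)) 𝒰
          (𝓝 (c v i)) := by
        have h2 := (hc v i).mul hratio
        rw [mul_one] at h2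
        refine h2.congr' ?_
        filter_upwards [hT1] with l hl
        have hT0 : T l ≠ 0 := by
          have : (0 : ℝ) < T l := by linarith
          exact this.ne'
        rw [div_mul_div_comm, mul_comm (T l), mul_div_mul_right _ _ hT0]
      have h3 : Tendsto (fun l => lr q v (N v) / (T' l : ℝ)) 𝒰 (𝓝 0) :=
        Tendsto.div_atTop tendsto_const_nhds hT'real
      have h4 : Tendsto (fun l => lr q v (δ l) / (T' l : ℝ)) 𝒰 (𝓝 (κ v)) := by
        cases v with
        | none =>
          simp only [hδlr, Option.elim_none, Finset.sum_div, hκ0]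
          have h5 : Tendsto (fun l => ∑ v, (k l v : ℝ) * Real.log (q v) / (T' l : ℝ)) 𝒰
              (𝓝 (∑ _v : Fin s, B)) := tendsto_finsetSum _ fun v _ => hklim v
          rw [Finset.sum_const, Finset.card_univ, Fintype.card_fin, nsmul_eq_mul] at h5
          exact h5
        | some v =>
          simp only [hδlr, Option.elim_some, neg_div, hκ1]
          exact (hklim v).neg
      have h5 := (h3.add h4).add h1
      rw [zero_add] at h5
      rw [hc', add_comm (c v i)]
      refine h5.congr' ?_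
      filter_upwards [hval v i] with l hl
      rw [hl, add_div, add_div]
  have hfin := hS n s q 𝒰 T' x M' c' hExps
  have hsum : ∑ v, ∑ i, c' v i = ∑ v, ∑ i, c v i := by
    rw [Fintype.sum_option, Fintype.sum_option]
    simp only [hc', hκ0, hκ1, Finset.sum_add_distrib, Finset.sum_const, Finset.card_univ,
      Fintype.card_fin, nsmul_eq_mul]
    ring
  rw [← hsum]
  exact hfin

end Pool.Agent.SubQ
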