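import Pool.Agent.Lib.SubQ.Final

/-!
# SubQ: the Subspace theorem with upper bounds instead of limits
-/

set_option autoImplicit false

namespace Pool.Agent.SubQ

open Filter Topology

/-- **The Subspace theorem over `ℚ`**, with upper bounds for the forms. -/
theorem subUp (n s : ℕ) (q : Fin s → ℕ) (hq : Pls q) (𝒰 : Ultrafilter ℕ) (T : ℕ → ℕ)
    (x : ℕ → Fin n → ℤ) (M : Option (Fin s) → Matrix (Fin n) (Fin n) ℤ)
    (c : Option (Fin s) → Fin n → ℝ) (B : ℝ) (hT : Tendsto T 𝒰 atTop) (hgen : Gen 𝒰 x)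
    (hM : ∀ v, (M v).det ≠ 0)
    (hB : ∀ i, ∀ᶠ l in (𝒰 : Filter ℕ), |(x l i : ℝ)| ≤ Real.exp (B * T l))
    (hc : ∀ v i, ∀ ε : ℝ, 0 < ε → ∀ᶠ l in (𝒰 : Filter ℕ),
      lv q v (∑ k, M v i k * x l k) ≤ (c v i + ε) * T l) :
    0 ≤ ∑ v, ∑ i, c v i := by
  have hTreal : Tendsto (fun l => (T l : ℝ)) 𝒰 atTop :=
    tendsto_natCast_atTop_atTop.comp hT
  have hT1 : ∀ᶠ l in (𝒰 : Filter ℕ), (1 : ℝ) ≤ T l := hTreal.eventually_ge_atTop 1
  have hne : ∀ v i, ∀ᶠ l in (𝒰 : Filter ℕ), ∑ k, M v i k * x l k ≠ 0 := by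
    intro v i
    apply hgen
    intro h0
    exact hM v (Matrix.det_eq_zero_of_row_eq_zero i fun j => congrFun h0 j)
  have hlim : ∀ v i, ∃ a, Tendsto (fun l => lv q v (∑ k, M v i k * x l k) / (T l : ℝ)) 𝒰
      (𝓝 a) := by
    intro v i
    obtain ⟨C, hC⟩ : ∃ C : ℝ, C = 1 + ∑ k, |(M v i k : ℝ)| := ⟨_, rfl⟩
    have hC1 : 1 ≤ C := by
      rw [hC]
      have : 0 ≤ ∑ k, |(M v i k : ℝ)| := Finset.sum_nonneg fun _ _ => abs_nonneg _
      linarith
    refine limEx.1 𝒰 _ (Real.log C + |B|) ?_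
    have hB' : ∀ᶠ l in (𝒰 : Filter ℕ), ∀ i, |(x l i : ℝ)| ≤ Real.exp (B * T l) :=
      eventually_all.2 hB
    filter_upwards [hB', hT1, hne v i] with l hl hTl hz
    have hT0 : (0 : ℝ) < T l := by linarith
    have h1 : |((∑ k, M v i k * x l k : ℤ) : ℝ)| ≤ C * Real.exp (B * T l) := by
      push_cast
      calc |∑ k, (M v i k : ℝ) * (x l k : ℝ)| ≤ ∑ k, |(M v i k : ℝ) * (x l k : ℝ)| :=
            Finset.abs_sum_le_sum_abs _ _
        _ ≤ ∑ k, |(M v i k : ℝ)| * Real.exp (B * T l) := by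
            refine Finset.sum_le_sum fun k _ => ?_
            rw [abs_mul]
            exact mul_le_mul_of_nonneg_left (hl k) (abs_nonneg _)
        _ = (∑ k, |(M v i k : ℝ)|) * Real.exp (B * T l) := by rw [Finset.sum_mul]
        _ ≤ C * Real.exp (B * T l) := by
            refine mul_le_mul_of_nonneg_right ?_ (Real.exp_pos _).le
            rw [hC]
            linarith
    have h2 : 0 < |((∑ k, M v i k * x l k : ℤ) : ℝ)| := abs_pos.2 (by exact_mod_cast hz)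
    have h3 := Real.log_le_log h2 h1
    rw [Real.log_mul (by linarith) (Real.exp_pos _).ne', Real.log_exp] at h3
    have h4 := (lvBasic s q hq).1 v _ hz
    rw [abs_div, abs_of_pos hT0, div_le_iff₀ hT0]
    have h5 : 0 ≤ Real.log C := Real.log_nonneg hC1
    have h6 : B * T l ≤ |B| * T l := mul_le_mul_of_nonneg_right (le_abs_self B) hT0.le
    nlinarith
  choose c' hc' using hlim
  have h1 : 0 ≤ ∑ v, ∑ i, c' v i := subTh n s q 𝒰 T x M c' ⟨hq, hT, hgen, hM, hc'⟩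
  refine h1.trans (Finset.sum_le_sum fun v _ => Finset.sum_le_sum fun i _ => ?_)
  apply le_of_forall_pos_le_add
  intro ε hε
  refine le_of_tendsto (hc' v i) ?_
  filter_upwards [hc v i ε hε, hT1] with l hl hTl
  have hT0 : (0 : ℝ) < T l := by linarith
  rw [div_le_iff₀ hT0]
  exact hl

end Pool.Agent.SubQ
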