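import Pool.Agent.Lib.SubQ.SpecF

/-!
# SubQ: assembly
-/

set_option autoImplicit false

namespace Pool.Agent.SubQ

theorem redEx (h : RedStep) : RedEx := by
  intro n
  induction n with
  | zero =>
    intro Y _
    refine ⟨1, 1, 1, 1, fun _ => 1, ?_⟩
    constructor
    · simp
    all_goals intro i; exact i.elim0
  | succ n ih =>
    intro Y hY
    exact h n Y hY ih

theorem subAll (h : Step) (n : ℕ) : SubTh n := by
  induction n using Nat.strong_induction_on with
  | _ n ih => exact h n ih

end Pool.Agent.SubQ
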