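import Pool.Agent.Lib.MP_cc0c1a_nt.Sub.SpecM
import Pool.Agent.Lib.MP_6a062b_co.CauchyBinet

/-!
# SubQ: the Subspace theorem over `ℚ` for rational forms, finitely many primes, all dimensions (helper35)

Definitions.  Places: `Option (Fin s)`; `none` is the real place, `some v` is the prime `q v`.  Frames: integer
matrices `M v` with nonzero determinant, one for every place.  `ι`: the index type of the coordinates
(`Fin n`, or the `p`-element subsets of `Fin n`).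
-/

set_option autoImplicit false

namespace Pool.Agent.SubQ

open MvPolynomial Filter Topology

/-! ## Multihomogeneous polynomials in `m` blocks -/
section Blocks

variable {m : ℕ}

/-- Exponent arrays `j` with `∑ i, j h i = r h` for every block `h`. -/
noncomputable def JJ (ι : Type) [Fintype ι] [DecidableEq ι] (r : Fin m → ℕ) :
    Finset (Fin m → ι → ℕ) :=
  Fintype.piFinset fun h => Finset.piAntidiag (Finset.univ : Finset ι) (r h)

variable {ι κ : Type} [Fintype ι] [DecidableEq ι] [Fintype κ]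

/-- The value at `v` of the multihomogeneous polynomial with coefficients `p`. -/
noncomputable def val {A : Type} [CommRing A] (r : Fin m → ℕ) (p : (Fin m → ι → ℕ) → ℤ)
    (v : Fin m → ι → A) : A :=
  ∑ j ∈ JJ ι r, (p j : A) * ∏ h, ∏ i, v h i ^ j h i

/-- Balanced exponent arrays: all averages are close to `1 / card ι`. -/
def Balanced (ε : ℝ) (r : Fin m → ℕ) (j : Fin m → ι → ℕ) : Prop :=
  ∀ i : ι, |∑ h, (j h i : ℝ) / r h - m / Fintype.card ι| ≤ ε * m

/-- An integral matrix applied to a vector over a commutative ring. -/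
def app {A : Type} [CommRing A] (M : Matrix ι ι ℤ) (v : ι → A) : ι → A :=
  fun i => ∑ k, (M i k : A) * v k

/-- The generic vector `∑ j, X (h, j) x_{h j} + X (h, none) e_{dir h}`. -/
noncomputable def gv (x : Fin m → κ → ι → ℤ) (dir : Fin m → ι) (h : Fin m) (i : ι) :
    MvPolynomial (Fin m × Option κ) ℤ :=
  (∑ j, C (x h j i) * X (h, some j)) + (if i = dir h then X (h, none) else 0)

/-- Weight `∑_h a(h, none) / r_h` of a monomial. -/
noncomputable def swt (r : Fin m → ℕ) (a : Fin m × Option κ →₀ ℕ) : ℝ :=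
  ∑ h, (a (h, none) : ℝ) / r h

/-- primitive integer vectors -/
def Prim (u : ι → ℤ) : Prop := ∀ g : ℤ, (∀ i, g ∣ u i) → IsUnit g

/-- the vectors `x j` are orthogonal to `u` and span the orthogonal complement of `u` over `ℚ` -/
def Spans (x : κ → ι → ℤ) (u : ι → ℤ) : Prop :=
  (∀ j, ∑ i, u i * x j i = 0) ∧
    ∀ y : ι → ℚ, ∑ i, (u i : ℚ) * y i = 0 → ∃ a : κ → ℚ, ∀ i, y i = ∑ j, a j * (x j i : ℚ)

/-- Data at the scale `l`: vectors `x j` divisible by prescribed powers of the primes and with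
prescribed sizes in the frames, which span a hyperplane of large height. -/
def HasDatum {s : ℕ} (κ : Type) [Fintype κ] (q : Fin s → ℕ) (M : Option (Fin s) → Matrix ι ι ℤ)
    (c : ι → ℝ) (α : Fin s → ι → ℝ) (ε γ : ℝ) (l : ℕ) : Prop :=
  ∃ (A : Fin s → ι → ℕ) (x : κ → ι → ℤ) (u : ι → ℤ),
    (∀ v i, |(A v i : ℝ) - α v i * l| ≤ ε * l) ∧
    (∀ v j i, (q v : ℤ) ^ A v i ∣ app (M (some v)) (x j) i) ∧
    (∀ j i, |((app (M none) (x j) i : ℤ) : ℝ)| ≤ Real.exp ((c i + ε) * l)) ∧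
    Prim u ∧ Spans x u ∧ ∃ i, Real.exp (γ * l) ≤ |(u i : ℝ)|

end Blocks

/-! ## Reduced bases -/
section Reduction

variable {n : ℕ}

/-- sup norm of `Y z`, `z` an integer vector -/
noncomputable def nr (Y : Matrix (Fin n) (Fin n) ℝ) (z : Fin n → ℤ) : ℝ :=
  ‖fun i => ∑ k, Y i k * (z k : ℝ)‖

/-- `P Y G = A diag(D) U`: `G` unimodular, the rows permuted by `π`, `A` lower and `U` upper
unitriangular with entries at most `1`, `D` almost increasing, `D 0` the first minimum -/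
structure Red (Y : Matrix (Fin n) (Fin n) ℝ) (G : Matrix (Fin n) (Fin n) ℤ)
    (π : Equiv.Perm (Fin n)) (A U : Matrix (Fin n) (Fin n) ℝ) (D : Fin n → ℝ) : Prop where
  unit : IsUnit G.det
  eq : ∀ i j, ∑ k, Y (π i) k * (G k j : ℝ) = ∑ k, A i k * D k * U k j
  pos : ∀ i, 0 < D i
  A1 : ∀ i, A i i = 1
  A0 : ∀ i j, i < j → A i j = 0
  Ab : ∀ i j, |A i j| ≤ 1
  U1 : ∀ i, U i i = 1
  U0 : ∀ i j, j < i → U i j = 0
  Ub : ∀ i j, |U i j| ≤ 1
  mono : ∀ i j : Fin n, i ≤ j → D i ≤ 2 ^ ((j : ℕ) - (i : ℕ)) * D j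
  first : ∀ i : Fin n, i.val = 0 → ∀ z : Fin n → ℤ, z ≠ 0 → D i ≤ nr Y z

end Reduction

/-! ## Compound matrices -/
section Compound

variable {n : ℕ} {R : Type} [CommRing R]

/-- increasing maps `Fin p → Fin n`, i.e. the `p`-element subsets of `Fin n` -/
abbrev Inc (p n : ℕ) : Type := {g : Fin p → Fin n // StrictMono g}

/-- the `p`-th compound matrix: the minors of size `p` -/
def cmp (p : ℕ) (M : Matrix (Fin n) (Fin n) R) : Matrix (Inc p n) (Inc p n) R :=
  fun J I => (M.submatrix J.1 I.1).det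

/-- the last `p` elements of `Fin n` -/
def top (p n : ℕ) (h : p ≤ n) : Inc p n :=
  ⟨fun a => ⟨n - p + a, by omega⟩, fun a b hab => by
    simp only [Fin.mk_lt_mk]
    have : (a : ℕ) < b := hab
    omega⟩

/-- the product of the `f i`, `i ∈ J` -/
def pr {p : ℕ} (f : Fin n → ℝ) (J : Inc p n) : ℝ := ∏ a, f (J.1 a)

/-- the sum of the `f i`, `i ∈ J` -/
def sm {p : ℕ} (f : Fin n → ℝ) (J : Inc p n) : ℝ := ∑ a, f (J.1 a)

end Compound

/-! ## The theorem -/
section Main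

variable {s n : ℕ}

/-- `log |z|_v` -/
noncomputable def lv (q : Fin s → ℕ) : Option (Fin s) → ℤ → ℝ
  | none, z => Real.log |(z : ℝ)|
  | some v, z => -((padicValInt (q v) z : ℝ) * Real.log (q v))

/-- the primes `q v` are different -/
structure Pls (q : Fin s → ℕ) : Prop where
  prime : ∀ v, (q v).Prime
  inj : Function.Injective q

/-- A generic sequence along the ultrafilter `𝒰`: every fixed nonzero form is nonzero at `x l` -/
def Gen (𝒰 : Ultrafilter ℕ) (x : ℕ → Fin n → ℤ) : Prop :=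
  ∀ z : Fin n → ℤ, z ≠ 0 → ∀ᶠ l in (𝒰 : Filter ℕ), ∑ i, z i * x l i ≠ 0

/-- the frames `M v` and the exponents `c v i = lim log |(M_v x_l)_i|_v / T_l` -/
structure Exps (q : Fin s → ℕ) (𝒰 : Ultrafilter ℕ) (T : ℕ → ℕ) (x : ℕ → Fin n → ℤ)
    (M : Option (Fin s) → Matrix (Fin n) (Fin n) ℤ) (c : Option (Fin s) → Fin n → ℝ) : Prop where
  pls : Pls q
  tend : Tendsto T 𝒰 atTop
  gen : Gen 𝒰 x
  det : ∀ v, (M v).det ≠ 0
  lim : ∀ v i, Tendsto (fun l => lv q v (∑ k, M v i k * x l k) / (T l : ℝ)) 𝒰 (𝓝 (c v i))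

/-- **The Subspace theorem in dimension `n`** (rational forms, generic sequences) -/
def SubTh (n : ℕ) : Prop :=
  ∀ (s : ℕ) (q : Fin s → ℕ) (𝒰 : Ultrafilter ℕ) (T : ℕ → ℕ) (x : ℕ → Fin n → ℤ)
    (M : Option (Fin s) → Matrix (Fin n) (Fin n) ℤ) (c : Option (Fin s) → Fin n → ℝ),
    Exps q 𝒰 T x M c → 0 ≤ ∑ v, ∑ i, c v i

/-- The data at one index: `g` is a basis of the lattice `{x : q_v^(A v i) ∣ (M_v x)_i}`, reduced at
the real place: `(M_∞ g) (π i) j = exp (c_(π i) T) (Lo diag(D) Up) i j`. -/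
structure Dat (q : Fin s → ℕ) (M : Option (Fin s) → Matrix (Fin n) (Fin n) ℤ) (c : Fin n → ℝ)
    (T : ℝ) (x : Fin n → ℤ) (A : Fin s → Fin n → ℕ) (g : Matrix (Fin n) (Fin n) ℤ)
    (π : Equiv.Perm (Fin n)) (Lo Up : Matrix (Fin n) (Fin n) ℝ) (D : Fin n → ℝ) (e : Fin s → ℕ) :
    Prop where
  dvd : ∀ v i j, (q v : ℤ) ^ A v i ∣ (M (some v) * g) i j
  detg : |g.det| = ∏ v, (q v : ℤ) ^ e v
  eA : ∀ v, e v ≤ ∑ i, A v i
  Ae : ∀ v, (q v : ℤ) ^ (∑ i, A v i) ≤ |(M (some v)).det| * (q v : ℤ) ^ e v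
  eq : ∀ i j, (((M none * g) (π i) j : ℤ) : ℝ)
    = Real.exp (c (π i) * T) * ∑ k, Lo i k * D k * Up k j
  pos : ∀ i, 0 < D i
  A1 : ∀ i, Lo i i = 1
  A0 : ∀ i j, i < j → Lo i j = 0
  Ab : ∀ i j, |Lo i j| ≤ 1
  U1 : ∀ i, Up i i = 1
  U0 : ∀ i j, j < i → Up i j = 0
  Ub : ∀ i j, |Up i j| ≤ 1
  mono : ∀ i j : Fin n, i ≤ j → D i ≤ 2 ^ n * D j
  first : ∀ i : Fin n, i.val = 0 →
    ∃ k, D i ≤ |((∑ j, M none k j * x j : ℤ) : ℝ)| * Real.exp (-(c k * T))

end Main

end Pool.Agent.SubQ
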