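import Pool.Agent.Lib.SubQ.SpecF

/-!
# SubQ F1: limits along ultrafilters (helper66)
-/

set_option autoImplicit false

namespace Pool.Agent.SubQ

open Filter Topology

theorem limEx : LimEx := by
  refine ⟨fun 𝒰 f C hf => ?_, fun 𝒰 α _ f => ?_⟩
  · have hK : IsCompact (Set.Icc (-C) C) := isCompact_Icc
    have hmem : Set.Icc (-C) C ∈ (𝒰.map f : Ultrafilter ℝ) := by
      rw [Ultrafilter.mem_map]
      exact hf.mono fun l hl => abs_le.mp hl
    obtain ⟨a, _, ha⟩ := hK.ultrafilter_le_nhds (𝒰.map f) (le_principal_iff.mpr hmem)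
    exact ⟨a, ha⟩
  · have h : ∀ᶠ l in (𝒰 : Filter ℕ), ∃ a, f l = a := Eventually.of_forall fun l => ⟨f l, rfl⟩
    have h2 : (⋃ a ∈ (Set.univ : Set α), f ⁻¹' {a}) ∈ 𝒰 := by
      filter_upwards [h] with l hl
      simp
    obtain ⟨a, _, ha⟩ := (Ultrafilter.finite_biUnion_mem_iff (Set.toFinite Set.univ)).mp h2
    exact ⟨a, ha⟩

end Pool.Agent.SubQ
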