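import Pool.Agent.Lib.SubQ.SpecF

/-!
# SubQ F2: elementary properties of `lv` (helper66)
-/

set_option autoImplicit false

namespace Pool.Agent.SubQ

open Filter Topology

private lemma f2_pow_le (p : ℕ) (z : ℤ) (hz : z ≠ 0) :
    (padicValInt p z : ℝ) * Real.log p ≤ Real.log |(z : ℝ)| := by
  have hdvd : (p : ℤ) ^ padicValInt p z ∣ z := padicValInt_dvd z
  have hnat : p ^ padicValInt p z ∣ z.natAbs := by
    have := Int.natAbs_dvd_natAbs.mpr hdvd
    simpa [Int.natAbs_pow] using this
  have hle : p ^ padicValInt p z ≤ z.natAbs := Nat.le_of_dvd (Int.natAbs_pos.mpr hz) hnat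
  have hle' : ((p : ℝ) ^ padicValInt p z) ≤ |(z : ℝ)| := by
    have h1 : ((p ^ padicValInt p z : ℕ) : ℝ) ≤ (z.natAbs : ℝ) := by exact_mod_cast hle
    rw [Nat.cast_natAbs] at h1
    push_cast at h1
    exact h1
  rcases Nat.eq_zero_or_pos p with hp | hp
  · subst hp
    have h0 : (padicValInt 0 z) = 0 := by simp [padicValInt, padicValNat]
    rw [h0]
    simp only [Nat.cast_zero, zero_mul]
    apply Real.log_nonneg
    have : (1 : ℝ) ≤ (z.natAbs : ℝ) := by exact_mod_cast Int.natAbs_pos.mpr hz
    rwa [Nat.cast_natAbs, Int.cast_abs] at this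
  · rw [← Real.log_pow]
    exact Real.log_le_log (by positivity) hle'

private lemma f2_abs_one (z : ℤ) (hz : z ≠ 0) : (1 : ℝ) ≤ |(z : ℝ)| := by
  have : (1 : ℝ) ≤ (z.natAbs : ℝ) := by exact_mod_cast Int.natAbs_pos.mpr hz
  rwa [Nat.cast_natAbs, Int.cast_abs] at this

theorem lvBasic : LvBasic := by
  intro s q hq
  refine ⟨fun v z hz => ?_, fun v y z hy hz => ?_, fun v n b z S hne hS => ?_⟩
  · cases v with
    | none =>
      simp only [lv]
      rw [abs_of_nonneg (Real.log_nonneg (f2_abs_one z hz))]
    | some v =>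
      simp only [lv]
      rw [abs_neg, abs_of_nonneg]
      · exact f2_pow_le (q v) z hz
      · have : (1 : ℝ) ≤ q v := by exact_mod_cast (hq.prime v).one_lt.le
        have := Real.log_nonneg this
        positivity
  · cases v with
    | none =>
      simp only [lv]
      push_cast
      rw [abs_mul, Real.log_mul]
      · exact abs_ne_zero.mpr (by exact_mod_cast hy)
      · exact abs_ne_zero.mpr (by exact_mod_cast hz)
    | some v =>
      haveI : Fact (q v).Prime := ⟨hq.prime v⟩
      simp only [lv]
      rw [padicValInt.mul hy hz]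
      push_cast
      ring
  · have hex : ∃ i, b i * z i ≠ 0 := by
      by_contra hcon
      push_neg at hcon
      exact hne (Finset.sum_eq_zero fun i _ => hcon i)
    obtain ⟨i₁, hi₁⟩ := hex
    have hb1 : b i₁ ≠ 0 := left_ne_zero_of_mul hi₁
    have hsum1 : (1 : ℝ) ≤ ∑ i, |(b i : ℝ)| :=
      (f2_abs_one _ hb1).trans
        (Finset.single_le_sum (f := fun i => |(b i : ℝ)|) (fun i _ => abs_nonneg _)
          (Finset.mem_univ i₁))
    cases v with
    | none =>
      simp only [lv] at hS ⊢
      have hbd : |((∑ i, b i * z i : ℤ) : ℝ)| ≤ (∑ i, |(b i : ℝ)|) * Real.exp S := by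
        push_cast
        refine (Finset.abs_sum_le_sum_abs _ _).trans ?_
        rw [Finset.sum_mul]
        refine Finset.sum_le_sum fun i _ => ?_
        rw [abs_mul]
        by_cases hbi : b i = 0
        · simp [hbi]
        · obtain ⟨hzi, hSi⟩ := hS i hbi
          refine mul_le_mul_of_nonneg_left ?_ (abs_nonneg _)
          have hpos : (0 : ℝ) < |(z i : ℝ)| := lt_of_lt_of_le one_pos (f2_abs_one _ hzi)
          exact (Real.log_le_iff_le_exp hpos).mp hSi
      have hpos : (0 : ℝ) < |((∑ i, b i * z i : ℤ) : ℝ)| :=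
        lt_of_lt_of_le one_pos (f2_abs_one _ hne)
      have h1 := Real.log_le_log hpos hbd
      rw [Real.log_mul (by positivity) (Real.exp_ne_zero _), Real.log_exp] at h1
      have h2 : Real.log (∑ i, |(b i : ℝ)|) ≤ ∑ i, |(b i : ℝ)| :=
        (Real.log_le_sub_one_of_pos (by linarith)).trans (by linarith)
      linarith
    | some v =>
      haveI : Fact (q v).Prime := ⟨hq.prime v⟩
      simp only [lv] at hS ⊢
      -- minimum of the valuations
      have hne' : ({i | b i ≠ 0} : Finset (Fin n)).Nonempty := ⟨i₁, by simpa using hb1⟩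
      obtain ⟨i₀, hi₀, hmin⟩ := Finset.exists_min_image ({i | b i ≠ 0} : Finset (Fin n))
        (fun i => padicValInt (q v) (z i)) hne'
      have hbi₀ : b i₀ ≠ 0 := by simpa using hi₀
      have hdvd : (q v : ℤ) ^ padicValInt (q v) (z i₀) ∣ ∑ i, b i * z i := by
        refine Finset.dvd_sum fun i _ => ?_
        by_cases hbi : b i = 0
        · simp [hbi]
        · have h1 := hmin i (by simpa using hbi)
          exact Dvd.dvd.mul_left ((pow_dvd_pow _ h1).trans (padicValInt_dvd (z i))) _
      have hval : padicValInt (q v) (z i₀) ≤ padicValInt (q v) (∑ i, b i * z i) := by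
        rcases (padicValInt_dvd_iff _ _).mp hdvd with h | h
        · exact absurd h hne
        · exact h
      have hS0 := (hS i₀ hbi₀).2
      have hlog : 0 ≤ Real.log (q v) :=
        Real.log_nonneg (by exact_mod_cast (hq.prime v).one_lt.le)
      have h3 : (padicValInt (q v) (z i₀) : ℝ) * Real.log (q v)
          ≤ (padicValInt (q v) (∑ i, b i * z i) : ℝ) * Real.log (q v) :=
        mul_le_mul_of_nonneg_right (by exact_mod_cast hval) hlog
      linarith

end Pool.Agent.SubQ
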