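import Pool.Agent.Lib.SubQ.SpecF

/-!
# SubQ, F3: existence of the family of data (helper7)
-/

set_option autoImplicit false

namespace Pool.Agent.SubQ

open Filter Topology

/-- the frames with the rows of the real frame permuted -/
private def f3M {s n : ℕ} (M : Option (Fin s) → Matrix (Fin n) (Fin n) ℤ) (π : Equiv.Perm (Fin n)) :
    Option (Fin s) → Matrix (Fin n) (Fin n) ℤ
  | none => (M none).submatrix π id
  | some v => M (some v)

private def f3c {s n : ℕ} (c : Option (Fin s) → Fin n → ℝ) (π : Equiv.Perm (Fin n)) :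
    Option (Fin s) → Fin n → ℝ
  | none => fun i => c none (π i)
  | some v => c (some v)

theorem famEx (h1 : DatEx) (h2 : LimEx) : FamEx := by
  intro s n q 𝒰 T x M c hE
  let A : ℕ → Fin s → Fin n → ℕ := fun l v i => padicValInt (q v) (∑ k, M (some v) i k * x l k)
  have hAd : ∀ l v i, (q v : ℤ) ^ A l v i ∣ ∑ k, M (some v) i k * x l k := by
    intro l v i
    have : Fact (q v).Prime := ⟨hE.pls.prime v⟩
    exact padicValInt_dvd _
  have hlimA : ∀ v i, Tendsto (fun l => (A l v i : ℝ) * Real.log (q v) / (T l : ℝ)) 𝒰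
      (𝓝 (-c (some v) i)) := by
    intro v i
    have h := (hE.lim (some v) i).neg
    refine h.congr (fun l => ?_)
    show -(-((A l v i : ℝ) * Real.log (q v)) / (T l : ℝ)) = _
    rw [neg_div, neg_neg]
  rcases Nat.eq_zero_or_pos n with rfl | hn
  · refine ⟨M, c, A, fun _ => 1, fun _ => 1, fun _ => 1, fun _ _ => 1, fun _ _ => 0, ?_, rfl⟩
    refine ⟨hE, Eventually.of_forall fun l => ?_, hlimA⟩
    constructor
    · intro v i; exact i.elim0
    · simp
    · intro v; simp
    · intro v; simp
    · intro i; exact i.elim0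
    · intro i; exact i.elim0
    · intro i; exact i.elim0
    · intro i; exact i.elim0
    · intro i; exact i.elim0
    · intro i; exact i.elim0
    · intro i; exact i.elim0
    · intro i; exact i.elim0
    · intro i; exact i.elim0
    · intro i; exact i.elim0
  · have hx : ∀ᶠ l in (𝒰 : Filter ℕ), x l ≠ 0 := by
      refine (hE.gen (Pi.single ⟨0, hn⟩ 1) (by
        intro h
        have := congrFun h ⟨0, hn⟩
        simp at this)).mono (fun l hl h => ?_)
      apply hl
      rw [h]
      simp
    have hex : ∀ l, ∃ g π Lo Up D e, x l ≠ 0 →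
        Dat q M (c none) (T l) (x l) (A l) g π Lo Up D e := by
      intro l
      by_cases hl : x l = 0
      · exact ⟨1, 1, 1, 1, fun _ => 1, fun _ => 0, fun h => absurd hl h⟩
      · obtain ⟨g, π, Lo, Up, D, e, h⟩ := h1 n s q M (c none) (T l) (x l) (A l) hE.pls hE.det hl (hAd l)
        exact ⟨g, π, Lo, Up, D, e, fun _ => h⟩
    choose g π Lo Up D e hD using hex
    obtain ⟨π₀, hπ⟩ := h2.2 𝒰 (Equiv.Perm (Fin n)) π
    refine ⟨f3M M π₀, f3c c π₀, A, g, Lo, Up, D, e, ⟨⟨hE.pls, hE.tend, hE.gen, ?_, ?_⟩, ?_, ?_⟩, ?_⟩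
    · intro v
      rcases v with _ | v
      · show ((M none).submatrix π₀ id).det ≠ 0
        rw [Matrix.det_permute]
        exact mul_ne_zero (by simp) (hE.det none)
      · exact hE.det (some v)
    · intro v i
      rcases v with _ | v
      · exact hE.lim none (π₀ i)
      · exact hE.lim (some v) i
    · filter_upwards [hx, hπ] with l hl hπl
      have h := hD l hl
      rw [hπl] at h
      obtain ⟨a1, a2, a3, a4, a5, a6, a7, a8, a9, a10, a11, a12, a13, a14⟩ := h
      refine ⟨a1, a2, a3, a4, ?_, a6, a7, a8, a9, a10, a11, a12, a13, ?_⟩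
      · intro i j
        exact a5 i j
      · intro i hi
        obtain ⟨k, hk⟩ := a14 i hi
        refine ⟨π₀.symm k, ?_⟩
        show D l i ≤ |((∑ j, M none (π₀ (π₀.symm k)) j * x l j : ℤ) : ℝ)| *
          Real.exp (-(c none (π₀ (π₀.symm k)) * T l))
        rw [Equiv.apply_symm_apply]
        exact hk
    · intro v i
      exact hlimA v i
    · rw [Fintype.sum_option, Fintype.sum_option]
      congr 1
      exact Equiv.sum_comp π₀ (c none)

end Pool.Agent.SubQ
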