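import Pool.Agent.Lib.SubQ.SpecF

/-!
# SubQ: F4, restriction to a quotient
-/

set_option autoImplicit false

namespace Pool.Agent.SubQ

open Filter Topology

namespace F4

lemma ident {n : ℕ} (B : Fin n → ℤ) (M : Matrix (Fin n) (Fin n) ℤ) (x : Fin n → ℤ) :
    ∑ i, (Matrix.vecMul B M.adjugate) i * ∑ k, M i k * x k = M.det * ∑ i, B i * x i := by
  have h : dotProduct (Matrix.vecMul B M.adjugate) (M.mulVec x) = M.det * dotProduct B x := by
    rw [Matrix.dotProduct_mulVec, Matrix.vecMul_vecMul, Matrix.adjugate_mul, Matrix.vecMul_smul,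
      Matrix.vecMul_one, smul_dotProduct, smul_eq_mul]
  simpa only [dotProduct, Matrix.mulVec] using h

lemma row_ne {p : ℕ} (F : Matrix (Fin p) (Fin p) ℤ) (hF : F.det ≠ 0) (a : Fin p) :
    F a ≠ 0 := by
  intro h
  exact hF (Matrix.det_eq_zero_of_row_eq_zero a (fun j => by rw [h]; rfl))

/-- upper bound for the value of a form at the place `v` -/
lemma upper (h2 : LvBasic) {s n : ℕ} {q : Fin s → ℕ} {𝒰 : Ultrafilter ℕ} {T : ℕ → ℕ}
    {x : ℕ → Fin n → ℤ} {M : Option (Fin s) → Matrix (Fin n) (Fin n) ℤ}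
    {c : Option (Fin s) → Fin n → ℝ} (hE : Exps q 𝒰 T x M c) (v : Option (Fin s))
    (B : Fin n → ℤ) (hB : B ≠ 0) (γ δ : ℝ) (hδ : 0 < δ)
    (hγ : ∀ i, Matrix.vecMul B (M v).adjugate i ≠ 0 → c v i ≤ γ) :
    ∃ K : ℝ, ∀ᶠ l in (𝒰 : Filter ℕ), ∑ i, B i * x l i ≠ 0 ∧
      lv q v (∑ i, B i * x l i) ≤ (γ + δ) * T l + K := by
  obtain ⟨-, hmul, hsum⟩ := h2 s q hE.pls
  refine ⟨(∑ i, |((Matrix.vecMul B (M v).adjugate i : ℤ) : ℝ)|) - lv q v (M v).det, ?_⟩
  have hT : ∀ᶠ l in (𝒰 : Filter ℕ), 1 ≤ T l := hE.tend.eventually_ge_atTop 1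
  have hlim : ∀ᶠ l in (𝒰 : Filter ℕ), ∀ i,
      lv q v (∑ k, M v i k * x l k) / (T l : ℝ) ≤ c v i + δ := by
    rw [Filter.eventually_all]
    intro i
    exact (hE.lim v i).eventually_le_const (by linarith)
  have hne : ∀ᶠ l in (𝒰 : Filter ℕ), ∀ i, ∑ k, M v i k * x l k ≠ 0 := by
    rw [Filter.eventually_all]
    intro i
    exact hE.gen (M v i) (row_ne (M v) (hE.det v) i)
  filter_upwards [hT, hlim, hne, hE.gen B hB] with l hT hlim hne hB'
  refine ⟨hB', ?_⟩
  have hT0 : (0 : ℝ) < (T l : ℝ) := by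
    have : (1 : ℝ) ≤ (T l : ℝ) := by exact_mod_cast hT
    linarith
  have hid := ident B (M v) (x l)
  have hprod : (M v).det * ∑ i, B i * x l i ≠ 0 := mul_ne_zero (hE.det v) hB'
  have h3 := hsum v n (Matrix.vecMul B (M v).adjugate) (fun i => ∑ k, M v i k * x l k)
    ((γ + δ) * T l) (by rw [hid]; exact hprod) (by
      intro i hi
      refine ⟨hne i, ?_⟩
      have h4 := (div_le_iff₀ hT0).1 (hlim i)
      refine h4.trans (mul_le_mul_of_nonneg_right ?_ hT0.le)
      linarith [hγ i hi])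
  rw [hid, hmul v _ _ (hE.det v) hB'] at h3
  linarith

end F4

theorem restrict (h1 : LimEx) (h2 : LvBasic) : Restrict := by
  intro p s n q 𝒰 T x M c Z J F hsub hE hZ hF hJ
  obtain ⟨habs, -, -⟩ := h2 s q hE.pls
  -- the new sequence
  set y : ℕ → Fin p → ℤ := fun l a => ∑ i, Z a i * x l i with hy
  have hyz : ∀ (z : Fin p → ℤ) (l : ℕ),
      ∑ a, z a * y l a = ∑ i, (Matrix.vecMul z Z) i * x l i := by
    intro z l
    have h : dotProduct z (Z.mulVec (x l)) = dotProduct (Matrix.vecMul z Z) (x l) :=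
      Matrix.dotProduct_mulVec _ _ _
    simpa only [dotProduct, Matrix.mulVec] using h
  have hvne : ∀ z : Fin p → ℤ, z ≠ 0 → Matrix.vecMul z Z ≠ 0 := by
    intro z hz h0
    obtain ⟨i, hi⟩ := hZ z hz
    apply hi
    have := congrFun h0 i
    simpa [Matrix.vecMul, dotProduct] using this
  have hgen : Gen 𝒰 y := by
    intro z hz
    have := hE.gen _ (hvne z hz)
    filter_upwards [this] with l hl
    rw [hyz]
    exact hl
  have hTt : ∀ᶠ l in (𝒰 : Filter ℕ), 1 ≤ T l := hE.tend.eventually_ge_atTop 1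
  have hTr : Tendsto (fun l => (T l : ℝ)) 𝒰 atTop := tendsto_natCast_atTop_atTop.comp hE.tend
  -- the limits
  have hex : ∀ v a, ∃ c' : ℝ,
      Tendsto (fun l => lv q v (∑ k, F v a k * y l k) / (T l : ℝ)) 𝒰 (𝓝 c') := by
    intro v a
    have hFa := F4.row_ne (F v) (hF v) a
    obtain ⟨K, hK⟩ := F4.upper h2 hE none (Matrix.vecMul (F v a) Z) (hvne _ hFa)
      (∑ i, |c none i|) 1 one_pos (fun i _ => (le_abs_self _).trans
        (Finset.single_le_sum (f := fun i => |c none i|) (fun j _ => abs_nonneg _)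
          (Finset.mem_univ i)))
    refine h1.1 𝒰 _ (∑ i, |c none i| + 1 + |K|) ?_
    filter_upwards [hK, hTt] with l hl hTl
    have hT1 : (1 : ℝ) ≤ (T l : ℝ) := by exact_mod_cast hTl
    have hT0 : (0 : ℝ) < (T l : ℝ) := by linarith
    rw [hyz (F v a) l, abs_div, abs_of_pos hT0, div_le_iff₀ hT0]
    refine (habs v _ hl.1).trans ?_
    have h5 := hl.2
    have h6 : K ≤ |K| * T l := by
      have := le_abs_self K
      have h7 := abs_nonneg K
      nlinarith
    have h8 : lv q none (∑ i, (Matrix.vecMul (F v a) Z) i * x l i)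
      = Real.log |((∑ i, (Matrix.vecMul (F v a) Z) i * x l i : ℤ) : ℝ)| := rfl
    rw [h8] at h5
    linarith
  choose c' hc' using hex
  have hE' : Exps q 𝒰 T y F c' := ⟨hE.pls, hE.tend, hgen, hF, hc'⟩
  have h0 := hsub s q 𝒰 T y F c' hE'
  refine h0.trans (Finset.sum_le_sum fun v _ => Finset.sum_le_sum fun a _ => ?_)
  refine le_of_forall_pos_le_add fun δ hδ => ?_
  have hFa := F4.row_ne (F v) (hF v) a
  obtain ⟨K, hK⟩ := F4.upper h2 hE v (Matrix.vecMul (F v a) Z) (hvne _ hFa)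
    (c v (J v a)) δ hδ (fun i hi => hJ v a i (by
      intro h
      apply hi
      rw [← h]
      rfl))
  have hlim2 : Tendsto (fun l => (c v (J v a) + δ) + K / (T l : ℝ)) 𝒰 (𝓝 (c v (J v a) + δ + 0)) :=
    tendsto_const_nhds.add (hTr.const_div_atTop K)
  rw [add_zero] at hlim2
  refine le_of_tendsto_of_tendsto (hc' v a) hlim2 ?_
  filter_upwards [hK, hTt] with l hl hTl
  have hT1 : (1 : ℝ) ≤ (T l : ℝ) := by exact_mod_cast hTl
  have hT0 : (0 : ℝ) < (T l : ℝ) := by linarith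
  rw [hyz (F v a) l, div_le_iff₀ hT0, add_mul, div_mul_cancel₀ K hT0.ne']
  exact hl.2

end Pool.Agent.SubQ
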