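import Pool.Agent.Lib.SubQ.SpecF

/-!
# SubQ: F5, the limits of the successive minima
-/

set_option autoImplicit false

namespace Pool.Agent.SubQ

open Filter Topology

private lemma f5_near {𝒰 : Ultrafilter ℕ} {f : ℕ → ℝ} {a δ : ℝ} (h : Tendsto f 𝒰 (𝓝 a))
    (hδ : 0 < δ) : ∀ᶠ l in (𝒰 : Filter ℕ), |f l - a| ≤ δ := by
  have h1 := (Metric.tendsto_nhds.1 h) δ hδ
  filter_upwards [h1] with l hl
  rw [Real.dist_eq] at hl
  exact hl.le

section One

variable {s n : ℕ} {q : Fin s → ℕ} {M : Option (Fin s) → Matrix (Fin n) (Fin n) ℤ}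
  {c : Fin n → ℝ} {T : ℝ} {x : Fin n → ℤ} {A : Fin s → Fin n → ℕ}
  {g : Matrix (Fin n) (Fin n) ℤ} {Lo Up : Matrix (Fin n) (Fin n) ℝ} {D : Fin n → ℝ}
  {e : Fin s → ℕ}

/-- the determinant of `g` is not zero -/
private lemma f5_gdet (hq : Pls q) (hd : Dat q M c T x A g 1 Lo Up D e) : g.det ≠ 0 := by
  intro h0
  have h8 := hd.detg
  rw [h0, abs_zero] at h8
  have h9 : (0 : ℤ) < ∏ v, (q v : ℤ) ^ e v := by
    apply Finset.prod_pos
    intro v _
    have := (hq.prime v).pos
    positivity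
  omega

/-- determinants -/
private lemma f5_det (hq : Pls q) (hM : (M none).det ≠ 0)
    (hd : Dat q M c T x A g 1 Lo Up D e) :
    Real.log |((M none).det : ℝ)| + ∑ v, (e v : ℝ) * Real.log (q v)
      = (∑ i, c i) * T + ∑ i, Real.log (D i) := by
  have hq1 : ∀ v, (1 : ℝ) < q v := fun v => by exact_mod_cast (hq.prime v).one_lt
  have e1 : (M none * g).map (Int.castRingHom ℝ) =
      Matrix.diagonal (fun i => Real.exp (c i * T)) * (Lo * Matrix.diagonal D * Up) := by
    ext i j
    rw [Matrix.diagonal_mul, Matrix.mul_apply]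
    simp only [Matrix.map_apply, eq_intCast, Matrix.mul_diagonal]
    exact hd.eq i j
  have e2 : (((M none * g).det : ℤ) : ℝ) = (∏ i, Real.exp (c i * T)) * ∏ i, D i := by
    have e3 : (((M none * g).det : ℤ) : ℝ) = ((M none * g).map (Int.castRingHom ℝ)).det :=
      (Int.castRingHom ℝ).map_det (M none * g)
    rw [e3, e1, Matrix.det_mul, Matrix.det_diagonal, Matrix.det_mul, Matrix.det_mul,
      Matrix.det_diagonal]
    have e4 : Lo.det = 1 := by
      rw [Matrix.det_of_isLowerTriangular Lo (fun i j hij => hd.A0 i j (by simpa using hij))]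
      exact Finset.prod_eq_one fun i _ => hd.A1 i
    have e5 : Up.det = 1 := by
      rw [Matrix.det_of_isUpperTriangular (M := Up) (fun i j hij => hd.U0 i j (by simpa using hij))]
      exact Finset.prod_eq_one fun i _ => hd.U1 i
    rw [e4, e5, one_mul, mul_one]
  have hgd : |((g.det : ℤ) : ℝ)| = ∏ v, (q v : ℝ) ^ e v := by
    have := hd.detg
    have e2 : ((|g.det| : ℤ) : ℝ) = ((∏ v, (q v : ℤ) ^ e v : ℤ) : ℝ) := by rw [this]
    rw [Int.cast_abs, Int.cast_prod] at e2
    rw [e2]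
    refine Finset.prod_congr rfl fun v _ => ?_
    push_cast
    rfl
  have hM0 : 0 < |((M none).det : ℝ)| := abs_pos.2 (by exact_mod_cast hM)
  have hg0 : 0 < |((g.det : ℤ) : ℝ)| := by
    rw [hgd]
    exact Finset.prod_pos fun v _ => pow_pos (by linarith [hq1 v]) _
  have hD0 : 0 < ∏ i, D i := Finset.prod_pos fun i _ => hd.pos i
  have hE0 : 0 < ∏ i, Real.exp (c i * T) := Finset.prod_pos fun i _ => Real.exp_pos _
  rw [Matrix.det_mul, Int.cast_mul] at e2
  have e6 : Real.log |((M none).det : ℝ) * ((g.det : ℤ) : ℝ)|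
      = Real.log |(∏ i, Real.exp (c i * T)) * ∏ i, D i| := by rw [e2]
  rw [abs_mul, Real.log_mul hM0.ne' hg0.ne', hgd, Real.log_prod (fun v _ =>
      (pow_pos (by linarith [hq1 v]) _).ne'), abs_of_pos (mul_pos hE0 hD0),
      Real.log_mul hE0.ne' hD0.ne', ← Real.exp_sum, Real.log_exp,
      Real.log_prod (fun i _ => (hd.pos i).ne')] at e6
  simp only [Real.log_pow] at e6
  rw [Finset.sum_mul]
  exact e6

/-- the exponents of the determinant -/
private lemma f5_e (hq : Pls q) (hM : ∀ v, (M v).det ≠ 0)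
    (hd : Dat q M c T x A g 1 Lo Up D e) (v : Fin s) :
    (∑ i, (A v i : ℝ) * Real.log (q v)) - Real.log |((M (some v)).det : ℝ)|
      ≤ (e v : ℝ) * Real.log (q v) ∧
    (e v : ℝ) * Real.log (q v) ≤ ∑ i, (A v i : ℝ) * Real.log (q v) := by
  have hq1 : (1 : ℝ) < q v := by exact_mod_cast (hq.prime v).one_lt
  have hlog : 0 < Real.log (q v) := Real.log_pos hq1
  have hM0 : 0 < |((M (some v)).det : ℝ)| := abs_pos.2 (by exact_mod_cast hM (some v))
  rw [← Finset.sum_mul]
  constructor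
  · have h1 : (q v : ℝ) ^ (∑ i, A v i) ≤ |((M (some v)).det : ℝ)| * (q v : ℝ) ^ e v := by
      have := hd.Ae v
      have h2 : (((q v : ℤ) ^ (∑ i, A v i) : ℤ) : ℝ)
          ≤ ((|(M (some v)).det| * (q v : ℤ) ^ e v : ℤ) : ℝ) := by exact_mod_cast this
      rw [Int.cast_mul, Int.cast_abs, Int.cast_pow, Int.cast_pow, Int.cast_natCast] at h2
      exact h2
    have h2 := Real.log_le_log (by positivity) h1
    rw [Real.log_pow, Real.log_mul hM0.ne' (by positivity), Real.log_pow, Nat.cast_sum] at h2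
    linarith
  · refine mul_le_mul_of_nonneg_right ?_ hlog.le
    exact_mod_cast hd.eA v

/-- the lower bound -/
private lemma f5_low (hq : Pls q) (hM : (M none).det ≠ 0) (hT : 1 ≤ T)
    (hd : Dat q M c T x A g 1 Lo Up D e) (i₀ : Fin n) (h0 : i₀.val = 0) (i : Fin n) :
    -(((∑ j, |c j|) + n) * T) ≤ Real.log (D i) := by
  have hdet : (M none * g).det ≠ 0 := by
    rw [Matrix.det_mul]
    exact mul_ne_zero hM (f5_gdet hq hd)
  obtain ⟨a, ha⟩ : ∃ a, (M none * g) a i₀ ≠ 0 := by
    by_contra hcon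
    push Not at hcon
    exact hdet (Matrix.det_eq_zero_of_column_eq_zero i₀ hcon)
  have h1 : (1 : ℝ) ≤ |(((M none * g) a i₀ : ℤ) : ℝ)| := by
    rw [← Int.cast_abs]
    exact_mod_cast Int.one_le_abs ha
  have h2 := hd.eq a i₀
  have h3 : ∑ k, Lo a k * D k * Up k i₀ = Lo a i₀ * D i₀ := by
    rw [Finset.sum_eq_single i₀]
    · rw [hd.U1, mul_one]
    · intro k _ hk
      rw [hd.U0 k i₀, mul_zero]
      rw [Fin.lt_def]
      have : k.val ≠ i₀.val := fun h => hk (Fin.ext h)
      omega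
    · intro h
      exact absurd (Finset.mem_univ _) h
  simp only [Equiv.Perm.coe_one, id] at h2
  rw [h3] at h2
  rw [h2, abs_mul, abs_of_pos (Real.exp_pos _), abs_mul, abs_of_pos (hd.pos i₀)] at h1
  have hS : c a * T ≤ (∑ j, |c j|) * T := by
    refine mul_le_mul_of_nonneg_right ?_ (by linarith)
    exact (le_abs_self _).trans (Finset.single_le_sum (f := fun j => |c j|)
      (fun _ _ => abs_nonneg _) (Finset.mem_univ a))
  have h4 : (1 : ℝ) ≤ Real.exp ((∑ j, |c j|) * T) * D i₀ := by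
    refine h1.trans ?_
    have h5 : |Lo a i₀| * D i₀ ≤ D i₀ := by
      have := hd.Ab a i₀
      have := (hd.pos i₀).le
      nlinarith
    calc Real.exp (c a * T) * (|Lo a i₀| * D i₀) ≤ Real.exp (c a * T) * D i₀ :=
          mul_le_mul_of_nonneg_left h5 (Real.exp_pos _).le
      _ ≤ Real.exp ((∑ j, |c j|) * T) * D i₀ :=
          mul_le_mul_of_nonneg_right (Real.exp_le_exp.2 hS) (hd.pos i₀).le
  have h5 := Real.log_nonneg h4
  rw [Real.log_mul (Real.exp_pos _).ne' (hd.pos i₀).ne', Real.log_exp] at h5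
  have h6 : D i₀ ≤ 2 ^ n * D i := hd.mono i₀ i (by
    rw [Fin.le_def]
    omega)
  have h7 := Real.log_le_log (hd.pos i₀) h6
  rw [Real.log_mul (by positivity) (hd.pos i).ne', Real.log_pow] at h7
  have h8 : Real.log 2 ≤ 1 := by
    have := Real.log_two_lt_d9
    linarith
  have h9 : (n : ℝ) * Real.log 2 ≤ n * T := by
    refine mul_le_mul_of_nonneg_left (by linarith) (Nat.cast_nonneg _)
  linarith

end One

theorem mu (h : LimEx) : Mu := by
  intro s n q 𝒰 T x M c A g Lo Up D e hF hn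
  classical
  have hq := hF.exps.pls
  have hM := hF.exps.det
  have hTreal : Tendsto (fun l => (T l : ℝ)) 𝒰 atTop :=
    tendsto_natCast_atTop_atTop.comp hF.exps.tend
  have hT1 : ∀ᶠ l in (𝒰 : Filter ℕ), (1 : ℝ) ≤ T l := hTreal.eventually_ge_atTop 1
  obtain ⟨i₀, hi₀⟩ : ∃ i₀ : Fin n, i₀.val = 0 := ⟨⟨0, hn⟩, rfl⟩
  obtain ⟨L, hL⟩ : ∃ L, L = -∑ v, ∑ i, c v i := ⟨_, rfl⟩
  -- the limit of the sum
  have hG : Tendsto (fun l => ∑ i, Real.log (D l i) / (T l : ℝ)) 𝒰 (𝓝 L) := by
    have he : ∀ v, Tendsto (fun l => (e l v : ℝ) * Real.log (q v) / (T l : ℝ)) 𝒰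
        (𝓝 (∑ i, -c (some v) i)) := by
      intro v
      have hup : Tendsto (fun l => ∑ i, (A l v i : ℝ) * Real.log (q v) / (T l : ℝ)) 𝒰
          (𝓝 (∑ i, -c (some v) i)) := tendsto_finsetSum _ fun i _ => hF.limA v i
      have hlo : Tendsto (fun l => ∑ i, (A l v i : ℝ) * Real.log (q v) / (T l : ℝ)
          - Real.log |((M (some v)).det : ℝ)| / (T l : ℝ)) 𝒰
          (𝓝 (∑ i, -c (some v) i - 0)) :=
        hup.sub (Tendsto.div_atTop tendsto_const_nhds hTreal)
      rw [sub_zero] at hlo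
      refine tendsto_of_tendsto_of_tendsto_of_le_of_le' hlo hup ?_ ?_
      · filter_upwards [hF.dat, hT1] with l hd hT
        have hT0 : (0 : ℝ) < T l := by linarith
        rw [← Finset.sum_div, ← sub_div]
        exact div_le_div_of_nonneg_right (f5_e hq hM hd v).1 hT0.le
      · filter_upwards [hF.dat, hT1] with l hd hT
        have hT0 : (0 : ℝ) < T l := by linarith
        rw [← Finset.sum_div]
        exact div_le_div_of_nonneg_right (f5_e hq hM hd v).2 hT0.le
    have h1 : Tendsto (fun l => Real.log |((M none).det : ℝ)| / (T l : ℝ)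
        + ∑ v, (e l v : ℝ) * Real.log (q v) / (T l : ℝ) - ∑ i, c none i) 𝒰
        (𝓝 (0 + ∑ v, ∑ i, -c (some v) i - ∑ i, c none i)) :=
      ((Tendsto.div_atTop tendsto_const_nhds hTreal).add
        (tendsto_finsetSum _ fun v _ => he v)).sub tendsto_const_nhds
    have h2 : 0 + ∑ v, ∑ i, -c (some v) i - ∑ i, c none i = L := by
      rw [hL, Fintype.sum_option]
      simp only [Finset.sum_neg_distrib]
      ring
    rw [h2] at h1
    refine h1.congr' ?_
    filter_upwards [hF.dat, hT1] with l hd hT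
    have hT0 : (0 : ℝ) < T l := by linarith
    have h3 := f5_det hq (hM none) hd
    rw [← Finset.sum_div, ← Finset.sum_div, ← add_div, h3, add_div,
      mul_div_assoc, div_self hT0.ne']
    ring
  -- bounds
  obtain ⟨S, hS⟩ : ∃ S : ℝ, S = (∑ j, |c none j|) + n := ⟨_, rfl⟩
  have hS0 : 0 ≤ S := by
    rw [hS]
    positivity
  have hlow : ∀ᶠ l in (𝒰 : Filter ℕ), ∀ i, -S ≤ Real.log (D l i) / (T l : ℝ) := by
    filter_upwards [hF.dat, hT1] with l hd hT i
    have hT0 : (0 : ℝ) < T l := by linarith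
    rw [le_div_iff₀ hT0, neg_mul, hS]
    exact f5_low hq (hM none) hT hd i₀ hi₀ i
  have hbd : ∀ i, ∀ᶠ l in (𝒰 : Filter ℕ),
      |Real.log (D l i) / (T l : ℝ)| ≤ |L| + 1 + n * S + S := by
    intro i
    filter_upwards [hlow, f5_near hG one_pos] with l hl hg
    rw [abs_le]
    have hn0 : (0 : ℝ) ≤ n * S := by positivity
    constructor
    · have := hl i
      have := abs_nonneg L
      linarith
    · have h1 := (abs_le.1 hg).2
      have h2 := le_abs_self L
      have h3 : Real.log (D l i) / (T l : ℝ) + S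
          ≤ ∑ j, (Real.log (D l j) / (T l : ℝ) + S) :=
        Finset.single_le_sum (f := fun j => Real.log (D l j) / (T l : ℝ) + S)
          (fun j _ => by
            have := hl j
            linarith) (Finset.mem_univ i)
      rw [Finset.sum_add_distrib, Finset.sum_const, Finset.card_univ, Fintype.card_fin,
        nsmul_eq_mul] at h3
      linarith
  have hlim : ∀ i, ∃ a, Tendsto (fun l => Real.log (D l i) / (T l : ℝ)) 𝒰 (𝓝 a) :=
    fun i => h.1 𝒰 _ _ (hbd i)
  choose μ hμ using hlim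
  refine ⟨μ, hμ, ?_, ?_, ?_⟩
  · intro i j hij
    have h1 : Tendsto (fun l => (n * Real.log 2) / (T l : ℝ) + Real.log (D l j) / (T l : ℝ)) 𝒰
        (𝓝 (0 + μ j)) := (Tendsto.div_atTop tendsto_const_nhds hTreal).add (hμ j)
    rw [zero_add] at h1
    refine le_of_tendsto_of_tendsto (hμ i) h1 ?_
    filter_upwards [hF.dat, hT1] with l hd hT
    have hT0 : (0 : ℝ) < T l := by linarith
    rw [← add_div]
    refine div_le_div_of_nonneg_right ?_ hT0.le
    have h7 := Real.log_le_log (hd.pos i) (hd.mono i j hij)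
    rw [Real.log_mul (by positivity) (hd.pos j).ne', Real.log_pow] at h7
    exact h7
  · intro i hi
    apply le_of_forall_pos_le_add
    intro δ hδ
    rw [zero_add]
    refine le_of_tendsto (hμ i) ?_
    have h1 : ∀ᶠ l in (𝒰 : Filter ℕ), ∀ k,
        |lv q none (∑ j, M none k j * x l j) / (T l : ℝ) - c none k| ≤ δ := by
      rw [eventually_all]
      intro k
      exact f5_near (hF.exps.lim none k) hδ
    filter_upwards [hF.dat, hT1, h1] with l hd hT hl
    have hT0 : (0 : ℝ) < T l := by linarith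
    obtain ⟨k, hk⟩ := hd.first i hi
    have h2 := (abs_le.1 (hl k)).2
    have h3 : 0 < |((∑ j, M none k j * x l j : ℤ) : ℝ)| := by
      by_contra hcon
      have h4 : |((∑ j, M none k j * x l j : ℤ) : ℝ)| = 0 :=
        le_antisymm (not_lt.1 hcon) (abs_nonneg _)
      rw [h4, zero_mul] at hk
      exact absurd (hd.pos i) (not_lt.2 hk)
    have h4 := Real.log_le_log (hd.pos i) hk
    rw [Real.log_mul h3.ne' (Real.exp_pos _).ne', Real.log_exp] at h4
    have h5 : lv q none (∑ j, M none k j * x l j)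
        = Real.log |((∑ j, M none k j * x l j : ℤ) : ℝ)| := rfl
    rw [h5] at h2
    rw [div_le_iff₀ hT0]
    have h6 : Real.log |((∑ j, M none k j * x l j : ℤ) : ℝ)| ≤ (δ + c none k) * T l := by
      rw [← div_le_iff₀ hT0]
      linarith
    linarith
  · rw [← hL]
    exact tendsto_nhds_unique (tendsto_finsetSum _ fun i _ => hμ i) hG

end Pool.Agent.SubQ
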