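import Pool.Agent.Lib.SubQ.SpecF

/-!
# SubQ: F6, the inequality at one index
-/

set_option autoImplicit false

namespace Pool.Agent.SubQ

open Filter Topology

private lemma f6_w {n : ℕ} (h1 : CmpMul) (p : ℕ) (h : p ≤ n) (M g : Matrix (Fin n) (Fin n) ℤ)
    (t : ℤ) (a : Inc p n → ℤ) (hta : ∀ J, cmp p g.adjugate (top p n h) J = t * a J)
    (K : Inc p n) :
    cmp p (M * g).adjugate (top p n h) K = t * ∑ L, a L * cmp p M.adjugate L K := by
  rw [Matrix.adjugate_mul_distrib, h1, Matrix.mul_apply, Finset.mul_sum]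
  refine Finset.sum_congr rfl fun L _ => ?_
  rw [hta, mul_assoc]

/-- one prime -/
private lemma f6_prime {p : ℕ} (hp : p.Prime) {a b : ℕ} {t w : ℤ} (ht : t ≠ 0) (hw : w ≠ 0)
    (h : (p : ℤ) ^ a ∣ (p : ℤ) ^ b * (t * w)) {W : ℝ} (hW : |(w : ℝ)| ≤ W) :
    ((a : ℝ) - b - padicValInt p t) * Real.log p ≤ Real.log W := by
  have hfact : Fact p.Prime := ⟨hp⟩
  have hp0 : (p : ℤ) ≠ 0 := by exact_mod_cast hp.ne_zero
  have hne : (p : ℤ) ^ b * (t * w) ≠ 0 := mul_ne_zero (pow_ne_zero _ hp0) (mul_ne_zero ht hw)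
  have h1 : a ≤ padicValInt p ((p : ℤ) ^ b * (t * w)) :=
    (padicValInt_dvd_iff a _).1 h |>.resolve_left hne
  rw [padicValInt.mul (pow_ne_zero _ hp0) (mul_ne_zero ht hw), padicValInt.mul ht hw] at h1
  have h2 : padicValInt p ((p : ℤ) ^ b) = b := by
    rw [padicValInt, Int.natAbs_pow, Int.natAbs_natCast, padicValNat.prime_pow]
  rw [h2] at h1
  have h3 : (p : ℤ) ^ padicValInt p w ∣ w := padicValInt_dvd w
  have h4 : (p : ℤ) ^ padicValInt p w ≤ |w| :=
    Int.le_of_dvd (abs_pos.2 hw) ((dvd_abs _ _).2 h3)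
  have h5 : (p : ℝ) ^ padicValInt p w ≤ |(w : ℝ)| := by exact_mod_cast h4
  have hp1 : (1 : ℝ) < p := by exact_mod_cast hp.one_lt
  have h6 := Real.log_le_log (by positivity) (h5.trans hW)
  rw [Real.log_pow] at h6
  have h7 : (a : ℝ) ≤ b + (padicValInt p t + padicValInt p w) := by exact_mod_cast h1
  have h8 : 0 < Real.log p := Real.log_pos hp1
  nlinarith

theorem oneIndex (h1 : CmpMul) (h2 : CmpBasic) (h3 : InvBox) (h4 : DvdCmp) : OneIndex := by
  intro s n p q M h hq hM
  classical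
  obtain ⟨C0, hC0, hinv⟩ := h3 p n h
  obtain ⟨C1, hC1⟩ : ∃ C1 : ℝ, C1 = 1 + ∑ v, ∑ L, ∑ K : Inc p n,
      |((cmp p (M v).adjugate L K : ℤ) : ℝ)| := ⟨_, rfl⟩
  have hC1' : 1 ≤ C1 := by
    rw [hC1]
    have : 0 ≤ ∑ v, ∑ L, ∑ K : Inc p n, |((cmp p (M v).adjugate L K : ℤ) : ℝ)| := by positivity
    linarith
  refine ⟨Real.log C0 + p * Real.log |((M none).det : ℝ)| + s * Real.log C1, ?_⟩
  intro c T x A g Lo Up D e hd t a Y hY ht hta haY J hJ
  -- the numbers `w v`
  obtain ⟨w, hw⟩ : ∃ w : Option (Fin s) → ℤ,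
      ∀ v, w v = ∑ L, a L * cmp p (M v).adjugate L (J v) := ⟨_, fun v => rfl⟩
  have htw : ∀ v, cmp p (M v * g).adjugate (top p n h) (J v) = t * w v := by
    intro v
    rw [hw, f6_w h1 p h (M v) g t a hta]
  have hw0 : ∀ v, w v ≠ 0 := by
    intro v hv
    apply hJ v
    rw [htw, hv, mul_zero]
  have hwY : ∀ v, |(w v : ℝ)| ≤ C1 * Y := by
    intro v
    rw [hw]
    push_cast
    calc |∑ L, (a L : ℝ) * ((cmp p (M v).adjugate L (J v) : ℤ) : ℝ)|
        ≤ ∑ L, |(a L : ℝ) * ((cmp p (M v).adjugate L (J v) : ℤ) : ℝ)| :=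
          Finset.abs_sum_le_sum_abs _ _
      _ ≤ ∑ L, Y * |((cmp p (M v).adjugate L (J v) : ℤ) : ℝ)| := by
          refine Finset.sum_le_sum fun L _ => ?_
          rw [abs_mul]
          exact mul_le_mul_of_nonneg_right (haY L) (abs_nonneg _)
      _ = Y * ∑ L, |((cmp p (M v).adjugate L (J v) : ℤ) : ℝ)| := by rw [Finset.mul_sum]
      _ ≤ Y * C1 := by
          refine mul_le_mul_of_nonneg_left ?_ (by linarith)
          rw [hC1]
          have e1 : ∑ L, |((cmp p (M v).adjugate L (J v) : ℤ) : ℝ)| ≤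
              ∑ L, ∑ K : Inc p n, |((cmp p (M v).adjugate L K : ℤ) : ℝ)| :=
            Finset.sum_le_sum fun L _ => Finset.single_le_sum
              (f := fun K : Inc p n => |((cmp p (M v).adjugate L K : ℤ) : ℝ)|)
              (fun _ _ => abs_nonneg _) (Finset.mem_univ (J v))
          have e2 : ∑ L, ∑ K : Inc p n, |((cmp p (M v).adjugate L K : ℤ) : ℝ)| ≤
              ∑ v, ∑ L, ∑ K : Inc p n, |((cmp p (M v).adjugate L K : ℤ) : ℝ)| :=
            Finset.single_le_sum
              (f := fun v => ∑ L, ∑ K : Inc p n, |((cmp p (M v).adjugate L K : ℤ) : ℝ)|)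
              (fun _ _ => by positivity) (Finset.mem_univ v)
          linarith
      _ = C1 * Y := mul_comm _ _
  -- the real place
  obtain ⟨X, hX⟩ : ∃ X, X = (M none * g).map (Int.castRingHom ℝ) := ⟨_, rfl⟩
  obtain ⟨hXdet, hXJ⟩ := hinv Lo Up X D (fun i => Real.exp (c i * T)) hd.pos
    (fun i => Real.exp_pos _) hd.A0 hd.Ab hd.A1 hd.U0 hd.Ub hd.U1 (by
      intro i j
      rw [hX, Matrix.map_apply, eq_intCast]
      exact hd.eq i j)
  have hXadj : ∀ K, cmp p X.adjugate (top p n h) K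
      = ((cmp p (M none * g).adjugate (top p n h) K : ℤ) : ℝ) := by
    intro K
    have e1 : X.adjugate = (M none * g).adjugate.map (Int.castRingHom ℝ) := by
      rw [hX]
      exact ((Int.castRingHom ℝ).map_adjugate (M none * g)).symm
    rw [e1, (h2 ℤ p n).2.2.2 ℝ (Int.castRingHom ℝ), Matrix.map_apply, eq_intCast]
  have hXd : |X.det| = |((M none).det : ℝ)| * |((g.det : ℤ) : ℝ)| := by
    have e1 : X.det = ((M none * g).det : ℤ) := by
      rw [hX]
      exact ((Int.castRingHom ℝ).map_det (M none * g)).symm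
    rw [e1, Matrix.det_mul, Int.cast_mul, abs_mul]
  have hq1 : ∀ v, (1 : ℝ) < q v := fun v => by exact_mod_cast (hq.prime v).one_lt
  have hlogq : ∀ v, 0 < Real.log (q v) := fun v => Real.log_pos (hq1 v)
  have hgd : |((g.det : ℤ) : ℝ)| = ∏ v, (q v : ℝ) ^ e v := by
    have := hd.detg
    have e2 : ((|g.det| : ℤ) : ℝ) = ((∏ v, (q v : ℤ) ^ e v : ℤ) : ℝ) := by rw [this]
    rw [Int.cast_abs, Int.cast_prod] at e2
    rw [e2]
    refine Finset.prod_congr rfl fun v _ => ?_
    push_cast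
    rfl
  have hM0 : 0 < |((M none).det : ℝ)| := abs_pos.2 (by exact_mod_cast hM none)
  have hg0 : 0 < |((g.det : ℤ) : ℝ)| := by
    rw [hgd]
    exact Finset.prod_pos fun v _ => pow_pos (by linarith [hq1 v]) _
  have hlogX : Real.log |X.det| ≤ Real.log |((M none).det : ℝ)|
      + ∑ v, (∑ i, (A v i : ℝ)) * Real.log (q v) := by
    rw [hXd, Real.log_mul hM0.ne' hg0.ne', hgd, Real.log_prod (fun v _ =>
      (pow_pos (by linarith [hq1 v]) _).ne')]
    refine add_le_add le_rfl (Finset.sum_le_sum fun v _ => ?_)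
    rw [Real.log_pow]
    refine mul_le_mul_of_nonneg_right ?_ (hlogq v).le
    exact_mod_cast hd.eA v
  have hX0 : 0 < |X.det| := by
    rw [hXd]
    positivity
  have ht0 : 0 < |(t : ℝ)| := abs_pos.2 (by exact_mod_cast ht)
  have hreal : Real.log |(t : ℝ)| + (sm c (J none) * T
      + ∑ b, Real.log (D ((top p n h).1 b))) ≤ Real.log C0 + p * Real.log |X.det| := by
    have e1 := hXJ (J none)
    rw [hXadj, htw, Int.cast_mul, abs_mul] at e1
    have hw1 : (1 : ℝ) ≤ |(w none : ℝ)| := by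
      rw [← Int.cast_abs]
      exact_mod_cast Int.one_le_abs (hw0 none)
    have hpr : 0 < pr (fun i => Real.exp (c i * T)) (J none) * pr D (top p n h) :=
      mul_pos (Finset.prod_pos fun _ _ => Real.exp_pos _) (Finset.prod_pos fun _ _ => hd.pos _)
    have e2 : |(t : ℝ)| * (pr (fun i => Real.exp (c i * T)) (J none) * pr D (top p n h))
        ≤ C0 * |X.det| ^ p := by
      refine le_trans ?_ e1
      refine mul_le_mul_of_nonneg_right ?_ hpr.le
      nlinarith
    have e3 := Real.log_le_log (mul_pos ht0 hpr) e2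
    have hp1 : 0 < pr (fun i => Real.exp (c i * T)) (J none) :=
      Finset.prod_pos fun _ _ => Real.exp_pos _
    have hp2 : 0 < pr D (top p n h) := Finset.prod_pos fun _ _ => hd.pos _
    rw [Real.log_mul ht0.ne' hpr.ne', Real.log_mul hp1.ne' hp2.ne',
      Real.log_mul (by linarith) (pow_pos hX0 _).ne', Real.log_pow] at e3
    have e4 : Real.log (pr (fun i => Real.exp (c i * T)) (J none)) = sm c (J none) * T := by
      rw [pr, ← Real.exp_sum, Real.log_exp, sm, Finset.sum_mul]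
    have e5 : Real.log (pr D (top p n h)) = ∑ b, Real.log (D ((top p n h).1 b)) := by
      rw [pr, Real.log_prod (fun b _ => (hd.pos _).ne')]
    rw [e4, e5] at e3
    exact e3
  -- the primes
  have hprime : ∀ v : Fin s, ((p : ℝ) * (∑ i, (A v i : ℝ)) - ∑ b, (A v ((J (some v)).1 b) : ℝ)
      - padicValInt (q v) t) * Real.log (q v) ≤ Real.log C1 + Real.log Y := by
    intro v
    have e1 := (h4 p n (q v) (A v) (M (some v) * g) (hd.dvd v)).2 (top p n h) (J (some v))
    rw [htw] at e1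
    have e2 := f6_prime (hq.prime v) ht (hw0 (some v)) e1 (hwY (some v))
    rw [Real.log_mul (by linarith) (by linarith)] at e2
    push_cast at e2
    exact e2
  have hcop : ∏ v, (q v : ℤ) ^ padicValInt (q v) t ∣ t := by
    apply Finset.prod_dvd_of_coprime
    · intro v _ v' _ hvv
      have hne : q v ≠ q v' := fun h => hvv (hq.inj h)
      have : IsCoprime (q v : ℤ) (q v' : ℤ) :=
        Nat.isCoprime_iff_coprime.2 ((Nat.coprime_primes (hq.prime v) (hq.prime v')).2 hne)
      exact this.pow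
    · intro v _
      have : Fact (q v).Prime := ⟨hq.prime v⟩
      exact padicValInt_dvd t
  have hval : ∑ v, (padicValInt (q v) t : ℝ) * Real.log (q v) ≤ Real.log |(t : ℝ)| := by
    have e1 : ∏ v, (q v : ℤ) ^ padicValInt (q v) t ≤ |t| :=
      Int.le_of_dvd (abs_pos.2 ht) ((dvd_abs _ _).2 hcop)
    have e2 : ∏ v, (q v : ℝ) ^ padicValInt (q v) t ≤ |(t : ℝ)| := by exact_mod_cast e1
    have e3 := Real.log_le_log
      (Finset.prod_pos fun v _ => pow_pos (by linarith [hq1 v]) _) e2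
    rw [Real.log_prod (fun v _ => (pow_pos (by linarith [hq1 v]) _).ne')] at e3
    simpa only [Real.log_pow] using e3
  have hsumv := Finset.sum_le_sum fun v (_ : v ∈ (Finset.univ : Finset (Fin s))) => hprime v
  rw [Finset.sum_const, Finset.card_univ, Fintype.card_fin, nsmul_eq_mul] at hsumv
  have hexpand : ∑ v : Fin s, ((p : ℝ) * (∑ i, (A v i : ℝ))
      - ∑ b, (A v ((J (some v)).1 b) : ℝ) - padicValInt (q v) t) * Real.log (q v)
      = p * ∑ v, (∑ i, (A v i : ℝ)) * Real.log (q v)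
        - ∑ v : Fin s, (∑ b, (A v ((J (some v)).1 b) : ℝ)) * Real.log (q v)
        - ∑ v, (padicValInt (q v) t : ℝ) * Real.log (q v) := by
    rw [Finset.mul_sum, ← Finset.sum_sub_distrib, ← Finset.sum_sub_distrib]
    refine Finset.sum_congr rfl fun v _ => ?_
    ring
  rw [hexpand] at hsumv
  have hpX : (p : ℝ) * Real.log |X.det| ≤ p * Real.log |((M none).det : ℝ)|
      + p * ∑ v, (∑ i, (A v i : ℝ)) * Real.log (q v) := by
    rw [← mul_add]
    exact mul_le_mul_of_nonneg_left hlogX (Nat.cast_nonneg _)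
  linarith

end Pool.Agent.SubQ
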