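import Pool.Agent.Lib.SubQ.SpecF

/-!
# SubQ: F7, the hyperplanes have small height
-/

set_option autoImplicit false

namespace Pool.Agent.SubQ

open Filter Topology

private lemma f7_near {𝒰 : Ultrafilter ℕ} {f : ℕ → ℝ} {a δ : ℝ} (h : Tendsto f 𝒰 (𝓝 a))
    (hδ : 0 < δ) : ∀ᶠ l in (𝒰 : Filter ℕ), |f l - a| ≤ δ := by
  have h1 := (Metric.tendsto_nhds.1 h) δ hδ
  filter_upwards [h1] with l hl
  rw [Real.dist_eq] at hl
  exact hl.le

private lemma f7_cmp {s n : ℕ} (h1 : CmpMul) (h2 : CmpBasic) (p : ℕ)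
    {q : Fin s → ℕ} {M : Option (Fin s) → Matrix (Fin n) (Fin n) ℤ} {c : Fin n → ℝ}
    {T : ℝ} {x : Fin n → ℤ} {A : Fin s → Fin n → ℕ} {g : Matrix (Fin n) (Fin n) ℤ}
    {Lo Up : Matrix (Fin n) (Fin n) ℝ} {D : Fin n → ℝ} {e : Fin s → ℕ}
    (hd : Dat q M c T x A g 1 Lo Up D e) (J I : Inc p n) :
    ((cmp p (M none * g) J I : ℤ) : ℝ) = Real.exp (sm c J * T) *
      cmp p (Matrix.of fun i j => ∑ k, Lo i k * D k * Up k j) J I := by
  have e1 : (M none * g).map (Int.castRingHom ℝ) =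
      Matrix.diagonal (fun i => Real.exp (c i * T)) *
        (Matrix.of fun i j => ∑ k, Lo i k * D k * Up k j) := by
    ext i j
    rw [Matrix.diagonal_mul]
    simp only [Matrix.map_apply, Matrix.of_apply, eq_intCast]
    exact hd.eq i j
  have e2 := (h2 ℤ p n).2.2.2 ℝ (Int.castRingHom ℝ) (M none * g)
  rw [e1, h1, (h2 ℝ p n).2.1] at e2
  have e3 := congrFun (congrFun e2 J) I
  rw [Matrix.diagonal_mul, Matrix.map_apply, eq_intCast] at e3
  rw [← e3, ← Real.exp_sum]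
  congr 2
  rw [sm, Finset.sum_mul]

theorem small (h0 : Machine) (h1 : CmpMul) (h2 : CmpBasic) (h3 : Box) (h4 : DvdCmp)
    (h5 : SumInc) : Small := by
  intro s n p q 𝒰 T x M c A g Lo Up D e μ hp1 hp2 hF hμ hμsum hgap γ hγ
  classical
  by_contra hneg
  have hneg' := Ultrafilter.eventually_not.2 hneg
  obtain ⟨K, hK⟩ : ∃ K : Fin n, K = ⟨n - p - 1, by omega⟩ := ⟨_, rfl⟩
  obtain ⟨k, hk⟩ : ∃ k : Fin n, k = ⟨n - p, by omega⟩ := ⟨_, rfl⟩
  rw [← hK, ← hk] at hgap
  obtain ⟨tp, htp⟩ : ∃ tp : Inc p n, tp = top p n hp2.le := ⟨_, rfl⟩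
  obtain ⟨C, hC1, hbox⟩ := h3 p n hp2.le
  have hlog : ∀ v, 0 < Real.log (q v) := fun v =>
    Real.log_pos (by exact_mod_cast (hF.exps.pls.prime v).one_lt)
  have hTreal : Tendsto (fun l => (T l : ℝ)) 𝒰 atTop :=
    tendsto_natCast_atTop_atTop.comp hF.exps.tend
  have hT1 : ∀ᶠ l in (𝒰 : Filter ℕ), (1 : ℝ) ≤ T l := hTreal.eventually_ge_atTop 1
  set α : Fin s → Fin n → ℝ := fun v i => -c (some v) i / Real.log (q v) with hα
  have hα0 : ∀ v i, 0 ≤ α v i := by
    intro v i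
    have h6 : 0 ≤ -c (some v) i := by
      refine ge_of_tendsto' (hF.limA v i) fun l => ?_
      have := (hlog v).le
      positivity
    exact div_nonneg h6 (hlog v).le
  have hαlim : ∀ v i, Tendsto (fun l => (A l v i : ℝ) / (T l : ℝ)) 𝒰 (𝓝 (α v i)) := by
    intro v i
    have h6 := (hF.limA v i).div_const (Real.log (q v))
    refine h6.congr fun l => ?_
    have := (hlog v).ne'
    field_simp
  set ch : Inc p n → ℝ := fun J =>
    sm (c none) J + sm μ J - (if J = tp then μ k - μ K else 0) with hch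
  have hdet : ∀ v, (cmp p (M v)).det ≠ 0 := by
    intro v h6
    have h7 := congrArg Matrix.det ((h2 ℤ p n).2.2.1 (M v)).1
    rw [Matrix.det_mul, h6, mul_zero, Matrix.det_smul, Matrix.det_one, mul_one] at h7
    exact pow_ne_zero _ (pow_ne_zero _ (hF.exps.det v)) h7.symm
  have hsum : ∑ J, ch J + (μ k - μ K) ≤
      ∑ v, ∑ J : Inc p n, (∑ a, α v (J.1 a)) * Real.log (q v) := by
    obtain ⟨κ, hκ⟩ := (h5 p n).1
    have e1 : ∑ J, ch J = κ * ∑ i, c none i + κ * ∑ i, μ i - (μ k - μ K) := by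
      rw [hch]
      simp only [Finset.sum_sub_distrib, Finset.sum_add_distrib, hκ]
      rw [Finset.sum_ite_eq' Finset.univ tp]
      simp
    have e2 : ∀ v, ∑ J : Inc p n, (∑ a, α v (J.1 a)) * Real.log (q v)
        = κ * ∑ i, -c (some v) i := by
      intro v
      rw [← Finset.sum_mul]
      have e3 := hκ (α v)
      unfold sm at e3
      rw [e3, mul_assoc, Finset.sum_mul]
      congr 1
      refine Finset.sum_congr rfl fun i _ => ?_
      rw [hα]
      have := (hlog v).ne'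
      field_simp
    rw [e1, Finset.sum_congr rfl fun v _ => e2 v, ← Finset.mul_sum, hμsum, Fintype.sum_option]
    simp only [Finset.sum_neg_distrib]
    apply le_of_eq
    ring
  refine h0 (Inc p n) {I : Inc p n // I ≠ tp} ((h5 p n).2 hp1 hp2) s q (fun v => cmp p (M v)) ch
    (fun v J => ∑ a, α v (J.1 a)) (μ k - μ K) γ hF.exps.pls hdet (by linarith) hγ
    (fun v J => Finset.sum_nonneg fun a _ => hα0 v _) hsum ?_
  intro ε hε l₀
  -- the exponents
  have hA : ∀ᶠ l in (𝒰 : Filter ℕ), ∀ v, ∀ J : Inc p n,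
      |(∑ a, (A l v (J.1 a) : ℝ)) / (T l : ℝ) - ∑ a, α v (J.1 a)| ≤ ε := by
    rw [eventually_all]
    intro v
    rw [eventually_all]
    intro J
    refine f7_near ?_ hε
    simp_rw [Finset.sum_div]
    exact tendsto_finsetSum _ fun a _ => hαlim v _
  have hC0 : Tendsto (fun l => Real.log C / (T l : ℝ)) 𝒰 (𝓝 0) :=
    Tendsto.div_atTop tendsto_const_nhds hTreal
  have hB : ∀ᶠ l in (𝒰 : Filter ℕ), ∀ J : Inc p n,
      |(Real.log C / (T l : ℝ) + ∑ a, Real.log (D l (J.1 a)) / (T l : ℝ)) - (0 + sm μ J)| ≤ ε := by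
    rw [eventually_all]
    intro J
    refine f7_near ?_ hε
    exact hC0.add (tendsto_finsetSum _ fun a _ => hμ _)
  have hB' : ∀ᶠ l in (𝒰 : Filter ℕ),
      |(Real.log C / (T l : ℝ) + ∑ a, Real.log (D l (tp.1 a)) / (T l : ℝ)
        + (Real.log (D l K) / (T l : ℝ) - Real.log (D l k) / (T l : ℝ)))
          - (0 + sm μ tp + (μ K - μ k))| ≤ ε := by
    refine f7_near ?_ hε
    exact (hC0.add (tendsto_finsetSum _ fun a _ => hμ _)).add ((hμ K).sub (hμ k))
  have hl0 : ∀ᶠ l in (𝒰 : Filter ℕ), l₀ ≤ T l := hF.exps.tend.eventually_ge_atTop l₀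
  obtain ⟨l, hnl, hd, hAl, hBl, hBl', hl, hTl⟩ :=
    (hneg'.and (hF.dat.and (hA.and (hB.and (hB'.and (hl0.and hT1)))))).exists
  refine ⟨T l, hl, ?_⟩
  have hT0 : (0 : ℝ) < T l := by linarith
  have hC0' : 0 < C := by linarith
  push Not at hnl
  obtain ⟨a, ha, hsp, J₀, hJ₀⟩ := hnl
  -- sizes
  obtain ⟨W, hW⟩ : ∃ W : Matrix (Fin n) (Fin n) ℝ,
      W = Matrix.of fun i j => ∑ k, Lo l i k * D l k * Up l k j := ⟨_, rfl⟩
  have hbx := hbox (Lo l) (Up l) W (D l) hd.pos hd.mono hd.A0 hd.Ab hd.U0 hd.Ub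
    (fun i j => by rw [hW]; rfl)
  have hcmp : ∀ J I : Inc p n, ((cmp p (M none * g l) J I : ℤ) : ℝ) =
      Real.exp (sm (c none) J * T l) * cmp p W J I := by
    intro J I
    rw [f7_cmp h1 h2 p hd, hW]
  have hexp : ∀ J : Inc p n, C * pr (D l) J =
      Real.exp ((Real.log C / (T l : ℝ) + ∑ a, Real.log (D l (J.1 a)) / (T l : ℝ)) * T l) := by
    intro J
    have e1 : (Real.log C / (T l : ℝ) + ∑ a, Real.log (D l (J.1 a)) / (T l : ℝ)) * T l
        = Real.log C + ∑ a, Real.log (D l (J.1 a)) := by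
      rw [add_mul, div_mul_cancel₀ _ hT0.ne', Finset.sum_mul]
      congr 1
      exact Finset.sum_congr rfl fun a _ => div_mul_cancel₀ _ hT0.ne'
    rw [e1, Real.exp_add, Real.exp_log hC0', Real.exp_sum, pr]
    congr 1
    exact Finset.prod_congr rfl fun a _ => (Real.exp_log (hd.pos _)).symm
  have hsize : ∀ (I : {I : Inc p n // I ≠ tp}) (J : Inc p n),
      |((cmp p (M none * g l) J I.1 : ℤ) : ℝ)| ≤ Real.exp ((ch J + ε) * T l) := by
    intro I J
    rw [hcmp, abs_mul, abs_of_pos (Real.exp_pos _)]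
    by_cases hJ : J = tp
    · subst hJ
      have hI : I.1 ≠ top p n hp2.le := by
        rw [← htp]
        exact I.2
      have h6 := hbx.2 I.1 hI hp1 hp2
      rw [← hK, ← hk, ← htp] at h6
      have h7 : |cmp p W J I.1| ≤ C * pr (D l) J * (D l K / D l k) := by
        rw [← mul_div_assoc, le_div_iff₀ (hd.pos k)]
        exact h6
      have h8 : D l K / D l k =
          Real.exp ((Real.log (D l K) / (T l : ℝ) - Real.log (D l k) / (T l : ℝ)) * T l) := by
        rw [sub_mul, div_mul_cancel₀ _ hT0.ne', div_mul_cancel₀ _ hT0.ne', Real.exp_sub,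
          Real.exp_log (hd.pos K), Real.exp_log (hd.pos k)]
      rw [hexp, h8, ← Real.exp_add] at h7
      refine (mul_le_mul_of_nonneg_left h7 (Real.exp_pos _).le).trans ?_
      rw [← Real.exp_add, Real.exp_le_exp, ← add_mul, ← add_mul]
      refine mul_le_mul_of_nonneg_right ?_ hT0.le
      have h9 := (abs_le.1 hBl').2
      rw [hch]
      simp only [if_true]
      linarith
    · have h7 := hbx.1 J I.1
      rw [hexp] at h7
      refine (mul_le_mul_of_nonneg_left h7 (Real.exp_pos _).le).trans ?_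
      rw [← Real.exp_add, Real.exp_le_exp, ← add_mul]
      refine mul_le_mul_of_nonneg_right ?_ hT0.le
      have h9 := (abs_le.1 (hBl J)).2
      rw [hch]
      simp only [hJ, if_false]
      linarith
  have happ : ∀ (v : Option (Fin s)) (I J : Inc p n),
      app (cmp p (M v)) (fun K => cmp p (g l) K I) J = cmp p (M v * g l) J I := by
    intro v I J
    rw [h1, Matrix.mul_apply]
    simp only [app, Int.cast_id]
  subst htp
  refine ⟨fun v J => ∑ b, A l v (J.1 b), fun I J => cmp p (g l) J I.1, a, ?_, ?_, ?_, ha, hsp,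
    J₀, hJ₀.le⟩
  · intro v J
    have h6 := hAl v J
    have h7 : ((∑ b, A l v (J.1 b) : ℕ) : ℝ) - (∑ a, α v (J.1 a)) * T l
        = ((∑ a, (A l v (J.1 a) : ℝ)) / (T l : ℝ) - ∑ a, α v (J.1 a)) * T l := by
      push_cast
      rw [sub_mul, div_mul_cancel₀ _ hT0.ne']
    rw [h7, abs_mul, abs_of_pos hT0]
    exact mul_le_mul_of_nonneg_right h6 hT0.le
  · intro v I J
    rw [happ]
    exact (h4 p n (q v) (A l v) (M (some v) * g l) (hd.dvd v)).1 J I.1
  · intro I J
    rw [happ]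
    exact hsize I J

end Pool.Agent.SubQ
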