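import Pool.Agent.Lib.SubQ.SpecF

/-!
# SubQ: F8, the induction step
-/

set_option autoImplicit false

namespace Pool.Agent.SubQ

open Filter Topology

private lemma f8_adj {n : ℕ} (p : ℕ) (h : p ≤ n)
    (g M : Matrix (Fin n) (Fin n) ℤ) (J : Inc p n) :
    ((g.adjugate.submatrix (top p n h).1 id * M.adjugate).submatrix id J.1).det
      = cmp p (M * g).adjugate (top p n h) J := by
  rw [Matrix.adjugate_mul_distrib]
  rfl

private lemma f8_exists {n : ℕ} (x2 : CmpBasic) (p : ℕ) (h : p ≤ n)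
    (X : Matrix (Fin n) (Fin n) ℤ) (hX : X.det ≠ 0) :
    ∃ J : Inc p n, cmp p X.adjugate (top p n h) J ≠ 0 := by
  by_contra hcon
  push Not at hcon
  have h1 := ((x2 ℤ p n).2.2.1 X).1
  have h2 := congrFun (congrFun h1 (top p n h)) (top p n h)
  rw [Matrix.mul_apply, Finset.sum_eq_zero (fun J _ => by rw [hcon J, zero_mul])] at h2
  simp only [Matrix.smul_apply, Matrix.one_apply_eq, smul_eq_mul, mul_one] at h2
  exact pow_ne_zero p hX h2.symm

private lemma f8_indep {p n : ℕ} (Z : Matrix (Fin p) (Fin n) ℤ) (B : Matrix (Fin n) (Fin n) ℤ)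
    (J : Inc p n) (hJ : ((Z * B).submatrix id J.1).det ≠ 0) (z : Fin p → ℤ) (hz : z ≠ 0) :
    ∃ i, ∑ a, z a * Z a i ≠ 0 := by
  by_contra hcon
  push Not at hcon
  apply hz
  apply Matrix.eq_zero_of_vecMul_eq_zero hJ
  funext b
  simp only [Matrix.vecMul, dotProduct, Matrix.submatrix_apply, id, Matrix.mul_apply,
    Pi.zero_apply, Finset.mul_sum]
  rw [Finset.sum_comm]
  apply Finset.sum_eq_zero
  intro i _
  have h1 : ∑ a, z a * (Z a i * B i (J.1 b)) = (∑ a, z a * Z a i) * B i (J.1 b) := by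
    rw [Finset.sum_mul]
    exact Finset.sum_congr rfl fun a _ => by ring
  rw [h1, hcon i, zero_mul]

theorem step (h1 : LimEx) (h3 : FamEx) (h4 : Restrict) (h5 : Mu) (h6 : OneIndex) (h7 : Small)
    (x2 : CmpBasic) (x9 : Exch) (x10 : SpanCol) : Step := by
  intro n ih s q 𝒰 T x M₀ c₀ hE₀
  by_contra hneg
  push Not at hneg
  obtain ⟨M, c, A, g, Lo, Up, D, e, hF, hsum⟩ := h3 s n q 𝒰 T x M₀ c₀ hE₀
  have hn : 0 < n := by
    rcases Nat.eq_zero_or_pos n with h | h
    · subst h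
      simp at hneg
    · exact h
  obtain ⟨μ, hμ, hmono, hμ0, hμsum⟩ := h5 s n q 𝒰 T x M c A g Lo Up D e hF hn
  have hμpos : 0 < ∑ i, μ i := by
    rw [hμsum, hsum]
    linarith
  -- the least index with a positive limit
  have hex : ∃ k : ℕ, ∃ hk : k < n, 0 < μ ⟨k, hk⟩ := by
    by_contra hcon
    push Not at hcon
    have : ∑ i, μ i ≤ 0 := Finset.sum_nonpos fun i _ => hcon i.1 i.2
    linarith
  classical
  obtain ⟨k, ⟨hk, hμk⟩, hmin⟩ : ∃ k : ℕ, (∃ hk : k < n, 0 < μ ⟨k, hk⟩) ∧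
      ∀ j < k, ¬ ∃ hj : j < n, 0 < μ ⟨j, hj⟩ :=
    ⟨Nat.find hex, Nat.find_spec hex, fun j hj => Nat.find_min hex hj⟩
  have hk0 : 0 < k := by
    rcases Nat.eq_zero_or_pos k with h | h
    · subst h
      have := hμ0 ⟨0, hk⟩ rfl
      linarith
    · exact h
  obtain ⟨p, hp⟩ : ∃ p, p = n - k := ⟨_, rfl⟩
  have hp1 : 1 ≤ p := by omega
  have hp2 : p < n := by omega
  have hnp : n - p = k := by omega
  have hgap : μ ⟨n - p - 1, by omega⟩ < μ ⟨n - p, by omega⟩ := by
    have e1 : (⟨n - p, by omega⟩ : Fin n) = ⟨k, hk⟩ := by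
      apply Fin.ext
      exact hnp
    rw [e1]
    have h8 := hmin (k - 1) (by omega)
    push Not at h8
    have h9 := h8 (by omega)
    have e2 : (⟨n - p - 1, by omega⟩ : Fin n) = ⟨k - 1, by omega⟩ := by
      apply Fin.ext
      simp only
      omega
    rw [e2]
    linarith
  have htop : ∀ b, 0 < μ ((top p n hp2.le).1 b) := by
    intro b
    have h8 : (⟨k, hk⟩ : Fin n) ≤ (top p n hp2.le).1 b := by
      rw [Fin.le_def]
      simp only [top]
      omega
    exact lt_of_lt_of_le hμk (hmono _ _ h8)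
  set m : ℝ := ∑ b, μ ((top p n hp2.le).1 b) with hm
  have hmpos : 0 < m := by
    have : Nonempty (Fin p) := ⟨⟨0, by omega⟩⟩
    exact Finset.sum_pos (fun b _ => htop b) Finset.univ_nonempty
  -- the type
  let f : ℕ → (Option (Fin s) → Inc p n → Bool) := fun l v J =>
    decide (cmp p (M v * g l).adjugate (top p n hp2.le) J ≠ 0)
  obtain ⟨τ, hτ⟩ := h1.2 𝒰 (Option (Fin s) → Inc p n → Bool) f
  obtain ⟨l₀, hl₀, hdat₀⟩ := (hτ.and hF.dat).exists
  have hdet : ∀ l, (Dat q M (c none) (T l) (x l) (A l) (g l) 1 (Lo l) (Up l) (D l) (e l)) →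
      (g l).det ≠ 0 := by
    intro l hd h0
    have h8 := hd.detg
    rw [h0, abs_zero] at h8
    have h9 : (0 : ℤ) < ∏ v, (q v : ℤ) ^ e l v := by
      apply Finset.prod_pos
      intro v _
      have := (hF.exps.pls.prime v).pos
      positivity
    omega
  have hMg : ∀ v, (M v * g l₀).det ≠ 0 := by
    intro v
    rw [Matrix.det_mul]
    exact mul_ne_zero (hF.exps.det v) (hdet l₀ hdat₀)
  -- the forms
  have hforms : ∀ v, ∃ (J : Inc p n) (F : Matrix (Fin p) (Fin p) ℤ),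
      cmp p (M v * g l₀).adjugate (top p n hp2.le) J ≠ 0 ∧ F.det ≠ 0 ∧
      ∀ a i, (F * (g l₀).adjugate.submatrix (top p n hp2.le).1 id * (M v).adjugate) a i ≠ 0 →
        c v i ≤ c v (J.1 a) := by
    intro v
    obtain ⟨J, hJ⟩ := f8_exists x2 p hp2.le (M v * g l₀) (hMg v)
    rw [← f8_adj] at hJ
    obtain ⟨J', F, hJ', hF', hc⟩ := x9 p n _ (c v) ⟨J, hJ⟩
    refine ⟨J', F, ?_, hF', ?_⟩
    · rw [← f8_adj]
      exact hJ'
    · intro a i hai
      rw [Matrix.mul_assoc] at hai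
      exact hc a i hai
  choose J F hJ hFdet hJc using hforms
  have hZ : ∀ z : Fin p → ℤ, z ≠ 0 →
      ∃ i, ∑ a, z a * (g l₀).adjugate.submatrix (top p n hp2.le).1 id a i ≠ 0 := by
    intro z hz
    have h8 := hJ none
    rw [← f8_adj] at h8
    exact f8_indep _ _ _ h8 z hz
  have hSub := h4 p s n q 𝒰 T x M c _ (fun v => (J v).1) F (ih p hp2) hF.exps hZ hFdet hJc
  -- the upper bound
  obtain ⟨C, hC⟩ := h6 s n p q M hp2.le hF.exps.pls hF.exps.det
  set γ : ℝ := m / (2 * (s + 1)) with hγ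
  have hγpos : 0 < γ := by positivity
  have hsmall := h7 s n p q 𝒰 T x M c A g Lo Up D e μ hp1 hp2 hF hμ hμsum hgap γ hγpos
  have hTreal : Tendsto (fun l => (T l : ℝ)) 𝒰 atTop :=
    tendsto_natCast_atTop_atTop.comp hF.exps.tend
  have hT1 : ∀ᶠ l in (𝒰 : Filter ℕ), (1 : ℝ) ≤ T l := hTreal.eventually_ge_atTop 1
  have hineq : ∀ᶠ l in (𝒰 : Filter ℕ),
      sm (c none) (J none) + ∑ b, Real.log (D l ((top p n hp2.le).1 b)) / (T l : ℝ)
        ≤ ∑ v : Fin s, (∑ b, (A l v ((J (some v)).1 b) : ℝ) * Real.log (q v) / (T l : ℝ))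
          + s * γ + C / (T l : ℝ) := by
    filter_upwards [hτ, hF.dat, hsmall, hT1] with l hl hd hs hT
    have hT0 : (0 : ℝ) < T l := by linarith
    obtain ⟨t, a, ht, ha, hta, hsp⟩ := x10 p n hp2.le (g l) (hdet l hd)
    have hty : ∀ v, cmp p (M v * g l).adjugate (top p n hp2.le) (J v) ≠ 0 := by
      intro v
      have e1 : f l v (J v) = f l₀ v (J v) := by rw [hl, hl₀]
      have e2 : f l₀ v (J v) = true := decide_eq_true (hJ v)
      rw [e2] at e1
      exact of_decide_eq_true e1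
    have h8 := hC (c none) (T l) (x l) (A l) (g l) (Lo l) (Up l) (D l) (e l) hd t a
      (Real.exp (γ * T l)) (Real.one_le_exp (by positivity)) ht hta (hs a ha hsp) J hty
    rw [Real.log_exp] at h8
    have h9 := div_le_div_of_nonneg_right h8 hT0.le
    have e3 : (sm (c none) (J none) * (T l : ℝ)
        + ∑ b, Real.log (D l ((top p n hp2.le).1 b))) / (T l : ℝ)
        = sm (c none) (J none) + ∑ b, Real.log (D l ((top p n hp2.le).1 b)) / (T l : ℝ) := by
      rw [add_div, mul_div_assoc, div_self hT0.ne', mul_one, Finset.sum_div]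
    have e4 : (∑ v : Fin s, (∑ b, (A l v ((J (some v)).1 b) : ℝ)) * Real.log (q v)
              + s * (γ * T l) + C) / (T l : ℝ)
        = ∑ v : Fin s, (∑ b, (A l v ((J (some v)).1 b) : ℝ) * Real.log (q v) / (T l : ℝ))
          + s * γ + C / (T l : ℝ) := by
      rw [add_div, add_div, Finset.sum_div]
      congr 1
      congr 1
      · refine Finset.sum_congr rfl fun v _ => ?_
        rw [Finset.sum_mul, Finset.sum_div]
      · field_simp
    rw [e3, e4] at h9
    exact h9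
  have hlim1 : Tendsto (fun l => sm (c none) (J none)
      + ∑ b, Real.log (D l ((top p n hp2.le).1 b)) / (T l : ℝ)) 𝒰
      (𝓝 (sm (c none) (J none) + m)) :=
    tendsto_const_nhds.add (tendsto_finsetSum _ fun b _ => hμ _)
  have hlim2 : Tendsto (fun l => ∑ v : Fin s,
        (∑ b, (A l v ((J (some v)).1 b) : ℝ) * Real.log (q v) / (T l : ℝ))
          + s * γ + C / (T l : ℝ)) 𝒰
      (𝓝 (∑ v : Fin s, (∑ b, -c (some v) ((J (some v)).1 b)) + s * γ + 0)) := by
    refine Tendsto.add (Tendsto.add ?_ tendsto_const_nhds) ?_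
    · exact tendsto_finsetSum _ fun v _ => tendsto_finsetSum _ fun b _ => hF.limA v _
    · exact Tendsto.div_atTop tendsto_const_nhds hTreal
  have hfin := le_of_tendsto_of_tendsto hlim1 hlim2 hineq
  have hsplit : ∑ v, ∑ a, c v ((J v).1 a)
      = sm (c none) (J none) + ∑ v : Fin s, ∑ a, c (some v) ((J (some v)).1 a) := by
    rw [Fintype.sum_option]
    rfl
  simp only [Finset.sum_neg_distrib] at hfin
  have hsγ : (s : ℝ) * γ ≤ m / 2 := by
    rw [hγ]
    have hs0 : (0 : ℝ) ≤ s := Nat.cast_nonneg s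
    rw [mul_div_assoc', div_le_div_iff₀ (by positivity) (by norm_num)]
    nlinarith
  rw [hsplit] at hSub
  linarith

end Pool.Agent.SubQ
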