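import Pool.Agent.Lib.SubQ.SpecL

/-!
# SubQ L1: a shortest vector (helper66)
-/

set_option autoImplicit false

namespace Pool.Agent.SubQ

theorem short : Short := by
  intro n Y hn hY
  set K : ℝ := ∑ i, ∑ k, |Y⁻¹ i k| with hK
  have hK0 : 0 ≤ K := Finset.sum_nonneg fun i _ => Finset.sum_nonneg fun k _ => abs_nonneg _
  have hnr : ∀ z : Fin n → ℤ, 0 ≤ nr Y z := fun z => norm_nonneg _
  have hu : IsUnit Y.det := isUnit_iff_ne_zero.mpr hY
  -- bound of the coordinates
  have hbound : ∀ (z : Fin n → ℤ) (i : Fin n), |(z i : ℝ)| ≤ K * nr Y z := by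
    intro z i
    have h1 : Y⁻¹.mulVec (Y.mulVec fun k => (z k : ℝ)) = fun k => (z k : ℝ) := by
      rw [Matrix.mulVec_mulVec, Matrix.nonsing_inv_mul _ hu, Matrix.one_mulVec]
    have h2 : (z i : ℝ) = ∑ k, Y⁻¹ i k * (Y.mulVec fun k => (z k : ℝ)) k := by
      have := congrFun h1 i
      simp only [Matrix.mulVec, dotProduct] at this ⊢
      exact this.symm
    have h3 : ∀ k, |(Y.mulVec fun k => (z k : ℝ)) k| ≤ nr Y z := by
      intro k
      exact norm_le_pi_norm (fun i => ∑ k, Y i k * (z k : ℝ)) k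
    rw [h2]
    refine (Finset.abs_sum_le_sum_abs _ _).trans ?_
    calc ∑ k, |Y⁻¹ i k * (Y.mulVec fun k => (z k : ℝ)) k|
        ≤ ∑ k, |Y⁻¹ i k| * nr Y z := by
          refine Finset.sum_le_sum fun k _ => ?_
          rw [abs_mul]
          exact mul_le_mul_of_nonneg_left (h3 k) (abs_nonneg _)
      _ = (∑ k, |Y⁻¹ i k|) * nr Y z := by rw [Finset.sum_mul]
      _ ≤ K * nr Y z := by
          refine mul_le_mul_of_nonneg_right ?_ (hnr z)
          exact Finset.single_le_sum (f := fun i => ∑ k, |Y⁻¹ i k|)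
            (fun i _ => Finset.sum_nonneg fun k _ => abs_nonneg _) (Finset.mem_univ i)
  -- finiteness
  have hfin : ∀ R : ℝ, {z : Fin n → ℤ | nr Y z ≤ R}.Finite := by
    intro R
    set N : ℤ := ⌈K * R⌉
    refine (Set.finite_Icc (fun _ : Fin n => -N) (fun _ => N)).subset ?_
    intro z hz
    have hz' : nr Y z ≤ R := hz
    have h : ∀ i, |z i| ≤ N := by
      intro i
      have h1 : |(z i : ℝ)| ≤ K * R := (hbound z i).trans (mul_le_mul_of_nonneg_left hz' hK0)
      have h2 : ((|z i| : ℤ) : ℝ) ≤ (N : ℝ) := by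
        rw [Int.cast_abs]
        exact h1.trans (Int.le_ceil _)
      exact_mod_cast h2
    exact ⟨fun i => (abs_le.mp (h i)).1, fun i => (abs_le.mp (h i)).2⟩
  -- a nonzero vector
  set e : Fin n → ℤ := fun i => if i = ⟨0, hn⟩ then 1 else 0
  have he : e ≠ 0 := by
    intro h
    have := congrFun h ⟨0, hn⟩
    simp [e] at this
  set S : Set (Fin n → ℤ) := {z | z ≠ 0 ∧ nr Y z ≤ nr Y e} with hS
  have hSfin : S.Finite := (hfin (nr Y e)).subset fun z hz => hz.2
  have hSne : S.Nonempty := ⟨e, he, le_rfl⟩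
  obtain ⟨z, hzS, hmin⟩ := Set.exists_min_image S (nr Y) hSfin hSne
  refine ⟨z, hzS.1, fun z' hz' => ?_⟩
  by_cases h : nr Y z' ≤ nr Y e
  · exact hmin z' ⟨hz', h⟩
  · exact hzS.2.trans (not_le.mp h).le

end Pool.Agent.SubQ
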