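import Pool.Agent.Lib.SubQ.SpecL

/-! SubQ: L2, a primitive vector is the first column of a unimodular matrix (helper93) -/

set_option autoImplicit false

namespace Pool.Agent.SubQ

private theorem L2_bezout {ι : Type} [Fintype ι] (z : ι → ℤ) (hz : Prim z) :
    ∃ a : ι → ℤ, ∑ i, a i * z i = 1 := by
  set I : Ideal ℤ := Ideal.span (Set.range z) with hI
  obtain ⟨g, hg⟩ := (IsPrincipalIdealRing.principal I).principal
  have hgz : ∀ i, g ∣ z i := by
    intro i
    have h1 : z i ∈ I := Ideal.subset_span ⟨i, rfl⟩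
    rw [hg] at h1
    exact Ideal.mem_span_singleton.1 h1
  have hu := hz g hgz
  have h1 : (1 : ℤ) ∈ I := by
    rw [hg]
    exact Ideal.mem_span_singleton.2 hu.dvd
  exact Ideal.mem_span_range_iff_exists_fun.1 h1

theorem primCol : PrimCol := by
  intro n z hz
  obtain ⟨a, ha⟩ := L2_bezout z hz
  set f : (Fin (n + 1) → ℤ) →ₗ[ℤ] ℤ := ∑ i, a i • LinearMap.proj i with hf
  have hfx : ∀ x, f x = ∑ i, a i * x i := by
    intro x
    simp [hf, LinearMap.sum_apply]
  have hfz : f z = 1 := by rw [hfx, ha]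
  obtain ⟨m, b⟩ := Submodule.basisOfPid (Pi.basisFun ℤ (Fin (n + 1))) (LinearMap.ker f)
  obtain ⟨B, hB⟩ : ∃ B : Module.Basis (Fin (m + 1)) ℤ (Fin (n + 1) → ℤ), B 0 = z := by
    refine ⟨Module.Basis.mkFinCons z b ?_ ?_, ?_⟩
    · intro c x hx h
      have h1 : f (c • z + x) = 0 := by rw [h, map_zero]
      rw [map_add, map_smul, hfz, LinearMap.mem_ker.1 hx] at h1
      simpa using h1
    · intro x
      refine ⟨-f x, ?_⟩
      rw [LinearMap.mem_ker, map_add, map_smul, hfz]
      simp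
    · rw [Module.Basis.coe_mkFinCons]
      rfl
  have hmn : m = n := by
    have h1 := Module.finrank_eq_card_basis B
    have h2 := Module.finrank_eq_card_basis (Pi.basisFun ℤ (Fin (n + 1)))
    rw [h2] at h1
    simpa using h1.symm
  subst hmn
  refine ⟨(Pi.basisFun ℤ (Fin (m + 1))).toMatrix B, ?_, ?_⟩
  · rw [← Module.Basis.det_apply]
    exact (Pi.basisFun ℤ (Fin (m + 1))).isUnit_det B
  · intro i
    rw [Module.Basis.toMatrix_apply, hB]
    rfl

end Pool.Agent.SubQ
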