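import Pool.Agent.Lib.SubQ.SpecL

/-! SubQ: L3, one step of the lattice reduction (helper93) -/

set_option autoImplicit false

namespace Pool.Agent.SubQ

private theorem L3_nr_pos {n : ℕ} {Y : Matrix (Fin n) (Fin n) ℝ} (hY : Y.det ≠ 0) {z : Fin n → ℤ}
    (hz : z ≠ 0) : 0 < nr Y z := by
  unfold nr
  rw [norm_pos_iff]
  intro h
  apply hz
  have h1 : Y.mulVec (fun k => (z k : ℝ)) = 0 := h
  have h2 := Matrix.eq_zero_of_mulVec_eq_zero hY h1
  funext k
  have h3 : ((z k : ℤ) : ℝ) = 0 := congrFun h2 k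
  show z k = 0
  exact_mod_cast h3

private theorem L3_nr_smul {n : ℕ} (Y : Matrix (Fin n) (Fin n) ℝ) (g : ℤ) (z : Fin n → ℤ) :
    nr Y (fun i => g * z i) = |(g : ℝ)| * nr Y z := by
  unfold nr
  rw [← Real.norm_eq_abs, ← norm_smul]
  congr 1
  funext i
  simp only [Pi.smul_apply, smul_eq_mul, Finset.mul_sum]
  refine Finset.sum_congr rfl fun k _ => ?_
  push_cast
  ring

private theorem L3_prim {n : ℕ} {Y : Matrix (Fin n) (Fin n) ℝ} (hY : Y.det ≠ 0) {z : Fin n → ℤ}
    (hz : z ≠ 0) (hmin : ∀ z' : Fin n → ℤ, z' ≠ 0 → nr Y z ≤ nr Y z') : Prim z := by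
  intro g hg
  choose w hw using hg
  have hzw : z = fun i => g * w i := funext hw
  have hw0 : w ≠ 0 := by
    rintro rfl
    apply hz
    rw [hzw]
    funext i
    simp
  have hg0 : g ≠ 0 := by
    rintro rfl
    apply hz
    rw [hzw]
    funext i
    simp
  have h1 := hmin w hw0
  have h2 := L3_nr_pos hY hw0
  have h3 : nr Y z = |(g : ℝ)| * nr Y w := by rw [hzw]; exact L3_nr_smul Y g w
  rw [h3] at h1
  have h4 : |(g : ℝ)| ≤ 1 := by
    by_contra hcon
    push Not at hcon
    nlinarith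
  have h5 : |g| ≤ 1 := by exact_mod_cast h4
  have h6 : 1 ≤ |g| := Int.one_le_abs hg0
  exact Int.isUnit_iff_abs_eq.2 (le_antisymm h5 h6)

private theorem L3_start (h1 : Short) {n : ℕ} (hn : 0 < n) {Y : Matrix (Fin n) (Fin n) ℝ}
    (hY : Y.det ≠ 0) : ∃ (z : Fin n → ℤ) (i₀ : Fin n), z ≠ 0 ∧ Prim z ∧
      (∀ z' : Fin n → ℤ, z' ≠ 0 → nr Y z ≤ nr Y z') ∧ ∑ k, Y i₀ k * (z k : ℝ) = nr Y z := by
  obtain ⟨z₀, hz₀, hmin⟩ := h1 n Y hn hY
  obtain ⟨i₀, hi₀⟩ : ∃ i, |∑ k, Y i k * (z₀ k : ℝ)| = nr Y z₀ := by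
    by_contra hcon
    push Not at hcon
    have h2 : nr Y z₀ < nr Y z₀ := by
      conv_lhs => unfold nr
      rw [pi_norm_lt_iff (L3_nr_pos hY hz₀)]
      intro i
      refine lt_of_le_of_ne ?_ (hcon i)
      exact norm_le_pi_norm (fun i => ∑ k, Y i k * (z₀ k : ℝ)) i
    exact lt_irrefl _ h2
  obtain ⟨σ, hσ1, hσ2⟩ : ∃ σ : ℤ, |σ| = 1 ∧
      (σ : ℝ) * ∑ k, Y i₀ k * (z₀ k : ℝ) = |∑ k, Y i₀ k * (z₀ k : ℝ)| := by
    rcases le_total 0 (∑ k, Y i₀ k * (z₀ k : ℝ)) with h | h
    · exact ⟨1, by simp, by rw [abs_of_nonneg h]; simp⟩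
    · exact ⟨-1, by simp, by rw [abs_of_nonpos h]; simp⟩
  have hσR : |(σ : ℝ)| = 1 := by exact_mod_cast hσ1
  have hσ0 : σ ≠ 0 := by rintro rfl; simp at hσ1
  have hnr : nr Y (fun i => σ * z₀ i) = nr Y z₀ := by rw [L3_nr_smul, hσR, one_mul]
  have hne : (fun i => σ * z₀ i) ≠ 0 := by
    intro h
    apply hz₀
    funext i
    have := congrFun h i
    simpa [hσ0] using this
  have hmin' : ∀ z' : Fin n → ℤ, z' ≠ 0 → nr Y (fun i => σ * z₀ i) ≤ nr Y z' := by
    intro z' hz'
    rw [hnr]; exact hmin z' hz'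
  refine ⟨fun i => σ * z₀ i, i₀, hne, L3_prim hY hne hmin', hmin', ?_⟩
  rw [hnr, ← hi₀, ← hσ2, Finset.mul_sum]
  refine Finset.sum_congr rfl fun k _ => ?_
  push_cast
  ring

theorem redStep (h1 : Short) (h2 : PrimCol) : RedStep := by
  intro n Y hY hred
  obtain ⟨z₁, i₀, hz₁, hprim, hmin, hnorm⟩ := L3_start h1 (Nat.succ_pos n) hY
  obtain ⟨G₁, hG₁, hG₁z⟩ := h2 n z₁ hprim
  set D₀ : ℝ := nr Y z₁ with hD₀
  have hD₀pos : 0 < D₀ := L3_nr_pos hY hz₁
  set π₁ : Equiv.Perm (Fin (n + 1)) := Equiv.swap 0 i₀ with hπ₁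
  have hπ₁0 : π₁ 0 = i₀ := Equiv.swap_apply_left 0 i₀
  set Y' : Matrix (Fin (n + 1)) (Fin (n + 1)) ℝ := fun i j => ∑ k, Y (π₁ i) k * (G₁ k j : ℝ) with hY'
  have hY'00 : Y' 0 0 = D₀ := by
    simp only [hY', hπ₁0, hG₁z]
    exact hnorm
  have hY'i0 : ∀ i, |Y' i 0| ≤ D₀ := by
    intro i
    simp only [hY', hG₁z]
    exact norm_le_pi_norm (fun i => ∑ k, Y i k * (z₁ k : ℝ)) (π₁ i)
  have hY'det : Y'.det ≠ 0 := by
    have e1 : Y' = (Y.submatrix π₁ id) * G₁.map (Int.castRingHom ℝ) := by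
      ext i j
      rw [Matrix.mul_apply]
      rfl
    have e2 : (G₁.map (Int.castRingHom ℝ)).det = (G₁.det : ℝ) := by
      have h4 := RingHom.map_det (Int.castRingHom ℝ) G₁
      rw [← RingHom.mapMatrix_apply, ← h4]; rfl
    rw [e1, Matrix.det_mul, Matrix.det_permute, e2]
    refine mul_ne_zero (mul_ne_zero ?_ hY) ?_
    · rcases Int.units_eq_one_or (Equiv.Perm.sign π₁) with h | h <;> rw [h] <;> simp
    · exact_mod_cast hG₁.ne_zero
  set a : Fin n → ℝ := fun i => Y' i.succ 0 / D₀ with ha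
  set b : Fin n → ℝ := fun j => Y' 0 j.succ with hb
  set Y'' : Matrix (Fin n) (Fin n) ℝ := fun i j => Y' i.succ j.succ - a i * b j with hY''
  have haD : ∀ i, Y' i.succ 0 = a i * D₀ := fun i => by
    simp only [ha]
    field_simp
  have hYY : ∀ i j, Y' i.succ j.succ = Y'' i j + a i * b j := fun i j => by
    simp only [hY'']; ring
  have hY''det : Y''.det ≠ 0 := by
    intro h0
    obtain ⟨v, hv0, hv⟩ := Matrix.exists_mulVec_eq_zero_iff.2 h0
    set v' : Fin (n + 1) → ℝ := Fin.cons (-(∑ j, b j * v j) / D₀) v with hv'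
    have hYv : ∀ i, ∑ j, Y'' i j * v j = 0 := fun i => congrFun hv i
    have hker : Y'.mulVec v' = 0 := by
      funext i
      show ∑ j, Y' i j * v' j = 0
      rw [Fin.sum_univ_succ]
      simp only [hv', Fin.cons_zero, Fin.cons_succ]
      refine Fin.cases ?_ (fun i => ?_) i
      · rw [hY'00]
        field_simp
        simp only [hb]
        ring
      · rw [haD]
        have e1 : ∑ j, Y' i.succ j.succ * v j = a i * ∑ j, b j * v j := by
          have e2 : ∀ j, Y' i.succ j.succ * v j = Y'' i j * v j + a i * (b j * v j) := fun j => by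
            rw [hYY]; ring
          rw [Finset.sum_congr rfl (fun j _ => e2 j), Finset.sum_add_distrib, hYv, zero_add,
            Finset.mul_sum]
        rw [e1]
        field_simp
        ring
    have h3 := Matrix.eq_zero_of_mulVec_eq_zero hY'det hker
    apply hv0
    funext j
    have h4 := congrFun h3 j.succ
    simpa [hv'] using h4
  obtain ⟨G₂, π₂, A₂, U₂, D₂, R₂⟩ := hred Y'' hY''det
  set bG : Fin n → ℝ := fun j => ∑ k, b k * (G₂ k j : ℝ) with hbG
  set t : Fin n → ℤ := fun j => round (bG j / D₀) with ht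
  set H : Matrix (Fin (n + 1)) (Fin (n + 1)) ℤ := fun i j =>
    Fin.cases (Fin.cases 1 (fun j => -t j) j) (fun i => Fin.cases 0 (fun j => G₂ i j) j) i with hH
  have H00 : H 0 0 = 1 := rfl
  have H0s : ∀ j : Fin n, H 0 j.succ = -t j := fun j => rfl
  have Hs0 : ∀ i : Fin n, H i.succ 0 = 0 := fun i => rfl
  have Hss : ∀ i j : Fin n, H i.succ j.succ = G₂ i j := fun i j => rfl
  have hHdet : H.det = G₂.det := by
    rw [Matrix.det_succ_column_zero, Fin.sum_univ_succ]
    simp only [Hs0, H00, mul_zero, zero_mul, Finset.sum_const_zero, add_zero, Fin.val_zero, pow_zero,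
      one_mul]
    rfl
  set π₂' : Equiv.Perm (Fin (n + 1)) := Equiv.Perm.decomposeFin.symm (0, π₂) with hπ₂'
  have hπ₂0 : π₂' 0 = 0 := Equiv.Perm.decomposeFin_symm_apply_zero 0 π₂
  have hπ₂s : ∀ i : Fin n, π₂' i.succ = (π₂ i).succ := fun i => by
    rw [hπ₂', Equiv.Perm.decomposeFin_symm_apply_succ]
    simp
  set A : Matrix (Fin (n + 1)) (Fin (n + 1)) ℝ := fun i j =>
    Fin.cases (Fin.cases 1 (fun _ => 0) j) (fun i => Fin.cases (a (π₂ i)) (fun j => A₂ i j) j) i with hA
  have A00 : A 0 0 = 1 := rfl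
  have A0s : ∀ j : Fin n, A 0 j.succ = 0 := fun j => rfl
  have As0 : ∀ i : Fin n, A i.succ 0 = a (π₂ i) := fun i => rfl
  have Ass : ∀ i j : Fin n, A i.succ j.succ = A₂ i j := fun i j => rfl
  set U : Matrix (Fin (n + 1)) (Fin (n + 1)) ℝ := fun i j =>
    Fin.cases (Fin.cases 1 (fun j => bG j / D₀ - t j) j) (fun i => Fin.cases 0 (fun j => U₂ i j) j) i
    with hU
  have U00 : U 0 0 = 1 := rfl
  have U0s : ∀ j : Fin n, U 0 j.succ = bG j / D₀ - t j := fun j => rfl
  have Us0 : ∀ i : Fin n, U i.succ 0 = 0 := fun i => rfl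
  have Uss : ∀ i j : Fin n, U i.succ j.succ = U₂ i j := fun i j => rfl
  set D : Fin (n + 1) → ℝ := Fin.cons D₀ D₂ with hD
  have D0 : D 0 = D₀ := rfl
  have Ds : ∀ i : Fin n, D i.succ = D₂ i := fun i => rfl
  have hunit : IsUnit (G₁ * H).det := by
    rw [Matrix.det_mul, hHdet]
    exact hG₁.mul R₂.unit
  have heq : ∀ i j, ∑ k, Y ((π₂'.trans π₁) i) k * ((G₁ * H) k j : ℝ) = ∑ k, A i k * D k * U k j := by
    intro i j
    have e1 : ∑ k, Y ((π₂'.trans π₁) i) k * ((G₁ * H) k j : ℝ) = ∑ l, Y' (π₂' i) l * (H l j : ℝ) := by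
      simp only [hY', Matrix.mul_apply, Finset.sum_mul]
      push_cast
      simp only [Finset.mul_sum]
      rw [Finset.sum_comm]
      refine Finset.sum_congr rfl fun l _ => Finset.sum_congr rfl fun k _ => ?_
      show Y (π₁ (π₂' i)) k * _ = _
      ring
    rw [e1, Fin.sum_univ_succ, Fin.sum_univ_succ]
    refine Fin.cases ?_ (fun i => ?_) i
    · refine Fin.cases ?_ (fun j => ?_) j
      · simp only [hπ₂0, hY'00, H00, Hs0, A00, D0, U00, A0s]
        simp
      · simp only [hπ₂0, hY'00, H0s, Hss, A00, D0, U0s, A0s]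
        have e2 : ∑ l, Y' 0 l.succ * (G₂ l j : ℝ) = bG j := rfl
        rw [e2]
        push_cast
        simp only [zero_mul, Finset.sum_const_zero, add_zero]
        field_simp
        ring
    · refine Fin.cases ?_ (fun j => ?_) j
      · simp only [hπ₂s, haD, H00, Hs0, As0, D0, U00, Us0]
        simp
      · simp only [hπ₂s, haD, H0s, Hss, As0, D0, U0s, Ass, Ds, Uss]
        have e2 : ∑ l, Y' (π₂ i).succ l.succ * (G₂ l j : ℝ) =
            ∑ k, A₂ i k * D₂ k * U₂ k j + a (π₂ i) * bG j := by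
          rw [← R₂.eq i j]
          simp only [hbG, Finset.mul_sum]
          rw [← Finset.sum_add_distrib]
          refine Finset.sum_congr rfl fun l _ => ?_
          rw [hYY]; ring
        rw [e2]
        push_cast
        field_simp
        ring
  have hUb : ∀ j : Fin n, |bG j / D₀ - t j| ≤ 1 / 2 := fun j => abs_sub_round _
  have hAb : ∀ i j, |A i j| ≤ 1 := by
    intro i j
    refine Fin.cases ?_ (fun i => ?_) i
    · refine Fin.cases ?_ (fun j => ?_) j
      · rw [A00]; simp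
      · rw [A0s]; simp
    · refine Fin.cases ?_ (fun j => ?_) j
      · rw [As0]
        simp only [ha]
        rw [abs_div, abs_of_pos hD₀pos, div_le_one hD₀pos]
        exact hY'i0 _
      · rw [Ass]; exact R₂.Ab i j
  have hkey : ∀ i0 : Fin n, i0.val = 0 → D₀ ≤ 2 * D₂ i0 := by
    intro i0 hi0
    have hcol : (fun k => (G₁ * H) k i0.succ) ≠ 0 := by
      intro h
      have := Matrix.det_eq_zero_of_column_eq_zero (A := G₁ * H) i0.succ (fun k => congrFun h k)
      rw [this] at hunit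
      exact not_isUnit_zero hunit
    have h3 := hmin _ hcol
    have hU0 : ∀ k : Fin n, k ≠ i0 → U₂ k i0 = 0 := by
      intro k hk
      apply R₂.U0
      rw [Fin.lt_def]
      have : k.val ≠ i0.val := fun h => hk (Fin.ext h)
      omega
    have h4 : nr Y (fun k => (G₁ * H) k i0.succ) ≤ D₀ / 2 + D₂ i0 := by
      unfold nr
      rw [pi_norm_le_iff_of_nonneg (by have := R₂.pos i0; positivity)]
      intro i'
      obtain ⟨i, rfl⟩ := (π₂'.trans π₁).surjective i'
      rw [heq, Real.norm_eq_abs, Fin.sum_univ_succ]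
      have e1 : ∑ k : Fin n, A i k.succ * D k.succ * U k.succ i0.succ = A i i0.succ * D₂ i0 := by
        rw [Finset.sum_eq_single i0]
        · rw [Ds, Uss, R₂.U1, mul_one]
        · intro k _ hk
          rw [Uss, hU0 k hk, mul_zero]
        · intro h; exact absurd (Finset.mem_univ _) h
      rw [e1, D0, U0s]
      refine (abs_add_le _ _).trans (add_le_add ?_ ?_)
      · rw [abs_mul, abs_mul, abs_of_pos hD₀pos]
        have h5 := hAb i 0
        have h6 := hUb i0
        calc |A i 0| * D₀ * |bG i0 / D₀ - t i0| ≤ 1 * D₀ * (1 / 2) := by gcongr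
          _ = D₀ / 2 := by ring
      · rw [abs_mul, abs_of_pos (R₂.pos i0)]
        have h5 := hAb i i0.succ
        have h6 := R₂.pos i0
        nlinarith
    linarith
  refine ⟨G₁ * H, π₂'.trans π₁, A, U, D, ?_⟩
  refine
    { unit := hunit
      eq := heq
      pos := ?_
      A1 := ?_
      A0 := ?_
      Ab := hAb
      U1 := ?_
      U0 := ?_
      Ub := ?_
      mono := ?_
      first := ?_ }
  · intro i
    refine Fin.cases ?_ (fun i => ?_) i
    · exact hD₀pos
    · exact R₂.pos i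
  · intro i
    refine Fin.cases ?_ (fun i => ?_) i
    · exact A00
    · exact R₂.A1 i
  · intro i j
    refine Fin.cases ?_ (fun i => ?_) i
    · refine Fin.cases ?_ (fun j => ?_) j
      · intro h; exact absurd h (lt_irrefl _)
      · intro _; exact A0s j
    · refine Fin.cases ?_ (fun j => ?_) j
      · intro h; exact absurd h (Fin.not_lt_zero _)
      · intro h; exact R₂.A0 i j (Fin.succ_lt_succ_iff.1 h)
  · intro i
    refine Fin.cases ?_ (fun i => ?_) i
    · exact U00
    · exact R₂.U1 i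
  · intro i j
    refine Fin.cases ?_ (fun i => ?_) i
    · intro h; exact absurd h (Fin.not_lt_zero _)
    · refine Fin.cases ?_ (fun j => ?_) j
      · intro _; exact Us0 i
      · intro h; exact R₂.U0 i j (Fin.succ_lt_succ_iff.1 h)
  · intro i j
    refine Fin.cases ?_ (fun i => ?_) i
    · refine Fin.cases ?_ (fun j => ?_) j
      · rw [U00]; simp
      · rw [U0s]; exact (hUb j).trans (by norm_num)
    · refine Fin.cases ?_ (fun j => ?_) j
      · rw [Us0]; simp
      · rw [Uss]; exact R₂.Ub i j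
  · intro i j
    refine Fin.cases ?_ (fun i => ?_) i
    · refine Fin.cases ?_ (fun j => ?_) j
      · intro _; simp
      · intro _
        have hn : 0 < n := lt_of_le_of_lt (Nat.zero_le _) j.2
        have h3 := hkey ⟨0, hn⟩ rfl
        have h4 := R₂.mono ⟨0, hn⟩ j (Fin.mk_le_of_le_val (Nat.zero_le _))
        rw [D0, Ds]
        simp only [Fin.val_zero, Fin.val_succ, Nat.sub_zero] at h4 ⊢
        rw [pow_succ]
        linarith
    · refine Fin.cases ?_ (fun j => ?_) j
      · intro h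
        exact absurd h (by rw [not_le]; exact Fin.succ_pos i)
      · intro h
        have h4 := R₂.mono i j (Fin.succ_le_succ_iff.1 h)
        rw [Ds, Ds]
        have e : ((j.succ : Fin (n + 1)) : ℕ) - ((i.succ : Fin (n + 1)) : ℕ) = (j : ℕ) - (i : ℕ) := by
          simp
        rw [e]; exact h4
  · intro i hi z hz
    have : i = 0 := Fin.ext hi
    subst this
    exact hmin z hz

end Pool.Agent.SubQ
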