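import Pool.Agent.Lib.SubQ.SpecL

/-! SubQ: L6, basis of the lattice defined by divisibility conditions (helper93) -/

set_option autoImplicit false

namespace Pool.Agent.SubQ

open Matrix in
private theorem L6_aux (h : OneCong) {n s : ℕ} (q : Fin s → ℕ) (M : Fin s → Matrix (Fin n) (Fin n) ℤ)
    (hq : Pls q) : ∀ (N : ℕ) (A : Fin s → Fin n → ℕ), ∑ v, ∑ i, A v i = N →
    ∃ (B : Matrix (Fin n) (Fin n) ℤ) (e : Fin s → ℕ), |B.det| = ∏ v, (q v : ℤ) ^ e v ∧
      (∀ v, e v ≤ ∑ i, A v i) ∧ (∀ v i j, (q v : ℤ) ^ A v i ∣ (M v * B) i j) ∧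
      ∀ x : Fin n → ℤ, (∀ v i, (q v : ℤ) ^ A v i ∣ ∑ k, M v i k * x k) →
        ∃ z : Fin n → ℤ, ∀ i, x i = ∑ j, B i j * z j := by
  intro N
  induction N with
  | zero =>
    intro A hA
    have hA0 : ∀ v i, A v i = 0 := by
      intro v i
      have h1 := (Finset.sum_eq_zero_iff.1 hA) v (Finset.mem_univ v)
      exact (Finset.sum_eq_zero_iff.1 h1) i (Finset.mem_univ i)
    refine ⟨1, fun _ => 0, by simp, fun v => Nat.zero_le _, fun v i j => ?_, fun x _ => ⟨x, fun i => ?_⟩⟩
    · rw [hA0]; simp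
    · simp [Matrix.one_apply]
  | succ N ih =>
    intro A hA
    obtain ⟨v₀, i₀, hne⟩ : ∃ v₀ i₀, A v₀ i₀ ≠ 0 := by
      by_contra hcon
      push Not at hcon
      simp [hcon] at hA
    set δ : Fin s → Fin n → ℕ := fun v i => if v = v₀ then (if i = i₀ then 1 else 0) else 0 with hδ
    set A' : Fin s → Fin n → ℕ := fun v i => A v i - δ v i with hA'
    have hAA : ∀ v i, A v i = A' v i + δ v i := by
      intro v i
      have : δ v i ≤ A v i := by
        simp only [hδ]
        split_ifs with h1 h2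
        · subst h1; subst h2; omega
        · omega
        · omega
      simp only [hA']; omega
    have hδs : ∀ v, ∑ i, δ v i = if v = v₀ then 1 else 0 := by
      intro v
      simp only [hδ]
      split_ifs <;> simp
    have hsv : ∀ v, ∑ i, A v i = ∑ i, A' v i + if v = v₀ then 1 else 0 := by
      intro v
      rw [← hδs, ← Finset.sum_add_distrib]
      exact Finset.sum_congr rfl fun i _ => hAA v i
    have hs' : ∑ v, ∑ i, A' v i = N := by
      have h1 : ∑ v, ∑ i, A v i = ∑ v, ∑ i, A' v i + 1 := by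
        rw [Finset.sum_congr rfl (fun v _ => hsv v), Finset.sum_add_distrib]
        simp
      omega
    obtain ⟨B', e', hB', he', hd', hx'⟩ := ih A' hs'
    have hδ0 : δ v₀ i₀ = 1 := by simp [hδ]
    obtain ⟨w, hw⟩ : ∃ w : Fin n → ℤ, ∀ j, (M v₀ * B') i₀ j = (q v₀ : ℤ) ^ A' v₀ i₀ * w j := by
      choose w hw using fun j => hd' v₀ i₀ j
      exact ⟨w, hw⟩
    obtain ⟨E, hE, hEz⟩ := h n (q v₀) w (hq.prime v₀)
    have hqpos : (0 : ℤ) < q v₀ := by exact_mod_cast (hq.prime v₀).pos
    have hEcol : ∀ j, (q v₀ : ℤ) ∣ ∑ k, w k * E k j := by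
      intro j
      refine (hEz (fun k => E k j)).2 ⟨Pi.single j 1, fun i => ?_⟩
      simp [Pi.single_apply]
    refine ⟨B' * E, fun v => e' v + if v = v₀ ∧ E.det ≠ 1 then 1 else 0, ?_, ?_, ?_, ?_⟩
    · rw [Matrix.det_mul, abs_mul, hB']
      have h1 : ∀ v, (q v : ℤ) ^ (e' v + if v = v₀ ∧ E.det ≠ 1 then 1 else 0) =
          (q v : ℤ) ^ e' v * (if v = v₀ then (if E.det ≠ 1 then (q v : ℤ) else 1) else 1) := by
        intro v
        rw [pow_add]
        by_cases h2 : v = v₀ <;> by_cases h3 : E.det = 1 <;> simp [h2, h3]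
      rw [Finset.prod_congr rfl (fun v _ => h1 v), Finset.prod_mul_distrib]
      congr 1
      simp only [Finset.prod_ite_eq', Finset.mem_univ, if_true]
      by_cases h3 : E.det = 1
      · simp [h3]
      · rw [if_pos h3]
        rcases hE with h4 | h4
        · exact absurd h4 h3
        · rw [h4]; exact abs_of_pos hqpos
    · intro v
      rw [hsv]
      have := he' v
      refine Nat.add_le_add this ?_
      by_cases h2 : v = v₀
      · rw [if_pos h2]
        split_ifs
        · exact le_rfl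
        · exact Nat.zero_le _
      · rw [if_neg h2, if_neg (fun h3 => h2 h3.1)]
    · intro v i j
      rw [← Matrix.mul_assoc, Matrix.mul_apply]
      by_cases h2 : v = v₀ ∧ i = i₀
      · obtain ⟨rfl, rfl⟩ := h2
        rw [hAA, hδ0, pow_succ]
        have h3 : ∑ k, (M v * B') i k * E k j = (q v : ℤ) ^ A' v i * ∑ k, w k * E k j := by
          rw [Finset.mul_sum]
          refine Finset.sum_congr rfl fun k _ => ?_
          rw [hw]; ring
        rw [h3]
        exact mul_dvd_mul_left _ (hEcol j)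
      · have h3 : A v i = A' v i := by
          rw [hAA]
          simp only [hδ]
          by_cases h4 : v = v₀
          · have h5 : i ≠ i₀ := fun h5 => h2 ⟨h4, h5⟩
            simp [h4, h5]
          · simp [h4]
        rw [h3]
        exact Finset.dvd_sum fun k _ => (hd' v i k).mul_right _
    · intro x hx
      obtain ⟨z, hz⟩ := hx' x (fun v i => (pow_dvd_pow _ (by rw [hAA]; omega)).trans (hx v i))
      have h1 := hx v₀ i₀
      rw [hAA, hδ0, pow_succ] at h1
      have h2 : ∑ k, M v₀ i₀ k * x k = (q v₀ : ℤ) ^ A' v₀ i₀ * ∑ j, w j * z j := by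
        have h3 : ∀ j, (M v₀ * B') i₀ j * z j = (q v₀ : ℤ) ^ A' v₀ i₀ * (w j * z j) := fun j => by
          rw [hw]; ring
        rw [Finset.mul_sum, ← Finset.sum_congr rfl (fun j _ => h3 j)]
        simp only [Matrix.mul_apply, hz, Finset.mul_sum, Finset.sum_mul]
        rw [Finset.sum_comm]
        exact Finset.sum_congr rfl fun j _ => Finset.sum_congr rfl fun k _ => by ring
      rw [h2] at h1
      have h3 : (q v₀ : ℤ) ∣ ∑ j, w j * z j := by
        exact (mul_dvd_mul_iff_left (pow_pos hqpos _).ne').1 h1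
      obtain ⟨z', hz'⟩ := (hEz z).1 h3
      refine ⟨z', fun i => ?_⟩
      rw [hz]
      simp only [Matrix.mul_apply, hz', Finset.mul_sum, Finset.sum_mul]
      rw [Finset.sum_comm]
      exact Finset.sum_congr rfl fun j _ => Finset.sum_congr rfl fun k _ => by ring

theorem lat (h : OneCong) : Lat := by
  intro n s q M A hq
  exact L6_aux h q M hq _ A rfl

end Pool.Agent.SubQ
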