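import Pool.Agent.Lib.SubQ.SpecL

/-! SubQ: L7, lower bound for the exponents of the determinant (helper93) -/

set_option autoImplicit false

namespace Pool.Agent.SubQ

theorem latLow : LatLow := by
  intro n s q M A B e hq hM hB hd v
  have hC : ∀ i, ∃ c : Fin n → ℤ, ∀ j, (M v * B) i j = (q v : ℤ) ^ (A v i) * c j := by
    intro i
    choose c hc using fun j => hd v i j
    exact ⟨c, hc⟩
  choose C hC using hC
  have e1 : M v * B = Matrix.diagonal (fun i => (q v : ℤ) ^ (A v i)) * Matrix.of C := by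
    ext i j
    rw [Matrix.diagonal_mul]
    exact hC i j
  have e2 : (M v).det * B.det = (q v : ℤ) ^ (∑ i, A v i) * (Matrix.of C).det := by
    rw [← Matrix.det_mul, e1, Matrix.det_mul, Matrix.det_diagonal, Finset.prod_pow_eq_pow_sum]
  have e3 : (q v : ℤ) ^ (∑ i, A v i) ∣ |(M v).det| * ∏ w, (q w : ℤ) ^ e w := by
    rw [← hB, ← abs_mul, e2]
    exact (dvd_abs _ _).2 (dvd_mul_right _ _)
  rw [← Finset.mul_prod_erase Finset.univ _ (Finset.mem_univ v), ← mul_assoc] at e3
  have hco : IsCoprime ((q v : ℤ) ^ (∑ i, A v i)) (∏ w ∈ Finset.univ.erase v, (q w : ℤ) ^ e w) := by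
    apply IsCoprime.prod_right
    intro w hw
    apply IsCoprime.pow
    have hne : w ≠ v := Finset.ne_of_mem_erase hw
    exact Nat.isCoprime_iff_coprime.2 ((Nat.coprime_primes (hq.prime v) (hq.prime w)).2
      (fun h => hne (hq.inj h.symm)))
  have e4 := hco.dvd_of_dvd_mul_right e3
  refine Int.le_of_dvd ?_ e4
  have h1 : 0 < |(M v).det| := abs_pos.2 (hM v)
  have h2 : (0 : ℤ) < q v := by exact_mod_cast (hq.prime v).pos
  positivity

end Pool.Agent.SubQ
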