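import Pool.Agent.Lib.SubQ.SpecL

/-! SubQ: L8, the data at one index (helper93) -/

set_option autoImplicit false

namespace Pool.Agent.SubQ

theorem datEx (h1 : RedEx) (h2 : Lat) (h3 : LatLow) : DatEx := by
  intro n s q M c T x A hq hM hx0 hdvd
  obtain ⟨B, e, hB, he, hd, hx⟩ := h2 n s q (fun v => M (some v)) A hq
  have hlow := h3 n s q (fun v => M (some v)) A B e hq (fun v => hM (some v)) hB hd
  have hBdet : B.det ≠ 0 := by
    rw [← abs_pos, hB]
    exact Finset.prod_pos fun v _ => pow_pos (by exact_mod_cast (hq.prime v).pos) _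
  set Y : Matrix (Fin n) (Fin n) ℝ := fun i k => Real.exp (-(c i * T)) * (((M none * B) i k : ℤ) : ℝ)
    with hY
  have hYe : Y = Matrix.diagonal (fun i => Real.exp (-(c i * T))) *
      (M none * B).map (Int.castRingHom ℝ) := by
    ext i k
    rw [Matrix.diagonal_mul]
    rfl
  have hYdet : Y.det ≠ 0 := by
    rw [hYe, Matrix.det_mul, Matrix.det_diagonal]
    refine mul_ne_zero (Finset.prod_ne_zero_iff.2 fun i _ => (Real.exp_pos _).ne') ?_
    have h4 := RingHom.map_det (Int.castRingHom ℝ) (M none * B)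
    have h5 : ((M none * B).map (Int.castRingHom ℝ)).det = ((M none * B).det : ℝ) := by
      rw [← RingHom.mapMatrix_apply, ← h4]; rfl
    rw [h5, Matrix.det_mul]
    exact_mod_cast mul_ne_zero (hM none) hBdet
  obtain ⟨G, π, Lo, Up, D, hR⟩ := h1 n Y hYdet
  refine ⟨B * G, π, Lo, Up, D, e, ?_⟩
  refine
    { dvd := ?_
      detg := ?_
      eA := he
      Ae := hlow
      eq := ?_
      pos := hR.pos
      A1 := hR.A1
      A0 := hR.A0
      Ab := hR.Ab
      U1 := hR.U1
      U0 := hR.U0
      Ub := hR.Ub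
      mono := ?_
      first := ?_ }
  · intro v i j
    rw [← Matrix.mul_assoc, Matrix.mul_apply]
    exact Finset.dvd_sum fun k _ => (hd v i k).mul_right _
  · rw [Matrix.det_mul, abs_mul, hB, Int.isUnit_iff_abs_eq.1 hR.unit, mul_one]
  · intro i j
    rw [← hR.eq i j, ← Matrix.mul_assoc, Matrix.mul_apply]
    push_cast
    rw [Finset.mul_sum]
    refine Finset.sum_congr rfl fun k _ => ?_
    simp only [hY]
    rw [← mul_assoc, ← mul_assoc, ← Real.exp_add]
    simp
  · intro i j hij
    refine (hR.mono i j hij).trans ?_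
    have : (2 : ℝ) ^ ((j : ℕ) - (i : ℕ)) ≤ 2 ^ n :=
      pow_le_pow_right₀ (by norm_num) (by have := j.2; omega)
    exact mul_le_mul_of_nonneg_right this (hR.pos j).le
  · intro i hi
    obtain ⟨z, hz⟩ := hx x hdvd
    have hz0 : z ≠ 0 := by
      rintro rfl
      apply hx0
      funext k
      rw [hz]
      simp
    have h4 := hR.first i hi z hz0
    by_contra hcon
    push Not at hcon
    apply absurd h4
    rw [not_le]
    unfold nr
    rw [pi_norm_lt_iff (hR.pos i)]
    intro k
    refine lt_of_eq_of_lt ?_ (hcon k)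
    have h5 : ∑ j, Y k j * (z j : ℝ) = Real.exp (-(c k * T)) * ((∑ j, M none k j * x j : ℤ) : ℝ) := by
      have h6 : (∑ j, M none k j * x j : ℤ) = ∑ l, (M none * B) k l * z l := by
        simp only [Matrix.mul_apply, hz, Finset.mul_sum, Finset.sum_mul]
        rw [Finset.sum_comm]
        exact Finset.sum_congr rfl fun j _ => Finset.sum_congr rfl fun k _ => by ring
      rw [h6]
      push_cast
      rw [Finset.mul_sum]
      refine Finset.sum_congr rfl fun l _ => ?_
      simp only [hY]
      ring
    rw [h5, Real.norm_eq_abs, abs_mul, abs_of_pos (Real.exp_pos _), mul_comm]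

end Pool.Agent.SubQ
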