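import Pool.Agent.Lib.SubQ.SpecM

/-!
# SubQ: M1, most exponent arrays are balanced
-/

set_option autoImplicit false

namespace Pool.Agent.SubQ

open Finset

private theorem m1_perm {ι : Type} [Fintype ι] [DecidableEq ι] (r : ℕ) (τ : Equiv.Perm ι)
    (f : (ι → ℕ) → ℝ) :
    ∑ j ∈ piAntidiag (univ : Finset ι) r, f (j ∘ τ)
      = ∑ j ∈ piAntidiag (univ : Finset ι) r, f j := by
  refine Finset.sum_nbij' (fun j => j ∘ τ) (fun j => j ∘ τ.symm) ?_ ?_ ?_ ?_ ?_
  · intro j hj
    rw [mem_piAntidiag] at hj ⊢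
    refine ⟨?_, fun _ _ => mem_univ _⟩
    rw [← hj.1]
    exact Equiv.sum_comp τ j
  · intro j hj
    rw [mem_piAntidiag] at hj ⊢
    refine ⟨?_, fun _ _ => mem_univ _⟩
    rw [← hj.1]
    exact Equiv.sum_comp τ.symm j
  · intro j _
    funext x
    simp
  · intro j _
    funext x
    simp
  · intro j _
    rfl

private theorem m1_mean {ι : Type} [Fintype ι] [DecidableEq ι] (r : ℕ) (hr : 0 < r) (i : ι) :
    ∑ j ∈ piAntidiag (univ : Finset ι) r, ((j i : ℝ) / r - 1 / Fintype.card ι) = 0 := by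
  have hr' : (r : ℝ) ≠ 0 := by
    have : (0 : ℝ) < r := by exact_mod_cast hr
    exact ne_of_gt this
  have hn' : (Fintype.card ι : ℝ) ≠ 0 := by
    have h0 : 0 < Fintype.card ι := Fintype.card_pos_iff.mpr ⟨i⟩
    have : (0 : ℝ) < Fintype.card ι := by exact_mod_cast h0
    exact ne_of_gt this
  have hsym : ∀ a b : ι, ∑ j ∈ piAntidiag (univ : Finset ι) r, (j a : ℝ)
      = ∑ j ∈ piAntidiag (univ : Finset ι) r, (j b : ℝ) := by
    intro a b
    have h := m1_perm r (Equiv.swap a b) (fun j => (j b : ℝ))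
    rw [← h]
    refine Finset.sum_congr rfl fun j _ => ?_
    simp
  have htot : ∑ a : ι, ∑ j ∈ piAntidiag (univ : Finset ι) r, (j a : ℝ)
      = ∑ j ∈ piAntidiag (univ : Finset ι) r, (r : ℝ) := by
    rw [Finset.sum_comm]
    refine Finset.sum_congr rfl fun j hj => ?_
    rw [mem_piAntidiag] at hj
    rw [← hj.1]
    push_cast
    rfl
  have h3 : (Fintype.card ι : ℝ) * ∑ j ∈ piAntidiag (univ : Finset ι) r, (j i : ℝ)
      = ∑ j ∈ piAntidiag (univ : Finset ι) r, (r : ℝ) := by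
    rw [← htot, Finset.sum_congr rfl (fun a _ => hsym a i)]
    simp
  rw [Finset.sum_sub_distrib, ← Finset.sum_div]
  rw [Finset.sum_const] at h3 ⊢
  rw [nsmul_eq_mul] at h3 ⊢
  field_simp
  linarith

private theorem m1_cross {ι : Type} [Fintype ι] [DecidableEq ι] {m : ℕ}
    (P : Fin m → Finset (ι → ℕ)) (f : Fin m → (ι → ℕ) → ℝ)
    (h0 : ∀ h, ∑ x ∈ P h, f h x = 0) (h h' : Fin m) (hne : h ≠ h') :
    ∑ j ∈ Fintype.piFinset P, f h (j h) * f h' (j h') = 0 := by
  classical
  have key := Finset.prod_univ_sum P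
    (fun k x => (if k = h then f h x else 1) * (if k = h' then f h' x else 1))
  have hz : ∏ k, ∑ x ∈ P k, ((if k = h then f h x else 1) * (if k = h' then f h' x else 1)) = 0 := by
    refine Finset.prod_eq_zero (mem_univ h) ?_
    simp only [if_true, if_neg hne, mul_one]
    exact h0 h
  rw [hz] at key
  rw [key]
  refine Finset.sum_congr rfl fun j _ => ?_
  rw [Finset.prod_mul_distrib, Finset.prod_ite_eq' univ h (fun k => f h (j k)),
    Finset.prod_ite_eq' univ h' (fun k => f h' (j k))]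
  simp

private theorem m1_second {ι : Type} [Fintype ι] [DecidableEq ι] {m : ℕ}
    (P : Fin m → Finset (ι → ℕ)) (f : Fin m → (ι → ℕ) → ℝ)
    (h0 : ∀ h, ∑ x ∈ P h, f h x = 0) (h1 : ∀ h, ∀ x ∈ P h, |f h x| ≤ 1) :
    ∑ j ∈ Fintype.piFinset P, (∑ h, f h (j h)) ^ 2 ≤ m * (Fintype.piFinset P).card := by
  classical
  have e1 : ∀ j : Fin m → ι → ℕ, (∑ h, f h (j h)) ^ 2
      = ∑ h, ∑ h', f h (j h) * f h' (j h') := by
    intro j
    rw [sq, Finset.sum_mul_sum]
  have e2 : ∑ j ∈ Fintype.piFinset P, (∑ h, f h (j h)) ^ 2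
      = ∑ h, ∑ j ∈ Fintype.piFinset P, f h (j h) * f h (j h) := by
    rw [Finset.sum_congr rfl (fun j _ => e1 j), Finset.sum_comm]
    refine Finset.sum_congr rfl fun h _ => ?_
    rw [Finset.sum_comm]
    rw [Finset.sum_eq_single h]
    · intro h' _ hne
      exact m1_cross P f h0 h h' (Ne.symm hne)
    · intro hn
      exact absurd (mem_univ h) hn
  rw [e2]
  have e3 : ∀ h : Fin m, ∑ j ∈ Fintype.piFinset P, f h (j h) * f h (j h)
      ≤ (Fintype.piFinset P).card := by
    intro h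
    calc ∑ j ∈ Fintype.piFinset P, f h (j h) * f h (j h)
        ≤ ∑ j ∈ Fintype.piFinset P, (1 : ℝ) := by
          refine Finset.sum_le_sum fun j hj => ?_
          have hb := h1 h (j h) (Fintype.mem_piFinset.mp hj h)
          rw [← abs_mul_abs_self]
          nlinarith [abs_nonneg (f h (j h))]
      _ = (Fintype.piFinset P).card := by simp
  calc ∑ h, ∑ j ∈ Fintype.piFinset P, f h (j h) * f h (j h)
      ≤ ∑ _h : Fin m, ((Fintype.piFinset P).card : ℝ) := Finset.sum_le_sum fun h _ => e3 h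
    _ = m * (Fintype.piFinset P).card := by simp

private theorem m1_cheb {ι : Type} [Fintype ι] [DecidableEq ι] {m : ℕ} (r : Fin m → ℕ) (ε : ℝ)
    (hε : 0 < ε) (hm : 1 ≤ m)
    (hr : ∀ h, 0 < r h) (i : ι) (S : Finset (Fin m → ι → ℕ)) (hS : S ⊆ JJ ι r)
    (hbad : ∀ j ∈ S, ε * m < |∑ h, (j h i : ℝ) / r h - m / Fintype.card ι|) :
    (S.card : ℝ) ≤ 1 / (ε ^ 2 * m) * (JJ ι r).card := by
  classical
  have hmR : (0 : ℝ) < m := by exact_mod_cast (by omega : 0 < m)
  have hn1 : (1 : ℝ) ≤ Fintype.card ι := by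
    have h0 : 1 ≤ Fintype.card ι := Fintype.card_pos_iff.mpr ⟨i⟩
    exact_mod_cast h0
  have hn0 : (0 : ℝ) ≤ 1 / Fintype.card ι := by positivity
  have hn2 : (1 : ℝ) / Fintype.card ι ≤ 1 := by
    rw [div_le_one (by linarith)]
    exact hn1
  set f : Fin m → (ι → ℕ) → ℝ := fun h x => (x i : ℝ) / r h - 1 / Fintype.card ι with hf
  have h0 : ∀ h, ∑ x ∈ piAntidiag (univ : Finset ι) (r h), f h x = 0 :=
    fun h => m1_mean (r h) (hr h) i
  have h1 : ∀ h, ∀ x ∈ piAntidiag (univ : Finset ι) (r h), |f h x| ≤ 1 := by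
    intro h x hx
    rw [mem_piAntidiag] at hx
    have hxi : x i ≤ r h := by
      rw [← hx.1]
      exact Finset.single_le_sum (f := x) (fun _ _ => Nat.zero_le _) (mem_univ i)
    have hrh : (0 : ℝ) < r h := by exact_mod_cast hr h
    have hxi' : (x i : ℝ) ≤ r h := by exact_mod_cast hxi
    have hx0 : (0 : ℝ) ≤ x i := Nat.cast_nonneg _
    have hq1 : (x i : ℝ) / r h ≤ 1 := by
      rw [div_le_one hrh]
      exact hxi'
    have hq0 : 0 ≤ (x i : ℝ) / r h := div_nonneg hx0 hrh.le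
    rw [hf, abs_le]
    constructor
    · simp only
      linarith
    · simp only
      linarith
  have hmom := m1_second (fun h => piAntidiag (univ : Finset ι) (r h)) f h0 h1
  have hsum : ∀ j : Fin m → ι → ℕ,
      ∑ h, f h (j h) = ∑ h, (j h i : ℝ) / r h - m / Fintype.card ι := by
    intro j
    rw [hf]
    simp only
    rw [Finset.sum_sub_distrib]
    simp
    ring
  have hlow : (S.card : ℝ) * (ε * m) ^ 2
      ≤ ∑ j ∈ Fintype.piFinset (fun h => piAntidiag (univ : Finset ι) (r h)),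
        (∑ h, f h (j h)) ^ 2 := by
    calc (S.card : ℝ) * (ε * m) ^ 2 = ∑ _j ∈ S, (ε * m) ^ 2 := by simp
      _ ≤ ∑ j ∈ S, (∑ h, f h (j h)) ^ 2 := by
          refine Finset.sum_le_sum fun j hj => ?_
          rw [hsum j, ← sq_abs (∑ h, (j h i : ℝ) / r h - m / Fintype.card ι)]
          have := hbad j hj
          have hpos : 0 < ε * m := mul_pos hε hmR
          nlinarith
      _ ≤ _ := by
          refine Finset.sum_le_sum_of_subset_of_nonneg hS ?_
          intro j _ _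
          positivity
  have hfin : (S.card : ℝ) * (ε * m) ^ 2 ≤ m * (JJ ι r).card := le_trans hlow hmom
  have hem : 0 < ε ^ 2 * m := by positivity
  rw [div_mul_eq_mul_div, one_mul, le_div_iff₀ hem]
  have h2 : (S.card : ℝ) * (ε ^ 2 * m) * m ≤ ((JJ ι r).card : ℝ) * m := by
    have h3 : (S.card : ℝ) * (ε ^ 2 * m) * m = (S.card : ℝ) * (ε * m) ^ 2 := by ring
    have h4 : (m : ℝ) * ((JJ ι r).card : ℝ) = ((JJ ι r).card : ℝ) * m := by ring
    rw [h3, ← h4]
    exact hfin
  exact le_of_mul_le_mul_right h2 hmR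

/-- **M1.** -/
theorem countJ : CountJ := by
  classical
  intro ι _ _ _ m r ε hε hm hr
  set B : ι → Finset (Fin m → ι → ℕ) := fun i =>
    (JJ ι r).filter fun j => ε * m < |∑ h, (j h i : ℝ) / r h - m / Fintype.card ι| with hB
  have hBc : ∀ i, ((B i).card : ℝ) ≤ 1 / (ε ^ 2 * m) * (JJ ι r).card := by
    intro i
    refine m1_cheb r ε hε hm hr i (B i) (Finset.filter_subset _ _) ?_
    intro j hj
    exact (Finset.mem_filter.mp hj).2
  have hsub : ((JJ ι r).filter fun j => ¬ Balanced ε r j) ⊆ univ.biUnion B := by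
    intro j hj
    rw [Finset.mem_filter] at hj
    obtain ⟨hj1, hj2⟩ := hj
    unfold Balanced at hj2
    push Not at hj2
    obtain ⟨i, hi⟩ := hj2
    rw [Finset.mem_biUnion]
    refine ⟨i, mem_univ i, ?_⟩
    rw [hB]
    exact Finset.mem_filter.mpr ⟨hj1, hi⟩
  have hcard : (((JJ ι r).filter fun j => ¬ Balanced ε r j).card : ℝ)
      ≤ ∑ i, ((B i).card : ℝ) := by
    have h1 := Finset.card_le_card hsub
    have h2 := Finset.card_biUnion_le (s := (univ : Finset ι)) (t := B)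
    have h3 := le_trans h1 h2
    calc (((JJ ι r).filter fun j => ¬ Balanced ε r j).card : ℝ)
        ≤ ((∑ i, (B i).card : ℕ) : ℝ) := by exact_mod_cast h3
      _ = ∑ i, ((B i).card : ℝ) := by push_cast; rfl
  have hfin : (((JJ ι r).filter fun j => ¬ Balanced ε r j).card : ℝ)
      ≤ Fintype.card ι / (ε ^ 2 * m) * (JJ ι r).card := by
    calc (((JJ ι r).filter fun j => ¬ Balanced ε r j).card : ℝ)
        ≤ ∑ i, ((B i).card : ℝ) := hcard
      _ ≤ ∑ _i : ι, 1 / (ε ^ 2 * m) * ((JJ ι r).card : ℝ) := Finset.sum_le_sum fun i _ => hBc i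
      _ = Fintype.card ι / (ε ^ 2 * m) * (JJ ι r).card := by
          rw [Finset.sum_const, Finset.card_univ, nsmul_eq_mul]
          ring
  convert hfin using 2

end Pool.Agent.SubQ
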