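import Pool.Agent.Lib.SubQ.SpecM

/-!
# SubQ: M10, dehomogenisation
-/

set_option autoImplicit false

namespace Pool.Agent.SubQ

open MvPolynomial

section M10

variable {m : ℕ} {ι κ : Type} [Fintype ι] [DecidableEq ι] [Fintype κ]

/-- the indices different from `a` and `b` -/
private def m10O (a b : ι) : Finset ι := (Finset.univ.erase a).erase b

omit [Fintype κ] in
private theorem m10_mem {a b i : ι} : i ∈ m10O a b ↔ i ≠ b ∧ i ≠ a := by
  unfold m10O
  simp

private theorem m10_sum {A : Type} [AddCommMonoid A] {a b : ι} (hab : a ≠ b) (f : ι → A) :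
    ∑ i, f i = f a + (f b + ∑ i ∈ m10O a b, f i) := by
  unfold m10O
  rw [← Finset.add_sum_erase _ _ (Finset.mem_univ a),
    ← Finset.add_sum_erase _ _ (Finset.mem_erase.2 ⟨hab.symm, Finset.mem_univ b⟩)]

private theorem m10_prod {A : Type} [CommMonoid A] {a b : ι} (hab : a ≠ b) (f : ι → A) :
    ∏ i, f i = f a * (f b * ∏ i ∈ m10O a b, f i) := by
  unfold m10O
  rw [← Finset.mul_prod_erase _ _ (Finset.mem_univ a),
    ← Finset.mul_prod_erase _ _ (Finset.mem_erase.2 ⟨hab.symm, Finset.mem_univ b⟩)]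

omit [DecidableEq ι] in
/-- A vector of polynomials orthogonal to `u` is a combination of the `x j`. -/
private theorem m10_comb {σ : Type} {x : κ → ι → ℤ} {u : ι → ℤ} (hS : Spans x u)
    (w : ι → MvPolynomial σ ℚ) (hw : ∑ i, C (u i : ℚ) * w i = 0) :
    ∃ a : κ → MvPolynomial σ ℚ, ∀ i, ∑ j, ((x j i : ℤ) : MvPolynomial σ ℚ) * a j = w i := by
  classical
  have h1 : ∀ d : σ →₀ ℕ, ∑ i, (u i : ℚ) * coeff d (w i) = 0 := by
    intro d
    have h := congrArg (coeff d) hw
    rw [coeff_sum, coeff_zero] at h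
    simpa only [coeff_C_mul] using h
  choose α hα using fun d : σ →₀ ℕ => hS.2 (fun i => coeff d (w i)) (h1 d)
  refine ⟨fun j => ∑ d ∈ Finset.univ.biUnion (fun i => (w i).support), monomial d (α d j), ?_⟩
  intro i
  ext d
  rw [coeff_sum]
  have h2 : ∀ j, coeff d (((x j i : ℤ) : MvPolynomial σ ℚ) *
      ∑ d ∈ Finset.univ.biUnion (fun i => (w i).support), monomial d (α d j)) =
      if d ∈ Finset.univ.biUnion (fun i => (w i).support) then α d j * (x j i : ℚ) else 0 := by
    intro j
    have e1 : ((x j i : ℤ) : MvPolynomial σ ℚ) = C ((x j i : ℤ) : ℚ) := by simp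
    rw [e1, coeff_C_mul, coeff_sum]
    simp only [coeff_monomial]
    rw [Finset.sum_ite_eq' _ d]
    split_ifs
    · ring
    · ring
  rw [Finset.sum_congr rfl fun j _ => h2 j]
  split_ifs with h3
  · exact (hα d i).symm
  · rw [Finset.sum_const_zero]
    symm
    by_contra h4
    exact h3 (Finset.mem_biUnion.2 ⟨i, Finset.mem_univ _, MvPolynomial.mem_support_iff.2 h4⟩)

/-- The ring map `X (h, some j) ↦ a_{h j}`, `X (h, none) ↦ S_h`. -/
private noncomputable def m10Phi {B : Type} [CommRing B] (a : Fin m → κ → B) :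
    MvPolynomial (Fin m × Option κ) ℤ →+* MvPolynomial (Fin m) B :=
  eval₂Hom (Int.castRingHom _) (fun s => s.2.elim (X s.1) fun j => C (a s.1 j))

private theorem m10Phi_coeff {B : Type} [CommRing B] (a : Fin m → κ → B) (r : Fin m → ℕ) (σ : ℝ)
    (F : MvPolynomial (Fin m × Option κ) ℤ)
    (hF : ∀ d : Fin m × Option κ →₀ ℕ, swt r d ≤ σ → coeff d F = 0) (k : Fin m →₀ ℕ)
    (hk : MPcc0c1aSub.wt r k ≤ σ) : coeff k (m10Phi a F) = 0 := by
  unfold m10Phi
  rw [coe_eval₂Hom, eval₂_eq', coeff_sum]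
  apply Finset.sum_eq_zero
  intro d hd
  have h1 : (∏ i : Fin m × Option κ, (i.2.elim (X i.1) fun j => C (a i.1 j) :
      MvPolynomial (Fin m) B) ^ d i) =
      C (∏ h, ∏ j, a h j ^ d (h, some j)) *
        monomial (Finsupp.equivFunOnFinite.symm fun h => d (h, none)) 1 := by
    rw [Fintype.prod_prod_type]
    simp only [Fintype.prod_option]
    rw [monomial_eq, C_1, one_mul, Finsupp.prod_fintype _ _ (fun i => pow_zero _), map_prod,
      ← Finset.prod_mul_distrib]
    apply Finset.prod_congr rfl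
    intro h _
    rw [map_prod]
    simp only [Option.elim, C_pow, Finsupp.equivFunOnFinite_symm_apply_apply]
    ring
  rw [h1]
  have h2 : ((Int.castRingHom (MvPolynomial (Fin m) B)) (coeff d F)) =
      C ((coeff d F : ℤ) : B) := by
    simp
  rw [h2, coeff_C_mul, coeff_C_mul, coeff_monomial]
  split_ifs with h3
  · exfalso
    have h4 : swt r d ≤ σ := by
      refine le_trans (le_of_eq ?_) hk
      unfold swt MPcc0c1aSub.wt
      apply Finset.sum_congr rfl
      intro h _
      rw [← h3]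
      simp
    exact (MvPolynomial.mem_support_iff.1 hd) (hF d h4)
  · simp

omit [Fintype κ] in
private theorem m10Phi_val {B : Type} [CommRing B] (a : Fin m → κ → B) (r : Fin m → ℕ)
    (p : (Fin m → ι → ℕ) → ℤ) (v : Fin m → ι → MvPolynomial (Fin m × Option κ) ℤ) :
    m10Phi a (val r p v) = val r p (fun h i => m10Phi a (v h i)) := by
  unfold val
  rw [map_sum]
  apply Finset.sum_congr rfl
  intro j _
  rw [map_mul, map_intCast, map_prod]
  congr 1
  apply Finset.prod_congr rfl
  intro h _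
  rw [map_prod]
  apply Finset.prod_congr rfl
  intro i _
  rw [map_pow]

omit [Fintype ι] in
private theorem m10Phi_gv {B : Type} [CommRing B] (a : Fin m → κ → B) (x : Fin m → κ → ι → ℤ)
    (dir : Fin m → ι) (h : Fin m) (i : ι) :
    m10Phi a (gv x dir h i) =
      C (∑ j, (x h j i : B) * a h j) + (if i = dir h then X h else 0) := by
  unfold gv m10Phi
  rw [map_add, map_sum, map_sum]
  congr 1
  · apply Finset.sum_congr rfl
    intro j _
    rw [map_mul]
    simp [C_mul]
  · by_cases h1 : i = dir h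
    · rw [if_pos h1, if_pos h1]
      simp
    · rw [if_neg h1, if_neg h1, map_zero]

end M10

theorem dehom : Dehom := by
  intro ι κ _ _ _ m r p x u i₁ i₂ σ hdist hu hxu hp hF
  classical
  -- the choice of the minimal `j`
  obtain ⟨js, hjs, hmin⟩ := Finset.exists_min_image ((JJ ι r).filter fun j => p j ≠ 0)
    (fun j => ∑ h, ∑ i ∈ m10O (i₁ h) (i₂ h), j h i) (by
      obtain ⟨j, hj, hpj⟩ := hp
      exact ⟨j, Finset.mem_filter.2 ⟨hj, hpj⟩⟩)
  rw [Finset.mem_filter] at hjs
  set J : Finset (Fin m → ι → ℕ) :=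
    (JJ ι r).filter (fun j => ∀ h, ∀ i ∈ m10O (i₁ h) (i₂ h), j h i = js h i) with hJ
  set mo : (Fin m → ι → ℕ) → (Fin m →₀ ℕ) :=
    fun j => Finsupp.equivFunOnFinite.symm (fun h => j h (i₁ h)) with hmo
  have hmo_apply : ∀ j h, mo j h = j h (i₁ h) := fun j h => rfl
  have hsum : ∀ j ∈ JJ ι r, ∀ h,
      j h (i₁ h) + (j h (i₂ h) + ∑ i ∈ m10O (i₁ h) (i₂ h), j h i) = r h := by
    intro j hj h
    unfold JJ at hj
    rw [Fintype.mem_piFinset] at hj
    have h1 := hj h
    rw [Finset.mem_piAntidiag] at h1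
    rw [← h1.1]
    exact (m10_sum (hdist h) _).symm
  have hinj : ∀ j ∈ J, ∀ j' ∈ J, mo j = mo j' → j = j' := by
    intro j hj j' hj' hjj
    rw [hJ, Finset.mem_filter] at hj hj'
    funext h i
    have h1 : j h (i₁ h) = j' h (i₁ h) := by
      rw [← hmo_apply j h, ← hmo_apply j' h, hjj]
    have h2 := hj.2 h
    have h3 := hj'.2 h
    have h4 := hsum j hj.1 h
    have h5 := hsum j' hj'.1 h
    have h6 : ∑ i ∈ m10O (i₁ h) (i₂ h), j h i = ∑ i ∈ m10O (i₁ h) (i₂ h), j' h i :=
      Finset.sum_congr rfl fun i hi => by rw [h2 i hi, h3 i hi]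
    by_cases c1 : i = i₁ h
    · rw [c1, h1]
    by_cases c2 : i = i₂ h
    · rw [c2]
      omega
    · have hi : i ∈ m10O (i₁ h) (i₂ h) := m10_mem.2 ⟨c2, c1⟩
      rw [h2 i hi, h3 i hi]
  set Q : MvPolynomial (Fin m) ℤ := ∑ j ∈ J, monomial (mo j) (p j) with hQ
  have hcoeff : ∀ j ∈ J, coeff (mo j) Q = p j := by
    intro j hj
    rw [hQ, coeff_sum, Finset.sum_eq_single j]
    · rw [coeff_monomial, if_pos rfl]
    · intro j' hj' hne
      rw [coeff_monomial, if_neg]
      intro h
      exact hne (hinj j' hj' j hj h)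
    · intro h
      exact absurd hj h
  have hjsJ : js ∈ J := by
    rw [hJ, Finset.mem_filter]
    exact ⟨hjs.1, fun _ _ _ => rfl⟩
  refine ⟨Q, ?_, ?_, ?_, ?_⟩
  · intro h0
    have h1 := hcoeff js hjsJ
    rw [h0, coeff_zero] at h1
    exact hjs.2 h1.symm
  · intro h
    rw [degreeOf_le_iff]
    intro d hd
    rw [MvPolynomial.mem_support_iff, hQ, coeff_sum] at hd
    obtain ⟨j, hj, hne⟩ := Finset.exists_ne_zero_of_sum_ne_zero hd
    rw [coeff_monomial] at hne
    split_ifs at hne with h1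
    · rw [← h1, hmo_apply]
      have h2 := hsum j (Finset.mem_filter.1 hj).1 h
      omega
    · exact absurd rfl hne
  · intro a
    by_cases h : ∃ j ∈ J, mo j = a
    · obtain ⟨j, hj, rfl⟩ := h
      exact Or.inr ⟨j, hcoeff j hj⟩
    · left
      rw [hQ, coeff_sum]
      apply Finset.sum_eq_zero
      intro j hj
      rw [coeff_monomial, if_neg]
      intro h1
      exact h ⟨j, hj, h1⟩
  · intro k hk
    set τ : Fin m → ℚ := fun h => -(u h (i₂ h) : ℚ) / u h (i₁ h) with hτ
    set ν : Fin m → ι → ℚ := fun h i => (u h i : ℚ) / u h (i₁ h) with hν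
    have huq : ∀ h, (u h (i₁ h) : ℚ) ≠ 0 := fun h => by exact_mod_cast hu h
    set w : Fin m → ι → MvPolynomial (Fin m × ι) ℚ :=
      fun h i => if i = i₁ h then C (τ h) - ∑ i' ∈ m10O (i₁ h) (i₂ h), C (ν h i') * X (h, i')
        else if i = i₂ h then 1 else X (h, i) with hw
    have w1 : ∀ h, w h (i₁ h) = C (τ h) - ∑ i' ∈ m10O (i₁ h) (i₂ h), C (ν h i') * X (h, i') :=
      fun h => by simp only [hw, if_true]
    have w2 : ∀ h, w h (i₂ h) = 1 := fun h => by
      simp only [hw, if_true, if_neg (hdist h).symm]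
    have w3 : ∀ h, ∀ i ∈ m10O (i₁ h) (i₂ h), w h i = X (h, i) := fun h i hi => by
      rw [m10_mem] at hi
      simp only [hw, if_neg hi.1, if_neg hi.2]
    have horth : ∀ h, ∑ i, C (u h i : ℚ) * w h i = 0 := by
      intro h
      have e0 : ∑ i ∈ m10O (i₁ h) (i₂ h), C (u h i : ℚ) * w h i =
          ∑ i ∈ m10O (i₁ h) (i₂ h), C (u h i : ℚ) * X (h, i) :=
        Finset.sum_congr rfl fun i hi => by rw [w3 h i hi]
      rw [m10_sum (hdist h), w1, w2, e0]
      have e1 : (C (u h (i₁ h) : ℚ) : MvPolynomial (Fin m × ι) ℚ) * C (τ h) =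
          - C (u h (i₂ h) : ℚ) := by
        rw [← C_mul, ← C_neg]
        congr 1
        rw [hτ]
        have := huq h
        field_simp
      have e2 : (C (u h (i₁ h) : ℚ) : MvPolynomial (Fin m × ι) ℚ) *
          ∑ i' ∈ m10O (i₁ h) (i₂ h), C (ν h i') * X (h, i') =
          ∑ i' ∈ m10O (i₁ h) (i₂ h), C (u h i' : ℚ) * X (h, i') := by
        rw [Finset.mul_sum]
        apply Finset.sum_congr rfl
        intro i' _
        rw [← mul_assoc, ← C_mul]
        congr 2
        rw [hν]
        have := huq h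
        field_simp
      rw [mul_sub, e1, e2]
      ring
    choose a hab using fun h => m10_comb (hxu h) (w h) (horth h)
    have hkey := m10Phi_coeff a r σ _ hF k hk
    rw [m10Phi_val] at hkey
    have hV : ∀ h i, m10Phi a (gv x i₁ h i) =
        C (w h i) + (if i = i₁ h then X h else 0) := by
      intro h i
      rw [m10Phi_gv, hab h i]
    set G : (Fin m → ι → ℕ) → MvPolynomial (Fin m) (MvPolynomial (Fin m × ι) ℚ) :=
      fun j => ∏ h, (C (w h (i₁ h)) + X h) ^ j h (i₁ h) with hG
    set cz : (Fin m → ι → ℕ) → (Fin m × ι →₀ ℕ) :=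
      fun j => Finsupp.equivFunOnFinite.symm
        (fun s => if s.2 ∈ m10O (i₁ s.1) (i₂ s.1) then j s.1 s.2 else 0) with hcz
    have hcz_apply : ∀ j h i, i ∈ m10O (i₁ h) (i₂ h) → cz j (h, i) = j h i := by
      intro j h i hi
      simp only [hcz, Finsupp.equivFunOnFinite_symm_apply_apply, if_pos hi]
    have hcz_apply' : ∀ j h i, i ∉ m10O (i₁ h) (i₂ h) → cz j (h, i) = 0 := by
      intro j h i hi
      simp only [hcz, Finsupp.equivFunOnFinite_symm_apply_apply, if_neg hi]
    have hprod : ∀ j : Fin m → ι → ℕ, ∏ h, ∏ i, m10Phi a (gv x i₁ h i) ^ j h i =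
        C (monomial (cz j) 1) * G j := by
      intro j
      rw [monomial_eq, C_1, one_mul, Finsupp.prod_fintype _ _ (fun i => pow_zero _), map_prod, hG,
        Fintype.prod_prod_type, ← Finset.prod_mul_distrib]
      apply Finset.prod_congr rfl
      intro h _
      have p1 : ∏ i, (C ((X (h, i) : MvPolynomial (Fin m × ι) ℚ) ^ cz j (h, i)) :
          MvPolynomial (Fin m) (MvPolynomial (Fin m × ι) ℚ)) =
          ∏ i ∈ m10O (i₁ h) (i₂ h), C (X (h, i)) ^ j h i := by
        symm
        apply Finset.prod_subset_one_on_sdiff (Finset.subset_univ _)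
        · intro i hi
          rw [Finset.mem_sdiff] at hi
          rw [hcz_apply' j h i hi.2, pow_zero, C_1]
        · intro i hi
          rw [hcz_apply j h i hi, C_pow]
      rw [p1, m10_prod (hdist h), hV, hV, if_pos rfl, if_neg (hdist h).symm, w2, C_1, add_zero,
        one_pow, one_mul, mul_comm]
      congr 1
      apply Finset.prod_congr rfl
      intro i hi
      rw [hV, w3 h i hi, if_neg (m10_mem.1 hi).2, add_zero]
    -- the coefficient at `S^k z^e`
    have hce : coeff (cz js) (coeff k (val r p fun h i => m10Phi a (gv x i₁ h i))) = 0 := by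
      rw [hkey, coeff_zero]
    unfold val at hce
    rw [coeff_sum, coeff_sum] at hce
    have hterm : ∀ j ∈ JJ ι r, coeff (cz js) (coeff k (((p j : ℤ) : MvPolynomial (Fin m)
        (MvPolynomial (Fin m × ι) ℚ)) * ∏ h, ∏ i, m10Phi a (gv x i₁ h i) ^ j h i)) =
        if (∀ h, ∀ i ∈ m10O (i₁ h) (i₂ h), j h i = js h i) then
          (p j : ℚ) * coeff k (∏ h, (C (τ h) + X h) ^ j h (i₁ h)) else 0 := by
      intro j hj
      rw [hprod j]
      have e1 : ((p j : ℤ) : MvPolynomial (Fin m) (MvPolynomial (Fin m × ι) ℚ)) =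
          C (C ((p j : ℤ) : ℚ)) := by simp
      rw [e1, coeff_C_mul, coeff_C_mul, coeff_C_mul, coeff_monomial_mul']
      by_cases hpj : p j = 0
      · rw [hpj]
        simp
      have hle := hmin j (Finset.mem_filter.2 ⟨hj, hpj⟩)
      by_cases hc : ∀ h, ∀ i ∈ m10O (i₁ h) (i₂ h), j h i = js h i
      · rw [if_pos hc]
        have hcze : cz j = cz js := by
          ext ⟨h, i⟩
          by_cases hi : i ∈ m10O (i₁ h) (i₂ h)
          · rw [hcz_apply j h i hi, hcz_apply js h i hi, hc h i hi]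
          · rw [hcz_apply' j h i hi, hcz_apply' js h i hi]
        rw [hcze, if_pos le_rfl, tsub_self, one_mul]
        congr 1
        have e2 : coeff 0 (coeff k (G j)) = constantCoeff (coeff k (G j)) := rfl
        rw [e2, ← coeff_map, hG]
        congr 1
        rw [map_prod]
        apply Finset.prod_congr rfl
        intro h _
        rw [map_pow]
        congr 1
        rw [w1]
        simp
      · rw [if_neg hc, if_neg, mul_zero]
        intro hle2
        apply hc
        have h1 : ∀ h, ∀ i ∈ m10O (i₁ h) (i₂ h), j h i ≤ js h i := fun h i hi => by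
          have := hle2 (h, i)
          rwa [hcz_apply j h i hi, hcz_apply js h i hi] at this
        by_contra hcon
        push Not at hcon
        obtain ⟨h0, i0, hi0, hne⟩ := hcon
        have h2 : ∑ h, ∑ i ∈ m10O (i₁ h) (i₂ h), j h i <
            ∑ h, ∑ i ∈ m10O (i₁ h) (i₂ h), js h i :=
          Finset.sum_lt_sum (fun h _ => Finset.sum_le_sum (h1 h)) ⟨h0, Finset.mem_univ _,
            Finset.sum_lt_sum (h1 h0) ⟨i0, hi0, lt_of_le_of_ne (h1 h0 i0 hi0) hne⟩⟩
        omega
    rw [Finset.sum_congr rfl hterm, ← Finset.sum_filter] at hce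
    -- the shifted polynomial
    have hsh : MPcc0c1aSub.sh τ (MPcc0c1aSub.toQ Q) =
        ∑ j ∈ J, C (p j : ℚ) * ∏ h, (C (τ h) + X h) ^ j h (i₁ h) := by
      rw [hQ]
      unfold MPcc0c1aSub.toQ MPcc0c1aSub.sh
      rw [map_sum, map_sum]
      apply Finset.sum_congr rfl
      intro j _
      rw [map_monomial, aeval_monomial, Finsupp.prod_fintype _ _ (fun i => pow_zero _)]
      simp only [hmo_apply]
      simp [algebraMap_eq]
    rw [hsh, coeff_sum]
    simp only [coeff_C_mul]
    exact hce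

end Pool.Agent.SubQ
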