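import Pool.Agent.Lib.SubQ.SpecM

/-!
# SubQ: M2, number of exponent arrays
-/

set_option autoImplicit false

namespace Pool.Agent.SubQ

private lemma m2_block {ι : Type} [Fintype ι] [DecidableEq ι] (r : ℕ) :
    (Finset.piAntidiag (Finset.univ : Finset ι) r).card ≤ (2 ^ Fintype.card ι) ^ r := by
  have h1 : (Finset.piAntidiag (Finset.univ : Finset ι) r)
      ⊆ Fintype.piFinset fun _ : ι => Finset.range (r + 1) := by
    intro j hj
    rw [Fintype.mem_piFinset]
    intro i
    rw [Finset.mem_range, Nat.lt_succ_iff]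
    have hs := (Finset.mem_piAntidiag.1 hj).1
    rw [← hs]
    exact Finset.single_le_sum (f := j) (fun _ _ => Nat.zero_le _) (Finset.mem_univ i)
  refine le_trans (Finset.card_le_card h1) ?_
  rw [Fintype.card_piFinset, Finset.card_range, Finset.prod_const, Finset.card_univ]
  have h2 : r + 1 ≤ 2 ^ r := Nat.lt_two_pow_self
  calc (r + 1) ^ Fintype.card ι ≤ (2 ^ r) ^ Fintype.card ι := Nat.pow_le_pow_left h2 _
    _ = (2 ^ Fintype.card ι) ^ r := by rw [← pow_mul, ← pow_mul, Nat.mul_comm]

/-- **M2.** -/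
theorem cardJ : CardJ := by
  intro ι _ _ hne m r
  constructor
  · rw [Finset.card_pos]
    obtain ⟨i₀⟩ := hne
    refine ⟨fun h => Pi.single i₀ (r h), ?_⟩
    rw [JJ, Fintype.mem_piFinset]
    intro h
    rw [Finset.mem_piAntidiag]
    refine ⟨?_, fun i _ => Finset.mem_univ i⟩
    rw [Finset.sum_pi_single']
    simp
  · rw [JJ, Fintype.card_piFinset, ← Finset.prod_pow_eq_pow_sum]
    exact Finset.prod_le_prod' fun h _ => m2_block (r h)

end Pool.Agent.SubQ
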