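import Pool.Agent.Lib.SubQ.SpecM
import Pool.Agent.Lib.MP_cc0c1a_nt.Sub.M5

/-!
# SubQ: M3, change of frame
-/

set_option autoImplicit false

namespace Pool.Agent.SubQ

open MvPolynomial

namespace M3

/-- The linear form `∑ k, N i k Y_k`. -/
noncomputable def L {ι : Type} [Fintype ι] (N : Matrix ι ι ℤ) (i : ι) : MvPolynomial ι ℤ :=
  ∑ k, C (N i k) * X k

/-- The product of powers of linear forms. -/
noncomputable def G {ι : Type} [Fintype ι] (N : Matrix ι ι ℤ) (j' : ι → ℕ) :
    MvPolynomial ι ℤ :=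
  ∏ i, L N i ^ j' i

/-- The coefficients. -/
noncomputable def t {ι : Type} [Fintype ι] (N : Matrix ι ι ℤ) (j j' : ι → ℕ) : ℤ :=
  coeff (Finsupp.equivFunOnFinite.symm j) (G N j')

theorem L_hom {ι : Type} [Fintype ι] (N : Matrix ι ι ℤ) (i : ι) : (L N i).IsHomogeneous 1 := by
  unfold L
  exact IsHomogeneous.sum _ _ _ fun k _ => isHomogeneous_C_mul_X _ _

theorem G_hom {ι : Type} [Fintype ι] (N : Matrix ι ι ℤ) (j' : ι → ℕ) :
    (G N j').IsHomogeneous (∑ i, j' i) := by
  unfold G
  have := IsHomogeneous.prod (Finset.univ : Finset ι) (fun i => L N i ^ j' i)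
    (fun i => 1 * j' i) fun i _ => (L_hom N i).pow (j' i)
  simpa using this

/-- the bound for the entries -/
noncomputable def B {ι : Type} [Fintype ι] (N : Matrix ι ι ℤ) : ℝ :=
  1 + ∑ i, ∑ k, |(N i k : ℝ)|

theorem one_le_B {ι : Type} [Fintype ι] (N : Matrix ι ι ℤ) : 1 ≤ B N := by
  unfold B
  have : 0 ≤ ∑ i, ∑ k, |(N i k : ℝ)| :=
    Finset.sum_nonneg fun i _ => Finset.sum_nonneg fun k _ => abs_nonneg _
  linarith

section Norm

variable {ι : Type} [Fintype ι] [DecidableEq ι]

theorem wl1_L (N : Matrix ι ι ℤ) (i : ι) : MPcc0c1aSub.wl1 (fun _ => 1) (L N i) ≤ B N := by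
  obtain ⟨h0, hadd, hmul, hC, hX, -⟩ :=
    MPcc0c1aSub.normCalc ι (fun _ => 1) fun _ => zero_le_one
  have hk : ∀ k, MPcc0c1aSub.wl1 (fun _ => 1) (C (N i k) * X k : MvPolynomial ι ℤ)
      ≤ |(N i k : ℝ)| := by
    intro k
    have := hmul (C (N i k)) (X k)
    rwa [hC, hX, mul_one] at this
  have h3 : MPcc0c1aSub.wl1 (fun _ => 1) (L N i) ≤ ∑ k, |(N i k : ℝ)| := by
    unfold L
    refine (MPcc0c1aSub.m5_sum (fun _ => zero_le_one) _ _).trans ?_
    exact Finset.sum_le_sum fun k _ => hk k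
  have h4 : ∑ k, |(N i k : ℝ)| ≤ ∑ i, ∑ k, |(N i k : ℝ)| :=
    Finset.single_le_sum (f := fun i => ∑ k, |(N i k : ℝ)|)
      (fun i _ => Finset.sum_nonneg fun k _ => abs_nonneg _) (Finset.mem_univ i)
  unfold B
  linarith

theorem wl1_pow (f : MvPolynomial ι ℤ) (n : ℕ) :
    MPcc0c1aSub.wl1 (fun _ => 1) (f ^ n) ≤ MPcc0c1aSub.wl1 (fun _ => 1) f ^ n := by
  obtain ⟨h0, hadd, hmul, hC, hX, -⟩ :=
    MPcc0c1aSub.normCalc ι (fun _ => 1) fun _ => zero_le_one
  induction n with
  | zero =>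
    rw [pow_zero, pow_zero, ← C_1, hC]
    simp
  | succ n ih =>
    rw [pow_succ, pow_succ]
    exact (hmul _ _).trans (mul_le_mul_of_nonneg_right ih (h0 _))

theorem wl1_prod (s : Finset ι) (f : ι → MvPolynomial ι ℤ) :
    MPcc0c1aSub.wl1 (fun _ => 1) (∏ i ∈ s, f i)
      ≤ ∏ i ∈ s, MPcc0c1aSub.wl1 (fun _ => 1) (f i) := by
  obtain ⟨h0, hadd, hmul, hC, hX, -⟩ :=
    MPcc0c1aSub.normCalc ι (fun _ => 1) fun _ => zero_le_one
  induction s using Finset.induction_on with
  | empty =>
    rw [Finset.prod_empty, Finset.prod_empty, ← C_1, hC]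
    simp
  | insert a s ha ih =>
    rw [Finset.prod_insert ha, Finset.prod_insert ha]
    exact (hmul _ _).trans (mul_le_mul_of_nonneg_left ih (h0 _))

theorem wl1_G (N : Matrix ι ι ℤ) (j' : ι → ℕ) :
    MPcc0c1aSub.wl1 (fun _ => 1) (G N j') ≤ B N ^ (∑ i, j' i) := by
  obtain ⟨h0, hadd, hmul, hC, hX, -⟩ :=
    MPcc0c1aSub.normCalc ι (fun _ => 1) fun _ => zero_le_one
  have hi : ∀ i, MPcc0c1aSub.wl1 (fun _ => 1) (L N i ^ j' i) ≤ B N ^ j' i := fun i =>
    (wl1_pow _ _).trans (pow_le_pow_left₀ (h0 _) (wl1_L N i) _)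
  unfold G
  rw [← Finset.prod_pow_eq_pow_sum]
  exact (wl1_prod _ _).trans (Finset.prod_le_prod (fun i _ => h0 _) fun i _ => hi i)

theorem t_le (N : Matrix ι ι ℤ) (j j' : ι → ℕ) :
    |(t N j j' : ℝ)| ≤ B N ^ (∑ i, j' i) := by
  obtain ⟨-, -, -, -, -, hco⟩ :=
    MPcc0c1aSub.normCalc ι (fun _ => 1) fun _ => zero_le_one
  have := hco (G N j') (Finsupp.equivFunOnFinite.symm j)
  simp only [one_pow, Finset.prod_const_one, mul_one] at this
  exact this.trans (wl1_G N j')

end Norm

theorem block {ι : Type} [Fintype ι] [DecidableEq ι] {A : Type} [CommRing A]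
    (M : Matrix ι ι ℤ) (y : ι → A) (r : ℕ)
    (j' : ι → ℕ) (hj' : j' ∈ Finset.piAntidiag (Finset.univ : Finset ι) r) :
    (M.det : A) ^ r * ∏ i, y i ^ j' i =
      ∑ j ∈ Finset.piAntidiag (Finset.univ : Finset ι) r,
        (t M.adjugate j j' : A) * ∏ i, app M y i ^ j i := by
  rw [Finset.mem_piAntidiag] at hj'
  have hr : ∑ i, j' i = r := hj'.1
  have hdet : ∀ i, ∑ k, (M.adjugate i k : A) * app M y k = (M.det : A) * y i := by
    intro i
    have h1 : ∀ l, ∑ k, (M.adjugate i k : A) * (M k l : A) = if i = l then (M.det : A) else 0 := by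
      intro l
      have h2 := congrFun (congrFun (Matrix.adjugate_mul M) i) l
      rw [Matrix.mul_apply, Matrix.smul_apply, Matrix.one_apply] at h2
      have h3 := congrArg (Int.cast : ℤ → A) h2
      push_cast at h3
      rw [h3]
      split_ifs <;> simp
    unfold app
    calc ∑ k, (M.adjugate i k : A) * ∑ l, (M k l : A) * y l
        = ∑ k, ∑ l, ((M.adjugate i k : A) * (M k l : A)) * y l := by
          refine Finset.sum_congr rfl fun k _ => ?_
          rw [Finset.mul_sum]
          exact Finset.sum_congr rfl fun l _ => (mul_assoc _ _ _).symm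
      _ = ∑ l, (∑ k, (M.adjugate i k : A) * (M k l : A)) * y l := by
          rw [Finset.sum_comm]
          exact Finset.sum_congr rfl fun l _ => (Finset.sum_mul _ _ _).symm
      _ = (M.det : A) * y i := by
          rw [Finset.sum_eq_single i]
          · rw [h1, if_pos rfl]
          · intro l _ hl
            rw [h1, if_neg (Ne.symm hl), zero_mul]
          · intro h
            exact absurd (Finset.mem_univ i) h
  have hev : eval₂ (Int.castRingHom A) (app M y) (G M.adjugate j') =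
      (M.det : A) ^ r * ∏ i, y i ^ j' i := by
    unfold G
    rw [eval₂_prod]
    have : ∀ i, eval₂ (Int.castRingHom A) (app M y) (L M.adjugate i ^ j' i) =
        ((M.det : A) * y i) ^ j' i := by
      intro i
      rw [eval₂_pow]
      congr 1
      rw [← hdet i]
      unfold L
      rw [eval₂_sum]
      refine Finset.sum_congr rfl fun k _ => ?_
      rw [eval₂_mul, eval₂_C, eval₂_X]
      rfl
    rw [Finset.prod_congr rfl fun i _ => this i]
    simp only [mul_pow]
    rw [Finset.prod_mul_distrib, Finset.prod_pow_eq_pow_sum, hr]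
  rw [← hev, eval₂_eq']
  have hinj : Set.InjOn (Finsupp.equivFunOnFinite.symm : (ι → ℕ) → (ι →₀ ℕ))
      (Finset.piAntidiag (Finset.univ : Finset ι) r) :=
    Finsupp.equivFunOnFinite.symm.injective.injOn
  have hsub : (G M.adjugate j').support ⊆
      (Finset.piAntidiag (Finset.univ : Finset ι) r).image
        (Finsupp.equivFunOnFinite.symm : (ι → ℕ) → (ι →₀ ℕ)) := by
    intro d hd
    have h2 := (G_hom M.adjugate j') (mem_support_iff.mp hd)
    rw [Finset.mem_image]
    refine ⟨Finsupp.equivFunOnFinite d, ?_, Equiv.symm_apply_apply _ _⟩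
    rw [Finset.mem_piAntidiag]
    refine ⟨?_, fun i _ => Finset.mem_univ i⟩
    rw [← hr, ← h2, Finsupp.weight_apply, Finsupp.sum_fintype _ _ (by simp)]
    simp
  rw [Finset.sum_subset hsub, Finset.sum_image hinj]
  · refine Finset.sum_congr rfl fun j _ => ?_
    rfl
  · intro d _ hd
    rw [notMem_support_iff.mp hd]
    simp

end M3

open M3 in
/-- **M3.** -/
theorem change : Change := by
  intro ι _ _ M
  refine ⟨B M.adjugate, one_le_B _, fun m r => ⟨fun j j' => ∏ h, t M.adjugate (j h) (j' h), ?_, ?_⟩⟩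
  · intro j _ j' hj'
    push_cast
    rw [Finset.abs_prod, ← Finset.prod_pow_eq_pow_sum]
    refine Finset.prod_le_prod (fun h _ => abs_nonneg _) fun h _ => ?_
    have h2 := Fintype.mem_piFinset.mp hj' h
    rw [Finset.mem_piAntidiag] at h2
    rw [← h2.1]
    exact t_le _ _ _
  · intro p A _ v
    unfold val
    have key : ∀ j' ∈ JJ ι r, (M.det : A) ^ (∑ h, r h) * ∏ h, ∏ i, v h i ^ j' h i =
        ∑ j ∈ JJ ι r, ((∏ h, t M.adjugate (j h) (j' h) : ℤ) : A) *
          ∏ h, ∏ i, app M (v h) i ^ j h i := by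
      intro j' hj'
      rw [← Finset.prod_pow_eq_pow_sum, ← Finset.prod_mul_distrib,
        Finset.prod_congr rfl fun h _ => block M (v h) (r h) (j' h)
          (Fintype.mem_piFinset.mp hj' h), Finset.prod_univ_sum]
      refine Finset.sum_congr rfl fun j _ => ?_
      rw [Finset.prod_mul_distrib]
      push_cast
      rfl
    rw [Finset.mul_sum]
    calc ∑ j' ∈ JJ ι r, (M.det : A) ^ (∑ h, r h) * ((p j' : A) * ∏ h, ∏ i, v h i ^ j' h i)
        = ∑ j' ∈ JJ ι r, ∑ j ∈ JJ ι r, (((∏ h, t M.adjugate (j h) (j' h)) * p j' : ℤ) : A) *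
            ∏ h, ∏ i, app M (v h) i ^ j h i := by
          refine Finset.sum_congr rfl fun j' hj' => ?_
          rw [mul_left_comm, key j' hj', Finset.mul_sum]
          refine Finset.sum_congr rfl fun j _ => ?_
          push_cast
          ring
      _ = _ := by
          rw [Finset.sum_comm]
          refine Finset.sum_congr rfl fun j _ => ?_
          rw [← Finset.sum_mul]
          push_cast
          rfl

end Pool.Agent.SubQ
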