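import Pool.Agent.Lib.SubQ.SpecM

/-!
# SubQ: M4, the auxiliary polynomial (adapted from `MP_cc0c1a_nt/Sub/M4.lean`)
-/

set_option autoImplicit false

namespace Pool.Agent.SubQ

open MvPolynomial

namespace M4

open Classical in
/-- The final step: from a small vector of coefficients solving the unbalanced equations. -/
lemma finish {ι : Type} [Fintype ι] [DecidableEq ι] {s m : ℕ} (M : Option (Fin s) → Matrix ι ι ℤ)
    (r : Fin m → ℕ) (ε N C₀ : ℝ) (hN : 1 ≤ N) (hC₀ : 1 ≤ C₀)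
    (hcard : ((JJ ι r).card : ℝ) ≤ N ^ (∑ h, r h))
    (T : Option (Fin s) → (Fin m → ι → ℕ) → (Fin m → ι → ℕ) → ℤ)
    (hT : ∀ v, ∀ j ∈ JJ ι r, ∀ j' ∈ JJ ι r, |(T v j j' : ℝ)| ≤ C₀ ^ (∑ h, r h))
    (hid : ∀ v, ∀ p : (Fin m → ι → ℕ) → ℤ,
      Ident r (M v) p (fun j => ∑ j' ∈ JJ ι r, T v j j' * p j'))
    (p : (Fin m → ι → ℕ) → ℤ) (hp0 : ∃ j ∈ JJ ι r, p j ≠ 0)
    (hpn : ∀ j, |(p j : ℝ)| ≤ (N * C₀) ^ (∑ h, r h))
    (heq : ∀ v, ∀ j ∈ JJ ι r, ¬ Balanced ε r j → ∑ j' ∈ JJ ι r, T v j j' * p j' = 0) :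
    ∃ (p : (Fin m → ι → ℕ) → ℤ) (d : Option (Fin s) → (Fin m → ι → ℕ) → ℤ),
      (∃ j ∈ JJ ι r, p j ≠ 0) ∧ (∀ j, |(p j : ℝ)| ≤ ((N * C₀) ^ 2) ^ (∑ h, r h)) ∧
      (∀ v, ∀ j ∈ JJ ι r, d v j ≠ 0 → Balanced ε r j) ∧
      (∀ v, ∀ j ∈ JJ ι r, |(d v j : ℝ)| ≤ ((N * C₀) ^ 2) ^ (∑ h, r h)) ∧
      ∀ v, Ident r (M v) p (d v) := by
  have hC0 : (0 : ℝ) ≤ C₀ := by linarith
  have hN0 : (0 : ℝ) ≤ N := by linarith
  have hNC : (1 : ℝ) ≤ N * C₀ := by nlinarith
  refine ⟨p, fun v j => ∑ j' ∈ JJ ι r, T v j j' * p j', hp0, ?_, ?_, ?_, ?_⟩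
  · intro j
    refine (hpn j).trans ?_
    refine pow_le_pow_left₀ (by positivity) ?_ _
    nlinarith
  · intro v j hj hd
    by_contra hb
    exact hd (heq v j hj hb)
  · intro v j hj
    have h1 : |((∑ j' ∈ JJ ι r, T v j j' * p j' : ℤ) : ℝ)| ≤
        ∑ j' ∈ JJ ι r, C₀ ^ (∑ h, r h) * (N * C₀) ^ (∑ h, r h) := by
      push_cast
      refine (Finset.abs_sum_le_sum_abs _ _).trans (Finset.sum_le_sum fun j' hj' => ?_)
      rw [abs_mul]
      exact mul_le_mul (hT v j hj j' hj') (hpn j') (abs_nonneg _) (by positivity)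
    refine h1.trans ?_
    rw [Finset.sum_const, nsmul_eq_mul]
    calc ((JJ ι r).card : ℝ) * (C₀ ^ (∑ h, r h) * (N * C₀) ^ (∑ h, r h))
        ≤ N ^ (∑ h, r h) * (C₀ ^ (∑ h, r h) * (N * C₀) ^ (∑ h, r h)) :=
          mul_le_mul_of_nonneg_right hcard (by positivity)
      _ = ((N * C₀) ^ 2) ^ (∑ h, r h) := by
          rw [← mul_pow, ← mul_pow]; congr 1; ring
  · intro v
    exact hid v p

end M4

open Classical in
theorem aux (h1 : CountJ) (h2 : CardJ) (h3 : Change) : Aux := by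
  intro ι _ _ _ s M
  choose C₁ hC₁ hT₁ using fun v => h3 ι (M v)
  set C₀ : ℝ := ∑ v, C₁ v with hC₀def
  have hC₁0 : ∀ v, 0 ≤ C₁ v := fun v => by linarith [hC₁ v]
  have hle : ∀ v, C₁ v ≤ C₀ := fun v =>
    Finset.single_le_sum (f := C₁) (fun w _ => hC₁0 w) (Finset.mem_univ v)
  have hC₀ : (1 : ℝ) ≤ C₀ := (hC₁ none).trans (hle none)
  have hC0 : (0 : ℝ) < C₀ := by linarith
  set N : ℝ := 2 ^ Fintype.card ι with hNdef
  have hN : (1 : ℝ) ≤ N := one_le_pow₀ (by norm_num)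
  have hN0 : (0 : ℝ) < N := by linarith
  have hNC : (1 : ℝ) ≤ N * C₀ := by nlinarith
  refine ⟨(N * C₀) ^ 2, one_le_pow₀ hNC, ?_⟩
  intro m r ε hε hm hr
  choose T hT' hid using fun v => hT₁ v m r
  have hT : ∀ v, ∀ j ∈ JJ ι r, ∀ j' ∈ JJ ι r, |(T v j j' : ℝ)| ≤ C₀ ^ (∑ h, r h) :=
    fun v j hj j' hj' => (hT' v j hj j' hj').trans (pow_le_pow_left₀ (hC₁0 v) (hle v) _)
  obtain ⟨hcpos, hcle⟩ := h2 ι m r
  have hcard : ((JJ ι r).card : ℝ) ≤ N ^ (∑ h, r h) := by
    have : (((JJ ι r).card : ℕ) : ℝ) ≤ (((2 ^ Fintype.card ι) ^ (∑ h, r h) : ℕ) : ℝ) := by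
      exact_mod_cast hcle
    simpa [hNdef] using this
  have hn1 : (1 : ℝ) ≤ Fintype.card ι := by
    have : 1 ≤ Fintype.card ι := Fintype.card_pos
    exact_mod_cast this
  have hs0 : (0 : ℝ) ≤ (s : ℝ) := by positivity
  have hns : (1 : ℝ) ≤ (Fintype.card ι : ℝ) * (s + 1) := by nlinarith
  have hpos : (0 : ℝ) < ε ^ 2 * m := by nlinarith
  have hm1 : 1 ≤ m := by
    rcases Nat.eq_zero_or_pos m with h | h
    · exfalso
      subst h
      simp at hpos
    · exact h
  have hcount := h1 ι m r ε hε hm1 hr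
  set J := JJ ι r with hJ
  set U := J.filter fun j => ¬ Balanced ε r j with hU
  have hJpos : (0 : ℝ) < J.card := by exact_mod_cast hcpos
  have hUle : ((s : ℝ) + 1) * (U.card : ℝ) ≤ J.card / 2 := by
    have h4 : ((s : ℝ) + 1) * ((Fintype.card ι : ℝ) / (ε ^ 2 * m)) ≤ 1 / 2 := by
      rw [← mul_div_assoc, div_le_div_iff₀ hpos (by norm_num)]
      nlinarith
    calc ((s : ℝ) + 1) * (U.card : ℝ)
        ≤ ((s : ℝ) + 1) * ((Fintype.card ι : ℝ) / (ε ^ 2 * m) * J.card) :=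
          mul_le_mul_of_nonneg_left hcount (by positivity)
      _ = (((s : ℝ) + 1) * ((Fintype.card ι : ℝ) / (ε ^ 2 * m))) * J.card := by ring
      _ ≤ 1 / 2 * (J.card : ℝ) := mul_le_mul_of_nonneg_right h4 hJpos.le
      _ = J.card / 2 := by ring
  have hUJ : ∀ j ∈ U, j ∈ J := fun j hj => (Finset.mem_filter.1 hj).1
  rcases Nat.eq_zero_or_pos U.card with hU0 | hUpos
  · -- no equations
    have hUe : U = ∅ := Finset.card_eq_zero.1 hU0
    obtain ⟨j₀, hj₀⟩ := Finset.card_pos.1 hcpos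
    refine M4.finish M r ε N C₀ hN hC₀ hcard T hT hid (fun j => if j = j₀ then 1 else 0)
      ⟨j₀, hj₀, by simp⟩ ?_ ?_
    · intro j
      have h4 : (1 : ℝ) ≤ (N * C₀) ^ (∑ h, r h) := one_le_pow₀ hNC
      by_cases hj : j = j₀
      · simpa [hj] using h4
      · simp only [hj, if_false, Int.cast_zero, abs_zero]
        linarith
    · intro v j hj hb
      exfalso
      have : j ∈ U := Finset.mem_filter.2 ⟨hj, hb⟩
      rw [hUe] at this
      exact absurd this (Finset.notMem_empty j)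
  · -- Siegel's lemma
    let A : Matrix (Option (Fin s) × U) J ℤ := fun i j => T i.1 i.2.1 j.1
    have hcU : Fintype.card (Option (Fin s) × U) = (s + 1) * U.card := by
      rw [Fintype.card_prod, Fintype.card_option, Fintype.card_fin, Fintype.card_coe]
    have hcB : Fintype.card J = J.card := Fintype.card_coe J
    have hcUR : ((Fintype.card (Option (Fin s) × U) : ℕ) : ℝ) = ((s : ℝ) + 1) * U.card := by
      rw [hcU]; push_cast; ring
    have hlt : Fintype.card (Option (Fin s) × U) < Fintype.card J := by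
      have : ((Fintype.card (Option (Fin s) × U) : ℕ) : ℝ) < ((Fintype.card J : ℕ) : ℝ) := by
        rw [hcUR, hcB]; linarith
      exact_mod_cast this
    obtain ⟨t, ht0, hAt, htn⟩ := Int.Matrix.exists_ne_zero_int_vec_norm_le A hlt
      (by rw [hcU]; positivity)
    have hpow1 : (1 : ℝ) ≤ C₀ ^ (∑ h, r h) := one_le_pow₀ hC₀
    -- bound for the solution
    have hbound : ∀ x : J, |(t x : ℝ)| ≤ (N * C₀) ^ (∑ h, r h) := by
      have hA : max 1 (@norm _ Matrix.seminormedAddCommGroup.toNorm A) ≤ C₀ ^ (∑ h, r h) := by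
        refine max_le hpow1 ?_
        let _ : SeminormedAddCommGroup (Matrix (Option (Fin s) × U) J ℤ) :=
          Matrix.seminormedAddCommGroup
        refine (Matrix.norm_le_iff (by positivity)).2 ?_
        intro i j
        rw [Int.norm_eq_abs, ← Int.cast_abs]
        have := hT i.1 i.2.1 (hUJ _ i.2.2) j.1 j.2
        rw [← Int.cast_abs] at this
        exact this
      have hbase1 : (1 : ℝ) ≤ (Fintype.card J : ℝ) *
          max 1 (@norm _ Matrix.seminormedAddCommGroup.toNorm A) := by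
        have h6 : (1 : ℝ) ≤ (Fintype.card J : ℝ) := by
          rw [hcB]
          have : 1 ≤ J.card := hcpos
          exact_mod_cast this
        have h7 : (1 : ℝ) ≤ max 1 (@norm _ Matrix.seminormedAddCommGroup.toNorm A) :=
          le_max_left _ _
        nlinarith
      have hbase : (Fintype.card J : ℝ) *
          max 1 (@norm _ Matrix.seminormedAddCommGroup.toNorm A) ≤ (N * C₀) ^ (∑ h, r h) := by
        rw [mul_pow, hcB]
        refine mul_le_mul hcard hA (le_trans zero_le_one (le_max_left _ _))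
          (by positivity)
      have hexp : ((Fintype.card (Option (Fin s) × U) : ℝ)) /
          ((Fintype.card J : ℝ) - (Fintype.card (Option (Fin s) × U) : ℝ)) ≤ 1 := by
        rw [hcUR, hcB, div_le_one (by linarith)]
        linarith
      have hfin : ((Fintype.card J : ℝ) *
          max 1 (@norm _ Matrix.seminormedAddCommGroup.toNorm A)) ^
          ((Fintype.card (Option (Fin s) × U) : ℝ) /
            ((Fintype.card J : ℝ) - (Fintype.card (Option (Fin s) × U) : ℝ))) ≤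
          (N * C₀) ^ (∑ h, r h) := by
        refine (Real.rpow_le_rpow_of_exponent_le hbase1 hexp).trans ?_
        rw [Real.rpow_one]
        exact hbase
      intro x
      have h8 : ‖t x‖ ≤ ‖t‖ := norm_le_pi_norm t x
      rw [Int.norm_eq_abs, ← Int.cast_abs] at h8
      rw [← Int.cast_abs]
      exact h8.trans (htn.trans hfin)
    obtain ⟨x₀, hx₀⟩ : ∃ x, t x ≠ 0 := by
      by_contra hcon
      push Not at hcon
      exact ht0 (funext hcon)
    have hval : ∀ x : J, (if h : x.1 ∈ J then t ⟨x.1, h⟩ else 0) = t x := by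
      intro x
      rw [dif_pos x.2]
    refine M4.finish M r ε N C₀ hN hC₀ hcard T hT hid
      (fun j => if h : j ∈ J then t ⟨j, h⟩ else 0) ⟨x₀.1, x₀.2, ?_⟩ ?_ ?_
    · rw [hval]; exact hx₀
    · intro j
      by_cases h : j ∈ J
      · simp only [dif_pos h]
        exact hbound ⟨j, h⟩
      · simp only [dif_neg h, Int.cast_zero, abs_zero]
        positivity
    · intro v j hj hb
      have hjU : j ∈ U := Finset.mem_filter.2 ⟨hj, hb⟩
      have h10 : ∑ j' ∈ J, T v j j' * (if h : j' ∈ J then t ⟨j', h⟩ else 0) =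
          ∑ x : J, T v j x.1 * t x := by
        rw [← Finset.sum_coe_sort J (fun j' => T v j j' * (if h : j' ∈ J then t ⟨j', h⟩ else 0))]
        refine Finset.sum_congr rfl fun x _ => ?_
        rw [hval]
      have h11 := congrFun hAt (v, ⟨j, hjU⟩)
      rw [h10]
      simpa [A, Matrix.mulVec, dotProduct] using h11

end Pool.Agent.SubQ
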