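import Pool.Agent.Lib.SubQ.SpecM
import Pool.Agent.Lib.MP_cc0c1a_nt.Sub.M5

/-!
# SubQ: M6, real bound for the coefficients of the generic value
-/

set_option autoImplicit false

namespace Pool.Agent.SubQ

open MvPolynomial

private lemma m6_app_gv {m : ℕ} {ι κ : Type} [Fintype ι] [DecidableEq ι] [Fintype κ]
    (M : Matrix ι ι ℤ) (x : Fin m → κ → ι → ℤ)
    (dir : Fin m → ι) (h : Fin m) (i : ι) :
    app M (gv x dir h) i
      = (∑ j, C (app M (x h j) i) * X (h, some j))
        + C (M i (dir h)) * X (h, none) := by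
  have hs : ∀ y : ι → ℤ, (C (app M y i) : MvPolynomial (Fin m × Option κ) ℤ)
      = ∑ k, C (M i k) * C (y k) := by
    intro y
    simp only [app, map_sum, Int.cast_id, map_mul]
  simp only [hs]
  simp only [app, gv]
  have h1 : ∀ k : ι, ((M i k : ℤ) : MvPolynomial (Fin m × Option κ) ℤ) = C (M i k) := by
    intro k
    simp
  simp only [h1, mul_add, Finset.sum_add_distrib, Finset.sum_mul, Finset.mul_sum]
  congr 1
  · rw [Finset.sum_comm]
    refine Finset.sum_congr rfl fun j _ => ?_
    exact Finset.sum_congr rfl fun k _ => by ring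
  · rw [Finset.sum_eq_single (dir h)]
    · simp
    · intro b _ hb
      simp [hb]
    · intro hn
      exact absurd (Finset.mem_univ _) hn

/-- **M6.** -/
theorem realBound : RealBound := by
  intro ι κ _ _ _ m r p d M x dir Λ ρ T hdet hid hρ hΛ hM hT a
  classical
  set w : Fin m × Option κ → ℝ := fun q => if q.2 = none then ρ q.1 else 1 with hwdef
  have hw : ∀ i, 0 ≤ w i := by
    intro i
    simp only [hwdef]
    split_ifs
    · exact (hρ _).le
    · exact zero_le_one
  obtain ⟨n0, nadd, nmul, nC, nX, nc⟩ := MPcc0c1aSub.normCalc (Fin m × Option κ) w hw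
  have n1 : MPcc0c1aSub.wl1 w (1 : MvPolynomial (Fin m × Option κ) ℤ) ≤ 1 := by
    have := nC 1
    simp only [map_one, Int.cast_one, abs_one] at this
    exact this.le
  have nprod : ∀ (τ : Type) [DecidableEq τ] (s : Finset τ)
      (f : τ → MvPolynomial (Fin m × Option κ) ℤ),
      MPcc0c1aSub.wl1 w (∏ j ∈ s, f j) ≤ ∏ j ∈ s, MPcc0c1aSub.wl1 w (f j) := by
    intro τ _ s f
    induction s using Finset.induction_on with
    | empty => simpa using n1
    | insert b s hb ih =>
      rw [Finset.prod_insert hb, Finset.prod_insert hb]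
      exact (nmul _ _).trans (mul_le_mul_of_nonneg_left ih (n0 _))
  have npow : ∀ (f : MvPolynomial (Fin m × Option κ) ℤ) (n : ℕ),
      MPcc0c1aSub.wl1 w (f ^ n) ≤ MPcc0c1aSub.wl1 w f ^ n := by
    intro f n
    induction n with
    | zero => simpa using n1
    | succ n ih =>
      rw [pow_succ, pow_succ]
      exact (nmul _ _).trans (mul_le_mul_of_nonneg_right ih (n0 _))
  -- norm of the coordinates
  have ncoord : ∀ h i, MPcc0c1aSub.wl1 w (app M (gv x dir h) i)
      ≤ (Fintype.card κ + 1) * Λ h i := by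
    intro h i
    obtain ⟨hx, hd⟩ := hM h i
    rw [m6_app_gv]
    have e0 : ∀ j, MPcc0c1aSub.wl1 w
        (C (app M (x h j) i) * X (h, some j) : MvPolynomial (Fin m × Option κ) ℤ) ≤ Λ h i := by
      intro j
      refine (nmul _ _).trans ?_
      rw [nC, nX]
      simpa [hwdef] using hx j
    have e2 : MPcc0c1aSub.wl1 w
        (C (M i (dir h)) * X (h, none) : MvPolynomial (Fin m × Option κ) ℤ) ≤ Λ h i := by
      refine (nmul _ _).trans ?_
      rw [nC, nX]
      simpa [hwdef] using hd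
    have e3 : MPcc0c1aSub.wl1 w
        (∑ j, C (app M (x h j) i) * X (h, some j) : MvPolynomial (Fin m × Option κ) ℤ)
        ≤ Fintype.card κ * Λ h i := by
      refine (MPcc0c1aSub.m5_sum hw _ _).trans ?_
      refine (Finset.sum_le_sum fun j _ => e0 j).trans ?_
      rw [Finset.sum_const, Finset.card_univ, nsmul_eq_mul]
    have := nadd (∑ j, C (app M (x h j) i) * X (h, some j)) (C (M i (dir h)) * X (h, none))
    linarith
  -- norm of one term
  have nterm : ∀ j ∈ JJ ι r,
      MPcc0c1aSub.wl1 w (((d j : ℤ) : MvPolynomial (Fin m × Option κ) ℤ) *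
      ∏ h, ∏ i, app M (gv x dir h) i ^ j h i) ≤ (Fintype.card κ + 1) ^ (∑ h, r h) * T := by
    intro j hj
    have hjr : ∀ h, ∑ i, j h i = r h := by
      intro h
      have := Fintype.mem_piFinset.1 hj h
      exact (Finset.mem_piAntidiag.1 this).1
    have hcast : ((d j : ℤ) : MvPolynomial (Fin m × Option κ) ℤ) = C (d j) := by simp
    rw [hcast]
    have hp : MPcc0c1aSub.wl1 w (∏ h, ∏ i, app M (gv x dir h) i ^ j h i)
        ≤ ∏ h, ∏ i, ((Fintype.card κ + 1) * Λ h i) ^ j h i := by
      refine (nprod (Fin m) Finset.univ _).trans ?_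
      refine Finset.prod_le_prod (fun h _ => n0 _) fun h _ => ?_
      refine (nprod ι Finset.univ _).trans ?_
      refine Finset.prod_le_prod (fun i _ => n0 _) fun i _ => ?_
      exact (npow _ _).trans (pow_le_pow_left₀ (n0 _) (ncoord h i) _)
    have he : ∏ h, ∏ i, (((Fintype.card κ : ℝ) + 1) * Λ h i) ^ j h i
        = ((Fintype.card κ : ℝ) + 1) ^ (∑ h, r h) * ∏ h, ∏ i, Λ h i ^ j h i := by
      rw [← Finset.prod_pow_eq_pow_sum, ← Finset.prod_mul_distrib]
      refine Finset.prod_congr rfl fun h _ => ?_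
      rw [← hjr h, ← Finset.prod_pow_eq_pow_sum, ← Finset.prod_mul_distrib]
      exact Finset.prod_congr rfl fun i _ => mul_pow _ _ _
    calc MPcc0c1aSub.wl1 w (C (d j) * ∏ h, ∏ i, app M (gv x dir h) i ^ j h i)
        ≤ MPcc0c1aSub.wl1 w (C (d j) : MvPolynomial (Fin m × Option κ) ℤ)
            * MPcc0c1aSub.wl1 w (∏ h, ∏ i, app M (gv x dir h) i ^ j h i) := nmul _ _
      _ ≤ |(d j : ℝ)| * (((Fintype.card κ : ℝ) + 1) ^ (∑ h, r h)
            * ∏ h, ∏ i, Λ h i ^ j h i) := by
          rw [nC, ← he]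
          exact mul_le_mul_of_nonneg_left hp (abs_nonneg _)
      _ = ((Fintype.card κ : ℝ) + 1) ^ (∑ h, r h)
            * (|(d j : ℝ)| * ∏ h, ∏ i, Λ h i ^ j h i) := by ring
      _ ≤ ((Fintype.card κ : ℝ) + 1) ^ (∑ h, r h) * T :=
          mul_le_mul_of_nonneg_left (hT j hj) (by positivity)
  -- norm of the value
  have nval : MPcc0c1aSub.wl1 w (val r d (fun h => app M (gv x dir h)))
      ≤ (JJ ι r).card * (((Fintype.card κ : ℝ) + 1) ^ (∑ h, r h) * T) := by
    unfold val
    refine (MPcc0c1aSub.m5_sum hw _ _).trans ?_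
    refine (Finset.sum_le_sum nterm).trans ?_
    rw [Finset.sum_const, nsmul_eq_mul]
  rw [← hid] at nval
  -- the coefficient
  have hc := nc ((M.det : MvPolynomial (Fin m × Option κ) ℤ) ^ (∑ h, r h)
    * val r p (gv x dir)) a
  have hcoef : coeff a ((M.det : MvPolynomial (Fin m × Option κ) ℤ) ^ (∑ h, r h)
      * val r p (gv x dir)) = M.det ^ (∑ h, r h) * coeff a (val r p (gv x dir)) := by
    have : (M.det : MvPolynomial (Fin m × Option κ) ℤ) ^ (∑ h, r h)
        = C (M.det ^ (∑ h, r h)) := by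
      simp
    rw [this, coeff_C_mul]
  rw [hcoef] at hc
  have hprod : ∏ i, w i ^ a i = ∏ h, ρ h ^ a (h, none) := by
    rw [Fintype.prod_prod_type]
    refine Finset.prod_congr rfl fun h _ => ?_
    rw [Fintype.prod_option]
    simp [hwdef]
  rw [hprod] at hc
  have hdet1 : (1 : ℝ) ≤ |((M.det ^ (∑ h, r h) : ℤ) : ℝ)| := by
    rw [← Int.cast_abs]
    exact_mod_cast Int.one_le_abs (pow_ne_zero _ hdet)
  have hpos : 0 ≤ ∏ h, ρ h ^ a (h, none) :=
    Finset.prod_nonneg fun h _ => pow_nonneg (hρ h).le _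
  calc |((coeff a (val r p (gv x dir)) : ℤ) : ℝ)| * ∏ h, ρ h ^ a (h, none)
      ≤ |((M.det ^ (∑ h, r h) * coeff a (val r p (gv x dir)) : ℤ) : ℝ)|
          * ∏ h, ρ h ^ a (h, none) := by
        refine mul_le_mul_of_nonneg_right ?_ hpos
        rw [Int.cast_mul, abs_mul]
        exact le_mul_of_one_le_left (abs_nonneg _) hdet1
    _ ≤ (JJ ι r).card * (((Fintype.card κ : ℝ) + 1) ^ (∑ h, r h) * T) := hc.trans nval
    _ = (JJ ι r).card * (Fintype.card κ + 1) ^ (∑ h, r h) * T := by ring

end Pool.Agent.SubQ
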