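import Pool.Agent.Lib.SubQ.SpecM

/-!
# SubQ / M7: divisibility of the coefficients of the generic value
-/

set_option autoImplicit false
set_option linter.unusedSectionVars false

namespace Pool.Agent.SubQ

open MvPolynomial

namespace M7Aux

variable {m : ℕ} {ι κ : Type} [Fintype ι] [DecidableEq ι] [Fintype κ]

/-- the weight of the variable `z` -/
def wz (b : ℤ) (A' : Fin m → ℕ) (z : Fin m × Option κ) : ℤ :=
  match z.2 with
  | none => b ^ A' z.1
  | some _ => 1

/-- the scaling of the variables `X (h, none)` -/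
noncomputable def Phi (b : ℤ) (A' : Fin m → ℕ) :
    MvPolynomial (Fin m × Option κ) ℤ →ₐ[ℤ] MvPolynomial (Fin m × Option κ) ℤ :=
  aeval fun z => C (wz b A' z) * X z

theorem Phi_X (b : ℤ) (A' : Fin m → ℕ) (z : Fin m × Option κ) :
    Phi b A' (X z) = C (wz b A' z) * X z := by
  unfold Phi
  rw [aeval_X]

theorem Phi_C (b : ℤ) (A' : Fin m → ℕ) (c : ℤ) :
    Phi b A' (C c : MvPolynomial (Fin m × Option κ) ℤ) = C c := by
  unfold Phi
  rw [aeval_C]
  rfl

theorem prod_wz (b : ℤ) (A' : Fin m → ℕ) (s : Fin m × Option κ →₀ ℕ) :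
    ∏ z, wz b A' z ^ s z = b ^ (∑ h, A' h * s (h, none)) := by
  rw [Fintype.prod_prod_type, ← Finset.prod_pow_eq_pow_sum]
  apply Finset.prod_congr rfl
  intro h _
  rw [Fintype.prod_option]
  have e0 : wz b A' ((h, none) : Fin m × Option κ) = b ^ A' h := rfl
  have e1 : ∀ j : κ, wz b A' ((h, some j) : Fin m × Option κ) = 1 := fun _ => rfl
  simp only [e0, e1, one_pow, Finset.prod_const_one, mul_one]
  rw [← pow_mul]

theorem Phi_monomial (b : ℤ) (A' : Fin m → ℕ) (s : Fin m × Option κ →₀ ℕ) (c : ℤ) :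
    Phi b A' (monomial s c) = monomial s (b ^ (∑ h, A' h * s (h, none)) * c) := by
  rw [monomial_eq, map_mul, Phi_C, ← prod_wz b A' s]
  rw [Finsupp.prod_fintype _ _ (fun i => pow_zero _), map_prod]
  rw [monomial_eq, Finsupp.prod_fintype _ _ (fun i => pow_zero _)]
  rw [C_mul, map_prod]
  have h1 : ∏ z, (Phi b A') (X z ^ s z) =
      (∏ z, C (wz b A' z ^ s z)) * ∏ z, (X z : MvPolynomial (Fin m × Option κ) ℤ) ^ s z := by
    rw [← Finset.prod_mul_distrib]
    apply Finset.prod_congr rfl
    intro z _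
    rw [map_pow, Phi_X, mul_pow, C_pow]
  rw [h1]
  ring

theorem coeff_Phi (b : ℤ) (A' : Fin m → ℕ) (f : MvPolynomial (Fin m × Option κ) ℤ)
    (a : Fin m × Option κ →₀ ℕ) :
    coeff a (Phi b A' f) = b ^ (∑ h, A' h * a (h, none)) * coeff a f := by
  classical
  induction f using MvPolynomial.induction_on' with
  | monomial s c =>
    rw [Phi_monomial, coeff_monomial, coeff_monomial]
    by_cases h : s = a
    · rw [if_pos h, if_pos h, h]
    · rw [if_neg h, if_neg h, mul_zero]
  | add p q hp hq =>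
    rw [map_add, coeff_add, coeff_add, hp, hq, mul_add]

theorem map_val {A B : Type} [CommRing A] [CommRing B] (f : A →+* B) (r : Fin m → ℕ)
    (p : (Fin m → ι → ℕ) → ℤ) (v : Fin m → ι → A) :
    f (val r p v) = val r p (fun h i => f (v h i)) := by
  unfold val
  rw [map_sum]
  apply Finset.sum_congr rfl
  intro j _
  rw [map_mul, map_intCast, map_prod]
  congr 1
  apply Finset.prod_congr rfl
  intro h _
  rw [map_prod]
  apply Finset.prod_congr rfl
  intro i _
  rw [map_pow]

theorem dvd_app (M : Matrix ι ι ℤ) (x : Fin m → κ → ι → ℤ) (dir : Fin m → ι) (b : ℤ)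
    (A : Fin m → ι → ℕ) (A' : Fin m → ℕ)
    (hx : ∀ h j i, b ^ A h i ∣ app M (x h j) i) (hA : ∀ h i, A h i ≤ A' h)
    (h : Fin m) (i : ι) :
    (C (b ^ A h i) : MvPolynomial (Fin m × Option κ) ℤ) ∣
      app M (fun k => Phi b A' (gv x dir h k)) i := by
  have e : app M (fun k => Phi b A' (gv x dir h k)) i =
      (∑ j, C (app M (x h j) i) * X (h, some j)) + C (M i (dir h) * b ^ A' h) * X (h, none) := by
    unfold app
    have h1 : ∀ k, Phi b A' (gv x dir h k) =
        (∑ j, C (x h j k) * X (h, some j)) + (if k = dir h then C (b ^ A' h) * X (h, none) else 0) := by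
      intro k
      unfold gv
      rw [map_add, map_sum]
      congr 1
      · apply Finset.sum_congr rfl
        intro j _
        rw [map_mul, Phi_C, Phi_X]
        have : wz b A' ((h, some j) : Fin m × Option κ) = 1 := rfl
        rw [this, C_1, one_mul]
      · by_cases hk : k = dir h
        · rw [if_pos hk, if_pos hk, Phi_X]
          rfl
        · rw [if_neg hk, if_neg hk, map_zero]
    have h2 : ∀ z : ℤ, ((z : ℤ) : MvPolynomial (Fin m × Option κ) ℤ) = C z := fun z => by simp
    simp only [h1, mul_add, Finset.sum_add_distrib, Finset.mul_sum, mul_ite, mul_zero,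
      Finset.sum_ite_eq', Finset.mem_univ, if_true, h2, map_sum, Finset.sum_mul, C_mul]
    rw [Finset.sum_comm]
    simp [mul_assoc]
  rw [e]
  apply dvd_add
  · apply Finset.dvd_sum
    intro j _
    exact Dvd.dvd.mul_right (map_dvd C (hx h j i)) _
  · apply Dvd.dvd.mul_right
    apply map_dvd C
    exact Dvd.dvd.mul_left (pow_dvd_pow b (hA h i)) _

end M7Aux

open M7Aux in
theorem divBound : DivBound := by
  intro ι κ _ _ _ m r p d M x dir b A A' E hI hx hA hE a
  have e0 : (M.det : ℤ) ^ (∑ h, r h) * coeff a (val r p (gv x dir)) =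
      coeff a ((M.det : MvPolynomial (Fin m × Option κ) ℤ) ^ (∑ h, r h) * val r p (gv x dir)) := by
    have : ((M.det : ℤ) : MvPolynomial (Fin m × Option κ) ℤ) ^ (∑ h, r h) = C (M.det ^ (∑ h, r h)) := by
      rw [C_pow]; simp
    rw [this, coeff_C_mul]
  rw [e0, ← coeff_Phi b A' _ a]
  have key : (C (b ^ E) : MvPolynomial (Fin m × Option κ) ℤ) ∣
      Phi b A' ((M.det : MvPolynomial (Fin m × Option κ) ℤ) ^ (∑ h, r h) * val r p (gv x dir)) := by
    have h0 : Phi b A' ((M.det : MvPolynomial (Fin m × Option κ) ℤ) ^ (∑ h, r h) * val r p (gv x dir)) =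
        val r d (fun h => app M (fun k => Phi b A' (gv x dir h k))) := by
      rw [map_mul, map_pow]
      have h1 : Phi b A' (val r p (gv x dir)) = val r p (fun h i => Phi b A' (gv x dir h i)) :=
        map_val (Phi b A').toRingHom r p (gv x dir)
      rw [h1, ← hI (MvPolynomial (Fin m × Option κ) ℤ) (fun h i => Phi b A' (gv x dir h i))]
      rw [map_intCast]
    rw [h0]
    unfold val
    apply Finset.dvd_sum
    intro j hj
    by_cases hp : d j = 0
    · rw [hp, Int.cast_zero, zero_mul]
      exact dvd_zero _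
    · apply Dvd.dvd.mul_left
      have h1 : (∏ h, ∏ i, (C (b ^ A h i) : MvPolynomial (Fin m × Option κ) ℤ) ^ j h i) ∣
          ∏ h, ∏ i, (app M (fun k => Phi b A' (gv x dir h k)) i) ^ j h i := by
        apply Finset.prod_dvd_prod_of_dvd
        intro h _
        apply Finset.prod_dvd_prod_of_dvd
        intro i _
        exact pow_dvd_pow_of_dvd (dvd_app M x dir b A A' hx hA h i) _
      have h2 : (∏ h, ∏ i, (C (b ^ A h i) : MvPolynomial (Fin m × Option κ) ℤ) ^ j h i) =
          C (b ^ (∑ h, ∑ i, A h i * j h i)) := by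
        rw [← Finset.prod_pow_eq_pow_sum, map_prod]
        apply Finset.prod_congr rfl
        intro h _
        rw [← Finset.prod_pow_eq_pow_sum, map_prod]
        apply Finset.prod_congr rfl
        intro i _
        rw [pow_mul, C_pow (b ^ A h i)]
      rw [h2] at h1
      exact (map_dvd C (pow_dvd_pow b (hE j hj hp))).trans h1
  exact (C_dvd_iff_dvd_coeff _ _).1 key a

end Pool.Agent.SubQ
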