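import Pool.Agent.Lib.SubQ.SpecM

/-!
# SubQ, M8: vanishing (helper59; after `Pool/Agent/Lib/MP_cc0c1a_nt/Sub/M8.lean`)
-/

set_option autoImplicit false
set_option linter.unusedSectionVars false

namespace Pool.Agent.SubQ

open MvPolynomial

section

variable {ι : Type} [Fintype ι] [DecidableEq ι] [Nonempty ι]

private lemma m8_n1 (ι : Type) [Fintype ι] [Nonempty ι] : (1 : ℝ) ≤ Fintype.card ι := by
  exact_mod_cast Fintype.card_pos (α := ι)

private lemma m8_Y {m : ℕ} {r l : Fin m → ℕ} {R ε : ℝ} (hε : 0 < ε)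
    (hε' : ε * Fintype.card ι ≤ 1 / 10) (hR : 0 < R)
    (H : ∀ h, 0 < r h ∧ R ≤ r h * l h ∧ (r h * l h : ℝ) ≤ (1 + ε) * R)
    {j : Fin m → ι → ℕ} (hj : Balanced ε r j) (i : ι) :
    |∑ h, (l h : ℝ) * j h i - R * m / Fintype.card ι| ≤ 3 * ε * m * R := by
  have hn : (1 : ℝ) ≤ Fintype.card ι := m8_n1 ι
  have hε1 : ε ≤ 1 / 10 := by nlinarith
  have hS := hj i
  rw [abs_le] at hS
  set S := ∑ h, (j h i : ℝ) / r h with hSdef
  have h1 : R * S ≤ ∑ h, (l h : ℝ) * j h i := by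
    rw [hSdef, Finset.mul_sum]
    refine Finset.sum_le_sum fun h _ => ?_
    obtain ⟨hr, h2, h3⟩ := H h
    have hr' : (0 : ℝ) < r h := by exact_mod_cast hr
    have h4 : (l h : ℝ) * j h i = (r h * l h) * (j h i / r h) := by field_simp
    rw [h4]
    exact mul_le_mul_of_nonneg_right h2 (by positivity)
  have h2 : ∑ h, (l h : ℝ) * j h i ≤ (1 + ε) * R * S := by
    rw [hSdef, Finset.mul_sum]
    refine Finset.sum_le_sum fun h _ => ?_
    obtain ⟨hr, h2, h3⟩ := H h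
    have hr' : (0 : ℝ) < r h := by exact_mod_cast hr
    have h4 : (l h : ℝ) * j h i = (r h * l h) * (j h i / r h) := by field_simp
    rw [h4]
    exact mul_le_mul_of_nonneg_right h3 (by positivity)
  have hm : (0 : ℝ) ≤ m := Nat.cast_nonneg m
  have hmn : (m : ℝ) / Fintype.card ι ≤ m := div_le_self hm hn
  rw [mul_div_assoc]
  generalize (m : ℝ) / Fintype.card ι = u at *
  have hmR : 0 ≤ (m : ℝ) * R := by positivity
  have hemR : 0 ≤ ε * (m * R) := by positivity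
  have heemR : ε * (ε * (m * R)) ≤ 1 / 10 * (ε * (m * R)) :=
    mul_le_mul_of_nonneg_right hε1 hemR
  have huR : ε * R * u ≤ ε * R * m := mul_le_mul_of_nonneg_left hmn (by positivity)
  rw [abs_le]
  constructor
  · have h3 : R * (u - ε * m) ≤ R * S := mul_le_mul_of_nonneg_left (by linarith) hR.le
    nlinarith
  · have h3 : (1 + ε) * R * S ≤ (1 + ε) * R * (u + ε * m) :=
      mul_le_mul_of_nonneg_left (by linarith) (by positivity)
    nlinarith

private lemma m8_up {c Y : ι → ℝ} {K ε m R : ℝ} (hε : 0 < ε)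
    (hε' : ε * Fintype.card ι ≤ 1 / 10) (hR : 0 < R)
    (hm : 0 ≤ m) (hK : 1 + ∑ i, |c i| ≤ K)
    (hY : ∀ i, |Y i - R * m / Fintype.card ι| ≤ 3 * ε * m * R) :
    ∑ i, (c i + ε) * Y i ≤ R * m * ((∑ i, c i) / Fintype.card ι + 3 * K * ε) := by
  have hn : (1 : ℝ) ≤ Fintype.card ι := m8_n1 ι
  have hn0 : (Fintype.card ι : ℝ) ≠ 0 := by linarith
  have hmR : 0 ≤ R * m := by positivity
  have hemR : 0 ≤ ε * (R * m) := by positivity
  have h1 : ∀ i, (c i + ε) * Y i ≤ R * m / Fintype.card ι * c i + 3 * (ε * (R * m)) * |c i| +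
      (ε * (R * m / Fintype.card ι) + 3 * ε * (ε * (R * m))) := by
    intro i
    have h2 : c i * (Y i - R * m / Fintype.card ι) ≤ |c i| * (3 * ε * m * R) :=
      (le_abs_self _).trans (by
        rw [abs_mul]; exact mul_le_mul_of_nonneg_left (hY i) (abs_nonneg _))
    have h3 := (abs_le.1 (hY i)).2
    have h4 : ε * (Y i - R * m / Fintype.card ι) ≤ ε * (3 * ε * m * R) :=
      mul_le_mul_of_nonneg_left h3 hε.le
    have e1 : (c i + ε) * Y i = c i * (Y i - R * m / Fintype.card ι) +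
        ε * (Y i - R * m / Fintype.card ι) + R * m / Fintype.card ι * c i +
        ε * (R * m / Fintype.card ι) := by ring
    have e2 : |c i| * (3 * ε * m * R) = 3 * (ε * (R * m)) * |c i| := by ring
    have e3 : ε * (3 * ε * m * R) = 3 * ε * (ε * (R * m)) := by ring
    rw [e1]
    linarith
  refine (Finset.sum_le_sum fun i _ => h1 i).trans ?_
  rw [Finset.sum_add_distrib, Finset.sum_add_distrib, ← Finset.mul_sum, ← Finset.mul_sum,
    Finset.sum_const, Finset.card_univ, nsmul_eq_mul]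
  have e1 : (Fintype.card ι : ℝ) * (ε * (R * m / Fintype.card ι) + 3 * ε * (ε * (R * m))) =
      ε * (R * m) + 3 * (ε * Fintype.card ι) * (ε * (R * m)) := by
    field_simp
  have e2 : 3 * (ε * Fintype.card ι) * (ε * (R * m)) ≤ 3 * (1 / 10) * (ε * (R * m)) := by
    apply mul_le_mul_of_nonneg_right _ hemR
    linarith
  have e3 : R * m / Fintype.card ι * ∑ i, c i = R * m * ((∑ i, c i) / Fintype.card ι) := by
    field_simp
  have e4 : 3 * (ε * (R * m)) * ∑ i, |c i| ≤ 3 * (ε * (R * m)) * (K - 1) :=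
    mul_le_mul_of_nonneg_left (by linarith) (by positivity)
  rw [e1, e3]
  nlinarith

private lemma m8_low {α Y : ι → ℝ} {K ε m R : ℝ} (hε : 0 < ε)
    (hε' : ε * Fintype.card ι ≤ 1 / 10) (hR : 0 < R)
    (hm : 0 ≤ m) (hα : ∀ i, 0 ≤ α i) (hK : 1 + ∑ i, α i ≤ K)
    (hY : ∀ i, |Y i - R * m / Fintype.card ι| ≤ 3 * ε * m * R) :
    R * m * ((∑ i, α i) / Fintype.card ι - 3 * K * ε) ≤ ∑ i, (α i - ε) * Y i := by
  have h := m8_up (c := fun i => -α i) (Y := Y) hε hε' hR hm (K := K) (by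
    simpa [abs_neg, abs_of_nonneg (hα _)] using hK) hY
  have e1 : ∑ i, (-α i + ε) * Y i = -∑ i, (α i - ε) * Y i := by
    rw [← Finset.sum_neg_distrib]
    exact Finset.sum_congr rfl fun i _ => by ring
  have e2 : ∑ i : ι, -α i = -∑ i, α i := Finset.sum_neg_distrib _
  rw [e1, e2, neg_div] at h
  nlinarith

private lemma m8_prod {m : ℕ} (l : Fin m → ℕ) (e : ι → ℝ) (j : Fin m → ι → ℕ) :
    ∏ h, ∏ i, Real.exp (e i * l h) ^ j h i = Real.exp (∑ i, e i * ∑ h, (l h : ℝ) * j h i) := by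
  have h1 : ∀ h i, Real.exp (e i * l h) ^ j h i = Real.exp (e i * ((l h : ℝ) * j h i)) := by
    intro h i
    rw [← Real.exp_nat_mul]
    congr 1
    ring
  simp_rw [h1, ← Real.exp_sum]
  congr 1
  rw [Finset.sum_comm]
  exact Finset.sum_congr rfl fun i _ => by rw [Finset.mul_sum]

variable {κ : Type} [Fintype κ]

private lemma m8_wl {m : ℕ} {r l : Fin m → ℕ} {R ε : ℝ} (hε : 0 < ε) (hR : 0 < R)
    (H : ∀ h, 0 < r h ∧ R ≤ r h * l h ∧ (r h * l h : ℝ) ≤ (1 + ε) * R)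
    (a : Fin m × Option κ →₀ ℕ) (ha : swt r a ≤ ε) :
    ∑ h, (l h : ℝ) * a (h, none) ≤ (1 + ε) * R * ε := by
  have h1 : ∑ h, (l h : ℝ) * a (h, none) ≤ (1 + ε) * R * swt r a := by
    rw [swt, Finset.mul_sum]
    refine Finset.sum_le_sum fun h _ => ?_
    obtain ⟨hr, h2, h3⟩ := H h
    have hr' : (0 : ℝ) < r h := by exact_mod_cast hr
    have h4 : (l h : ℝ) * a (h, none) = (r h * l h) * (a (h, none) / r h) := by field_simp
    rw [h4]
    exact mul_le_mul_of_nonneg_right h3 (by positivity)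
  exact h1.trans (mul_le_mul_of_nonneg_left ha (by positivity))

private lemma m8_pow {m : ℕ} {r l : Fin m → ℕ} {R ε D : ℝ} (L₀ : ℕ) (hε : 0 < ε)
    (hε' : ε ≤ 1 / 10) (hR : 0 < R) (hD : 1 ≤ D) (hL : 2 * Real.log D / ε ≤ L₀)
    (H : ∀ h, L₀ ≤ l h ∧ 0 < r h ∧ R ≤ r h * l h ∧ (r h * l h : ℝ) ≤ (1 + ε) * R) :
    D ^ (∑ h, r h) ≤ Real.exp (ε * R * m) := by
  have hlog : 0 ≤ Real.log D := Real.log_nonneg hD
  have h1 : ∀ h, Real.log D * r h ≤ ε * R := by
    intro h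
    obtain ⟨h1, h2, h3, h4⟩ := H h
    have h5 : (L₀ : ℝ) ≤ l h := by exact_mod_cast h1
    have h6 : 2 * Real.log D ≤ ε * L₀ := by
      rw [div_le_iff₀ hε] at hL
      linarith
    have h7 : 2 * Real.log D * r h ≤ ε * L₀ * r h :=
      mul_le_mul_of_nonneg_right h6 (Nat.cast_nonneg _)
    have h8 : ε * L₀ * r h ≤ ε * (r h * l h) := by
      have h8 : (L₀ : ℝ) * r h ≤ l h * r h := mul_le_mul_of_nonneg_right h5 (Nat.cast_nonneg _)
      nlinarith
    have h9 : ε * (r h * l h) ≤ ε * ((1 + ε) * R) := mul_le_mul_of_nonneg_left h4 hε.le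
    have h10 : ε * ((1 + ε) * R) ≤ 2 * (ε * R) := by
      have h10 : 0 < ε * R := by positivity
      nlinarith
    linarith
  have h2 : Real.log D * (∑ h, r h : ℕ) ≤ ε * R * m := by
    push_cast
    rw [Finset.mul_sum]
    calc ∑ h, Real.log D * r h ≤ ∑ _h : Fin m, ε * R := Finset.sum_le_sum fun h _ => h1 h
      _ = ε * R * m := by rw [Finset.sum_const, Finset.card_univ, Fintype.card_fin, nsmul_eq_mul]; ring
  calc D ^ (∑ h, r h) = Real.exp (Real.log D * (∑ h, r h : ℕ)) := by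
        rw [mul_comm, Real.exp_nat_mul, Real.exp_log (by linarith)]
    _ ≤ _ := Real.exp_le_exp.2 h2

/-- the consequence of the divisibility bound for the prime `b` -/
private lemma m8_div {m : ℕ} (h3 : DivBound) {r l : Fin m → ℕ} {R ε K : ℝ} (hε : 0 < ε)
    (hε' : ε * Fintype.card ι ≤ 1 / 10) (hR : 0 < R) {α : ι → ℝ} (hα : ∀ i, 0 ≤ α i)
    (hK : 1 + ∑ i, α i ≤ K)
    (H : ∀ h, 0 < r h ∧ R ≤ r h * l h ∧ (r h * l h : ℝ) ≤ (1 + ε) * R)
    (p d : (Fin m → ι → ℕ) → ℤ) (M : Matrix ι ι ℤ) (hid : Ident r M p d)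
    (hd : ∀ j ∈ JJ ι r, d j ≠ 0 → Balanced ε r j)
    (A : Fin m → ι → ℕ) (x : Fin m → κ → ι → ℤ) (dir : Fin m → ι) (b : ℤ)
    (hA : ∀ h i, |(A h i : ℝ) - α i * l h| ≤ ε * l h)
    (hx : ∀ h j i, b ^ A h i ∣ app M (x h j) i)
    (a : Fin m × Option κ →₀ ℕ) (ha : swt r a ≤ ε) :
    ∃ E s : ℕ, b ^ E ∣ b ^ s * (M.det ^ (∑ h, r h) * coeff a (val r p (gv x dir))) ∧
      R * m * ((∑ i, α i) / Fintype.card ι - 3 * K * ε) - 1 ≤ E ∧ (s : ℝ) ≤ 2 * K * R * ε := by
  have hn : (1 : ℝ) ≤ Fintype.card ι := m8_n1 ι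
  have hε1 : ε ≤ 1 / 10 := by nlinarith
  refine ⟨⌊R * m * ((∑ i, α i) / Fintype.card ι - 3 * K * ε)⌋₊,
    ∑ h, (∑ i, A h i) * a (h, none),
    h3 ι κ m r p d M x dir b A (fun h => ∑ i, A h i) _ hid hx ?_ ?_ a, ?_, ?_⟩
  · intro h i
    exact Finset.single_le_sum (f := fun i => A h i) (fun _ _ => Nat.zero_le _) (Finset.mem_univ i)
  · intro j hj hpj
    apply Nat.floor_le_of_le
    have h4 := m8_low hε hε' hR (Nat.cast_nonneg m) hα hK
      (Y := fun i => ∑ h, (l h : ℝ) * j h i) (fun i => m8_Y hε hε' hR H (hd j hj hpj) i)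
    refine h4.trans ?_
    push_cast
    rw [Finset.sum_comm]
    refine Finset.sum_le_sum fun i _ => ?_
    rw [Finset.mul_sum]
    refine Finset.sum_le_sum fun h _ => ?_
    have h5 := (abs_le.1 (hA h i)).1
    have h6 : (0 : ℝ) ≤ j h i := Nat.cast_nonneg _
    have h7 : (α i - ε) * l h ≤ A h i := by linarith
    calc (α i - ε) * ((l h : ℝ) * j h i) = (α i - ε) * l h * j h i := by ring
      _ ≤ (A h i : ℝ) * j h i := mul_le_mul_of_nonneg_right h7 h6
  · exact (Nat.sub_one_lt_floor _).le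
  · have hα0 : 0 ≤ ∑ i, α i := Finset.sum_nonneg fun i _ => hα i
    have hK1 : 1 ≤ K := by linarith
    have h5 : ∀ h, ((∑ i, A h i : ℕ) : ℝ) ≤ K * l h := by
      intro h
      push_cast
      have h6 : ∀ i, (A h i : ℝ) ≤ α i * l h + ε * l h := fun i => by
        have := (abs_le.1 (hA h i)).2
        linarith
      calc ∑ i, (A h i : ℝ) ≤ ∑ i, (α i * l h + ε * l h) := Finset.sum_le_sum fun i _ => h6 i
        _ = ((∑ i, α i) + ε * Fintype.card ι) * l h := by
            rw [Finset.sum_add_distrib, ← Finset.sum_mul, Finset.sum_const, Finset.card_univ,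
              nsmul_eq_mul]
            ring
        _ ≤ K * l h := mul_le_mul_of_nonneg_right (by linarith) (Nat.cast_nonneg _)
    push_cast
    calc ∑ h, (∑ i, (A h i : ℝ)) * (a (h, none) : ℝ) ≤ ∑ h, K * ((l h : ℝ) * a (h, none)) := by
          refine Finset.sum_le_sum fun h _ => ?_
          have h6 := h5 h
          push_cast at h6
          have h7 : (0 : ℝ) ≤ a (h, none) := Nat.cast_nonneg _
          rw [← mul_assoc]
          exact mul_le_mul_of_nonneg_right h6 h7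
      _ = K * ∑ h, (l h : ℝ) * a (h, none) := by rw [Finset.mul_sum]
      _ ≤ K * ((1 + ε) * R * ε) := mul_le_mul_of_nonneg_left (m8_wl hε hR H a ha) (by linarith)
      _ ≤ 2 * K * R * ε := by
          have h8 : 0 < K * (R * ε) := by positivity
          nlinarith

/-- the consequence of the real bound -/
private lemma m8_real {m : ℕ} (h1 : CardJ) (h2 : RealBound) {r l : Fin m → ℕ} {R ε K C : ℝ}
    (hm : 1 ≤ m) (hε : 0 < ε) (hε' : ε * Fintype.card ι ≤ 1 / 10) (hR : 0 < R) {c : ι → ℝ}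
    (hK : 1 + ∑ i, |c i| ≤ K) (L₀ : ℕ) (hC : 1 ≤ C)
    (hL : 2 * Real.log (2 ^ Fintype.card ι * (Fintype.card κ + 1) * C) / ε ≤ L₀)
    (M : Matrix ι ι ℤ) (hM : M.det ≠ 0)
    (hML : ∀ i k, |(M i k : ℝ)| ≤ Real.exp L₀)
    (H : ∀ h, L₀ ≤ l h ∧ 0 < r h ∧ R ≤ r h * l h ∧ (r h * l h : ℝ) ≤ (1 + ε) * R)
    (p d : (Fin m → ι → ℕ) → ℤ) (hd : ∀ j ∈ JJ ι r, d j ≠ 0 → Balanced ε r j)
    (hdC : ∀ j ∈ JJ ι r, |(d j : ℝ)| ≤ C ^ (∑ h, r h))
    (hid : Ident r M p d)
    (x : Fin m → κ → ι → ℤ) (dir : Fin m → ι)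
    (hx : ∀ h j i, |((app M (x h j) i : ℤ) : ℝ)| ≤ Real.exp ((c i + ε) * l h))
    (a : Fin m × Option κ →₀ ℕ) (ha : swt r a ≤ ε) :
    |((coeff a (val r p (gv x dir)) : ℤ) : ℝ)| ≤
      Real.exp (R * m * ((∑ i, c i) / Fintype.card ι + 8 * K * ε)) := by
  have hn : (1 : ℝ) ≤ Fintype.card ι := m8_n1 ι
  have hε1 : ε ≤ 1 / 10 := by nlinarith
  have hc0 : 0 ≤ ∑ i, |c i| := Finset.sum_nonneg fun i _ => abs_nonneg _
  have hK1 : 1 ≤ K := by linarith
  have hm' : (1 : ℝ) ≤ m := by exact_mod_cast hm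
  have H' : ∀ h, 0 < r h ∧ R ≤ r h * l h ∧ (r h * l h : ℝ) ≤ (1 + ε) * R := fun h => (H h).2
  have hb := h2 ι κ m r p d M x dir (fun h i => Real.exp ((c i + ε) * l h))
    (fun h => Real.exp (-((K + 1) * l h)))
    (C ^ (∑ h, r h) * Real.exp (R * m * ((∑ i, c i) / Fintype.card ι + 3 * K * ε))) hM hid
    (fun h => Real.exp_pos _) (fun h i => (Real.exp_pos _).le) (by
      intro h i
      refine ⟨fun j => hx h j i, ?_⟩
      have h5 : (L₀ : ℝ) ≤ l h := by exact_mod_cast (H h).1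
      have h6 : |(M i (dir h) : ℝ)| ≤ Real.exp (l h) :=
        (hML i (dir h)).trans (Real.exp_le_exp.2 h5)
      calc |(M i (dir h) : ℝ)| * Real.exp (-((K + 1) * l h))
          ≤ Real.exp (l h) * Real.exp (-((K + 1) * l h)) :=
            mul_le_mul_of_nonneg_right h6 (Real.exp_pos _).le
        _ = Real.exp (-K * l h) := by rw [← Real.exp_add]; congr 1; ring
        _ ≤ Real.exp ((c i + ε) * l h) := by
            apply Real.exp_le_exp.2
            apply mul_le_mul_of_nonneg_right _ (Nat.cast_nonneg _)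
            have h7 : |c i| ≤ ∑ i, |c i| :=
              Finset.single_le_sum (f := fun i => |c i|) (fun _ _ => abs_nonneg _)
                (Finset.mem_univ i)
            have h8 := neg_abs_le (c i)
            linarith)
    (by
      intro j hj
      by_cases hdj : d j = 0
      · rw [hdj]
        simp only [Int.cast_zero, abs_zero, zero_mul]
        positivity
      · refine mul_le_mul (hdC j hj) ?_ (by positivity) (by positivity)
        rw [m8_prod l (fun i => c i + ε) j]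
        apply Real.exp_le_exp.2
        exact m8_up hε hε' hR (Nat.cast_nonneg m) hK
          (fun i => m8_Y hε hε' hR H' (hd j hj hdj) i)) a
  have hwl := m8_wl hε hR H' a ha
  have hprod : ∏ h, Real.exp (-((K + 1) * l h)) ^ a (h, none) =
      Real.exp (-((K + 1) * ∑ h, (l h : ℝ) * a (h, none))) := by
    have h9 : ∀ h, Real.exp (-((K + 1) * l h)) ^ a (h, none) =
        Real.exp (-((K + 1) * ((l h : ℝ) * a (h, none)))) := by
      intro h
      rw [← Real.exp_nat_mul]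
      congr 1
      ring
    simp_rw [h9, ← Real.exp_sum]
    congr 1
    rw [Finset.mul_sum, ← Finset.sum_neg_distrib]
  rw [hprod] at hb
  set F := |((coeff a (val r p (gv x dir)) : ℤ) : ℝ)| with hF
  have hcard : ((JJ ι r).card : ℝ) ≤ (2 ^ Fintype.card ι) ^ (∑ h, r h) := by
    exact_mod_cast (h1 ι m r).2
  have hD1 : 1 ≤ 2 ^ Fintype.card ι * ((Fintype.card κ : ℝ) + 1) * C := by
    have e1 : (1 : ℝ) ≤ 2 ^ Fintype.card ι := one_le_pow₀ (by norm_num)
    have e2 : (1 : ℝ) ≤ (Fintype.card κ : ℝ) + 1 := by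
      have := Nat.cast_nonneg (α := ℝ) (Fintype.card κ)
      linarith
    exact one_le_mul_of_one_le_of_one_le (one_le_mul_of_one_le_of_one_le e1 e2) hC
  have hpow := m8_pow (m := m) L₀ hε hε1 hR hD1 hL H
  have hκ0 : (0 : ℝ) ≤ (Fintype.card κ : ℝ) := Nat.cast_nonneg _
  have h5 : F ≤ ((JJ ι r).card * (Fintype.card κ + 1) ^ (∑ h, r h) *
      (C ^ (∑ h, r h) * Real.exp (R * m * ((∑ i, c i) / Fintype.card ι + 3 * K * ε)))) *
      Real.exp ((K + 1) * ∑ h, (l h : ℝ) * a (h, none)) := by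
    have h6 : F = F * Real.exp (-((K + 1) * ∑ h, (l h : ℝ) * a (h, none))) *
        Real.exp ((K + 1) * ∑ h, (l h : ℝ) * a (h, none)) := by
      rw [mul_assoc, ← Real.exp_add, neg_add_cancel, Real.exp_zero, mul_one]
    rw [h6]
    exact mul_le_mul_of_nonneg_right hb (Real.exp_pos _).le
  refine h5.trans ?_
  have h7 : ((JJ ι r).card * ((Fintype.card κ : ℝ) + 1) ^ (∑ h, r h) *
      (C ^ (∑ h, r h) * Real.exp (R * m * ((∑ i, c i) / Fintype.card ι + 3 * K * ε)))) ≤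
      Real.exp (ε * R * m) * Real.exp (R * m * ((∑ i, c i) / Fintype.card ι + 3 * K * ε)) := by
    rw [← mul_assoc]
    apply mul_le_mul_of_nonneg_right _ (Real.exp_pos _).le
    calc ((JJ ι r).card : ℝ) * ((Fintype.card κ : ℝ) + 1) ^ (∑ h, r h) * C ^ (∑ h, r h)
        ≤ (2 ^ Fintype.card ι) ^ (∑ h, r h) * ((Fintype.card κ : ℝ) + 1) ^ (∑ h, r h) *
          C ^ (∑ h, r h) := by gcongr
      _ = (2 ^ Fintype.card ι * ((Fintype.card κ : ℝ) + 1) * C) ^ (∑ h, r h) := by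
          rw [← mul_pow, ← mul_pow]
      _ ≤ _ := hpow
  calc _ ≤ Real.exp (ε * R * m) *
        Real.exp (R * m * ((∑ i, c i) / Fintype.card ι + 3 * K * ε)) *
        Real.exp ((K + 1) * ((1 + ε) * R * ε)) := by
        refine mul_le_mul h7 ?_ (Real.exp_pos _).le (by positivity)
        apply Real.exp_le_exp.2
        exact mul_le_mul_of_nonneg_left hwl (by linarith)
    _ = Real.exp (ε * R * m + R * m * ((∑ i, c i) / Fintype.card ι + 3 * K * ε) +
        (K + 1) * ((1 + ε) * R * ε)) := by rw [Real.exp_add, Real.exp_add]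
    _ ≤ _ := by
        apply Real.exp_le_exp.2
        have hRe : 0 < R * ε := by positivity
        have e1 : ε * R * m ≤ K * (R * m * ε) := by
          have e0 : 0 < R * m * ε := by positivity
          nlinarith
        have e2 : (K + 1) * ((1 + ε) * R * ε) ≤ 4 * (K * (R * ε)) := by
          have e0 : (K + 1) * (1 + ε) ≤ 4 * K := by nlinarith
          nlinarith
        have e3 : K * (R * ε) ≤ K * (R * m * ε) := by
          have e0 : R * ε ≤ R * m * ε := by nlinarith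
          exact mul_le_mul_of_nonneg_left e0 (by linarith)
        nlinarith

private lemma m8_exp {s : ℕ} (q : Fin s → ℕ) (hq : ∀ v, 0 < q v) (E : Fin s → ℕ) :
    ∏ v, (q v : ℝ) ^ E v = Real.exp (∑ v, (E v : ℝ) * Real.log (q v)) := by
  rw [Real.exp_sum]
  refine Finset.prod_congr rfl fun v _ => ?_
  rw [Real.exp_nat_mul, Real.exp_log (by exact_mod_cast hq v)]

/-- the final contradiction -/
private lemma m8_fin {n K L Λ R m ε η Sc SA SE SS : ℝ} (hn : 1 ≤ n) (hK : 1 ≤ K) (hΛ : 0 ≤ Λ)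
    (hL : L = 1 + Λ) (hε : 0 < ε) (hRε : 1 ≤ R * ε) (hR : 0 < R) (hm : 1 ≤ m)
    (hεη : 16 * K * L * ε ≤ η / n) (hc : Sc + η ≤ SA)
    (hE : R * m / n * SA - (3 * K * ε * R * m + 1) * Λ ≤ SE) (hS : SS ≤ 2 * K * R * ε * Λ)
    (hlog : SE ≤ SS + (ε * R * m + R * m * (Sc / n + 8 * K * ε))) : False := by
  have hn0 : 0 < n := by linarith
  have hRm : 0 < R * m := by positivity
  have hX0 : R * ε ≤ R * m * ε := by
    have h1 : R * ε * 1 ≤ R * ε * m := mul_le_mul_of_nonneg_left hm (by positivity)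
    linarith
  obtain ⟨X, hX⟩ : ∃ X, X = K * (R * m * ε) := ⟨_, rfl⟩
  have hX1 : R * m * ε ≤ X := by
    rw [hX]
    exact le_mul_of_one_le_left (by positivity) hK
  have hX2 : 1 ≤ X := by linarith
  have hX3 : K * (R * ε) ≤ X := by
    rw [hX]
    exact mul_le_mul_of_nonneg_left hX0 (by linarith)
  have e1 : R * m / n * (Sc + η) ≤ R * m / n * SA := mul_le_mul_of_nonneg_left hc (by positivity)
  have e2 : R * m * (16 * K * L * ε) ≤ R * m * (η / n) := mul_le_mul_of_nonneg_left hεη hRm.le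
  have e3 : R * m * (16 * K * L * ε) = 16 * X * L := by rw [hX]; ring
  have e4 : R * m * (η / n) = R * m / n * η := by ring
  have e5 : R * m * (Sc / n + 8 * K * ε) = R * m / n * Sc + 8 * X := by rw [hX]; ring
  have e6 : (3 * K * ε * R * m + 1) * Λ ≤ (3 * X + X) * Λ := by
    apply mul_le_mul_of_nonneg_right _ hΛ
    have e7 : 3 * K * ε * R * m = 3 * X := by rw [hX]; ring
    linarith
  have e8 : 2 * K * R * ε * Λ ≤ 2 * X * Λ := by
    apply mul_le_mul_of_nonneg_right _ hΛ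
    linarith
  have e9 : ε * R * m ≤ X := by linarith
  have e10 : 0 ≤ X * Λ := mul_nonneg (by linarith) hΛ
  have e11 : 16 * X * L = 16 * X + 16 * (X * Λ) := by rw [hL]; ring
  have e12 : R * m / n * (Sc + η) = R * m / n * Sc + R * m / n * η := by ring
  linarith

end

theorem vanish (h1 : CardJ) (h2 : RealBound) (h3 : DivBound) : Vanish := by
  classical
  intro ι κ _ _ _ _ s q M c α η hq hM hη hα hcη
  have hn : (1 : ℝ) ≤ Fintype.card ι := m8_n1 ι
  have hlq : ∀ v, 0 < Real.log (q v) := fun v =>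
    Real.log_pos (by exact_mod_cast (hq.prime v).one_lt)
  obtain ⟨K, hK⟩ : ∃ K : ℝ, K = 1 + ∑ i, |c i| + ∑ v, ∑ i, α v i := ⟨_, rfl⟩
  have hc0 : 0 ≤ ∑ i, |c i| := Finset.sum_nonneg fun i _ => abs_nonneg _
  have hα0 : 0 ≤ ∑ v, ∑ i, α v i :=
    Finset.sum_nonneg fun v _ => Finset.sum_nonneg fun i _ => hα v i
  have hK1 : 1 ≤ K := by linarith
  obtain ⟨Λ, hΛ⟩ : ∃ Λ : ℝ, Λ = ∑ v, Real.log (q v) := ⟨_, rfl⟩
  have hΛ0 : 0 ≤ Λ := by
    rw [hΛ]
    exact Finset.sum_nonneg fun v _ => (hlq v).le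
  obtain ⟨L, hL⟩ : ∃ L : ℝ, L = 1 + Λ := ⟨_, rfl⟩
  have hL1 : 1 ≤ L := by linarith
  refine ⟨min (1 / (10 * Fintype.card ι)) (η / (16 * Fintype.card ι * K * L)), by positivity, ?_⟩
  intro ε hε hε0 C hC
  have hε' : ε * Fintype.card ι ≤ 1 / 10 := by
    have h4 := hε0.trans (min_le_left _ _)
    rw [le_div_iff₀ (by positivity)] at h4
    linarith
  have hεη : 16 * K * L * ε ≤ η / Fintype.card ι := by
    have h4 := hε0.trans (min_le_right _ _)
    rw [le_div_iff₀ (by positivity)] at h4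
    rw [le_div_iff₀ (by positivity)]
    linarith
  have hε1 : ε ≤ 1 / 10 := by nlinarith
  obtain ⟨D, hD⟩ : ∃ D : ℝ, D = ∏ v, |((M (some v)).det : ℝ)| := ⟨_, rfl⟩
  have hD1 : 1 ≤ D := by
    rw [hD]
    refine Finset.prod_induction _ (fun x => 1 ≤ x)
      (fun a b ha hb => one_le_mul_of_one_le_of_one_le ha hb) le_rfl (fun v _ => ?_)
    have h4 := Int.one_le_abs (hM (some v))
    exact_mod_cast h4
  obtain ⟨L₁, hL₁⟩ := exists_nat_ge
    (2 * Real.log (2 ^ Fintype.card ι * (Fintype.card κ + 1) * C) / ε)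
  obtain ⟨L₂, hL₂⟩ := exists_nat_ge (∑ i, ∑ k, |(M none i k : ℝ)|)
  obtain ⟨L₃, hL₃⟩ := exists_nat_ge (2 * Real.log D / ε)
  refine ⟨L₁ + L₂ + L₃ + 1, ?_⟩
  intro m r l R hm hR1 H p d hbal hdC hid A x dir hA hxd hxr a ha
  by_contra hf
  have hR : 0 < R := lt_of_lt_of_le (by positivity) hR1
  have hRε : 1 ≤ R * ε := by
    rw [div_le_iff₀ hε] at hR1
    exact hR1
  have hm' : (1 : ℝ) ≤ m := by exact_mod_cast hm
  have H' : ∀ h, 0 < r h ∧ R ≤ r h * l h ∧ (r h * l h : ℝ) ≤ (1 + ε) * R := fun h => (H h).2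
  have hreal := m8_real h1 h2 (K := K) (c := c) hm hε hε' hR (by linarith) (L₁ + L₂ + L₃ + 1) hC
    (hL₁.trans (by
      push_cast
      linarith [Nat.cast_nonneg (α := ℝ) L₂, Nat.cast_nonneg (α := ℝ) L₃])) (M none) (hM none) (by
      intro i k
      have e1 : |(M none i k : ℝ)| ≤ ∑ k, |(M none i k : ℝ)| :=
        Finset.single_le_sum (f := fun k => |(M none i k : ℝ)|) (fun _ _ => abs_nonneg _)
          (Finset.mem_univ k)
      have e2 : ∑ k, |(M none i k : ℝ)| ≤ ∑ i, ∑ k, |(M none i k : ℝ)| :=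
        Finset.single_le_sum (f := fun i => ∑ k, |(M none i k : ℝ)|)
          (fun _ _ => Finset.sum_nonneg fun _ _ => abs_nonneg _) (Finset.mem_univ i)
      have e3 := Real.add_one_le_exp ((L₁ + L₂ + L₃ + 1 : ℕ) : ℝ)
      push_cast at e3 ⊢
      linarith [Nat.cast_nonneg (α := ℝ) L₁, Nat.cast_nonneg (α := ℝ) L₃]) H p (d none)
    (hbal none) (hdC none) (hid none) x dir hxr a ha
  have hDpow := m8_pow (m := m) (L₁ + L₂ + L₃ + 1) hε hε1 hR hD1 (hL₃.trans (by
    push_cast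
    linarith [Nat.cast_nonneg (α := ℝ) L₂, Nat.cast_nonneg (α := ℝ) L₁])) H
  have hKv : ∀ v, 1 + ∑ i, α v i ≤ K := by
    intro v
    have e1 : ∑ i, α v i ≤ ∑ v, ∑ i, α v i :=
      Finset.single_le_sum (f := fun v => ∑ i, α v i)
        (fun v _ => Finset.sum_nonneg fun i _ => hα v i) (Finset.mem_univ v)
    linarith
  have hdv := fun v => m8_div h3 (K := K) hε hε' hR (hα v) (hKv v) H' p (d (some v)) (M (some v))
    (hid (some v)) (hbal (some v)) (fun h i => A h v i) x dir (q v : ℤ) (fun h i => hA h v i)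
    (fun h j i => hxd h v j i) a ha
  choose E S hdiv hE hS using hdv
  set f : ℤ := coeff a (val r p (gv x dir)) with hfdef
  have hz : ∏ v, (q v : ℤ) ^ E v ∣ (∏ v, (q v : ℤ) ^ S v) *
      ((∏ v, (M (some v)).det ^ (∑ h, r h)) * f) := by
    apply Finset.prod_dvd_of_coprime
    · intro v _ w _ hvw
      show IsCoprime ((q v : ℤ) ^ E v) ((q w : ℤ) ^ E w)
      apply IsCoprime.pow
      rw [Nat.isCoprime_iff_coprime]
      exact (Nat.coprime_primes (hq.prime v) (hq.prime w)).2 (fun h => hvw (hq.inj h))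
    · intro v _
      exact (hdiv v).trans (mul_dvd_mul (Finset.dvd_prod_of_mem _ (Finset.mem_univ v))
        (mul_dvd_mul (Finset.dvd_prod_of_mem (fun v => (M (some v)).det ^ (∑ h, r h))
          (Finset.mem_univ v)) (dvd_refl f)))
  have hqpos : ∀ v, 0 < q v := fun v => (hq.prime v).pos
  have hne : (∏ v, (q v : ℤ) ^ S v) * ((∏ v, (M (some v)).det ^ (∑ h, r h)) * f) ≠ 0 := by
    refine mul_ne_zero (Finset.prod_ne_zero_iff.2 fun v _ => pow_ne_zero _ ?_)
      (mul_ne_zero (Finset.prod_ne_zero_iff.2 fun v _ => pow_ne_zero _ (hM _)) hf)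
    exact_mod_cast (hqpos v).ne'
  have hle := Int.le_of_dvd (abs_pos.2 hne) ((dvd_abs _ _).2 hz)
  have hle' : ∏ v, (q v : ℝ) ^ E v ≤ (∏ v, (q v : ℝ) ^ S v) * (D ^ (∑ h, r h) * |(f : ℝ)|) := by
    have h5 : ((∏ v, (q v : ℤ) ^ E v : ℤ) : ℝ) ≤
        ((|(∏ v, (q v : ℤ) ^ S v) * ((∏ v, (M (some v)).det ^ (∑ h, r h)) * f)| : ℤ) : ℝ) := by
      exact_mod_cast hle
    have h6 : ((|(∏ v, (q v : ℤ) ^ S v) * ((∏ v, (M (some v)).det ^ (∑ h, r h)) * f)| : ℤ) : ℝ) =
        (∏ v, (q v : ℝ) ^ S v) * (D ^ (∑ h, r h) * |(f : ℝ)|) := by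
      simp only [Int.cast_abs, Int.cast_mul, Int.cast_prod, Int.cast_pow, Int.cast_natCast]
      rw [abs_mul, abs_mul, Finset.abs_prod, Finset.abs_prod, hD, ← Finset.prod_pow]
      congr 1
      · refine Finset.prod_congr rfl fun v _ => ?_
        rw [abs_of_nonneg (by positivity)]
      · congr 1
        refine Finset.prod_congr rfl fun v _ => ?_
        rw [abs_pow]
    rw [h6] at h5
    push_cast at h5
    exact h5
  rw [m8_exp q hqpos E, m8_exp q hqpos S] at hle'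
  have hle2 : Real.exp (∑ v, (E v : ℝ) * Real.log (q v)) ≤
      Real.exp (∑ v, (S v : ℝ) * Real.log (q v)) * (Real.exp (ε * R * m) *
        Real.exp (R * m * ((∑ i, c i) / Fintype.card ι + 8 * K * ε))) := by
    refine hle'.trans (mul_le_mul_of_nonneg_left ?_ (Real.exp_pos _).le)
    exact mul_le_mul hDpow hreal (abs_nonneg _) (Real.exp_pos _).le
  rw [← Real.exp_add, ← Real.exp_add, Real.exp_le_exp] at hle2
  have g1 : R * m / Fintype.card ι * (∑ v, ∑ i, α v i * Real.log (q v)) -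
      (3 * K * ε * R * m + 1) * Λ ≤ ∑ v, (E v : ℝ) * Real.log (q v) := by
    rw [hΛ, Finset.mul_sum, Finset.mul_sum, ← Finset.sum_sub_distrib]
    refine Finset.sum_le_sum fun v _ => ?_
    have g2 := mul_le_mul_of_nonneg_right (hE v) (hlq v).le
    refine le_trans (le_of_eq ?_) g2
    rw [← Finset.sum_mul]
    ring
  have g3 : ∑ v, (S v : ℝ) * Real.log (q v) ≤ 2 * K * R * ε * Λ := by
    rw [hΛ, Finset.mul_sum]
    exact Finset.sum_le_sum fun v _ => mul_le_mul_of_nonneg_right (hS v) (hlq v).le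
  exact m8_fin hn hK1 hΛ0 hL hε hRε hR hm' hεη hcη g1 g3 hle2

end Pool.Agent.SubQ
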