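import Pool.Agent.Lib.SubQ.SpecM

/-!
# SubQ / M9: choice of coordinates
-/

set_option autoImplicit false

namespace Pool.Agent.SubQ

theorem M9_dvd {N P a : ℕ} (hN : 0 < N) (h : N ∣ a * P) : N / Nat.gcd N P ∣ a := by
  have hg : 0 < Nat.gcd N P := Nat.gcd_pos_of_pos_left _ hN
  have hc : Nat.Coprime (N / Nat.gcd N P) (P / Nat.gcd N P) := Nat.coprime_div_gcd_div_gcd hg
  obtain ⟨N', hN'⟩ := Nat.gcd_dvd_left N P
  obtain ⟨P', hP'⟩ := Nat.gcd_dvd_right N P
  have e1 : N / Nat.gcd N P = N' := by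
    conv_lhs => rw [hN']
    rw [← hN']
    exact Nat.div_eq_of_eq_mul_right hg hN'
  have e2 : P / Nat.gcd N P = P' := Nat.div_eq_of_eq_mul_right hg hP'
  rw [e1, e2] at hc
  rw [e1]
  have h2 : Nat.gcd N P * N' ∣ Nat.gcd N P * (a * P') := by
    rw [← hN']
    have : Nat.gcd N P * (a * P') = a * (Nat.gcd N P * P') := by ring
    rw [this, ← hP']
    exact h
  exact hc.dvd_of_dvd_mul_right (Nat.dvd_of_mul_dvd_mul_left hg h2)

theorem gcdChoice : GcdChoice := by
  intro ι _ _ hcard u hu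
  classical
  have hne : (Finset.univ : Finset ι).Nonempty := by
    rw [← Finset.card_pos, Finset.card_univ]; omega
  obtain ⟨i₁, -, hmax⟩ := Finset.exists_max_image Finset.univ (fun i => (u i).natAbs) hne
  set N : ℕ := (u i₁).natAbs with hNdef
  have hN : 0 < N := by
    by_contra h0
    have h1 : ∀ i, u i = 0 := by
      intro i
      have := hmax i (Finset.mem_univ i)
      have h2 : N = 0 := by omega
      rw [h2] at this
      exact Int.natAbs_eq_zero.1 (Nat.le_zero.1 this)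
    have := hu 2 (fun i => by rw [h1 i]; exact dvd_zero _)
    rw [Int.isUnit_iff] at this
    omega
  have hd : ∀ j, 0 < Nat.gcd N (u j).natAbs := fun j => Nat.gcd_pos_of_pos_left _ hN
  have he : ∀ j, Nat.gcd N (u j).natAbs * (N / Nat.gcd N (u j).natAbs) = N :=
    fun j => Nat.mul_div_cancel' (Nat.gcd_dvd_left _ _)
  have hepos : ∀ j, 0 < N / Nat.gcd N (u j).natAbs := by
    intro j
    rcases Nat.eq_zero_or_pos (N / Nat.gcd N (u j).natAbs) with h | h
    · have := he j
      rw [h] at this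
      omega
    · exact h
  set P : ℕ := ∏ j ∈ Finset.univ.erase i₁, (N / Nat.gcd N (u j).natAbs) with hP
  have hPpos : 0 < P := Finset.prod_pos (fun j _ => hepos j)
  have hdvd : ∀ j, N ∣ (u j).natAbs * P := by
    intro j
    by_cases hj : j = i₁
    · subst hj
      exact Dvd.dvd.mul_right (dvd_refl _) _
    · have h1 : (N / Nat.gcd N (u j).natAbs) ∣ P :=
        Finset.dvd_prod_of_mem _ (Finset.mem_erase.2 ⟨hj, Finset.mem_univ j⟩)
      have h2 := mul_dvd_mul (Nat.gcd_dvd_right N (u j).natAbs) h1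
      rw [he j] at h2
      exact h2
  have hunit : N / Nat.gcd N P = 1 := by
    have h1 := hu ((N / Nat.gcd N P : ℕ) : ℤ) (fun i => by
      rw [Int.natCast_dvd]
      exact M9_dvd hN (hdvd i))
    rw [Int.isUnit_iff] at h1
    rcases h1 with h1 | h1
    · exact_mod_cast h1
    · exfalso
      have h2 : (0 : ℤ) ≤ ((N / Nat.gcd N P : ℕ) : ℤ) := Int.natCast_nonneg _
      rw [h1] at h2
      norm_num at h2
  have hNP : N ≤ P := by
    have h1 : N = Nat.gcd N P := by
      have := Nat.mul_div_cancel' (Nat.gcd_dvd_left N P)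
      rw [hunit, mul_one] at this
      exact this.symm
    have h2 : N ∣ P := by
      rw [h1]; exact Nat.gcd_dvd_right N P
    exact Nat.le_of_dvd hPpos h2
  have hne2 : (Finset.univ.erase i₁ : Finset ι).Nonempty := by
    rw [← Finset.card_pos, Finset.card_erase_of_mem (Finset.mem_univ _), Finset.card_univ]; omega
  obtain ⟨i₂, hi₂, hmax2⟩ := Finset.exists_max_image (Finset.univ.erase i₁)
    (fun j => N / Nat.gcd N (u j).natAbs) hne2
  have hPle : P ≤ (N / Nat.gcd N (u i₂).natAbs) ^ (Fintype.card ι - 1) := by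
    have := Finset.prod_le_pow_card (Finset.univ.erase i₁) (fun j => N / Nat.gcd N (u j).natAbs)
      (N / Nat.gcd N (u i₂).natAbs) hmax2
    rwa [Finset.card_erase_of_mem (Finset.mem_univ _), Finset.card_univ] at this
  have hu1 : u i₁ ≠ 0 := by
    intro h
    rw [hNdef, h] at hN
    simp at hN
  refine ⟨i₁, i₂, (-(u i₂ : ℚ) / u i₁).num, ((-(u i₂ : ℚ) / u i₁).den : ℤ),
    (Finset.ne_of_mem_erase hi₂).symm, hu1, ?_, ?_, ?_, ?_⟩
  · exact_mod_cast (-(u i₂ : ℚ) / u i₁).den_pos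
  · rw [Int.isCoprime_iff_nat_coprime]
    simpa using (-(u i₂ : ℚ) / u i₁).reduced
  · push_cast
    exact Rat.num_div_den _
  · intro k
    set ρ : ℚ := -(u i₂ : ℚ) / u i₁ with hρ
    have h1 : -(u i₂) * (ρ.den : ℤ) = ρ.num * u i₁ := by
      have h2 : (ρ.num : ℚ) / ρ.den = -(u i₂ : ℚ) / u i₁ := Rat.num_div_den ρ
      have h3 : (ρ.den : ℚ) ≠ 0 := by exact_mod_cast ρ.den_ne_zero
      have h4 : (u i₁ : ℚ) ≠ 0 := by exact_mod_cast hu1
      rw [div_eq_div_iff h3 h4] at h2
      have h5 : ((ρ.num * u i₁ : ℤ) : ℚ) = ((-(u i₂) * (ρ.den : ℤ) : ℤ) : ℚ) := by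
        push_cast
        exact h2
      exact (Int.cast_injective h5).symm
    have h2 : N ∣ (ρ.den) * (u i₂).natAbs := by
      have h3 := congrArg Int.natAbs h1
      rw [Int.natAbs_mul, Int.natAbs_mul, Int.natAbs_neg, Int.natAbs_natCast] at h3
      rw [mul_comm, h3]
      exact Dvd.dvd.mul_left (dvd_refl _) _
    have h3 := M9_dvd hN h2
    have h4 : N / Nat.gcd N (u i₂).natAbs ≤ ρ.den := Nat.le_of_dvd ρ.den_pos h3
    have h5 : (u k).natAbs ≤ ρ.den ^ (Fintype.card ι - 1) :=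
      (hmax k (Finset.mem_univ k)).trans (hNP.trans (hPle.trans (Nat.pow_le_pow_left h4 _)))
    have h6 : |u k| = ((u k).natAbs : ℤ) := by simp
    rw [h6]
    exact_mod_cast h5

end Pool.Agent.SubQ
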