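import Pool.Agent.Lib.SubQ.SpecX

/-!
# SubQ, X1: compound matrices are multiplicative
-/

set_option autoImplicit false

namespace Pool.Agent.SubQ

/-- **X1** -/
theorem cmpMul : CmpMul := by
  intro R _ p n A B
  ext J I
  rw [Matrix.mul_apply]
  have h : (A * B).submatrix J.1 I.1 = A.submatrix J.1 id * B.submatrix id I.1 := rfl
  change ((A * B).submatrix J.1 I.1).det = _
  rw [h, Pool.Agent.Lib.MP_6a062b_co.cauchyBinet,
    Finset.sum_subtype (p := fun g : Fin p → Fin n => StrictMono g) _
      (fun g => by rw [Finset.mem_filter]; exact ⟨fun h => h.2, fun h => ⟨Finset.mem_univ _, h⟩⟩)]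
  rfl

end Pool.Agent.SubQ
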