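import Pool.Agent.Lib.SubQ.SpecX

/-!
# SubQ, X10: the hyperplane of the columns different from `top`
-/

set_option autoImplicit false

namespace Pool.Agent.SubQ

/-- **X10** -/
theorem spanCol (h1 : CmpMul) (h2 : CmpBasic) : SpanCol := by
  classical
  intro p n h g hg
  obtain ⟨-, -, hA, -⟩ := h2 ℤ p n
  obtain ⟨hA1, hA2⟩ := hA g
  let u : Inc p n → ℤ := fun J => cmp p g.adjugate (top p n h) J
  have hu : ∀ I, ∑ J, u J * cmp p g J I = if top p n h = I then g.det ^ p else 0 := by
    intro I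
    have h3 := congrFun (congrFun hA1 (top p n h)) I
    rw [Matrix.mul_apply, Matrix.smul_apply, Matrix.one_apply] at h3
    rw [h3]
    by_cases h4 : top p n h = I
    · rw [if_pos h4, if_pos h4, smul_eq_mul, mul_one]
    · rw [if_neg h4, if_neg h4, smul_zero]
  have hdet : g.det ^ p ≠ 0 := pow_ne_zero _ hg
  obtain ⟨a, ha, ha1⟩ := Finset.extract_gcd u (s := Finset.univ) ⟨top p n h, Finset.mem_univ _⟩
  set t := Finset.univ.gcd u with ht
  have ha' : ∀ J, u J = t * a J := fun J => ha J (Finset.mem_univ J)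
  have ht0 : t ≠ 0 := by
    intro h0
    have h3 := hu (top p n h)
    rw [if_pos rfl, Finset.sum_eq_zero] at h3
    · exact hdet h3.symm
    · intro J _
      rw [ha', h0, zero_mul, zero_mul]
  refine ⟨t, a, ht0, ?_, ha', ?_, ?_⟩
  · intro d hd
    exact isUnit_of_dvd_one (ha1 ▸ Finset.dvd_gcd (fun J _ => hd J))
  · intro I
    have h3 := hu I.1
    rw [if_neg (Ne.symm I.2)] at h3
    have h4 : t * ∑ J, a J * cmp p g J I.1 = 0 := by
      rw [Finset.mul_sum, ← h3]
      exact Finset.sum_congr rfl (fun J _ => by rw [ha', mul_assoc])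
    exact (mul_eq_zero.mp h4).resolve_left ht0
  · intro y hy
    let f : ℤ →+* ℚ := Int.castRingHom ℚ
    let G : Matrix (Inc p n) (Inc p n) ℚ := (cmp p g).map f
    let Ad : Matrix (Inc p n) (Inc p n) ℚ := (cmp p g.adjugate).map f
    have hGA : G * Ad = ((g.det ^ p : ℤ) : ℚ) • (1 : Matrix (Inc p n) (Inc p n) ℚ) := by
      have h3 : G * Ad = (cmp p g * cmp p g.adjugate).map f := (Matrix.map_mul (f := f)).symm
      rw [h3, hA2]
      ext J I
      rw [Matrix.map_apply, Matrix.smul_apply, Matrix.smul_apply, Matrix.one_apply, Matrix.one_apply]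
      by_cases hJI : J = I
      · rw [if_pos hJI, if_pos hJI, smul_eq_mul, smul_eq_mul, mul_one, mul_one]
        rfl
      · rw [if_neg hJI, if_neg hJI, smul_zero, smul_zero, map_zero]
    have hd0 : ((g.det ^ p : ℤ) : ℚ) ≠ 0 := Int.cast_ne_zero.mpr hdet
    let z : Inc p n → ℚ := ((g.det ^ p : ℤ) : ℚ)⁻¹ • Ad.mulVec y
    have hz : G.mulVec z = y := by
      change G.mulVec (((g.det ^ p : ℤ) : ℚ)⁻¹ • Ad.mulVec y) = y
      rw [Matrix.mulVec_smul, Matrix.mulVec_mulVec, hGA, Matrix.smul_mulVec, Matrix.one_mulVec,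
        smul_smul, inv_mul_cancel₀ hd0, one_smul]
    have hz0 : z (top p n h) = 0 := by
      change ((g.det ^ p : ℤ) : ℚ)⁻¹ * ∑ J, ((u J : ℤ) : ℚ) * y J = 0
      have h3 : ∑ J, ((u J : ℤ) : ℚ) * y J = (t : ℚ) * ∑ J, (a J : ℚ) * y J := by
        rw [Finset.mul_sum]
        refine Finset.sum_congr rfl (fun J _ => ?_)
        rw [ha', Int.cast_mul, mul_assoc]
      rw [h3, hy, mul_zero, mul_zero]
    refine ⟨fun I => z I.1, fun J => ?_⟩
    have h3 : ∑ j : {I : Inc p n // I ≠ top p n h}, z j.1 * ((cmp p g J j.1 : ℤ) : ℚ) =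
        ∑ I, z I * ((cmp p g J I : ℤ) : ℚ) := by
      rw [← Finset.sum_filter_of_ne (s := Finset.univ) (p := fun I => I ≠ top p n h)
        (f := fun I => z I * ((cmp p g J I : ℤ) : ℚ))]
      · exact (Finset.sum_subtype _ (fun I => by simp)
          (fun I => z I * ((cmp p g J I : ℤ) : ℚ))).symm
      · intro I _ hI h0
        rw [h0, hz0, zero_mul] at hI
        exact hI rfl
    rw [h3]
    conv_lhs => rw [← hz]
    refine Finset.sum_congr rfl (fun I _ => ?_)
    exact mul_comm _ _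

end Pool.Agent.SubQ
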