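import Pool.Agent.Lib.SubQ.SpecX

/-!
# SubQ, X2: basic properties of compound matrices
-/

set_option autoImplicit false

namespace Pool.Agent.SubQ

/-- two different increasing maps: the first one has a value which is not a value of the second one -/
theorem X2_ex {p n : ℕ} {J I : Inc p n} (h : J ≠ I) : ∃ a, ∀ b, J.1 a ≠ I.1 b := by
  by_contra hcon
  push Not at hcon
  apply h
  apply Subtype.ext
  have h1 : Set.range J.1 ⊆ Set.range I.1 := by
    rintro _ ⟨a, rfl⟩
    obtain ⟨b, hb⟩ := hcon a
    exact ⟨b, hb.symm⟩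
  have h2 : Set.range J.1 = Set.range I.1 := by
    refine Set.eq_of_subset_of_ncard_le h1 ?_ (Set.toFinite _)
    rw [← Set.image_univ, ← Set.image_univ, Set.ncard_image_of_injective _ J.2.injective,
      Set.ncard_image_of_injective _ I.2.injective]
  exact (StrictMono.range_inj J.2 I.2).mp h2

theorem X2_diag {R : Type} [CommRing R] (p n : ℕ) (f : Fin n → R) :
    cmp p (Matrix.diagonal f) = Matrix.diagonal fun J => ∏ a, f (J.1 a) := by
  ext J I
  by_cases h : J = I
  · subst h
    rw [Matrix.diagonal_apply_eq]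
    unfold cmp
    rw [Matrix.submatrix_diagonal _ _ J.2.injective, Matrix.det_diagonal]
    rfl
  · rw [Matrix.diagonal_apply_ne _ h]
    obtain ⟨a, ha⟩ := X2_ex h
    exact Matrix.det_eq_zero_of_row_eq_zero a (fun b => Matrix.diagonal_apply_ne _ (ha b))

/-- **X2** -/
theorem cmpBasic (h : CmpMul) : CmpBasic := by
  intro R _ p n
  have hd : ∀ c : R, cmp p (c • (1 : Matrix (Fin n) (Fin n) R)) = c ^ p • 1 := by
    intro c
    rw [Matrix.smul_one_eq_diagonal, X2_diag, Matrix.smul_one_eq_diagonal]
    congr 1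
    funext J
    rw [Finset.prod_const, Finset.card_univ, Fintype.card_fin]
  refine ⟨?_, X2_diag p n, ?_, ?_⟩
  · have := hd 1
    rw [one_smul, one_pow, one_smul] at this
    exact this
  · intro A
    refine ⟨?_, ?_⟩
    · rw [← h, Matrix.adjugate_mul, hd]
    · rw [← h, Matrix.mul_adjugate, hd]
  · intro S _ f A
    ext J I
    unfold cmp
    rw [Matrix.map_apply, RingHom.map_det]
    rfl

end Pool.Agent.SubQ
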