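import Pool.Agent.Lib.SubQ.SpecX

/-!
# SubQ, X3: compound matrices of triangular matrices
-/

set_option autoImplicit false

namespace Pool.Agent.SubQ

theorem X3_perm {p : ℕ} (σ : Equiv.Perm (Fin p)) (a : Fin p) : ∃ b, a ≤ b ∧ σ b ≤ a := by
  by_contra hcon
  push Not at hcon
  have h1 : (Finset.Ici a).card ≤ (Finset.Ioi a).card := by
    refine Finset.card_le_card_of_injOn σ ?_ (σ.injective.injOn)
    intro b hb
    rw [Finset.mem_coe, Finset.mem_Ici] at hb
    rw [Finset.mem_coe, Finset.mem_Ioi]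
    exact hcon b hb
  rw [Fin.card_Ici, Fin.card_Ioi] at h1
  have := a.isLt
  omega

theorem X3_low {R : Type} [CommRing R] (p n : ℕ) (A : Matrix (Fin n) (Fin n) R)
    (hA : ∀ i j, i < j → A i j = 0) :
    (∀ J K : Inc p n, cmp p A J K ≠ 0 → ∀ a, K.1 a ≤ J.1 a) ∧
      ((∀ i, A i i = 1) → ∀ J : Inc p n, cmp p A J J = 1) := by
  constructor
  · intro J K h a
    unfold cmp at h
    rw [Matrix.det_apply'] at h
    obtain ⟨σ, -, hσ⟩ := Finset.exists_ne_zero_of_sum_ne_zero h
    have h1 : ∀ b, A (J.1 (σ b)) (K.1 b) ≠ 0 := by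
      intro b hb
      apply hσ
      rw [Finset.prod_eq_zero (Finset.mem_univ b) hb, mul_zero]
    have h2 : ∀ b, K.1 b ≤ J.1 (σ b) := by
      intro b
      by_contra hcon
      exact h1 b (hA _ _ (not_le.mp hcon))
    obtain ⟨b, hab, hσb⟩ := X3_perm σ a
    calc K.1 a ≤ K.1 b := K.2.monotone hab
      _ ≤ J.1 (σ b) := h2 b
      _ ≤ J.1 a := J.2.monotone hσb
  · intro h1 J
    unfold cmp
    rw [Matrix.det_of_isLowerTriangular]
    · exact Finset.prod_eq_one (fun a _ => h1 _)
    · intro a b hab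
      have h3 : a < b := hab
      exact hA _ _ (J.2 h3)

theorem X3_tr {R : Type} [CommRing R] (p n : ℕ) (A : Matrix (Fin n) (Fin n) R) (J K : Inc p n) :
    cmp p A.transpose J K = cmp p A K J := by
  unfold cmp
  rw [← Matrix.det_transpose, Matrix.transpose_submatrix, Matrix.transpose_transpose]

/-- **X3** -/
theorem cmpTri : CmpTri := by
  refine ⟨fun R _ p n A hA => X3_low p n A hA, ?_, ?_⟩
  · intro R _ p n A hA
    obtain ⟨h1, h2⟩ := X3_low p n A.transpose (fun i j hij => hA j i hij)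
    constructor
    · intro J K h a
      rw [← X3_tr] at h
      exact h1 K J h a
    · intro h J
      rw [← X3_tr]
      exact h2 (fun i => h i) J
  · intro p n A B hB J K
    have h1 : ∀ i j, IsAbsoluteValue.toAbsoluteValue (abs : ℝ → ℝ)
        ((A.submatrix J.1 K.1) i j) ≤ B := fun i j => hB _ _
    have h2 := Matrix.det_le h1
    rw [Fintype.card_fin, nsmul_eq_mul] at h2
    exact h2

end Pool.Agent.SubQ
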