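import Pool.Agent.Lib.SubQ.SpecX

/-!
# SubQ, X4: products of almost increasing numbers
-/

set_option autoImplicit false

namespace Pool.Agent.SubQ

/-- values of an increasing map from above -/
theorem X4_le {p n : ℕ} (h : p ≤ n) (K : Inc p n) (a : Fin p) : (K.1 a : ℕ) ≤ n - p + a := by
  have key : ∀ d : ℕ, ∀ b : Fin p, (b : ℕ) + d + 1 = p → (K.1 b : ℕ) + d + 1 ≤ n := by
    intro d
    induction d with
    | zero =>
      intro b _
      have := (K.1 b).isLt
      omega
    | succ d ih =>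
      intro b hb
      have hb' : (b : ℕ) + 1 < p := by omega
      have h1 := ih ⟨b + 1, hb'⟩ (by simp only []; omega)
      have h2 : K.1 b < K.1 ⟨b + 1, hb'⟩ := K.2 (by
        rw [Fin.lt_def]
        exact Nat.lt_succ_self _)
      have h3 : (K.1 b : ℕ) < (K.1 ⟨b + 1, hb'⟩ : ℕ) := h2
      omega
  have h1 := key (p - 1 - a) a (by have := a.isLt; omega)
  have := a.isLt
  omega

/-- values of an increasing map from below -/
theorem X4_ge {p n : ℕ} (K : Inc p n) (hp : 0 < p) (a : Fin p) :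
    (K.1 ⟨0, hp⟩ : ℕ) + a ≤ (K.1 a : ℕ) := by
  obtain ⟨a, ha⟩ := a
  induction a with
  | zero => exact le_rfl
  | succ a ih =>
    have h1 := ih (by omega)
    have h2 : K.1 ⟨a, by omega⟩ < K.1 ⟨a + 1, ha⟩ := K.2 (by
      rw [Fin.lt_def]
      exact Nat.lt_succ_self _)
    have h3 : (K.1 ⟨a, by omega⟩ : ℕ) < (K.1 ⟨a + 1, ha⟩ : ℕ) := h2
    simp only [] at h1 ⊢
    omega

/-- **X4** -/
theorem dom : Dom := by
  intro p n h C D hC hD hmono
  have hC0 : 0 < C := by linarith
  refine ⟨?_, ?_, ?_⟩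
  · intro K J hKJ
    unfold pr
    calc ∏ a, D (K.1 a) ≤ ∏ a : Fin p, (C * D (J.1 a)) :=
          Finset.prod_le_prod (fun a _ => (hD _).le) (fun a _ => hmono _ _ (hKJ a))
      _ = C ^ p * ∏ a, D (J.1 a) := by
          rw [Finset.prod_mul_distrib, Finset.prod_const, Finset.card_univ, Fintype.card_fin]
  · intro K a
    rw [Fin.le_def]
    exact X4_le h K a
  · intro K hK hp hn
    have hp0 : 0 < p := hp
    have hK0 : (K.1 ⟨0, hp0⟩ : ℕ) < n - p := by
      by_contra hcon
      push Not at hcon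
      apply hK
      apply Subtype.ext
      funext a
      apply Fin.ext
      change (K.1 a : ℕ) = n - p + a
      have h1 := X4_ge K hp0 a
      have h2 := X4_le h K a
      omega
    have e1 : pr D K = D (K.1 ⟨0, hp0⟩) * ∏ a ∈ Finset.univ.erase (⟨0, hp0⟩ : Fin p), D (K.1 a) :=
      (Finset.mul_prod_erase Finset.univ (fun a => D (K.1 a)) (Finset.mem_univ _)).symm
    have e2 : pr D (top p n h) = D ((top p n h).1 ⟨0, hp0⟩) *
        ∏ a ∈ Finset.univ.erase (⟨0, hp0⟩ : Fin p), D ((top p n h).1 a) :=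
      (Finset.mul_prod_erase Finset.univ (fun a => D ((top p n h).1 a)) (Finset.mem_univ _)).symm
    have e3 : (top p n h).1 ⟨0, hp0⟩ = ⟨n - p, by omega⟩ := Fin.ext rfl
    have h1 : D (K.1 ⟨0, hp0⟩) ≤ C * D ⟨n - p - 1, by omega⟩ := by
      refine hmono _ _ ?_
      rw [Fin.le_def]
      change (K.1 ⟨0, hp0⟩ : ℕ) ≤ n - p - 1
      omega
    have h2 : ∏ a ∈ Finset.univ.erase (⟨0, hp0⟩ : Fin p), D (K.1 a) ≤
        C ^ (p - 1) * ∏ a ∈ Finset.univ.erase (⟨0, hp0⟩ : Fin p), D ((top p n h).1 a) := by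
      calc ∏ a ∈ Finset.univ.erase (⟨0, hp0⟩ : Fin p), D (K.1 a) ≤
            ∏ a ∈ Finset.univ.erase (⟨0, hp0⟩ : Fin p), (C * D ((top p n h).1 a)) :=
            Finset.prod_le_prod (fun a _ => (hD _).le) (fun a _ => hmono _ _ (by
              rw [Fin.le_def]
              exact X4_le h K a))
        _ = _ := by
            rw [Finset.prod_mul_distrib, Finset.prod_const, Finset.card_erase_of_mem
              (Finset.mem_univ _), Finset.card_univ, Fintype.card_fin]
    have hpos : 0 ≤ ∏ a ∈ Finset.univ.erase (⟨0, hp0⟩ : Fin p), D (K.1 a) :=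
      Finset.prod_nonneg (fun a _ => (hD _).le)
    have h3 : pr D K ≤ (C * D ⟨n - p - 1, by omega⟩) * (C ^ (p - 1) *
        ∏ a ∈ Finset.univ.erase (⟨0, hp0⟩ : Fin p), D ((top p n h).1 a)) := by
      rw [e1]
      exact mul_le_mul h1 h2 hpos (mul_nonneg hC0.le (hD _).le)
    have h4 : C ^ p = C * C ^ (p - 1) := by
      rw [← pow_succ']
      congr 1
      omega
    rw [e2, e3, h4]
    calc pr D K * D ⟨n - p, by omega⟩ ≤ ((C * D ⟨n - p - 1, by omega⟩) * (C ^ (p - 1) *
        ∏ a ∈ Finset.univ.erase (⟨0, hp0⟩ : Fin p), D ((top p n h).1 a))) * D ⟨n - p, by omega⟩ :=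
          mul_le_mul_of_nonneg_right h3 (hD _).le
      _ = _ := by ring

end Pool.Agent.SubQ
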