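import Pool.Agent.Lib.SubQ.SpecX

/-!
# SubQ, X5: the box of the exterior power
-/

set_option autoImplicit false

namespace Pool.Agent.SubQ

theorem X5_pr {p n : ℕ} {D : Fin n → ℝ} (hD : ∀ i, 0 < D i) (J : Inc p n) : 0 < pr D J :=
  Finset.prod_pos (fun a _ => hD _)

/-- **X5** -/
theorem box (h1 : CmpMul) (h2 : CmpBasic) (h3 : CmpTri) (h4 : Dom) : Box := by
  intro p n h
  obtain ⟨hL, hU, hB⟩ := h3
  have hN : 1 ≤ Fintype.card (Inc p n) := Fintype.card_pos_iff.mpr ⟨top p n h⟩
  have hN' : (1 : ℝ) ≤ (Fintype.card (Inc p n) : ℝ) := by exact_mod_cast hN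
  have hf : (1 : ℝ) ≤ (p.factorial : ℝ) := by exact_mod_cast Nat.succ_le_of_lt p.factorial_pos
  have h2n : (1 : ℝ) ≤ (2 : ℝ) ^ n := one_le_pow₀ (by norm_num)
  have h2np : (1 : ℝ) ≤ ((2 : ℝ) ^ n) ^ p := one_le_pow₀ h2n
  refine ⟨Fintype.card (Inc p n) * (p.factorial * p.factorial * ((2 : ℝ) ^ n) ^ p), ?_, ?_⟩
  · have e1 : (1 : ℝ) ≤ (p.factorial : ℝ) * p.factorial := one_le_mul_of_one_le_of_one_le hf hf
    have e2 := one_le_mul_of_one_le_of_one_le e1 h2np
    exact one_le_mul_of_one_le_of_one_le hN' e2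
  intro Lo Up W D hD hmono hLo hLb hUp hUb hW
  obtain ⟨hd1, hd2, hd3⟩ := h4 p n h ((2 : ℝ) ^ n) D h2n hD hmono
  have hWm : W = Lo * (Matrix.diagonal D * Up) := by
    ext i j
    rw [hW, Matrix.mul_apply]
    refine Finset.sum_congr rfl (fun k _ => ?_)
    rw [Matrix.diagonal_mul, mul_assoc]
  obtain ⟨-, hdiag, -, -⟩ := h2 ℝ p n
  have hent : ∀ J I : Inc p n, cmp p W J I =
      ∑ K, cmp p Lo J K * (pr D K * cmp p Up K I) := by
    intro J I
    rw [hWm, h1, h1, hdiag, Matrix.mul_apply]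
    refine Finset.sum_congr rfl (fun K _ => ?_)
    rw [Matrix.diagonal_mul]
    rfl
  have hLo' : ∀ J K, |cmp p Lo J K| ≤ p.factorial := by
    intro J K
    have := hB p n Lo 1 hLb J K
    rwa [one_pow, mul_one] at this
  have hUp' : ∀ J K, |cmp p Up J K| ≤ p.factorial := by
    intro J K
    have := hB p n Up 1 hUb J K
    rwa [one_pow, mul_one] at this
  have hsum : ∀ (J I : Inc p n) (c : ℝ), 0 ≤ c → (∀ K, cmp p Lo J K ≠ 0 → cmp p Up K I ≠ 0 →
      pr D K ≤ c) → |cmp p W J I| ≤ Fintype.card (Inc p n) * (p.factorial * p.factorial * c) := by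
    intro J I c hc hK
    rw [hent]
    refine (Finset.abs_sum_le_sum_abs _ _).trans ?_
    have : ∀ K ∈ (Finset.univ : Finset (Inc p n)),
        |cmp p Lo J K * (pr D K * cmp p Up K I)| ≤ p.factorial * p.factorial * c := by
      intro K _
      have hr : (0 : ℝ) ≤ p.factorial * p.factorial * c := by positivity
      by_cases hz : cmp p Lo J K = 0
      · rw [hz, zero_mul, abs_zero]
        exact hr
      by_cases hz' : cmp p Up K I = 0
      · rw [hz', mul_zero, mul_zero, abs_zero]
        exact hr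
      have e1 := hK K hz hz'
      have e2 := X5_pr hD K
      rw [abs_mul, abs_mul, abs_of_pos e2]
      calc |cmp p Lo J K| * (pr D K * |cmp p Up K I|) ≤
            (p.factorial : ℝ) * (c * (p.factorial : ℝ)) :=
            mul_le_mul (hLo' J K) (mul_le_mul e1 (hUp' K I) (abs_nonneg _) hc)
              (mul_nonneg e2.le (abs_nonneg _)) (by positivity)
        _ = _ := by ring
    refine (Finset.sum_le_card_nsmul _ _ _ this).trans ?_
    rw [nsmul_eq_mul, Finset.card_univ]
  refine ⟨?_, ?_⟩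
  · intro J I
    have hpJ := X5_pr hD J
    refine (hsum J I (((2 : ℝ) ^ n) ^ p * pr D J) (by positivity) ?_).trans (le_of_eq (by ring))
    intro K hK _
    exact hd1 K J (fun a => (hL ℝ p n Lo hLo).1 J K hK a)
  · intro I hI hp hn
    have hpt := X5_pr hD (top p n h)
    have hD1 := hD ⟨n - p, by omega⟩
    have hD2 := hD ⟨n - p - 1, by omega⟩
    have key := hsum (top p n h) I
      (((2 : ℝ) ^ n) ^ p * pr D (top p n h) * D ⟨n - p - 1, by omega⟩ / D ⟨n - p, by omega⟩)
      (by positivity) ?_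
    · calc |cmp p W (top p n h) I| * D ⟨n - p, by omega⟩ ≤
            (Fintype.card (Inc p n) * (p.factorial * p.factorial * (((2 : ℝ) ^ n) ^ p *
              pr D (top p n h) * D ⟨n - p - 1, by omega⟩ / D ⟨n - p, by omega⟩))) *
              D ⟨n - p, by omega⟩ := mul_le_mul_of_nonneg_right key hD1.le
        _ = _ := by
            field_simp
    · intro K _ hK
      rw [le_div_iff₀ hD1]
      refine hd3 K ?_ hp hn
      intro hKt
      apply hI
      apply Subtype.ext
      funext a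
      refine le_antisymm (hd2 I a) ?_
      have := (hU ℝ p n Up hUp).1 K I hK a
      rw [hKt] at this
      exact this

end Pool.Agent.SubQ
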