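import Pool.Agent.Lib.SubQ.SpecX

/-!
# SubQ, X6: the box of the dual
-/

set_option autoImplicit false

namespace Pool.Agent.SubQ

/-- the adjugate of a unipotent upper triangular matrix -/
theorem X6_adj {n : ℕ} (Up : Matrix (Fin n) (Fin n) ℝ) (hUp : ∀ i j, j < i → Up i j = 0)
    (hU1 : ∀ i, Up i i = 1) :
    Up.det = 1 ∧ (∀ i j, j < i → Up.adjugate i j = 0) ∧ ∀ i, Up.adjugate i i = 1 := by
  have hT : Up.BlockTriangular id := fun i j hij => hUp i j hij
  have hdet : Up.det = 1 := by
    rw [Matrix.det_of_isUpperTriangular hT]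
    exact Finset.prod_eq_one (fun i _ => hU1 i)
  have : Invertible Up := by
    refine Matrix.invertibleOfIsUnitDet Up ?_
    rw [hdet]
    exact isUnit_one
  have hinv : Up⁻¹ = Up.adjugate := by
    rw [Matrix.inv_def, hdet, Ring.inverse_one, one_smul]
  have hT' : Up⁻¹.BlockTriangular id := Matrix.blockTriangular_inv_of_blockTriangular hT
  rw [hinv] at hT'
  refine ⟨hdet, fun i j hij => hT' hij, fun i => ?_⟩
  have h1 : (Up.adjugate * Up) i i = 1 := by
    rw [Matrix.adjugate_mul, hdet, one_smul, Matrix.one_apply_eq]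
  rw [Matrix.mul_apply, Finset.sum_eq_single i] at h1
  · rw [hU1, mul_one] at h1
    exact h1
  · intro k _ hk
    rcases lt_or_gt_of_ne hk with h | h
    · rw [show Up.adjugate i k = 0 from hT' h, zero_mul]
    · rw [hUp k i h, mul_zero]
  · intro h
    exact absurd (Finset.mem_univ i) h

theorem X6_prod {p n : ℕ} (D : Fin n → ℝ) (J : Inc p n) :
    (∏ a, ∏ j ∈ Finset.univ.erase (J.1 a), D j) * pr D J = (∏ i, D i) ^ p := by
  unfold pr
  rw [← Finset.prod_mul_distrib]
  have : ∀ a ∈ (Finset.univ : Finset (Fin p)),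
      (∏ j ∈ Finset.univ.erase (J.1 a), D j) * D (J.1 a) = ∏ i, D i := fun a _ =>
    Finset.prod_erase_mul _ _ (Finset.mem_univ _)
  rw [Finset.prod_congr rfl this, Finset.prod_const, Finset.card_univ, Fintype.card_fin]

/-- **X6** -/
theorem invBox (h1 : CmpMul) (h2 : CmpBasic) (h3 : CmpTri) (h4 : Dom) : InvBox := by
  classical
  intro p n h
  obtain ⟨hL, hU, hB⟩ := h3
  refine ⟨p.factorial * (n.factorial : ℝ) ^ p, ?_, ?_⟩
  · have e1 : (1 : ℝ) ≤ (p.factorial : ℝ) := by exact_mod_cast Nat.succ_le_of_lt p.factorial_pos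
    have e2 : (1 : ℝ) ≤ (n.factorial : ℝ) := by exact_mod_cast Nat.succ_le_of_lt n.factorial_pos
    exact one_le_mul_of_one_le_of_one_le e1 (one_le_pow₀ e2)
  intro Lo Up X D E hD hE hLo hLb hL1 hUp hUb hU1 hX
  have hXm : X = Matrix.diagonal E * (Lo * (Matrix.diagonal D * Up)) := by
    ext i j
    rw [hX, Matrix.diagonal_mul, Matrix.mul_apply]
    congr 1
    refine Finset.sum_congr rfl (fun k _ => ?_)
    rw [Matrix.diagonal_mul, mul_assoc]
  obtain ⟨hUd, hU0, hUa⟩ := X6_adj Up hUp hU1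
  have hLd : Lo.det = 1 := by
    rw [← Matrix.det_transpose]
    exact (X6_adj Lo.transpose (fun i j hij => hLo j i hij) hL1).1
  have hdX : X.det = (∏ i, E i) * ∏ i, D i := by
    rw [hXm, Matrix.det_mul, Matrix.det_mul, Matrix.det_mul, Matrix.det_diagonal,
      Matrix.det_diagonal, hLd, hUd, one_mul, mul_one]
  have hpE : 0 < ∏ i, E i := Finset.prod_pos (fun i _ => hE i)
  have hpD : 0 < ∏ i, D i := Finset.prod_pos (fun i _ => hD i)
  have habs : |X.det| = (∏ i, E i) * ∏ i, D i := by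
    rw [hdX, abs_of_pos (mul_pos hpE hpD)]
  refine ⟨habs, ?_⟩
  intro J
  obtain ⟨-, hdiag, -, -⟩ := h2 ℝ p n
  obtain ⟨-, hd2, -⟩ := h4 p n h 1 (fun _ => 1) le_rfl (fun _ => one_pos) (fun _ _ _ => by norm_num)
  -- the entry
  have hadjU : ∀ K, cmp p Up.adjugate (top p n h) K = if K = top p n h then 1 else 0 := by
    intro K
    by_cases hK : K = top p n h
    · rw [if_pos hK, hK]
      exact (hU ℝ p n Up.adjugate hU0).2 hUa _
    · rw [if_neg hK]
      by_contra hne
      apply hK
      apply Subtype.ext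
      funext a
      exact le_antisymm (hd2 K a) ((hU ℝ p n Up.adjugate hU0).1 _ K hne a)
  have hent : cmp p X.adjugate (top p n h) J =
      (∏ a, ∏ j ∈ Finset.univ.erase ((top p n h).1 a), D j) * cmp p Lo.adjugate (top p n h) J *
        ∏ a, ∏ j ∈ Finset.univ.erase (J.1 a), E j := by
    rw [hXm, Matrix.adjugate_mul_distrib, Matrix.adjugate_mul_distrib, Matrix.adjugate_mul_distrib,
      h1, h1, h1, Matrix.adjugate_diagonal, Matrix.adjugate_diagonal, hdiag, hdiag,
      Matrix.mul_diagonal, Matrix.mul_apply, Finset.sum_eq_single (top p n h)]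
    · rw [Matrix.mul_diagonal, hadjU, if_pos rfl, one_mul]
    · intro K _ hK
      rw [Matrix.mul_diagonal, hadjU, if_neg hK, zero_mul, zero_mul]
    · intro hK
      exact absurd (Finset.mem_univ _) hK
  have hadjL : ∀ i j, |Lo.adjugate i j| ≤ n.factorial := by
    intro i j
    rw [Matrix.adjugate_apply]
    have e1 : ∀ a b, IsAbsoluteValue.toAbsoluteValue (abs : ℝ → ℝ)
        ((Lo.updateRow j (Pi.single i 1)) a b) ≤ 1 := by
      intro a b
      change |(Lo.updateRow j (Pi.single i 1)) a b| ≤ 1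
      rw [Matrix.updateRow_apply]
      by_cases ha : a = j
      · rw [if_pos ha]
        by_cases hb : b = i
        · rw [hb, Pi.single_eq_same, abs_one]
        · rw [Pi.single_eq_of_ne hb, abs_zero]
          exact zero_le_one
      · rw [if_neg ha]
        exact hLb a b
    have e2 := Matrix.det_le e1
    rw [Fintype.card_fin, nsmul_eq_mul, one_pow, mul_one] at e2
    exact e2
  have hbound := hB p n Lo.adjugate n.factorial hadjL (top p n h) J
  have hD0 : 0 ≤ ∏ a, ∏ j ∈ Finset.univ.erase ((top p n h).1 a), D j :=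
    Finset.prod_nonneg (fun a _ => Finset.prod_nonneg (fun j _ => (hD j).le))
  have hE0 : 0 ≤ ∏ a, ∏ j ∈ Finset.univ.erase (J.1 a), E j :=
    Finset.prod_nonneg (fun a _ => Finset.prod_nonneg (fun j _ => (hE j).le))
  rw [hent, abs_mul, abs_mul, abs_of_nonneg hD0, abs_of_nonneg hE0, habs]
  have e1 := X6_prod D (top p n h)
  have e2 := X6_prod E J
  calc (∏ a, ∏ j ∈ Finset.univ.erase ((top p n h).1 a), D j) * |cmp p Lo.adjugate (top p n h) J| *
        (∏ a, ∏ j ∈ Finset.univ.erase (J.1 a), E j) * (pr E J * pr D (top p n h)) =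
        |cmp p Lo.adjugate (top p n h) J| *
        (((∏ a, ∏ j ∈ Finset.univ.erase (J.1 a), E j) * pr E J) *
        ((∏ a, ∏ j ∈ Finset.univ.erase ((top p n h).1 a), D j) * pr D (top p n h))) := by ring
    _ = |cmp p Lo.adjugate (top p n h) J| * ((∏ i, E i) * ∏ i, D i) ^ p := by
        rw [e1, e2, mul_pow]
    _ ≤ _ := mul_le_mul_of_nonneg_right hbound (pow_nonneg (mul_pos hpE hpD).le _)

end Pool.Agent.SubQ
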