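import Pool.Agent.Lib.SubQ.SpecX

/-!
# SubQ, X7: divisibility of compound matrices
-/

set_option autoImplicit false

namespace Pool.Agent.SubQ

/-- **X7** -/
theorem dvdCmp (h1 : CmpMul) (h2 : CmpBasic) : DvdCmp := by
  intro p n b A Y hY
  choose Y' hY' using hY
  have hY'' : Y = Matrix.diagonal (fun i => b ^ A i) * Matrix.of Y' := by
    ext i j
    rw [Matrix.diagonal_mul]
    exact hY' i j
  obtain ⟨-, hd, -, -⟩ := h2 ℤ p n
  constructor
  · intro J I
    rw [hY'', h1, hd, Matrix.diagonal_mul, Finset.prod_pow_eq_pow_sum]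
    exact Dvd.intro _ rfl
  · intro K J
    rw [hY'', Matrix.adjugate_mul_distrib, h1, Matrix.adjugate_diagonal, hd, Matrix.mul_diagonal]
    have h3 : b ^ (∑ a, A (J.1 a)) * (∏ a, ∏ j ∈ Finset.univ.erase (J.1 a), b ^ A j) =
        b ^ (p * ∑ i, A i) := by
      rw [← Finset.prod_pow_eq_pow_sum, ← Finset.prod_mul_distrib]
      have h4 : ∀ a : Fin p, b ^ A (J.1 a) * ∏ j ∈ Finset.univ.erase (J.1 a), b ^ A j =
          b ^ (∑ i, A i) := by
        intro a
        rw [Finset.mul_prod_erase Finset.univ (fun j => b ^ A j) (Finset.mem_univ (J.1 a)),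
          Finset.prod_pow_eq_pow_sum]
      rw [Finset.prod_congr rfl (fun a _ => h4 a), Finset.prod_const, Finset.card_univ,
        Fintype.card_fin, ← pow_mul, mul_comm]
    rw [← h3, mul_left_comm]
    exact Dvd.intro_left _ rfl

end Pool.Agent.SubQ
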