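import Pool.Agent.Lib.SubQ.SpecX

/-!
# SubQ, X8: sums over all subsets
-/

set_option autoImplicit false

namespace Pool.Agent.SubQ

theorem X8_bij {p n : ℕ} (Φ : Finset (Fin n) → ℝ) :
    ∑ J : Inc p n, Φ (Finset.univ.image J.1) =
      ∑ s ∈ Finset.powersetCard p (Finset.univ : Finset (Fin n)), Φ s := by
  refine Finset.sum_bij (fun J _ => Finset.univ.image J.1) ?_ ?_ ?_ (fun _ _ => rfl)
  · intro J _
    rw [Finset.mem_powersetCard]
    refine ⟨Finset.subset_univ _, ?_⟩
    rw [Finset.card_image_of_injective _ J.2.injective, Finset.card_univ, Fintype.card_fin]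
  · intro J _ I _ h
    apply Subtype.ext
    apply (StrictMono.range_inj J.2 I.2).mp
    have h1 := congrArg (fun s : Finset (Fin n) => (s : Set (Fin n))) h
    simpa using h1
  · intro s hs
    rw [Finset.mem_powersetCard] at hs
    refine ⟨⟨s.orderEmbOfFin hs.2, (s.orderEmbOfFin hs.2).strictMono⟩, Finset.mem_univ _, ?_⟩
    apply Finset.coe_injective
    rw [Finset.coe_image, Finset.coe_univ, Set.image_univ]
    exact Finset.range_orderEmbOfFin s hs.2

theorem X8_le {p n : ℕ} (i j : Fin n) :
    ((Finset.powersetCard p (Finset.univ : Finset (Fin n))).filter (fun s => i ∈ s)).card ≤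
      ((Finset.powersetCard p (Finset.univ : Finset (Fin n))).filter (fun s => j ∈ s)).card := by
  refine Finset.card_le_card_of_injOn (fun s => s.map (Equiv.swap i j).toEmbedding) ?_ ?_
  · intro s hs
    rw [Finset.mem_coe, Finset.mem_filter, Finset.mem_powersetCard] at hs
    rw [Finset.mem_coe, Finset.mem_filter, Finset.mem_powersetCard]
    refine ⟨⟨Finset.subset_univ _, ?_⟩, ?_⟩
    · rw [Finset.card_map]
      exact hs.1.2
    · rw [Finset.mem_map]
      exact ⟨i, hs.2, Equiv.swap_apply_left i j⟩
  · exact (Finset.map_injective _).injOn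

/-- **X8** -/
theorem sumInc : SumInc := by
  classical
  intro p n
  refine ⟨?_, ?_⟩
  · let m : Fin n → ℕ := fun i =>
      ((Finset.powersetCard p (Finset.univ : Finset (Fin n))).filter (fun s => i ∈ s)).card
    have hm : ∀ i j, m i = m j := fun i j => le_antisymm (X8_le i j) (X8_le j i)
    have key : ∀ f : Fin n → ℝ, ∑ J : Inc p n, sm f J = ∑ i, (m i : ℝ) * f i := by
      intro f
      have h1 : ∀ J ∈ (Finset.univ : Finset (Inc p n)),
          sm f J = (fun s : Finset (Fin n) => ∑ x ∈ s, f x) (Finset.univ.image J.1) := by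
        intro J _
        unfold sm
        simp only []
        rw [Finset.sum_image (fun a _ b _ hab => J.2.injective hab)]
      rw [Finset.sum_congr rfl h1, X8_bij (fun s => ∑ x ∈ s, f x)]
      have h2 : ∀ s ∈ Finset.powersetCard p (Finset.univ : Finset (Fin n)),
          ∑ x ∈ s, f x = ∑ x, if x ∈ s then f x else 0 := by
        intro s _
        rw [Finset.sum_ite_mem, Finset.univ_inter]
      rw [Finset.sum_congr rfl h2, Finset.sum_comm]
      refine Finset.sum_congr rfl (fun i _ => ?_)
      rw [← Finset.sum_filter, Finset.sum_const, nsmul_eq_mul]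
    by_cases hn : 0 < n
    · refine ⟨m ⟨0, hn⟩, fun f => ?_⟩
      rw [key, Finset.mul_sum]
      exact Finset.sum_congr rfl (fun i _ => by rw [hm i ⟨0, hn⟩])
    · refine ⟨0, fun f => ?_⟩
      have : IsEmpty (Fin n) := ⟨fun i => hn (i.pos)⟩
      rw [key, Finset.univ_eq_empty, Finset.sum_empty, Finset.sum_empty, mul_zero]
  · intro hp hn
    rw [← Nat.lt_iff_add_one_le, Fintype.one_lt_card_iff]
    refine ⟨top p n hn.le, ⟨fun a => ⟨n - p - 1 + a, by omega⟩, fun a b hab => ?_⟩, ?_⟩
    · rw [Fin.lt_def] at hab ⊢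
      simp only []
      omega
    · intro h
      have h1 := congrArg (fun J : Inc p n => (J.1 ⟨0, hp⟩ : ℕ)) h
      have h2 : n - p + 0 = n - p - 1 + 0 := h1
      omega

end Pool.Agent.SubQ
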