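import Pool.Agent.Lib.SubQ.SpecX

/-!
# SubQ, X9: exchange lemma for minors
-/

set_option autoImplicit false

namespace Pool.Agent.SubQ

/-- sorting an injective map -/
theorem X9_sort {p n : ℕ} (J : Fin p → Fin n) (hJ : Function.Injective J) :
    ∃ (K : Inc p n) (σ : Equiv.Perm (Fin p)), K.1 = J ∘ σ := by
  refine ⟨⟨J ∘ Tuple.sort J, ?_⟩, Tuple.sort J, rfl⟩
  exact (Tuple.monotone_sort J).strictMono_of_injective (hJ.comp (Tuple.sort J).injective)

/-- **X9** -/
theorem exch : Exch := by
  classical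
  intro p n N c ⟨J₀, hJ₀⟩
  -- the maximal choice
  let S : Finset (Inc p n) := Finset.univ.filter (fun J => (N.submatrix id J.1).det ≠ 0)
  have hS : S.Nonempty := ⟨J₀, Finset.mem_filter.mpr ⟨Finset.mem_univ _, hJ₀⟩⟩
  obtain ⟨J, hJS, hmax⟩ := Finset.exists_max_image S (fun J => ∑ a, c (J.1 a)) hS
  have hJ : (N.submatrix id J.1).det ≠ 0 := (Finset.mem_filter.mp hJS).2
  set NJ := N.submatrix id J.1 with hNJ
  have hF : NJ.adjugate.det ≠ 0 := by
    have h1 := congrArg Matrix.det (Matrix.mul_adjugate NJ)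
    rw [Matrix.det_mul, Matrix.det_smul, Matrix.det_one, mul_one] at h1
    intro h0
    rw [h0, mul_zero] at h1
    exact pow_ne_zero _ hJ h1.symm
  refine ⟨J, NJ.adjugate, hJ, hF, ?_⟩
  intro a i hai
  have hFN : ∀ a b, (NJ.adjugate * N) a (J.1 b) = if a = b then NJ.det else 0 := by
    intro a b
    have h1 : (NJ.adjugate * N) a (J.1 b) = (NJ.adjugate * NJ) a b := rfl
    rw [h1, Matrix.adjugate_mul, Matrix.smul_apply, Matrix.one_apply]
    by_cases hab : a = b
    · rw [if_pos hab, if_pos hab, smul_eq_mul, mul_one]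
    · rw [if_neg hab, if_neg hab, smul_zero]
  by_cases hi : ∃ b, i = J.1 b
  · obtain ⟨b, rfl⟩ := hi
    rw [hFN] at hai
    by_cases hab : a = b
    · rw [hab]
    · rw [if_neg hab] at hai
      exact absurd rfl hai
  push Not at hi
  -- the exchanged map
  let J' : Fin p → Fin n := Function.update J.1 a i
  have hJ'a : J' a = i := Function.update_self a i J.1
  have hJ'b : ∀ b, b ≠ a → J' b = J.1 b := fun b hb => Function.update_of_ne hb i J.1
  have hJ'i : Function.Injective J' := by
    intro x y hxy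
    by_cases hx : x = a
    · by_cases hy : y = a
      · rw [hx, hy]
      · rw [hx, hJ'a, hJ'b y hy] at hxy
        exact absurd hxy (hi y)
    · by_cases hy : y = a
      · rw [hy, hJ'a, hJ'b x hx] at hxy
        exact absurd hxy.symm (hi x)
      · rw [hJ'b x hx, hJ'b y hy] at hxy
        exact J.2.injective hxy
  have hdet : (N.submatrix id J').det ≠ 0 := by
    intro h0
    have h1 : (NJ.adjugate * N).submatrix id J' = NJ.adjugate * N.submatrix id J' := rfl
    have h2 : ((NJ.adjugate * N).submatrix id J').det = 0 := by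
      rw [h1, Matrix.det_mul, h0, mul_zero]
    have h3 : (NJ.adjugate * N).submatrix id J' =
        (NJ.det • (1 : Matrix (Fin p) (Fin p) ℤ)).updateCol a
          (fun b => (NJ.adjugate * N) b i) := by
      ext x y
      rw [Matrix.submatrix_apply, Matrix.updateCol_apply, id]
      by_cases hy : y = a
      · rw [if_pos hy, hy, hJ'a]
      · rw [if_neg hy, hJ'b y hy, hFN, Matrix.smul_apply, Matrix.one_apply]
        by_cases hxy : x = y
        · rw [if_pos hxy, if_pos hxy, smul_eq_mul, mul_one]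
        · rw [if_neg hxy, if_neg hxy, smul_zero]
    rw [h3, ← Matrix.cramer_apply, Matrix.cramer_eq_adjugate_mulVec, Matrix.adjugate_smul,
      Matrix.adjugate_one, Matrix.smul_mulVec, Matrix.one_mulVec, Pi.smul_apply,
      smul_eq_mul] at h2
    rcases mul_eq_zero.mp h2 with h4 | h4
    · exact pow_ne_zero _ hJ h4
    · exact hai h4
  obtain ⟨K, σ, hK⟩ := X9_sort J' hJ'i
  have hKS : K ∈ S := by
    refine Finset.mem_filter.mpr ⟨Finset.mem_univ _, ?_⟩
    have h1 : N.submatrix id K.1 = (N.submatrix id J').submatrix id σ := by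
      rw [hK]
      rfl
    rw [h1, Matrix.det_permute']
    refine mul_ne_zero ?_ hdet
    exact Int.cast_ne_zero.mpr (Units.ne_zero _)
  have h5 := hmax K hKS
  have h6 : ∑ b, c (K.1 b) = ∑ b, c (J' b) := by
    rw [hK]
    exact Equiv.sum_comp σ (fun b => c (J' b))
  rw [h6, ← Finset.add_sum_erase _ _ (Finset.mem_univ a),
    ← Finset.add_sum_erase _ (fun b => c (J.1 b)) (Finset.mem_univ a), hJ'a] at h5
  have h7 : ∑ x ∈ Finset.univ.erase a, c (J' x) = ∑ x ∈ Finset.univ.erase a, c (J.1 x) :=
    Finset.sum_congr rfl (fun x hx => by rw [hJ'b x (Finset.ne_of_mem_erase hx)])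
  rw [h7] at h5
  linarith

end Pool.Agent.SubQ
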