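import Pool.Agent.Lib.SDC.Roth
import Pool.Agent.Lib.SubQ.Asm
import Pool.Agent.Lib.SubQ.M1
import Pool.Agent.Lib.SubQ.M2
import Pool.Agent.Lib.SubQ.M3
import Pool.Agent.Lib.SubQ.M4
import Pool.Agent.Lib.SubQ.M6
import Pool.Agent.Lib.SubQ.M7
import Pool.Agent.Lib.SubQ.M8
import Pool.Agent.Lib.SubQ.M9
import Pool.Agent.Lib.SubQ.M10
import Pool.Agent.Lib.SubQ.M11
import Pool.Agent.Lib.SubQ.L1
import Pool.Agent.Lib.SubQ.L2
import Pool.Agent.Lib.SubQ.L3
import Pool.Agent.Lib.SubQ.L5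
import Pool.Agent.Lib.SubQ.L6
import Pool.Agent.Lib.SubQ.L7
import Pool.Agent.Lib.SubQ.L8
import Pool.Agent.Lib.SubQ.X1
import Pool.Agent.Lib.SubQ.X2
import Pool.Agent.Lib.SubQ.X3
import Pool.Agent.Lib.SubQ.X4
import Pool.Agent.Lib.SubQ.X5
import Pool.Agent.Lib.SubQ.X6
import Pool.Agent.Lib.SubQ.X7
import Pool.Agent.Lib.SubQ.X8
import Pool.Agent.Lib.SubQ.X9
import Pool.Agent.Lib.SubQ.X10
import Pool.Agent.Lib.SubQ.F1
import Pool.Agent.Lib.SubQ.F2
import Pool.Agent.Lib.SubQ.F3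
import Pool.Agent.Lib.SubQ.F4
import Pool.Agent.Lib.SubQ.F5
import Pool.Agent.Lib.SubQ.F6
import Pool.Agent.Lib.SubQ.F7
import Pool.Agent.Lib.SubQ.F8
import Pool.Agent.Lib.SubQ.Span

/-!
# SubQ: the Subspace theorem, without hypotheses
-/

set_option autoImplicit false

namespace Pool.Agent.SubQ

open Filter Topology

theorem machineT : Machine :=
  machine (aux countJ cardJ change) (vanish cardJ realBound divBound) gcdChoice dehom
    Pool.Agent.Lib.SDC.rothAll'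

theorem redExT : RedEx := redEx (redStep short primCol)

theorem basicT : CmpBasic := cmpBasic cmpMul

theorem dvdT : DvdCmp := dvdCmp cmpMul basicT

/-- **The Subspace theorem over `ℚ`** in every dimension (rational forms). -/
theorem subTh (n : ℕ) : SubTh n :=
  subAll (step limEx (famEx (datEx redExT (lat oneCong) latLow) limEx) (restrict limEx lvBasic)
    (mu limEx) (oneIndex cmpMul basicT (invBox cmpMul basicT cmpTri dom) dvdT)
    (small machineT cmpMul basicT (box cmpMul basicT cmpTri dom) dvdT sumInc)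
    basicT exch (spanCol cmpMul basicT)) n

/-- `subSpan` without hypotheses -/
theorem subSpanT (d n s : ℕ) (q : Fin s → ℕ) (hq : Pls q) (𝒰 : Ultrafilter ℕ)
    (T : ℕ → ℝ) (hT : Tendsto T 𝒰 atTop) (φ : ℕ → Fin d → ℚ) (hφ : ∀ l i, SInt q (φ l i))
    (hgen : ∀ z : Fin d → ℚ, z ≠ 0 → ∀ᶠ l in (𝒰 : Filter ℕ), ∑ i, z i * φ l i ≠ 0)
    (z : Option (Fin s) → Fin n → Fin d → ℚ) (hz : ∀ v, LinearIndependent ℚ (z v))
    (hsp : ∀ v, Submodule.span ℚ (Set.range (z v)) = Submodule.span ℚ (Set.range (z none)))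
    (c : Option (Fin s) → Fin n → ℝ)
    (hc : ∀ v i, Tendsto (fun l => lr q v (∑ j, z v i j * φ l j) / T l) 𝒰 (𝓝 (c v i))) :
    0 ≤ ∑ v, ∑ i, c v i :=
  subSpan subTh d n s q hq 𝒰 T hT φ hφ hgen z hz hsp c hc

end Pool.Agent.SubQ
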