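import Pool.Agent.Lib.SubQ.SpecL

/-! SubQ: L5, basis of the lattice `p ∣ w · z` (helper93) -/

set_option autoImplicit false

namespace Pool.Agent.SubQ

theorem oneCong : OneCong := by
  intro n p w hp
  by_cases hall : ∀ j, (p : ℤ) ∣ w j
  · refine ⟨1, Or.inl Matrix.det_one, fun z => ⟨fun _ => ⟨z, fun i => ?_⟩, fun _ => ?_⟩⟩
    · simp [Matrix.one_apply]
    · exact Finset.dvd_sum fun j _ => (hall j).mul_right _
  push Not at hall
  obtain ⟨j₀, hj₀⟩ := hall
  have hco : IsCoprime (w j₀) (p : ℤ) :=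
    ((Prime.coprime_iff_not_dvd (Nat.prime_iff_prime_int.1 hp)).2 hj₀).symm
  obtain ⟨a, b, hab⟩ := hco
  set w' : Fin n → ℤ := fun j => if j = j₀ then (p : ℤ) else -a * w j with hw'
  have hw0 : w' j₀ = p := by simp [hw']
  have hw1 : ∀ j, j ≠ j₀ → w' j = -a * w j := fun j hj => by simp [hw', hj]
  have hdet : ((1 : Matrix (Fin n) (Fin n) ℤ).updateRow j₀ w').det = p := by
    rw [← Matrix.cramer_transpose_apply, Matrix.transpose_one, Matrix.cramer_one]
    exact hw0
  have hsplit : ∀ f : Fin n → ℤ, ∑ j, f j = f j₀ + ∑ j ∈ Finset.univ.erase j₀, f j := fun f =>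
    (Finset.add_sum_erase Finset.univ f (Finset.mem_univ j₀)).symm
  have hE : ∀ (z' : Fin n → ℤ) (i : Fin n),
      ∑ j, (1 : Matrix (Fin n) (Fin n) ℤ).updateRow j₀ w' i j * z' j =
        if i = j₀ then ∑ j, w' j * z' j else z' i := by
    intro z' i
    split_ifs with h
    · subst h
      simp
    · simp [Matrix.updateRow_ne h, Matrix.one_apply]
  refine ⟨(1 : Matrix (Fin n) (Fin n) ℤ).updateRow j₀ w', Or.inr hdet, fun z => ⟨?_, ?_⟩⟩
  · rintro ⟨t, ht⟩
    refine ⟨fun j => if j = j₀ then a * t + b * z j₀ else z j, fun i => ?_⟩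
    rw [hE]
    split_ifs with h
    · subst h
      have hS : ∑ j ∈ Finset.univ.erase i, w' j * (if j = i then a * t + b * z i else z j) =
          -a * ∑ j ∈ Finset.univ.erase i, w j * z j := by
        rw [Finset.mul_sum]
        refine Finset.sum_congr rfl fun j hj => ?_
        have hne := Finset.ne_of_mem_erase hj
        rw [hw1 j hne, if_neg hne]
        ring
      rw [hsplit, if_pos rfl, hw0, hS]
      rw [hsplit] at ht
      linear_combination (a : ℤ) * ht - z i * hab
    · rfl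
  · rintro ⟨z', hz'⟩
    have h0 := hz' j₀
    rw [hE, if_pos rfl, hsplit, hw0] at h0
    have hS : ∑ j ∈ Finset.univ.erase j₀, w' j * z' j = -a * ∑ j ∈ Finset.univ.erase j₀, w j * z j := by
      rw [Finset.mul_sum]
      refine Finset.sum_congr rfl fun j hj => ?_
      have hne := Finset.ne_of_mem_erase hj
      have hj' := hz' j
      rw [hE, if_neg hne] at hj'
      rw [hw1 j hne, hj']
      ring
    rw [hS] at h0
    refine ⟨w j₀ * z' j₀ + b * ∑ j ∈ Finset.univ.erase j₀, w j * z j, ?_⟩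
    rw [hsplit]
    linear_combination w j₀ * h0 - (∑ j ∈ Finset.univ.erase j₀, w j * z j) * hab

end Pool.Agent.SubQ
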