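import Pool.Agent.Lib.SubQ.Defs

/-!
# SubQ: statements L (reduced bases, lattices defined by divisibility)
-/

set_option autoImplicit false

namespace Pool.Agent.SubQ

/-! ## Reduced bases -/

/-- **L1, a shortest vector.**

Proof.  `det Y ≠ 0`, so for `w = Y z` (real vectors) `z = Y⁻¹ w` and `|z i| ≤ (∑_{i,k} |Y⁻¹ i k|) ‖w‖`.
Hence for every `R` the set `{z : Fin n → ℤ | nr Y z ≤ R}` is finite (contained in a box
`Set.Icc (-N) N` of `Fin n → ℤ`).  Take `R = nr Y e` for a standard basis vector `e ≠ 0` (`n > 0`) and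
minimise `nr Y` over the finite nonempty set `{z | z ≠ 0 ∧ nr Y z ≤ R}`. -/
def Short : Prop :=
  ∀ (n : ℕ) (Y : Matrix (Fin n) (Fin n) ℝ), 0 < n → Y.det ≠ 0 →
    ∃ z : Fin n → ℤ, z ≠ 0 ∧ ∀ z' : Fin n → ℤ, z' ≠ 0 → nr Y z ≤ nr Y z'

/-- **L2, a primitive vector is the first column of a unimodular matrix.**

Proof.  By `Prim z` and Bezout there is `a : Fin (n+1) → ℤ` with `∑ a i * z i = 1` (the ideal spanned
by the `z i` is principal and its generator is a unit).  Let `K = ker (a ·)`, a submodule of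
`Fin (n+1) → ℤ`, free (`ℤ` is a principal ideal domain); every `x` is
`(a · x) z + (x - (a · x) z)` with the second summand in `K`, and `ℤ z ∩ K = 0`; so `K` has rank `n`
and `z` together with a basis of `K` is a basis of `Fin (n+1) → ℤ`; `G` is its matrix.
(Another proof: Euclid's algorithm, induction on `∑ |z i|`, elementary matrices.) -/
def PrimCol : Prop :=
  ∀ (n : ℕ) (z : Fin (n + 1) → ℤ), Prim z →
    ∃ G : Matrix (Fin (n + 1)) (Fin (n + 1)) ℤ, IsUnit G.det ∧ ∀ i, G i 0 = z i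

/-- **L3, one step of the reduction** (from L1, L2).

Proof.  `z₀` a shortest nonzero vector (L1) of `Y`; it is primitive: `g ∣ z₀ i` for all `i` gives
`z₀ = g z'`, `z' ≠ 0`, `g ≠ 0`, `nr Y z₀ = |g| nr Y z' ≥ |g| nr Y z₀` and `nr Y z₀ > 0`, so `|g| = 1`.
`G₁` from L2.  Let `i₀` be an index where `|(Y z₀) i|` is the norm `nr Y z₀ =: D₀ > 0`; replacing
`z₀` by `-z₀` we have `(Y z₀) i₀ = D₀`; `π₁ = Equiv.swap 0 i₀`.  So the matrix
`Y' i j = ∑_k Y (π₁ i) k (G₁ k j)` has `Y' 0 0 = D₀`, `|Y' i 0| ≤ D₀`.  Put `a i = Y' (i+1) 0 / D₀`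
(`|a i| ≤ 1`), `b j = Y' 0 (j+1)`, `Y'' i j = Y' (i+1) (j+1) - a i * b j` (`n × n`, Schur complement);
`det Y' = D₀ det Y''` (column operations, or `Matrix.det_fromBlocks₁₁`, or: a vector in the kernel of
`Y''` lifts to a vector in the kernel of `Y'`), so `det Y'' ≠ 0`.  The hypothesis `hred` gives
`Red Y'' G₂ π₂ A₂ U₂ D₂`.

New data: `G = G₁ * (diag(1, G₂)) * (1, -t; 0, 1)` where `t j = round ((b G₂) j / D₀)`, i.e.
`G = G₁ * H`, `H 0 0 = 1`, `H (i+1) 0 = 0`, `H 0 (j+1) = -t j`, `H (i+1) (j+1) = G₂ i j`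
(`det H = det G₂`);
`π 0 = π₁ 0`, `π (i+1) = π₁ (π₂ i + 1)` (`Equiv.Perm.decomposeFin` or
`(Fin.consEquiv ..)`, `finSuccEquiv`, `Equiv.optionCongr`: an extension of `π₂` by `0 ↦ 0`, composed
with `π₁`);
`A 0 0 = 1`, `A 0 (j+1) = 0`, `A (i+1) 0 = a (π₂ i)`, `A (i+1) (j+1) = A₂ i j`;
`D 0 = D₀`, `D (i+1) = D₂ i`;
`U 0 0 = 1`, `U (i+1) 0 = 0`, `U 0 (j+1) = (b G₂) j / D₀ - t j` (`|.| ≤ 1/2`),
`U (i+1) (j+1) = U₂ i j`.
Equation: entry `(0, 0)`: `Y' 0 0 = D₀`; `(0, j+1)`: `-D₀ t j + (b G₂) j`; `(i+1, 0)`: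
`Y' (π₂ i + 1) 0 = a (π₂ i) D₀`; `(i+1, j+1)`: `-a (π₂ i) D₀ t j + ∑_k Y' (π₂ i + 1) (k+1) G₂ k j` and
`Y' (π₂ i + 1) (k+1) = Y'' (π₂ i) k + a (π₂ i) b k`.
`first`: minimality of `z₀`.  `mono`: it suffices to have `D₀ ≤ 2 D₂ 0` if `n > 0` (then use `mono`
for `D₂`).  Let `z'' = G₂ e₀ ≠ 0` (first column of `G₂`); `Y'' z''` has (rows permuted) the coordinates
`A₂ i 0 * D₂ 0` (`U₂` is upper unitriangular), of absolute value `≤ D₂ 0`.  Choose `t ∈ ℤ` with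
`|β| ≤ D₀/2`, `β = D₀ t + ∑ b j z'' j`.  The nonzero integer vector `z = G₁ (t, z'')` has (rows
permuted) `Y z = (β, a β + Y'' z'')`, so `D₀ ≤ nr Y z ≤ D₀/2 + D₂ 0`. -/
def RedStep : Prop :=
  ∀ (n : ℕ) (Y : Matrix (Fin (n + 1)) (Fin (n + 1)) ℝ), Y.det ≠ 0 →
    (∀ Y' : Matrix (Fin n) (Fin n) ℝ, Y'.det ≠ 0 → ∃ G π A U D, Red Y' G π A U D) →
    ∃ G π A U D, Red Y G π A U D

/-- **L4, reduced bases** (from L3).

Proof.  Induction on `n`; `n = 0`: everything is empty (`G = 1`; `A = U = 1`, `D` arbitrary). -/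
def RedEx : Prop :=
  ∀ (n : ℕ) (Y : Matrix (Fin n) (Fin n) ℝ), Y.det ≠ 0 → ∃ G π A U D, Red Y G π A U D

/-! ## Lattices defined by divisibility -/

/-- **L5, one congruence.**

Proof.  If `p ∣ w j` for all `j` take `E = 1`.  Otherwise let `j₀` be an index with `p ∤ w j₀`, and
`a w j₀ ≡ 1 mod p`.  `E` is the identity matrix except in row `j₀`:
`E j₀ j₀ = p`, `E j₀ j = -a w j` (`j ≠ j₀`).  `det E = p` (e.g. it is `Matrix.updateRow 1 j₀ _`, expand,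
or the transpose of `Matrix.updateCol`; `Matrix.det_updateRow_sum`...; alternatively
`E = updateRow 1 j₀ w'` has determinant `w' j₀` by `Matrix.cramer`/`det_updateRow_eq_sum`).
If `z = E z'`: `z j = z' j` for `j ≠ j₀` and `z j₀ = p z' j₀ - a ∑_{j ≠ j₀} w j z' j`, so
`∑ w j z j = (1 - a w j₀) ∑_{j ≠ j₀} w j z' j + p (..)` is divisible by `p`.  Conversely if
`p ∣ ∑ w j z j` then `p ∣ z j₀ + a ∑_{j ≠ j₀} w j z j` (multiply by `a`), which defines `z' j₀`. -/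
def OneCong : Prop :=
  ∀ (n p : ℕ) (w : Fin n → ℤ), p.Prime →
    ∃ E : Matrix (Fin n) (Fin n) ℤ, (E.det = 1 ∨ E.det = p) ∧
      ∀ z : Fin n → ℤ, (p : ℤ) ∣ ∑ j, w j * z j ↔ ∃ z' : Fin n → ℤ, ∀ i, z i = ∑ j, E i j * z' j

/-- **L6, the lattice `{x : q_v^(A v i) ∣ (M_v x)_i}`** (from L5).

Proof.  Induction on `∑_v ∑_i A v i`.  If it is `0`: `B = 1`, `e = 0`.  Otherwise
`A v₀ i₀ = a + 1` for some `v₀, i₀`; let `A'` be `A` with the value `a` there, and `B', e'` the data for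
`A'`.  `w j = (M v₀ * B') i₀ j / q^a` (`q = q v₀`; exact).  `E` from L5 for `p = q v₀` and `w`;
`B = B' * E`; `e = e'` if `det E = 1`, and `e = e' + 1` at `v₀` if `det E = q v₀`.
`x` satisfies the conditions for `A` iff it satisfies those for `A'` and `q^(a+1) ∣ (M v₀ x) i₀`, i.e.
iff `x = B' z` with `q^(a+1) ∣ q^a ∑ w j z j`, i.e. `q ∣ ∑ w j z j`, i.e. `z = E z'`.  The columns of
`B` are of this form (`z'` a basis vector), which gives the divisibility of the entries of `M v * B`. -/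
def Lat : Prop :=
  ∀ (n s : ℕ) (q : Fin s → ℕ) (M : Fin s → Matrix (Fin n) (Fin n) ℤ) (A : Fin s → Fin n → ℕ),
    Pls q →
    ∃ (B : Matrix (Fin n) (Fin n) ℤ) (e : Fin s → ℕ), |B.det| = ∏ v, (q v : ℤ) ^ e v ∧
      (∀ v, e v ≤ ∑ i, A v i) ∧ (∀ v i j, (q v : ℤ) ^ A v i ∣ (M v * B) i j) ∧
      ∀ x : Fin n → ℤ, (∀ v i, (q v : ℤ) ^ A v i ∣ ∑ k, M v i k * x k) →
        ∃ z : Fin n → ℤ, ∀ i, x i = ∑ j, B i j * z j

/-- **L7, lower bound for the exponents.**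

Proof.  The row `i` of `M v * B` is divisible by `q_v^(A v i)`, so `q_v^(∑_i A v i)` divides
`det (M v * B) = det (M v) * det B` (Leibniz formula, or `M v * B = diagonal * C`), hence
`|det (M v)| ∏_w q_w^(e w)`; it is coprime to the `q_w^(e w)`, `w ≠ v`; so it divides
`|det (M v)| q_v^(e v) > 0`. -/
def LatLow : Prop :=
  ∀ (n s : ℕ) (q : Fin s → ℕ) (M : Fin s → Matrix (Fin n) (Fin n) ℤ) (A : Fin s → Fin n → ℕ)
    (B : Matrix (Fin n) (Fin n) ℤ) (e : Fin s → ℕ),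
    Pls q → (∀ v, (M v).det ≠ 0) → |B.det| = ∏ v, (q v : ℤ) ^ e v →
    (∀ v i j, (q v : ℤ) ^ A v i ∣ (M v * B) i j) →
    ∀ v, (q v : ℤ) ^ (∑ i, A v i) ≤ |(M v).det| * (q v : ℤ) ^ e v

/-- **L8, the data at one index** (from L4, L6, L7).

Proof.  `B, e` from L6 (for the frames `M (some v)`).  `Y i k = exp(-(c i * T)) * (M none * B) i k`
(real), `det Y ≠ 0` (`det B ≠ 0` since `|det B|` is a product of powers of primes).
`Red Y G π Lo Up D` from L4; `g = B * G`.  `dvd`: `M v * g = (M v * B) * G`.  `detg`: `|det G| = 1`.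
`eq`: `(M none * g) (π i) j = ∑_k (M none * B) (π i) k G k j = exp(c (π i) T) ∑_k Y (π i) k G k j`.
`mono`: `2 ^ (j - i) ≤ 2 ^ n`.  `first`: by the hypothesis on `x`, `x = B z`, `z ≠ 0` (`x ≠ 0`), so
`D i ≤ nr Y z`, and `nr Y z = ‖i ↦ exp(-(c i T)) (M none x) i‖` is the absolute value of one
coordinate (`n > 0` since there is an `i`; `Pi.exists_norm_eq` or
`Finite.exists_max`). -/
def DatEx : Prop :=
  ∀ (n s : ℕ) (q : Fin s → ℕ) (M : Option (Fin s) → Matrix (Fin n) (Fin n) ℤ) (c : Fin n → ℝ)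
    (T : ℝ) (x : Fin n → ℤ) (A : Fin s → Fin n → ℕ),
    Pls q → (∀ v, (M v).det ≠ 0) → x ≠ 0 →
    (∀ v i, (q v : ℤ) ^ A v i ∣ ∑ k, M (some v) i k * x k) →
    ∃ g π Lo Up D e, Dat q M c T x A g π Lo Up D e

end Pool.Agent.SubQ
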