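import Pool.Agent.Lib.SubQ.Defs

/-!
# SubQ: statements X (compound matrices)
-/

set_option autoImplicit false

namespace Pool.Agent.SubQ

/-- **X1, Cauchy-Binet.**

Proof.  `(A * B).submatrix J I = (A.submatrix J id) * (B.submatrix id I)` and
`Pool.Agent.Lib.MP_6a062b_co.cauchyBinet`; the sum over the filter `StrictMono` is the sum over the
subtype `Inc p n` (`Finset.sum_subtype`). -/
def CmpMul : Prop :=
  ∀ (R : Type) [CommRing R] (p n : ℕ) (A B : Matrix (Fin n) (Fin n) R),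
    cmp p (A * B) = cmp p A * cmp p B

/-- **X2, basic properties** (from X1).

Proof.  `cmp p (diagonal f) J I = det (a b ↦ if J a = I b then f (J a) else 0)`.  If `J = I` this is a
diagonal matrix (`J` injective).  If `J ≠ I` the sets of values are different (both maps are
increasing; `StrictMono` maps `Fin p → Fin n` with the same range are equal, `StrictMono.range_inj`
or `Fin` version), so some
`J a` is not a value of `I` and the row `a` is zero.  `cmp p 1`: `f = 1`.  Adjugate: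
`adjugate A * A = det A • 1 = diagonal (fun _ => det A)` and X1.  Ring homomorphism:
`RingHom.map_det`. -/
def CmpBasic : Prop :=
  ∀ (R : Type) [CommRing R] (p n : ℕ),
    cmp p (1 : Matrix (Fin n) (Fin n) R) = 1 ∧
    (∀ f : Fin n → R, cmp p (Matrix.diagonal f) = Matrix.diagonal fun J => ∏ a, f (J.1 a)) ∧
    (∀ A : Matrix (Fin n) (Fin n) R, cmp p A.adjugate * cmp p A = A.det ^ p • 1 ∧
      cmp p A * cmp p A.adjugate = A.det ^ p • 1) ∧
    ∀ (S : Type) [CommRing S] (f : R →+* S) (A : Matrix (Fin n) (Fin n) R),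
      cmp p (A.map f) = (cmp p A).map f

/-- **X3, triangular matrices.**

Proof.  Let `A` be lower triangular and `cmp p A J K ≠ 0`.  By the Leibniz formula there is a
permutation `σ` of `Fin p` with `A (J (σ a)) (K a) ≠ 0`, so `K a ≤ J (σ a)`, for all `a`.  Fix `a`; the
`p - a` indices `b ≥ a` satisfy `K a ≤ K b ≤ J (σ b)`; one of the `σ b` is `≤ a` (there are only
`p - a - 1` indices `> a`, `σ` injective); so `K a ≤ J (σ b) ≤ J a`.  Upper triangular: transpose
(`cmp p Aᵀ = (cmp p A)ᵀ`).  Diagonal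
entries: `A.submatrix J J` is again triangular with ones on the diagonal
(`Matrix.det_of_lowerTriangular`).  Bound: Leibniz formula, `p!` terms (`Matrix.det_le`). -/
def CmpTri : Prop :=
  (∀ (R : Type) [CommRing R] (p n : ℕ) (A : Matrix (Fin n) (Fin n) R),
    (∀ i j, i < j → A i j = 0) →
      (∀ J K : Inc p n, cmp p A J K ≠ 0 → ∀ a, K.1 a ≤ J.1 a) ∧
      ((∀ i, A i i = 1) → ∀ J : Inc p n, cmp p A J J = 1)) ∧
  (∀ (R : Type) [CommRing R] (p n : ℕ) (A : Matrix (Fin n) (Fin n) R),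
    (∀ i j, j < i → A i j = 0) →
      (∀ J K : Inc p n, cmp p A J K ≠ 0 → ∀ a, J.1 a ≤ K.1 a) ∧
      ((∀ i, A i i = 1) → ∀ J : Inc p n, cmp p A J J = 1)) ∧
  ∀ (p n : ℕ) (A : Matrix (Fin n) (Fin n) ℝ) (B : ℝ), (∀ i j, |A i j| ≤ B) →
    ∀ J K : Inc p n, |cmp p A J K| ≤ p.factorial * B ^ p

/-- **X4, products of almost increasing numbers.**

Proof.  (1) termwise.  (2) Every `J : Inc p n` satisfies `J a ≤ n - p + a` (there are `p - 1 - a`
larger values `< n`), i.e. `J ≤ top`.  (3) If `K ≠ top` and `1 ≤ p` then `K 0 < n - p`: otherwise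
`K a ≥ n - p + a` for all `a` (strictly increasing), so `K = top` by (2); in particular `p < n`.  (4) By (3), (2) and
(1) for the indices `a > 0`:
`pr D K = D (K 0) ∏_{a > 0} D (K a) ≤ (C D (n-p-1)) ∏_{a > 0} (C D (top a))`; multiply by
`D (n - p) = D (top 0) > 0`. -/
def Dom : Prop :=
  ∀ (p n : ℕ) (h : p ≤ n) (C : ℝ) (D : Fin n → ℝ), 1 ≤ C → (∀ i, 0 < D i) →
    (∀ i j : Fin n, i ≤ j → D i ≤ C * D j) →
    (∀ K J : Inc p n, (∀ a, K.1 a ≤ J.1 a) → pr D K ≤ C ^ p * pr D J) ∧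
    (∀ K : Inc p n, ∀ a, K.1 a ≤ (top p n h).1 a) ∧
    ∀ K : Inc p n, K ≠ top p n h → ∀ (hp : 1 ≤ p) (hn : p < n),
      pr D K * D ⟨n - p, by omega⟩ ≤ C ^ p * pr D (top p n h) * D ⟨n - p - 1, by omega⟩

/-- **X5, the box of the exterior power** (from X1 to X4).

Proof.  `W = Lo * diagonal D * Up`, so `cmp p W J I = ∑_K cmp Lo J K * pr D K * cmp Up K I` (X1, X2).
`|cmp Lo J K|, |cmp Up K I| ≤ p!` (X3 with `B = 1`; the factor `1 ^ p`), and the terms vanish unless
`K ≤ J` and `K ≤ I`.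
So (X4 with the constant `2 ^ n`) `|cmp p W J I| ≤ #(Inc p n) (p!)² (2^n)^p pr D J`.
If `I ≠ top` the terms which do not vanish have `K ≤ I`, hence `K ≠ top` (if `K = top` then
`top ≤ I ≤ top`), and the last part of X4 applies. -/
def Box : Prop :=
  ∀ (p n : ℕ) (h : p ≤ n), ∃ C : ℝ, 1 ≤ C ∧
    ∀ (Lo Up W : Matrix (Fin n) (Fin n) ℝ) (D : Fin n → ℝ),
      (∀ i, 0 < D i) → (∀ i j : Fin n, i ≤ j → D i ≤ 2 ^ n * D j) →
      (∀ i j, i < j → Lo i j = 0) → (∀ i j, |Lo i j| ≤ 1) →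
      (∀ i j, j < i → Up i j = 0) → (∀ i j, |Up i j| ≤ 1) →
      (∀ i j, W i j = ∑ k, Lo i k * D k * Up k j) →
      (∀ J I : Inc p n, |cmp p W J I| ≤ C * pr D J) ∧
      ∀ I : Inc p n, I ≠ top p n h → ∀ (hp : 1 ≤ p) (hn : p < n),
        |cmp p W (top p n h) I| * D ⟨n - p, by omega⟩
          ≤ C * pr D (top p n h) * D ⟨n - p - 1, by omega⟩

/-- **X6, the box of the dual** (from X1 to X4).

Proof.  `X = diagonal E * Lo * diagonal D * Up`, so
`adj X = adj Up * adj (diagonal D) * adj Lo * adj (diagonal E)` (`Matrix.adjugate_mul_distrib`), and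
`adj (diagonal D) i i = ∏_{j ≠ i} D j`, i.e. `adj (diagonal D) = diagonal (fun i => δ / D i)`,
`δ = ∏ D j` (`Matrix.adjugate_diagonal`); the same for `E`.  `adj Up` is the inverse of `Up`
(`det Up = 1`), upper triangular with ones on the diagonal
(`Matrix.BlockTriangular` lemmas for the inverse, or directly); so `cmp p (adj Up) top K = 0` for
`K ≠ top` (X3: `top ≤ K`, and `K ≤ top` by X4) and it is `1` for `K = top`.  Hence
`cmp p (adj X) top J = (δ^p / pr D top) * cmp p (adj Lo) top J * ((∏ E)^p / pr E J)`.  The entries of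
`adj Lo` are determinants of matrices with entries of absolute value `≤ 1`, so `≤ n!`, and
`|cmp p (adj Lo) top J| ≤ p! (n!)^p =: C`.  Finally `|det X| = (∏ E) δ` (`det Lo = det Up = 1`). -/
def InvBox : Prop :=
  ∀ (p n : ℕ) (h : p ≤ n), ∃ C : ℝ, 1 ≤ C ∧
    ∀ (Lo Up X : Matrix (Fin n) (Fin n) ℝ) (D E : Fin n → ℝ),
      (∀ i, 0 < D i) → (∀ i, 0 < E i) →
      (∀ i j, i < j → Lo i j = 0) → (∀ i j, |Lo i j| ≤ 1) → (∀ i, Lo i i = 1) →
      (∀ i j, j < i → Up i j = 0) → (∀ i j, |Up i j| ≤ 1) → (∀ i, Up i i = 1) →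
      (∀ i j, X i j = E i * ∑ k, Lo i k * D k * Up k j) →
      (|X.det| = (∏ i, E i) * ∏ i, D i) ∧
      ∀ J : Inc p n, |cmp p X.adjugate (top p n h) J| * (pr E J * pr D (top p n h))
        ≤ C * |X.det| ^ p

/-- **X7, divisibility** (from X1, X2).

Proof.  `Y = diagonal (fun i => b ^ A i) * Y'` with an integer matrix `Y'`.  First part: X1, X2.
Second part: `adj Y = adj Y' * adj (diagonal ..)`, `adj (diagonal (b^A)) = diagonal (i ↦ ∏_{j ≠ i}
b^(A j))`, so `cmp p (adj Y) K J = cmp p (adj Y') K J * ∏_a ∏_{j ≠ J a} b ^ A j`, and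
`b ^ (∑_a A (J a)) * ∏_a ∏_{j ≠ J a} b ^ A j = ∏_a b ^ (∑ A) = b ^ (p ∑ A)`. -/
def DvdCmp : Prop :=
  ∀ (p n : ℕ) (b : ℤ) (A : Fin n → ℕ) (Y : Matrix (Fin n) (Fin n) ℤ), (∀ i j, b ^ A i ∣ Y i j) →
    (∀ J I : Inc p n, b ^ (∑ a, A (J.1 a)) ∣ cmp p Y J I) ∧
    ∀ K J : Inc p n, b ^ (p * ∑ i, A i) ∣ b ^ (∑ a, A (J.1 a)) * cmp p Y.adjugate K J

/-- **X8, sums over all subsets.**

Proof.  `∑_J sm f J = ∑_i f i * #{J | i ∈ range J}`.  The number `#{J | i ∈ range J}` does not depend on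
`i`: `J ↦ image of J` is a bijection of `Inc p n` with the finsets of cardinality `p` (inverse
`Finset.orderEmbOfFin`), and the permutation `swap i j` maps the finsets of cardinality `p`
containing `i` to those containing `j` (or count: `(n-1).choose (p-1)`).  (If `n = 0` both sums are
`0`.)  Card: for `1 ≤ p < n` the maps `top` and `a ↦ n - p - 1 + a` are different. -/
def SumInc : Prop :=
  ∀ p n : ℕ, (∃ κ : ℕ, ∀ f : Fin n → ℝ, ∑ J : Inc p n, sm f J = κ * ∑ i, f i) ∧
    (1 ≤ p → p < n → 2 ≤ Fintype.card (Inc p n))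

/-- **X9, exchange lemma.**

Proof.  Among the `J : Inc p n` with `det (N.submatrix id J) ≠ 0` choose one with `∑_a c (J a)`
maximal.  `N_J = N.submatrix id J.1`, `F = adj N_J`, `det F = (det N_J)^(p-1) ≠ 0`
(`Matrix.det_adjugate`; for `p = 0` the determinant is `1`).
`(F * N).submatrix id J = F * N_J = det N_J • 1`.  Let `(F * N) a i ≠ 0`.  If `i = J b`, then `b = a`
and `c i = c (J a)`.  Otherwise let `J' = Function.update J a i` (injective).  The matrix
`(F * N).submatrix id J'` is `det N_J • 1` with the column `a` replaced by the column `i` of `F * N`;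
its determinant is `(det N_J)^(p-1) * (F * N) a i ≠ 0` (Cramer's rule, or expansion), and it equals
`det F * det (N.submatrix id J')`.  So `det (N.submatrix id J') ≠ 0`.  Sort: `J'' = J' ∘ σ` is strictly
increasing for a permutation `σ` (`Tuple.sort`), the minor changes only its sign
(`Matrix.det_permute'`), and by maximality `∑_b c (J' b) = ∑_b c (J'' b) ≤ ∑_b c (J b)`, that is
`c i ≤ c (J a)`. -/
def Exch : Prop :=
  ∀ (p n : ℕ) (N : Matrix (Fin p) (Fin n) ℤ) (c : Fin n → ℝ),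
    (∃ J : Inc p n, (N.submatrix id J.1).det ≠ 0) →
    ∃ (J : Inc p n) (F : Matrix (Fin p) (Fin p) ℤ), (N.submatrix id J.1).det ≠ 0 ∧ F.det ≠ 0 ∧
      ∀ a i, (F * N) a i ≠ 0 → c i ≤ c (J.1 a)

/-- **X10, the hyperplane of the columns different from `top`** (from X1, X2).

Proof.  `u J = cmp p g.adjugate top J`; by X2 `∑_J u J * cmp p g J I = det g ^ p` if `I = top` and `0`
otherwise.  `u ≠ 0` since `det g ^ p ≠ 0`.  `t` the gcd of the `u J` (`Finset.gcd`; or the positive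
generator of the ideal they span), `a J = u J / t`; `a` is primitive.  Orthogonality: cancel `t`.
Spanning: let `y : Inc p n → ℚ` with `∑ a J y J = 0`, and `z = (det g)^(-p) cmp(adj g) y`; then
`cmp(g) z = y` (X2) and `z top = (det g)^(-p) ∑ u J y J = 0`; so
`y J = ∑_{I ≠ top} z I * cmp p g J I`. -/
def SpanCol : Prop :=
  ∀ (p n : ℕ) (h : p ≤ n) (g : Matrix (Fin n) (Fin n) ℤ), g.det ≠ 0 →
    ∃ (t : ℤ) (a : Inc p n → ℤ), t ≠ 0 ∧ Prim a ∧
      (∀ J, cmp p g.adjugate (top p n h) J = t * a J) ∧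
      Spans (fun (I : {I : Inc p n // I ≠ top p n h}) (J : Inc p n) => cmp p g J I.1) a

end Pool.Agent.SubQ
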