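import Pool.Agent.Lib.SubQ.SpecM
import Pool.Agent.Lib.SubQ.SpecL
import Pool.Agent.Lib.SubQ.SpecX

/-!
# SubQ: statements F (the induction)
-/

set_option autoImplicit false

namespace Pool.Agent.SubQ

open Filter Topology

/-- Data for all indices along `𝒰` (with `π = 1`). -/
structure Fam {s n : ℕ} (q : Fin s → ℕ) (𝒰 : Ultrafilter ℕ) (T : ℕ → ℕ) (x : ℕ → Fin n → ℤ)
    (M : Option (Fin s) → Matrix (Fin n) (Fin n) ℤ) (c : Option (Fin s) → Fin n → ℝ)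
    (A : ℕ → Fin s → Fin n → ℕ) (g : ℕ → Matrix (Fin n) (Fin n) ℤ)
    (Lo Up : ℕ → Matrix (Fin n) (Fin n) ℝ) (D : ℕ → Fin n → ℝ) (e : ℕ → Fin s → ℕ) : Prop where
  exps : Exps q 𝒰 T x M c
  dat : ∀ᶠ l in (𝒰 : Filter ℕ),
    Dat q M (c none) (T l) (x l) (A l) (g l) 1 (Lo l) (Up l) (D l) (e l)
  limA : ∀ v i, Tendsto (fun l => (A l v i : ℝ) * Real.log (q v) / (T l : ℝ)) 𝒰
    (𝓝 (-c (some v) i))

/-- **F1, limits along ultrafilters.**

Proof.  The set `Set.Icc (-C) C` is compact and belongs to the image ultrafilter `𝒰.map f`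
(`IsCompact.ultrafilter_le_nhds'` or `IsCompact.ultrafilter_le_nhds`).  Second part: the finite
union of the sets `f ⁻¹ {a}` is everything (`Ultrafilter.eventually_exists_iff`-type lemma, or
`Ultrafilter.finite_biUnion_mem_iff`, or induction). -/
def LimEx : Prop :=
  (∀ (𝒰 : Ultrafilter ℕ) (f : ℕ → ℝ) (C : ℝ), (∀ᶠ l in (𝒰 : Filter ℕ), |f l| ≤ C) →
    ∃ a, Tendsto f 𝒰 (𝓝 a)) ∧
  ∀ (𝒰 : Ultrafilter ℕ) (α : Type) [Finite α] (f : ℕ → α),
    ∃ a, ∀ᶠ l in (𝒰 : Filter ℕ), f l = a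

/-- **F2, elementary properties of `lv`.**

Proof.  (1) `q^(v(z)) ∣ z` gives `q^(v(z)) ≤ |z|`.  (2) `Real.log_mul`, `padicValInt.mul`.
(3) real place: `|∑ b i z i| ≤ ∑ |b i| exp S`; the sum is `≠ 0`, take logarithms,
`log (∑ |b i|) ≤ ∑ |b i|` (`∑ |b i| ≥ 1`).  Place `v`: let `m` be the minimum of the
`padicValInt (q v) (z i)` over the `i` with `b i ≠ 0` (there is one since the sum is `≠ 0`), attained
at `i₀`; `q^m` divides the sum, so
`-v(∑ b i z i) log q ≤ -m log q = lv q v (z i₀) ≤ S`. -/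
def LvBasic : Prop :=
  ∀ (s : ℕ) (q : Fin s → ℕ), Pls q →
    (∀ (v : Option (Fin s)) (z : ℤ), z ≠ 0 → |lv q v z| ≤ Real.log |(z : ℝ)|) ∧
    (∀ (v : Option (Fin s)) (y z : ℤ), y ≠ 0 → z ≠ 0 → lv q v (y * z) = lv q v y + lv q v z) ∧
    ∀ (v : Option (Fin s)) (n : ℕ) (b z : Fin n → ℤ) (S : ℝ), ∑ i, b i * z i ≠ 0 →
      (∀ i, b i ≠ 0 → z i ≠ 0 ∧ lv q v (z i) ≤ S) →
      lv q v (∑ i, b i * z i) ≤ S + ∑ i, |(b i : ℝ)|

/-- **F3, existence of the family** (from L8, F1).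

Proof.  Let `A l v i = padicValInt (q v) (∑ k, M (some v) i k * x l k)`; then
`A l v i * log (q v) / T l = -(lv ..)/T l → -c (some v) i`, and `q^A` divides the number.  For
`𝒰`-almost all `l` the vector `x l` is not zero (`gen` for a standard basis vector, if `n > 0`; if
`n = 0` take `M' = M`, `c' = c` and check `Dat` directly: everything is empty, `g = 1`, `e = 0`), so
`DatEx` with
`c none`, `T l` gives `Dat q M (c none) (T l) (x l) (A l) (g l) (π l) (Lo l) (Up l) (D l) (e l)`.  By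
`LimEx` there is a permutation `π₀` with `π l = π₀` for `𝒰`-almost all `l`.  Let
`M' none = (M none).submatrix π₀ id`, `c' none = c none ∘ π₀`, `M' (some v) = M (some v)`,
`c' (some v) = c (some v)`.  `det (M' none) = ± det (M none) ≠ 0` (`Matrix.det_permute`); the sums
over `i` of `c'` and `c` agree (`Equiv.sum_comp`); `Dat` for `M', c', 1`: `eq` and `first` are the
same statements with the rows renamed (`(M' none * g) i j = (M none * g) (π₀ i) j`;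
`k = π₀ k'`). -/
def FamEx : Prop :=
  ∀ (s n : ℕ) (q : Fin s → ℕ) (𝒰 : Ultrafilter ℕ) (T : ℕ → ℕ) (x : ℕ → Fin n → ℤ)
    (M : Option (Fin s) → Matrix (Fin n) (Fin n) ℤ) (c : Option (Fin s) → Fin n → ℝ),
    Exps q 𝒰 T x M c →
    ∃ M' c' A g Lo Up D e, Fam q 𝒰 T x M' c' A g Lo Up D e ∧
      ∑ v, ∑ i, c' v i = ∑ v, ∑ i, c v i

/-- **F4, restriction to a quotient** (from F1, F2).

Proof.  Let `y l a = ∑_i Z a i * x l i`, and `f v a l = lv q v ((F v y l) a) / T l`,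
`(F v y l) a = ∑_b F v a b * y l b = ∑_i (F v * Z) a i * x l i`.
`Gen 𝒰 y`: `∑_a z a * y l a = ∑_i (∑_a z a * Z a i) x l i` and `hZ`.
The row `a` of `F v * Z` is not zero (`det (F v) ≠ 0`, so the row `a` of `F v` is not zero, then `hZ`),
so `(F v y l) a ≠ 0` for `𝒰`-almost all `l`.
Bounded: `det (M none) x l = adj (M none) (M none x l)`, so
`|x l i| ≤ C₁ max_k |(M none x l) k|` and `log |(M none x l) k| ≤ (|c none k| + 1) T l` for
`𝒰`-almost all `l`, all `k`; `T l ≥ 1`; so `|(F v y l) a| ≤ C₂ exp(K T l)` and by `LvBasic`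
`|f v a l| ≤ log |(F v y l) a| / T l ≤ log C₂ + K`.  So `LimEx` gives limits `c' v a`:
`Exps q 𝒰 T y F c'` and `SubTh p` yields `0 ≤ ∑ c' v a`.  Claim `c' v a ≤ c v (J v a)`:
`det (M v) * (F v y l) a = ∑_i b i * (M v x l) i`, `b = (F v * Z * adj (M v)) a`
(`adj M * M = det M`).  Let `δ > 0`.  For `𝒰`-almost all `l`: for all `i` with `b i ≠ 0`,
`(M v x l) i ≠ 0` (`gen`) and `lv ((M v x l) i) ≤ (c v i + δ) T l ≤ (c v (J v a) + δ) T l =: S`.
`LvBasic` (3), (2): `lv (det M v) + lv ((F v y l) a) ≤ S + ∑ |b i|`.  Divide by `T l → ∞`: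
`c' v a ≤ c v (J v a) + δ`. -/
def Restrict : Prop :=
  ∀ (p s n : ℕ) (q : Fin s → ℕ) (𝒰 : Ultrafilter ℕ) (T : ℕ → ℕ) (x : ℕ → Fin n → ℤ)
    (M : Option (Fin s) → Matrix (Fin n) (Fin n) ℤ) (c : Option (Fin s) → Fin n → ℝ)
    (Z : Matrix (Fin p) (Fin n) ℤ) (J : Option (Fin s) → Fin p → Fin n)
    (F : Option (Fin s) → Matrix (Fin p) (Fin p) ℤ),
    SubTh p → Exps q 𝒰 T x M c →
    (∀ z : Fin p → ℤ, z ≠ 0 → ∃ i, ∑ a, z a * Z a i ≠ 0) →
    (∀ v, (F v).det ≠ 0) →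
    (∀ v a i, (F v * Z * (M v).adjugate) a i ≠ 0 → c v i ≤ c v (J v a)) →
    0 ≤ ∑ v, ∑ a, c v (J v a)

/-- **F5, the limits of the successive minima** (from F1).

Proof.  All statements hold for `𝒰`-almost all `l`, and `T l ≥ 1`, `T l → ∞` along `𝒰`.
(1) Determinants: by `eq` (`π = 1`), `M none * g = diagonal (exp (c i T)) * Lo * diagonal D * Up`
over `ℝ`, `det Lo = det Up = 1` (triangular), so
`|det (M none)| ∏_v q_v^(e v) = exp(T ∑ c none i) ∏ D i`.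
(2) `(∑_i A v i) log q_v - log |det (M v)| ≤ e v log q_v ≤ (∑_i A v i) log q_v`
(`Ae`, `eA`), so `e v log q_v / T → -∑_i c (some v) i`.  With (1):
`(∑_i log (D i)) / T → -∑_v ∑_i c v i` (all places `v`).
(3) Let `i₀ = 0` (`0 < n`).  The column `0` of `M none * g` is `exp(c i T) Lo i 0 D 0`
(`Up k 0 = 0` for `k > 0`, `Up 0 0 = 1`), it is a nonzero integer vector (`det ≠ 0`), so some entry has absolute
value `≥ 1`: `D 0 ≥ exp(-(∑ |c none i|) T)`.  By `mono` `D i ≥ 2^(-n) D 0`.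
(4) So `log (D i) / T ≥ -(∑ |c none i|) - n`, and `log (D i) = ∑ log D - ∑_{j ≠ i} log (D j)` gives
an upper bound; `LimEx` gives the limits `μ i`.
(5) `mono`: `log (D i) ≤ n log 2 + log (D j)`, divide by `T`: `μ i ≤ μ j`.
(6) `μ 0 ≤ 0`: let `δ > 0`; for `𝒰`-almost all `l`, `(M none x) k ≠ 0` and
`log |(M none x) k| ≤ (c none k + δ) T` for all `k`, so `first` gives `log (D 0) ≤ δ T`.
(7) `∑ μ i` is the limit in (2). -/
def Mu : Prop :=
  ∀ (s n : ℕ) (q : Fin s → ℕ) (𝒰 : Ultrafilter ℕ) (T : ℕ → ℕ) (x : ℕ → Fin n → ℤ)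
    (M : Option (Fin s) → Matrix (Fin n) (Fin n) ℤ) (c : Option (Fin s) → Fin n → ℝ)
    (A : ℕ → Fin s → Fin n → ℕ) (g : ℕ → Matrix (Fin n) (Fin n) ℤ)
    (Lo Up : ℕ → Matrix (Fin n) (Fin n) ℝ) (D : ℕ → Fin n → ℝ) (e : ℕ → Fin s → ℕ),
    Fam q 𝒰 T x M c A g Lo Up D e → 0 < n →
    ∃ μ : Fin n → ℝ,
      (∀ i, Tendsto (fun l => Real.log (D l i) / (T l : ℝ)) 𝒰 (𝓝 (μ i))) ∧
      (∀ i j, i ≤ j → μ i ≤ μ j) ∧ (∀ i : Fin n, i.val = 0 → μ i ≤ 0) ∧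
      ∑ i, μ i = -∑ v, ∑ i, c v i

/-- **F6, the inequality at one index** (from X1, X2, X6, X7).

Proof.  `O(1)`: constants depending on `n, p, q, M`.  `w v K = ∑_L a L * cmp p (adj (M v)) L K`;
`t * w v K = ∑_L cmp p (adj g) top L * cmp p (adj (M v)) L K = cmp p (adj (M v * g)) top K` (X1,
`adj (M v * g) = adj g * adj (M v)`).  So `w v (J v) ≠ 0`, and `|w v (J v)| ≤ C₁ Y`.
Real place: `X = M none * g` (cast to `ℝ`), `E i = exp(c i T)`; X6 (and `cmp` commutes with the cast,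
X2) with `|w none (J none)| ≥ 1`:
`log |t| + sm c (J none) T + ∑_a log (D (top a)) ≤ O(1) + p log |det X|`,
`|det X| = |det (M none)| ∏_v q_v^(e v)`, `∏ q_v^(e v) ≤ ∏ q_v^(∑_i A v i)`.
Place `v`: X7 for `Y = M v * g`, `b = q_v`: `q_v^(p ∑ A v) ∣ q_v^(∑_a A v (J v a)) t w v (J v)`, so
`p ∑_i A v i ≤ ∑_a A v (J v a) + v(t) + v(w)` (`padicValInt`), and
`q_v^(v(w)) ≤ |w| ≤ C₁ Y`.  Since the powers `q_v^(v(t))` are coprime divisors of `t ≠ 0`:
`∑_v v(t) log q_v ≤ log |t|`.  So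
`∑_v (p ∑_i A v i - ∑_a A v (J v a)) log q_v ≤ log |t| + s log Y + O(1)`.  Add the two inequalities;
the terms `p ∑_v (∑_i A v i) log q_v` cancel. -/
def OneIndex : Prop :=
  ∀ (s n p : ℕ) (q : Fin s → ℕ) (M : Option (Fin s) → Matrix (Fin n) (Fin n) ℤ) (h : p ≤ n),
    Pls q → (∀ v, (M v).det ≠ 0) → ∃ C : ℝ, ∀ (c : Fin n → ℝ) (T : ℝ) (x : Fin n → ℤ)
      (A : Fin s → Fin n → ℕ) (g : Matrix (Fin n) (Fin n) ℤ) (Lo Up : Matrix (Fin n) (Fin n) ℝ)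
      (D : Fin n → ℝ) (e : Fin s → ℕ), Dat q M c T x A g 1 Lo Up D e →
      ∀ (t : ℤ) (a : Inc p n → ℤ) (Y : ℝ), 1 ≤ Y → t ≠ 0 →
        (∀ J, cmp p g.adjugate (top p n h) J = t * a J) → (∀ J, |(a J : ℝ)| ≤ Y) →
        ∀ J : Option (Fin s) → Inc p n,
          (∀ v, cmp p (M v * g).adjugate (top p n h) (J v) ≠ 0) →
          sm c (J none) * T + ∑ b, Real.log (D ((top p n h).1 b))
            ≤ ∑ v : Fin s, (∑ b, (A v ((J (some v)).1 b) : ℝ)) * Real.log (q v)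
              + s * Real.log Y + C

/-- **F7, the hyperplanes have small height** (from M11 `Machine`, X1, X2, X5, X7, X8).

Proof.  Let `k = n - p`, `η = μ k - μ (k-1) > 0`, `ι = Inc p n` (`2 ≤ card`, X8),
`κ = {I : Inc p n // I ≠ top}`, the frames `cmp p (M v)` (`det ≠ 0`: X2,
`cmp (adj M) * cmp M = det^p • 1`), `α v i = -c (some v) i / log q_v ≥ 0` (limit of `A v i / T`),
`α̂ v J = ∑_a α v (J a)`, `ĉ J = sm (c none) J + sm μ J - (if J = top then η else 0)`.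
By X8 `∑_J ĉ J + η = κ' (∑ c none i + ∑ μ i) = κ' (-∑_v ∑_i c (some v) i)
= ∑_v ∑_J α̂ v J log q_v`: the hypothesis of `Machine`.
Suppose the claim is false; `𝒰` is an ultrafilter, so for `𝒰`-almost all `l` there are a primitive
`a` with `Spans ..` and a `J` with `exp(γ T l) ≤ |a J|`.  We show the data for `Machine`: let
`ε > 0`, `l₀` be given; `HasDatum` at the scale `T l` for `𝒰`-almost all `l` with: exponents
`∑_b A l v (J b)`, vectors the columns `I ≠ top` of `cmp p (g l)`, `u = a`.  Checks: `T l ≥ l₀`;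
`|∑_b A l v (J b) - α̂ v J T l| ≤ ε T l` by `limA`; divisibility: `cmp (M v) * cmp g = cmp (M v * g)`
(X1) and X7 (first part) with `dvd`; sizes: over `ℝ`, `(M none * g) i j = exp(c i T) W i j`,
`W = Lo diagonal(D) Up`, so
`cmp p (M none * g) J I = exp(sm c J T) cmp p W J I` (`diagonal` times `W`, X1, X2), and by X5 for
`I ≠ top` its absolute value is at most `exp(sm c J T) C pr D J`, and for `J = top` at most
`exp(sm c J T) C pr D top D (k-1) / D k`; since `log (D i) / T → μ i` the logarithms are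
`≤ (ĉ J + ε) T` for `𝒰`-almost all `l`. -/
def Small : Prop :=
  ∀ (s n p : ℕ) (q : Fin s → ℕ) (𝒰 : Ultrafilter ℕ) (T : ℕ → ℕ) (x : ℕ → Fin n → ℤ)
    (M : Option (Fin s) → Matrix (Fin n) (Fin n) ℤ) (c : Option (Fin s) → Fin n → ℝ)
    (A : ℕ → Fin s → Fin n → ℕ) (g : ℕ → Matrix (Fin n) (Fin n) ℤ)
    (Lo Up : ℕ → Matrix (Fin n) (Fin n) ℝ) (D : ℕ → Fin n → ℝ) (e : ℕ → Fin s → ℕ)
    (μ : Fin n → ℝ) (h1 : 1 ≤ p) (h2 : p < n),
    Fam q 𝒰 T x M c A g Lo Up D e →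
    (∀ i, Tendsto (fun l => Real.log (D l i) / (T l : ℝ)) 𝒰 (𝓝 (μ i))) →
    ∑ i, μ i = -∑ v, ∑ i, c v i →
    μ ⟨n - p - 1, by omega⟩ < μ ⟨n - p, by omega⟩ →
    ∀ γ : ℝ, 0 < γ → ∀ᶠ l in (𝒰 : Filter ℕ), ∀ a : Inc p n → ℤ, Prim a →
      Spans (fun (I : {I : Inc p n // I ≠ top p n h2.le}) (J : Inc p n) => cmp p (g l) J I.1) a →
      ∀ J, |(a J : ℝ)| ≤ Real.exp (γ * T l)

/-- **F8, the induction step** (from F1, F3 to F7, X1, X2, X9, X10). -/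
def Step : Prop :=
  ∀ n : ℕ, (∀ p, p < n → SubTh p) → SubTh n

end Pool.Agent.SubQ
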