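import Pool.Agent.Lib.SubQ.Defs

/-!
# SubQ: statements M (auxiliary polynomial, the theorem on hyperplanes)

Everything here is the version for an arbitrary finite index type `ι` (instead of `Fin 3`), any finite
set of primes and different frames at all places, of the modules
`Pool/Agent/Lib/MP_cc0c1a_nt/Sub/M1.lean … M11.lean` (namespace `MPcc0c1aSub`, complete proofs for
`ι = Fin 3`, `q = 2, 3`).  Start from the old file and adapt it.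
-/

set_option autoImplicit false

namespace Pool.Agent.SubQ

open MvPolynomial

/-- the identity `det M ^ (∑ r) · p = d ∘ M` for the multihomogeneous polynomials with coefficients
`p` and `d` -/
def Ident {m : ℕ} {ι : Type} [Fintype ι] [DecidableEq ι] (r : Fin m → ℕ) (M : Matrix ι ι ℤ)
    (p d : (Fin m → ι → ℕ) → ℤ) : Prop :=
  ∀ (A : Type) [CommRing A] (v : Fin m → ι → A),
    (M.det : A) ^ (∑ h, r h) * val r p v = val r d (fun h => app M (v h))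

open Classical in
/-- **M1, most exponent arrays are balanced** (old file `Sub/M1.lean`).

Proof.  `n = card ι`.  Fix `i`.  On the set `piAntidiag univ r` (`r ≥ 1`) the mean of
`f = j_i / r - 1/n` is `0` (by symmetry the sums of the `j_i` are equal, and `∑_i j_i = r`), and
`|f| ≤ 1`.  `JJ ι r` is a product; for `f_h` of mean `0` depending on the block `h` only,
`∑_{j ∈ JJ} (∑_h f_h)² = ∑_h ∑_j f_h² ≤ m #(JJ)` (cross terms `h ≠ h'` vanish: sum over the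
block `h` first).  Chebyshev: the number of `j` with `|∑_h f_h| > ε m` is at most
`m #(JJ) / (ε m)² = #(JJ) / (ε² m)`.  Sum over `i`. -/
def CountJ : Prop :=
  ∀ (ι : Type) [Fintype ι] [DecidableEq ι] [Nonempty ι] (m : ℕ) (r : Fin m → ℕ) (ε : ℝ),
    0 < ε → 1 ≤ m → (∀ h, 0 < r h) →
    (((JJ ι r).filter fun j => ¬ Balanced ε r j).card : ℝ)
      ≤ Fintype.card ι / (ε ^ 2 * m) * (JJ ι r).card

/-- **M2, number of exponent arrays** (old file `Sub/M2.lean`).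

Proof.  `piAntidiag univ r ⊆ Fintype.piFinset fun _ => range (r + 1)`, which has
`(r + 1) ^ card ι ≤ (2 ^ card ι) ^ r` elements; `Fintype.card_piFinset`, product over the blocks.
Nonempty: `j_h = r_h` at one index, `0` at the others. -/
def CardJ : Prop :=
  ∀ (ι : Type) [Fintype ι] [DecidableEq ι] [Nonempty ι] (m : ℕ) (r : Fin m → ℕ),
    0 < (JJ ι r).card ∧ (JJ ι r).card ≤ (2 ^ Fintype.card ι) ^ (∑ h, r h)

/-- **M3, change of frame** (old file `Sub/M3.lean`).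

Proof.  Let `N = M.adjugate`, `N * M = det M • 1`; so `det M * v_i = ∑_k N_{ik} (M v)_k` for
every vector `v` over a commutative ring.  For `j' ∈ piAntidiag univ r` let
`G_{j'} = ∏_i (∑_k N_{ik} Y_k)^(j'_i) ∈ ℤ[Y_i, i ∈ ι]`, homogeneous of degree `r`, and let
`t_r(j, j')` be its coefficient at `Y^j`; then `det M^r ∏ v_i^(j'_i) = G_{j'}(M v) =
∑_{j ∈ piAntidiag univ r} t_r(j, j') ∏ (M v)_i^(j_i)`.  `T j j' = ∏_h t_{r_h}(j_h, j'_h)`.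
Bound: the sum of the absolute values of the coefficients is submultiplicative
(`MPcc0c1aSub.normCalc` in `Sub/M5.lean`, for `w = 1`; it holds for every finite `σ`), so
`|t_r| ≤ (n max |N|)^r`; `C = n max|N| + 1`. -/
def Change : Prop :=
  ∀ (ι : Type) [Fintype ι] [DecidableEq ι] (M : Matrix ι ι ℤ), ∃ C : ℝ, 1 ≤ C ∧
    ∀ (m : ℕ) (r : Fin m → ℕ), ∃ T : (Fin m → ι → ℕ) → (Fin m → ι → ℕ) → ℤ,
      (∀ j ∈ JJ ι r, ∀ j' ∈ JJ ι r, |(T j j' : ℝ)| ≤ C ^ (∑ h, r h)) ∧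
      ∀ p : (Fin m → ι → ℕ) → ℤ, Ident r M p (fun j => ∑ j' ∈ JJ ι r, T j j' * p j')

/-- **M4, the auxiliary polynomial** (old file `Sub/M4.lean`; from M1, M2, M3).

Proof.  `n = card ι`; `C₀ ≥ 1` a constant for M3 for all the frames `M v`, `T v` the arrays of M3.
Unknowns: `p j` for all `j ∈ JJ ι r`; equations: `∑_{j'} T v j j' p j' = 0` for all `v` and all
unbalanced `j ∈ JJ ι r` (at most `(s + 1) n / (ε² m) #JJ ≤ #JJ / 2` many).  Siegel's lemma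
(`Int.Matrix.exists_ne_zero_int_vec_norm_le`; the norm is the sup norm): a nonzero integer solution
with `|p| ≤ (#JJ · max 1 ‖T‖)^e`, `e = eqs / (unknowns - eqs) ≤ 1`, so `|p| ≤ (2^n C₀)^(∑ r)`.  (If
there are no equations take `p = 1` at one array.)  `p j = 0` outside `JJ`;
`d v j = ∑_{j'} T v j j' p j'`, `|d v j| ≤ (2^n)^(∑ r) C₀^(∑ r) (2^n C₀)^(∑ r)`;
`C = (2^n C₀)²`. -/
def Aux : Prop :=
  ∀ (ι : Type) [Fintype ι] [DecidableEq ι] [Nonempty ι] (s : ℕ)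
    (M : Option (Fin s) → Matrix ι ι ℤ), ∃ C : ℝ, 1 ≤ C ∧
    ∀ (m : ℕ) (r : Fin m → ℕ) (ε : ℝ),
    0 < ε → 2 * Fintype.card ι * (s + 1) ≤ ε ^ 2 * m → (∀ h, 0 < r h) →
    ∃ (p : (Fin m → ι → ℕ) → ℤ) (d : Option (Fin s) → (Fin m → ι → ℕ) → ℤ),
      (∃ j ∈ JJ ι r, p j ≠ 0) ∧ (∀ j, |(p j : ℝ)| ≤ C ^ (∑ h, r h)) ∧
      (∀ v, ∀ j ∈ JJ ι r, d v j ≠ 0 → Balanced ε r j) ∧
      (∀ v, ∀ j ∈ JJ ι r, |(d v j : ℝ)| ≤ C ^ (∑ h, r h)) ∧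
      ∀ v, Ident r (M v) p (d v)

/-- **M6, real bound for the coefficients of the generic value** (old file `Sub/M6.lean`; uses
`MPcc0c1aSub.normCalc` of `Sub/M5.lean`).

Proof.  Let `w (h, some j) = 1`, `w (h, none) = ρ h`.  `app M (gv x dir h) i
= ∑_j (M x_{h j})_i X(h, some j) + M_{i, dir h} X(h, none)` has norm `≤ (card κ + 1) Λ h i`.  So the
norm of `val r d (app M gv)` is at most `∑_{j ∈ JJ r} |d j| ∏ ((card κ + 1) Λ)^j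
≤ #JJ (card κ + 1)^(∑ r) T`.  It equals the norm of `det M^(∑ r) * val r p gv` (identity for
`A = MvPolynomial (Fin m × Option κ) ℤ`), which is `|det M|^(∑ r) wl1 (val r p gv)
≥ wl1 (val r p gv)`.  Last item of `NormCalc`. -/
def RealBound : Prop :=
  ∀ (ι κ : Type) [Fintype ι] [DecidableEq ι] [Fintype κ] (m : ℕ) (r : Fin m → ℕ)
    (p d : (Fin m → ι → ℕ) → ℤ) (M : Matrix ι ι ℤ) (x : Fin m → κ → ι → ℤ) (dir : Fin m → ι)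
    (Λ : Fin m → ι → ℝ) (ρ : Fin m → ℝ) (T : ℝ), M.det ≠ 0 → Ident r M p d →
    (∀ h, 0 < ρ h) → (∀ h i, 0 ≤ Λ h i) →
    (∀ h i, (∀ j, |((app M (x h j) i : ℤ) : ℝ)| ≤ Λ h i) ∧
      |(M i (dir h) : ℝ)| * ρ h ≤ Λ h i) →
    (∀ j ∈ JJ ι r, |(d j : ℝ)| * ∏ h, ∏ i, Λ h i ^ j h i ≤ T) →
    ∀ a : Fin m × Option κ →₀ ℕ,
      |((coeff a (val r p (gv x dir)) : ℤ) : ℝ)| * ∏ h, ρ h ^ a (h, none)
        ≤ (JJ ι r).card * (Fintype.card κ + 1) ^ (∑ h, r h) * T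

/-- **M7, divisibility of the coefficients of the generic value** (old file `Sub/M7.lean`).

Proof.  Let `Φ` be the algebra endomorphism of `ℤ[X]` with `X(h, some j)` fixed and
`X(h, none) ↦ b^(A' h) X(h, none)`; `coeff a (Φ f) = b^(∑ A' h a(h, none)) coeff a f` (check on
monomials).  `app M (Φ (gv x dir h)) i = ∑_j (M x_{h j})_i X(h, some j) +
M_{i, dir h} b^(A' h) X(h, none)` is divisible by `b^(A h i)` (`A h i ≤ A' h`), so every term of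
`Φ (det^(∑ r) val r p gv) = det^(∑ r) val r p (Φ gv) = val r d (app M (Φ gv))` with `d j ≠ 0` is
divisible by `b^(∑ A h i j h i)`, hence by `b^E`; a polynomial divisible by the integer `b^E` has all
coefficients divisible by it. -/
def DivBound : Prop :=
  ∀ (ι κ : Type) [Fintype ι] [DecidableEq ι] [Fintype κ] (m : ℕ) (r : Fin m → ℕ)
    (p d : (Fin m → ι → ℕ) → ℤ) (M : Matrix ι ι ℤ) (x : Fin m → κ → ι → ℤ) (dir : Fin m → ι)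
    (b : ℤ) (A : Fin m → ι → ℕ) (A' : Fin m → ℕ) (E : ℕ), Ident r M p d →
    (∀ h j i, b ^ A h i ∣ app M (x h j) i) → (∀ h i, A h i ≤ A' h) →
    (∀ j ∈ JJ ι r, d j ≠ 0 → E ≤ ∑ h, ∑ i, A h i * j h i) →
    ∀ a : Fin m × Option κ →₀ ℕ,
      b ^ E ∣ b ^ (∑ h, A' h * a (h, none)) *
        (M.det ^ (∑ h, r h) * coeff a (val r p (gv x dir)))

/-- **M8, vanishing** (old file `Sub/M8.lean`; from M2, M6, M7).  `1 ≤ m`; scales `l h ≥ L₀`, degrees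
`r h` with `R ≤ r h * l h ≤ (1 + ε) R`.

Proof.  `n = card ι ≥ 1`, `K = 1 + ∑_i |c_i| + ∑_v ∑_i α_{v i}`, `L = 1 + ∑_v log q_v`,
`D = ∏_v |det M_v|` (over all `v : Fin s`), `ε₀ = min (1/(10 n)) (η/(16 n K L))`,
`L₀ ≥ 1, log(1 + max |M_none|), 2 log(2^n (card κ + 1) C)/ε, 2 log(D + 1)/ε`.
Let `f = coeff a (..)`, `k_h = a(h, none)`, and suppose `f ≠ 0`.
(0) `∑_h l_h k_h = ∑ (l_h r_h)(k_h/r_h) ≤ (1 + ε) R ε`.  `∑ r_h ≤ 2 m R / L₀`, so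
`(2^n (card κ + 1) C)^(∑ r) ≤ exp(ε R m)` and `D^(∑ r) ≤ exp(ε R m)`.  For balanced `j ∈ JJ ι r` let
`Y_i = ∑_h l_h j_{hi}`; as `R ≤ l_h r_h ≤ (1+ε) R` it lies between `R ∑ j_{hi}/r_h` and `(1 + ε)`
times that, so `|Y_i - R m/n| ≤ 3 ε m R`.
(1) M6 for `M none` with `Λ h i = exp((c_i + ε) l_h)`, `ρ h = exp(-(K+1) l_h)`
(`|M| exp(-(K+1) l) ≤ exp(-K l) ≤ Λ`): for balanced `j`,
`∏ Λ^j = exp(∑_i (c_i + ε) Y_i) ≤ exp(R m (∑ c_i/n + 3 K ε))` (`ε n ≤ 1/10`), so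
`|f| ≤ (2^n (card κ + 1) C)^(∑ r) exp(R m (∑ c_i /n + 3Kε)) exp((K + 1) ∑ l_h k_h)
≤ exp(R m (∑ c_i/n + 8 K ε))` (`(K+1)(1+ε) ≤ 4K`, `m ≥ 1`).
(2) M7 for `M (some v)` with `b = q_v`, `E_v = ⌊R m (∑_i α_{vi} / n - 3 K ε)⌋₊`:
`∑ A_{hi} j_{hi} ≥ ∑ (α_i - ε) Y_i ≥ R m (∑ α_i/n - 3Kε)`; `A'_h = ∑_i A_{hi} ≤ K l_h`; so
`q_v^(E_v) ∣ q_v^(s_v) (det M_v)^(∑ r) f`, `s_v = ∑ A'_h k_h ≤ 2 K R ε`.  The `q_v^(E_v)` are
pairwise coprime, so `∏ q_v^(E_v) ∣ ∏ q_v^(s_v) ∏_v (det M_v)^(∑ r) f ≠ 0`, hence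
`∏ q_v^(E_v) ≤ ∏ q_v^(s_v) D^(∑ r) |f|`.
(3) Logarithms: `∑_v (R m (∑_i α_{vi}/n - 3Kε) - 1) log q_v ≤ 2 K R ε L + ε R m
+ R m (∑ c_i/n + 8Kε)`, so `R m η/n ≤ 3 K ε R m L + L + 2 K R ε L + ε R m + 8 K ε R m
≤ 15 K L ε R m` (`1 ≤ ε R ≤ K ε R m`, `L ≥ 1`); but `η/n ≥ 16 K L ε`: contradiction. -/
def Vanish : Prop :=
  ∀ (ι κ : Type) [Fintype ι] [DecidableEq ι] [Nonempty ι] [Fintype κ] (s : ℕ) (q : Fin s → ℕ)
    (M : Option (Fin s) → Matrix ι ι ℤ) (c : ι → ℝ) (α : Fin s → ι → ℝ) (η : ℝ), Pls q →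
    (∀ v, (M v).det ≠ 0) → 0 < η → (∀ v i, 0 ≤ α v i) →
    ∑ i, c i + η ≤ ∑ v, ∑ i, α v i * Real.log (q v) →
    ∃ ε₀ : ℝ, 0 < ε₀ ∧ ∀ ε : ℝ, 0 < ε → ε ≤ ε₀ → ∀ C : ℝ, 1 ≤ C → ∃ L₀ : ℕ,
      ∀ (m : ℕ) (r l : Fin m → ℕ) (R : ℝ), 1 ≤ m → 1 / ε ≤ R →
        (∀ h, L₀ ≤ l h ∧ 0 < r h ∧ R ≤ r h * l h ∧ (r h * l h : ℝ) ≤ (1 + ε) * R) →
        ∀ (p : (Fin m → ι → ℕ) → ℤ) (d : Option (Fin s) → (Fin m → ι → ℕ) → ℤ),
          (∀ v, ∀ j ∈ JJ ι r, d v j ≠ 0 → Balanced ε r j) →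
          (∀ v, ∀ j ∈ JJ ι r, |(d v j : ℝ)| ≤ C ^ (∑ h, r h)) →
          (∀ v, Ident r (M v) p (d v)) →
          ∀ (A : Fin m → Fin s → ι → ℕ) (x : Fin m → κ → ι → ℤ) (dir : Fin m → ι),
            (∀ h v i, |(A h v i : ℝ) - α v i * l h| ≤ ε * l h) →
            (∀ h v j i, (q v : ℤ) ^ A h v i ∣ app (M (some v)) (x h j) i) →
            (∀ h j i, |((app (M none) (x h j) i : ℤ) : ℝ)| ≤ Real.exp ((c i + ε) * l h)) →
            ∀ a : Fin m × Option κ →₀ ℕ, swt r a ≤ ε → coeff a (val r p (gv x dir)) = 0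

/-- **M9, choice of coordinates** (new proof, cf. old file `Sub/M9.lean`).

Proof.  Let `i₁` maximise `|u i|`, `N = |u i₁|`; `N > 0` (otherwise `2` divides all `u i`).  For
`j ≠ i₁` let `d_j = gcd(u i₁, u j)`, `N = d_j e_j`, and `P = ∏_{j ≠ i₁} e_j`.  `N = d_j e_j` divides
`d_j P`, hence `u j * P`; also `N ∣ u i₁ P`.  So `N' = N / gcd(N, P)` divides all `u j`
(`Int`/`Nat` lemma: `N ∣ u P` implies `N / gcd(N, P) ∣ u`), hence is a unit, i.e. `N ∣ P`, `N ≤ P`.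
Let `i₂ ≠ i₁` maximise `e_j` (`card ι ≥ 2`); `N ≤ P ≤ e_{i₂}^(card ι - 1)`.  `q = e_{i₂}`,
`p = ∓ u i₂ / d_{i₂}`. -/
def GcdChoice : Prop :=
  ∀ (ι : Type) [Fintype ι] [DecidableEq ι], 2 ≤ Fintype.card ι → ∀ u : ι → ℤ, Prim u →
    ∃ (i₁ i₂ : ι) (p q : ℤ), i₁ ≠ i₂ ∧ u i₁ ≠ 0 ∧ 0 < q ∧ IsCoprime p q ∧
      (p : ℚ) / q = -(u i₂ : ℚ) / u i₁ ∧ ∀ k, |u k| ≤ q ^ (Fintype.card ι - 1)

/-- **M10, dehomogenisation** (old file `Sub/M10.lean`).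

Proof.  `τ_h = -u_h(i₂)/u_h(i₁)`, `ν_{h,i} = u_h(i)/u_h(i₁)`.  Let `B = MvPolynomial (Fin m × ι) ℚ`
with the variables `z_{h,i}` (only `i ≠ i₁ h, i₂ h` are used) and `w_h : ι → B` the vector with the
coordinates `τ_h - ∑_{i ≠ i₁,i₂} ν_{h,i} z_{h,i}` at `i₁`, `1` at `i₂`, `z_{h,i}` at the other `i`: it
is orthogonal to `u_h`, so `w_h = ∑_j a_{h,j} x_{h,j}` with `a_{h,j} ∈ B` (apply the second part of
`Spans` to the vector `τ_h e_{i₁} + e_{i₂}` and to the vectors `-ν_{h,i} e_{i₁} + e_i`).  The ring map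
`ℤ[X] → MvPolynomial (Fin m) B`, `X(h, some j) ↦ C a_{h,j}`, `X(h, none) ↦ X h` maps `gv x i₁ h i` to
`C (w_h i) + (if i = i₁ h then X h else 0)`; its value on a monomial with `X(·, none)`-exponents `k`
is a monomial `X^k` with a coefficient in `B`; so the coefficient at `X^k` of
`F' = ∑_j p_j ∏_h (C (w_h i₁) + X h)^(j_{h i₁}) ∏_{i ≠ i₁, i₂} (C z_{h,i})^(j_{h i})` is `0` in `B` if
`wt r k ≤ σ`.
Let `j* ∈ JJ ι r` with `p j* ≠ 0` minimise `∑_h ∑_{i ≠ i₁ h, i₂ h} j_{h i}`, `e_{h i} = j*_{h i}`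
for `i ≠ i₁, i₂` and `0` otherwise, and
`Q = ∑_{j ∈ JJ ι r, j_{h i} = j*_{h i} ∀ h, i ≠ i₁ h, i₂ h} p_j ∏_h t_h^(j_{h i₁})`.  `Q ≠ 0`: an array
`j ∈ JJ ι r` is determined by `(j_{h i₁})_h` and the `j_{h i}`, `i ≠ i₁, i₂`, so the coefficients of
`Q` are values of `p` or `0`, and the one at `(j*_{h i₁})` is `p j*`.  Degrees `≤ r_h`.
The coefficient of `F'` at `X^k z^e`: the term `j` contributes only if `j_{h i} ≤ e_{h i}` for all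
`h` and `i ≠ i₁, i₂` (factor `∏ z^(j_{h i})`), and then by minimality (for `p j ≠ 0`) these are
equalities; the contribution is then the coefficient at `X^k z^0` of
`∏ (τ_h - ∑ ν z + X h)^(j_{h i₁})`, i.e. at `X^k` of `∏ (τ_h + X h)^(j_{h i₁})`.  So the coefficient is
`coeff k (sh τ (toQ Q))`. -/
def Dehom : Prop :=
  ∀ (ι κ : Type) [Fintype ι] [DecidableEq ι] [Fintype κ] (m : ℕ) (r : Fin m → ℕ)
    (p : (Fin m → ι → ℕ) → ℤ) (x : Fin m → κ → ι → ℤ) (u : Fin m → ι → ℤ)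
    (i₁ i₂ : Fin m → ι) (σ : ℝ),
    (∀ h, i₁ h ≠ i₂ h) → (∀ h, u h (i₁ h) ≠ 0) → (∀ h, Spans (x h) (u h)) →
    (∃ j ∈ JJ ι r, p j ≠ 0) →
    (∀ a : Fin m × Option κ →₀ ℕ, swt r a ≤ σ → coeff a (val r p (gv x i₁)) = 0) →
    ∃ Q : MvPolynomial (Fin m) ℤ, Q ≠ 0 ∧ (∀ h, Q.degreeOf h ≤ r h) ∧
      (∀ a, coeff a Q = 0 ∨ ∃ j, coeff a Q = p j) ∧
      ∀ k : Fin m →₀ ℕ, MPcc0c1aSub.wt r k ≤ σ →
        coeff k (MPcc0c1aSub.sh (fun h => -(u h (i₂ h) : ℚ) / u h (i₁ h))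
          (MPcc0c1aSub.toQ Q)) = 0

/-- **M11, the theorem on hyperplanes** (old file `Sub/M11.lean`; from M4, M8, M9, M10 and Roth's
lemma `MPcc0c1aSub.RothAll`, proved in `Pool/Agent/Lib/SDC/Roth.lean` as
`Pool.Agent.Lib.SDC.rothAll'`).

Proof.  `n = card ι ≥ 2`.  Suppose the data exist.  `ε₀` from M8; `ε = min ε₀ 1`; `m ≥ 1` with
`2 n (s + 1) ≤ ε² m`; `C` from M4; `L₀` from M8 for `ε, C`; `ω, C'` from `RothLemma m` for `ε`.  Let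
`L₁ = max(L₀, 1, ⌈2 n m log(C C')/(γ ω)⌉)` (`C C' ≥ 1`).  Choose scales `s_0 < s_1 < …`, all
`≥ L₁`, with `HasDatum .. ε γ (s_n)` and `s_{n+1} ≥ (2/ω + 1) s_n` (`MPcc0c1aSub.m11_scales` of the
old file), and let `l_h = s_{m-1-h}`
(decreasing in `h`): `l_h ≥ (2/ω) l_{h'}` for `h < h'`.  `R` a real number `≥ 1/ε` and
`≥ l_h/ε` for all `h`, `r_h = ⌈R / l_h⌉₊`: `R ≤ r_h l_h ≤ R + l_h ≤ (1+ε) R`; for `h < h'`:
`r_h ≤ R/l_h + 1 ≤ 2R/l_h ≤ ω R / l_{h'} ≤ ω r_{h'}`.  `∑ r_h ≤ 2 m R / L₁`.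
Auxiliary polynomial `p, d` (M4); coordinates `i₁, i₂, p_h, q_h` (M9 for `u_h`); `M8` gives the
vanishing with `dir = i₁`; M10 gives `Q`, with `σ = ε`.
Roth's lemma for `Q`, `r`, `p_h, q_h`, `R₀ = exp(γ R / (n - 1)) ≥ 1`:
`q_h^(n-1) ≥ max |u_h| ≥ exp(γ l_h)`, so `q_h^(r_h) ≥ exp(γ l_h r_h/(n-1)) ≥ R₀`;
`C'^(∑ r) |coeff Q| ≤ (C C')^(∑ r) ≤ exp(2 m R log(C C')/L₁) ≤ exp(γ ω R/n) ≤ R₀^ω`.  It yields `k`
with `wt r k ≤ ε` and a nonzero coefficient, contradicting M10. -/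
def Machine : Prop :=
  ∀ (ι κ : Type) [Fintype ι] [DecidableEq ι] [Fintype κ], 2 ≤ Fintype.card ι →
    ∀ (s : ℕ) (q : Fin s → ℕ) (M : Option (Fin s) → Matrix ι ι ℤ) (c : ι → ℝ)
      (α : Fin s → ι → ℝ) (η γ : ℝ), Pls q →
    (∀ v, (M v).det ≠ 0) → 0 < η → 0 < γ → (∀ v i, 0 ≤ α v i) →
    ∑ i, c i + η ≤ ∑ v, ∑ i, α v i * Real.log (q v) →
    ¬ ∀ ε : ℝ, 0 < ε → ∀ l₀ : ℕ, ∃ l : ℕ, l₀ ≤ l ∧ HasDatum κ q M c α ε γ l

end Pool.Agent.SubQ
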